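import Pool.Agent.Lib.H8MC.KDefs

/-!
# A1: monotonicity of `embK` (S/M)

`emb_mono`: on `subK X X' ⊓ subK Y Y'`, if `f` is an injection from `X'` to `Y`, then `f ⊓ Y`, i.e.
`g a b = Y b ⊓ f a b`, is an injection from `X` to `Y'`: for `X a ≤ X' a` we get `b` with `Y b ⊓ f a b ≤ Y' b ⊓ g a b`; the second
clause: `X a, X a' , g a b, g a' b'` give `X' a, X' a', Y b, Y b', f a b, f a' b'`.
So `subK X X' ⊓ subK Y Y' ⊓ injK f X' Y ≤ injK g X Y'`; then `inf_iSup_eq`.
`emb_ext`: from `emb_mono`. `cb_ext`: each of the three parts is extensional: `eqK X Y ⊓ subK X Z ≤ subK Y Z`, `emb_ext`, and for the complement: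
`eqK X Y ⊓ aᶜ ≤ bᶜ` if `eqK X Y ⊓ b ≤ a`.
-/

set_option autoImplicit false

open Set Function Cardinal

namespace Pool.Agent.H8MC

variable {K B : Type} [CompleteBooleanAlgebra B]

theorem emb_mono (X X' Y Y' : K → B) : subK X X' ⊓ subK Y Y' ⊓ embK X' Y ≤ embK X Y' := by
  unfold embK
  rw [inf_iSup_eq]
  refine iSup_le fun f => le_trans ?_ (le_iSup (fun g => injK g X Y') (fun a b => Y b ⊓ f a b))
  set Z := subK X X' ⊓ subK Y Y' ⊓ injK f X' Y with hZ
  have h1 : ∀ a, Z ⊓ X a ≤ X' a := fun a => by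
    rw [← le_himp_iff]
    exact le_trans (le_trans inf_le_left inf_le_left) (iInf_le _ a)
  have h2 : ∀ b, Z ⊓ Y b ≤ Y' b := fun b => by
    rw [← le_himp_iff]
    exact le_trans (le_trans inf_le_left inf_le_right) (iInf_le _ b)
  have h3 : ∀ a, Z ⊓ X' a ≤ ⨆ b, Y b ⊓ f a b := fun a => by
    rw [← le_himp_iff]
    exact le_trans inf_le_right (le_trans inf_le_left (iInf_le _ a))
  have h4 : ∀ a a' b b', Z ≤ X' a ⇨ (X' a' ⇨ (Y b ⇨ (Y b' ⇨ (f a b ⇨ (f a' b' ⇨ tvB B (a = a' ↔ b = b')))))) :=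
    fun a a' b b' => le_trans inf_le_right (le_trans inf_le_right
      (le_trans (iInf_le _ a) (le_trans (iInf_le _ a') (le_trans (iInf_le _ b) (iInf_le _ b')))))
  refine le_inf ?_ ?_
  · refine le_iInf fun a => ?_
    rw [le_himp_iff]
    have h5 : Z ⊓ X a ≤ Z ⊓ ⨆ b, Y b ⊓ f a b :=
      le_inf inf_le_left (le_trans (le_inf inf_le_left (h1 a)) (h3 a))
    refine le_trans h5 ?_
    rw [inf_iSup_eq]
    refine iSup_mono fun b => le_inf ?_ inf_le_right
    exact le_trans (inf_le_inf_left _ inf_le_left) (h2 b)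
  · refine le_iInf fun a => le_iInf fun a' => le_iInf fun b => le_iInf fun b' => ?_
    simp only [le_himp_iff]
    have e := h4 a a' b b'
    simp only [le_himp_iff] at e
    refine le_trans ?_ e
    set W := Z ⊓ X a ⊓ X a' ⊓ Y' b ⊓ Y' b' ⊓ (Y b ⊓ f a b) ⊓ (Y b' ⊓ f a' b') with hW
    have w0 : W ≤ Z := le_trans inf_le_left (le_trans inf_le_left (le_trans inf_le_left
      (le_trans inf_le_left (le_trans inf_le_left inf_le_left))))
    have w1 : W ≤ X a := le_trans inf_le_left (le_trans inf_le_left (le_trans inf_le_left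
      (le_trans inf_le_left (le_trans inf_le_left inf_le_right))))
    have w2 : W ≤ X a' := le_trans inf_le_left (le_trans inf_le_left (le_trans inf_le_left
      (le_trans inf_le_left inf_le_right)))
    have w3 : W ≤ Y b ⊓ f a b := le_trans inf_le_left inf_le_right
    have w4 : W ≤ Y b' ⊓ f a' b' := inf_le_right
    refine le_inf (le_inf (le_inf (le_inf (le_inf (le_inf w0 ?_) ?_) ?_) ?_) ?_) ?_
    · exact le_trans (le_inf w0 w1) (h1 a)
    · exact le_trans (le_inf w0 w2) (h1 a')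
    · exact le_trans w3 inf_le_left
    · exact le_trans w4 inf_le_left
    · exact le_trans w3 inf_le_right
    · exact le_trans w4 inf_le_right

theorem eqK_symm (X Y : K → B) : eqK X Y = eqK Y X := by
  unfold eqK
  exact iInf_congr fun k => inf_comm _ _

theorem eqK_sub (X Y : K → B) : eqK X Y = subK X Y ⊓ subK Y X := by
  unfold eqK subK
  exact iInf_inf_eq

theorem emb_ext (X Y Z : K → B) : eqK X Y ⊓ embK X Z ≤ embK Y Z := by
  refine le_trans ?_ (emb_mono Y X Z Z)
  refine le_inf (le_inf ?_ ?_) inf_le_right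
  · rw [eqK_sub]
    exact le_trans inf_le_left inf_le_right
  · unfold subK
    simp

theorem cb_ext [LinearOrder K] (o : K) (X Y : K → B) : eqK X Y ⊓ cbK o X ≤ cbK o Y := by
  unfold cbK
  have hs : ∀ Z : K → B, eqK X Y ⊓ subK X Z ≤ subK Y Z := fun Z => by
    refine le_iInf fun k => ?_
    rw [le_himp_iff]
    have h1 : eqK X Y ⊓ subK X Z ⊓ Y k ≤ X k := by
      rw [← le_himp_iff]
      exact le_trans inf_le_left (le_trans (iInf_le _ k) inf_le_right)
    have h2 : subK X Z ⊓ X k ≤ Z k := by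
      rw [← le_himp_iff]
      exact iInf_le _ k
    exact le_trans (le_inf (le_trans inf_le_left inf_le_right) h1) h2
  have hc : ∀ a b e : B, e ⊓ b ≤ a → e ⊓ aᶜ ≤ bᶜ := fun a b e h => by
    rw [le_compl_iff_disjoint_right, disjoint_iff_inf_le]
    calc e ⊓ aᶜ ⊓ b = (e ⊓ b) ⊓ aᶜ := by ac_rfl
      _ ≤ a ⊓ aᶜ := inf_le_inf_right _ h
      _ ≤ ⊥ := by rw [inf_compl_self]
  refine le_inf ?_ (le_inf ?_ ?_)
  · refine le_trans (inf_le_inf_left _ inf_le_left) ?_
    rw [inf_iSup_eq]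
    exact iSup_mono fun b => hs _
  · exact le_trans (inf_le_inf_left _ (le_trans inf_le_right inf_le_left)) (emb_ext X Y _)
  · refine le_trans (inf_le_inf_left _ (le_trans inf_le_right inf_le_right)) (hc _ _ _ ?_)
    rw [inf_iSup_eq]
    refine iSup_mono fun n => le_inf (le_trans inf_le_right inf_le_left) ?_
    rw [eqK_symm]
    exact le_trans (inf_le_inf_left _ inf_le_right) (emb_ext Y X _)

end Pool.Agent.H8MC
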