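import Pool.Agent.Lib.H30C.Gen

/-!
# Boolean values for names of subsets of a well-order `K`

`B` is a complete Boolean algebra; `X : K → B` is the characteristic function of the name of a subset of `K`.
-/

set_option autoImplicit false

open Set Function Cardinal

namespace Pool.Agent.H8MC

/-- two-valued truth value -/
noncomputable def tvB (B : Type) [CompleteBooleanAlgebra B] (P : Prop) : B :=
  open Classical in if P then ⊤ else ⊥

theorem tvB_true {B : Type} [CompleteBooleanAlgebra B] {P : Prop} (h : P) : tvB B P = ⊤ := if_pos h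
theorem tvB_false {B : Type} [CompleteBooleanAlgebra B] {P : Prop} (h : ¬ P) : tvB B P = ⊥ := if_neg h

/-- countably infinite bounded sets -/
def CB {K : Type} [LinearOrder K] (x : Set K) : Prop := x.Countable ∧ x.Infinite ∧ ∃ b, ∀ a ∈ x, a < b

section

variable {K B : Type} [CompleteBooleanAlgebra B]

/-- indicator function -/
noncomputable def ind (B : Type) [CompleteBooleanAlgebra B] (S : Set K) (k : K) : B := tvB B (k ∈ S)

/-- Boolean value of: `f` restricted to `X × Y` is an injective function from `X` to `Y` -/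
noncomputable def injK (f : K → K → B) (X Y : K → B) : B :=
  (⨅ a, X a ⇨ ⨆ b, Y b ⊓ f a b) ⊓
    ⨅ a, ⨅ a', ⨅ b, ⨅ b', X a ⇨ (X a' ⇨ (Y b ⇨ (Y b' ⇨ (f a b ⇨ (f a' b' ⇨ tvB B (a = a' ↔ b = b'))))))

/-- Boolean value of: there is an injection from `X` to `Y` -/
noncomputable def embK (X Y : K → B) : B := ⨆ f : K → K → B, injK f X Y

/-- Boolean value of `X ⊆ Y` -/
noncomputable def subK (X Y : K → B) : B := ⨅ k, X k ⇨ Y k

/-- Boolean value of `X = Y` -/
noncomputable def eqK (X Y : K → B) : B := ⨅ k, (X k ⇨ Y k) ⊓ (Y k ⇨ X k)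

/-- Boolean value of `X = Y` for names of subsets of `ℕ` -/
noncomputable def eqN (X Y : ℕ → B) : B := ⨅ k, (X k ⇨ Y k) ⊓ (Y k ⇨ X k)

/-- Boolean value of: `a` is an infinite subset of `ℕ` -/
noncomputable def infB (a : ℕ → B) : B := ⨅ n, ⨆ m, tvB B (n ≤ m) ⊓ a m

/-- `C X g` respects Boolean equality of `X` -/
def ExtK (C : (K → B) → K → B) : Prop := ∀ X Y g, eqK X Y ⊓ C X g ≤ C Y g

variable [LinearOrder K]

/-- Boolean value of: `X` is countably infinite and bounded (`o` is the `ω`-th element of `K`) -/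
noncomputable def cbK (o : K) (X : K → B) : B :=
  (⨆ b, subK X (ind B (Iio b))) ⊓ (embK X (ind B (Iio o)) ⊓ (⨆ n, tvB B (n < o) ⊓ embK X (ind B (Iio n)))ᶜ)

/-- Boolean value of: `C` is a colouring of the countably infinite bounded sets with colours in `S` -/
noncomputable def colK (o : K) (S : Set K) (C : (K → B) → K → B) : B :=
  ⨅ X, cbK o X ⇨ ⨆ g, tvB B (g ∈ S) ⊓ (C X g ⊓ ⨅ g', tvB B (g' ∈ S) ⇨ (C X g' ⇨ tvB B (g' = g)))

/-- Boolean value of: `A` is cofinal in `D` -/
noncomputable def cofB (A : K → B) (D : K) : B := ⨅ η, tvB B (η < D) ⇨ ⨆ ζ, tvB B (η ≤ ζ ∧ ζ < D) ⊓ A ζ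

/-- `h` is a height function for `D`: monotone below `D`, and the sets `{h ≤ n}` are bounded below `D`. -/
structure Hgt (D : K) (h : K → ℕ) : Prop where
  mono : ∀ a b, a ≤ b → b < D → h a ≤ h b
  bd : ∀ n, ∃ η, η < D ∧ ∀ ζ, ζ < D → h ζ ≤ n → ζ < η

/-- `D` has cofinality `ω` -/
def Good (D : K) : Prop := ∃ h, Hgt D h

/-- Boolean value of `D = sup X`, `D ∉ X` -/
noncomputable def supB (X : K → B) (D : K) : B := subK X (ind B (Iio D)) ⊓ cofB X D

/-- the pattern of `X` in the blocks `{h = n}` of `D` -/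
noncomputable def pat (D : K) (h : K → ℕ) (X : K → B) (n : ℕ) : B := ⨆ ζ, tvB B (ζ < D ∧ h ζ = n) ⊓ X ζ

end

/-- The countable chain condition for `B`. -/
def CccB (B : Type) [CompleteBooleanAlgebra B] : Prop :=
  ∀ (ι : Type) (f : ι → B), (∀ i j, i ≠ j → f i ⊓ f j = ⊥) → {i | f i ≠ ⊥}.Countable

/-- The order data: `o` is the `ω`-th element, `m` and `s` are the elements of `K` which correspond to the
cardinals `μ` and `μ⁺`, `K` has the order type of a cardinal `λ > μ⁺` of countable cofinality. -/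
structure Dat (K : Type) [LinearOrder K] (o m s : K) : Prop where
  /-- every element has fewer than `#K` predecessors -/
  ini : ∀ k : K, #(Iio k) < #K
  /-- countable cofinality -/
  cof : ∃ l : ℕ → K, StrictMono l ∧ ∀ k, ∃ n, k < l n
  om : ∃ e : ℕ → K, StrictMono e ∧ ∀ k, k < o ↔ ∃ n, e n = k
  om_lt : o < m
  /-- `m` is a cardinal -/
  card_m : ∀ k < m, #(Iio k) < #(Iio m)
  /-- `m` is singular -/
  sing : ∃ D : Set K, D ⊆ Iio m ∧ #D < #(Iio m) ∧ ∀ a < m, ∃ b ∈ D, a < b
  /-- `s` is the successor of `m` -/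
  lt : m < s
  suc : #(Iio s) = Order.succ #(Iio m)
  suc' : ∀ k < s, #(Iio k) ≤ #(Iio m)
  /-- `μ^ω = μ` -/
  pow : #(Iio m) ^ ℵ₀ = #(Iio m)
  /-- `K → [K]^(ℵ₀-bd)_s` -/
  arr : ∀ c : Set K → K, (∀ x, CB x → c x < s) →
    ∃ A : Set K, #A = #K ∧ ∃ g < s, ∀ x, CB x → x ⊆ A → c x ≠ g

end Pool.Agent.H8MC
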