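import Pool.Agent.Lib.H8MC.A2A
import Pool.Agent.Lib.H8MC.KDefs

/-!
# A2: embeddings of sets of the ground model (S/M, M)

`emb_top`: let `e : S → T` be injective; take `f a b = tvB B (∃ h : a ∈ S, (e ⟨a, h⟩ : K) = b)`. Every value of `injK f (ind B S) (ind B T)` is a
two-valued statement: unfold, `le_iInf`, `by_cases`.

`ccc_count`: the countable chain condition for the family `i ↦ f i ⊓ q`.

`emb_bot`: suppose `embK (ind B S) (ind B T) ≠ ⊥`; `iSup_eq_bot`, so there is `f` with `q := injK f (ind B S) (ind B T) ≠ ⊥`.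
For `a ∈ S`: `q ≤ ⨆ b, ind B T b ⊓ f a b`, so there is `b ∈ T` with `f a b ⊓ q ≠ ⊥`. For `b ∈ T` the set `{a ∈ S | f a b ⊓ q ≠ ⊥}` is
countable by `ccc_count` (for `a ≠ a'` in `S`: `f a b ⊓ f a' b ⊓ q ≤ tvB B (a = a' ↔ b = b) = ⊥`). So `S ⊆ ⋃ b ∈ T, {..}` has
cardinality at most `#T * ℵ₀ ≤ max #T ℵ₀ < #S` (`Cardinal.mk_biUnion_le`, `Cardinal.mul_le_max`), a contradiction.
-/

set_option autoImplicit false

open Set Function Cardinal

namespace Pool.Agent.H8MC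

variable {K B : Type} [CompleteBooleanAlgebra B]

theorem emb_bot (hc : CccB B) {S T : Set K} (hS : ℵ₀ < #S) (hT : #T < #S) :
    embK (ind B S) (ind B T) = ⊥ := by
  by_contra hne
  unfold embK at hne
  rw [iSup_eq_bot] at hne
  push Not at hne
  obtain ⟨f, hf⟩ := hne
  set q := injK f (ind B S) (ind B T) with hq
  have h1 : ∀ a ∈ S, ∃ b ∈ T, f a b ⊓ q ≠ ⊥ := by
    intro a ha
    by_contra hcon
    push Not at hcon
    apply hf
    have h2 : q ≤ ⨆ b, ind B T b ⊓ f a b := by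
      have h3 : q ≤ ind B S a ⇨ ⨆ b, ind B T b ⊓ f a b := inf_le_left.trans (iInf_le _ a)
      have h4 : ind B S a = ⊤ := tvB_true ha
      rwa [h4, top_himp] at h3
    rw [← le_bot_iff]
    calc q ≤ (⨆ b, ind B T b ⊓ f a b) ⊓ q := le_inf h2 le_rfl
      _ = ⨆ b, (ind B T b ⊓ f a b) ⊓ q := iSup_inf_eq _ _
      _ ≤ ⊥ := iSup_le fun b => by
        by_cases hb : b ∈ T
        · rw [inf_assoc, hcon b hb, inf_bot_eq]
        · have h5 : ind B T b = ⊥ := tvB_false hb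
          rw [h5, bot_inf_eq, bot_inf_eq]
  have h2 : ∀ b ∈ T, {a | a ∈ S ∧ f a b ⊓ q ≠ ⊥}.Countable := by
    intro b hb
    have h3 : {a : S | f a b ⊓ q ≠ ⊥}.Countable := by
      refine ccc_count hc (fun a : S => f a b) q ?_
      intro a a' haa'
      rw [← le_bot_iff]
      have h4 : q ≤ ind B S a ⇨ (ind B S a' ⇨ (ind B T b ⇨ (ind B T b ⇨ (f a b ⇨
          (f a' b ⇨ tvB B ((a : K) = a' ↔ b = b)))))) :=
        inf_le_right.trans ((iInf_le _ (a : K)).trans ((iInf_le _ (a' : K)).trans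
          ((iInf_le _ b).trans (iInf_le _ b))))
      have h5 : tvB B ((a : K) = a' ↔ b = b) = ⊥ := by
        refine tvB_false fun h => haa' (Subtype.ext (h.2 rfl))
      have h6 : ind B S (a : K) = ⊤ := tvB_true a.2
      have h7 : ind B S (a' : K) = ⊤ := tvB_true a'.2
      have h8 : ind B T b = ⊤ := tvB_true hb
      rw [h5, h6, h7, h8, top_himp, top_himp, top_himp, top_himp] at h4
      have h9 := le_himp_iff.1 (le_himp_iff.1 h4)
      calc f a b ⊓ f a' b ⊓ q = q ⊓ f a b ⊓ f a' b := by rw [inf_comm, inf_assoc]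
        _ ≤ ⊥ := h9
    refine (h3.image (Subtype.val : S → K)).mono ?_
    rintro a ⟨ha, hab⟩
    exact ⟨⟨a, ha⟩, hab, rfl⟩
  have h3 : S ⊆ ⋃ b ∈ T, {a | a ∈ S ∧ f a b ⊓ q ≠ ⊥} := by
    intro a ha
    obtain ⟨b, hb, hab⟩ := h1 a ha
    exact mem_biUnion hb ⟨ha, hab⟩
  have h4 : #S ≤ #T * ℵ₀ := by
    refine (mk_le_mk_of_subset h3).trans ((Cardinal.mk_biUnion_le _ _).trans ?_)
    gcongr
    exact ciSup_le' fun b => (h2 b.1 b.2).le_aleph0
  have h5 : #T * ℵ₀ ≤ max (max #T ℵ₀) ℵ₀ := Cardinal.mul_le_max _ _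
  exact absurd (h4.trans h5) (not_le.2 (max_lt (max_lt hT hS) hS))

end Pool.Agent.H8MC
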