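import Pool.Agent.Lib.H8MC.KDefs

/-!
# A2: embeddings of sets of the ground model (S/M, M)

`emb_top`: let `e : S → T` be injective; take `f a b = tvB B (∃ h : a ∈ S, (e ⟨a, h⟩ : K) = b)`. Every value of `injK f (ind B S) (ind B T)` is a
two-valued statement: unfold, `le_iInf`, `by_cases`.

`ccc_count`: the countable chain condition for the family `i ↦ f i ⊓ q`.

`emb_bot`: suppose `embK (ind B S) (ind B T) ≠ ⊥`; `iSup_eq_bot`, so there is `f` with `q := injK f (ind B S) (ind B T) ≠ ⊥`.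
For `a ∈ S`: `q ≤ ⨆ b, ind B T b ⊓ f a b`, so there is `b ∈ T` with `f a b ⊓ q ≠ ⊥`. For `b ∈ T` the set `{a ∈ S | f a b ⊓ q ≠ ⊥}` is
countable by `ccc_count` (for `a ≠ a'` in `S`: `f a b ⊓ f a' b ⊓ q ≤ tvB B (a = a' ↔ b = b) = ⊥`). So `S ⊆ ⋃ b ∈ T, {..}` has
cardinality at most `#T * ℵ₀ ≤ max #T ℵ₀ < #S` (`Cardinal.mk_biUnion_le`, `Cardinal.mul_le_max`), a contradiction.
-/

set_option autoImplicit false

open Set Function Cardinal

namespace Pool.Agent.H8MC

variable {K B : Type} [CompleteBooleanAlgebra B]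

theorem a2a_himp {P : Prop} {x : B} (h : P → x = ⊤) : tvB B P ⇨ x = ⊤ := by
  by_cases hP : P
  · rw [h hP, himp_top]
  · rw [tvB_false hP, bot_himp]

theorem emb_top {S T : Set K} (h : #S ≤ #T) : embK (ind B S) (ind B T) = ⊤ := by
  classical
  obtain ⟨e⟩ := (Cardinal.le_def S T).1 h
  rw [eq_top_iff]
  unfold embK
  refine le_iSup_of_le (fun a b => tvB B (∃ h : a ∈ S, (e ⟨a, h⟩ : K) = b)) ?_
  unfold injK
  refine le_inf ?_ ?_
  · refine le_iInf fun a => ?_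
    refine le_of_eq (Eq.symm ?_)
    refine a2a_himp fun ha => ?_
    rw [eq_top_iff]
    refine le_iSup_of_le ((e ⟨a, ha⟩ : T) : K) ?_
    have h1 : ind B T ((e ⟨a, ha⟩ : T) : K) = ⊤ := tvB_true (e ⟨a, ha⟩).2
    have h2 : (fun a b => tvB B (∃ h : a ∈ S, ((e ⟨a, h⟩ : T) : K) = b)) a ((e ⟨a, ha⟩ : T) : K) = ⊤ :=
      tvB_true ⟨ha, rfl⟩
    rw [h1, h2, inf_idem]
  · refine le_iInf fun a => le_iInf fun a' => le_iInf fun b => le_iInf fun b' => ?_
    refine le_of_eq (Eq.symm ?_)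
    refine a2a_himp fun ha => a2a_himp fun ha' => a2a_himp fun _ => a2a_himp fun _ =>
      a2a_himp fun hb => a2a_himp fun hb' => tvB_true ?_
    obtain ⟨h1, h2⟩ := hb
    obtain ⟨h3, h4⟩ := hb'
    subst h2
    subst h4
    constructor
    · intro h5
      subst h5
      rfl
    · intro h5
      have h6 := e.injective (Subtype.ext h5)
      exact congrArg Subtype.val h6

theorem ccc_count (hc : CccB B) {ι : Type} (f : ι → B) (q : B) (h : ∀ i j, i ≠ j → f i ⊓ f j ⊓ q = ⊥) :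
    {i | f i ⊓ q ≠ ⊥}.Countable := by
  refine hc ι (fun i => f i ⊓ q) fun i j hij => ?_
  have h1 := h i j hij
  show f i ⊓ q ⊓ (f j ⊓ q) = ⊥
  rw [← h1, inf_inf_inf_comm, inf_idem]

end Pool.Agent.H8MC
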