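import Pool.Agent.Lib.H8MC.A1
import Pool.Agent.Lib.H8MC.A2

/-!
# A3: covering and finite sets (S/M)

`cover`: for `k` with `X k ⊓ q ≠ ⊥`: `X k ⊓ q ≤ ⨆ b, W b ⊓ f k b`, so there is `b` with `W b ≠ ⊥` and `f k b ⊓ (X k ⊓ q) ≠ ⊥`, here `W = ind B T`, so
`b ∈ T`. For `b ∈ T` the family `k ↦ X k ⊓ f k b` satisfies the hypothesis of `ccc_count` for `q` (second clause of `injK`; for `k ≠ k'`).
Union over `b ∈ T` (`Set.Countable.biUnion`).

`fin_emb`: `q ≤ subK X (ind B x)` (unfold; for `k ∉ x`, `q ⊓ X k = ⊥`), `embK (ind B x) (ind B (Iio n)) = ⊤` (`emb_top`), so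
`q ≤ embK X (ind B (Iio n))` by `emb_mono`.

`supp_eq`: `q ≤ eqK X Y` for `Y k = X k` on `x`, `⊥` outside, if `X k ⊓ q = ⊥` outside `x`.
-/

set_option autoImplicit false

open Set Function Cardinal

namespace Pool.Agent.H8MC

variable {K B : Type} [CompleteBooleanAlgebra B]

theorem a3_first (f : K → K → B) (X Y : K → B) (k : K) : injK f X Y ⊓ X k ≤ ⨆ b, Y b ⊓ f k b := by
  have h : injK f X Y ≤ X k ⇨ ⨆ b, Y b ⊓ f k b := by
    unfold injK
    exact inf_le_left.trans (iInf_le _ k)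
  exact le_himp_iff.mp h

theorem a3_second (f : K → K → B) (X Y : K → B) (k k' b : K) (hb : Y b = ⊤) (hk : k ≠ k') :
    (X k ⊓ f k b) ⊓ (X k' ⊓ f k' b) ⊓ injK f X Y = ⊥ := by
  have h : injK f X Y ≤ X k ⇨ (X k' ⇨ (Y b ⇨ (Y b ⇨ (f k b ⇨ (f k' b ⇨ tvB B (k = k' ↔ b = b)))))) := by
    unfold injK
    exact inf_le_right.trans ((((iInf_le _ k).trans (iInf_le _ k')).trans (iInf_le _ b)).trans (iInf_le _ b))
  have ht : tvB B (k = k' ↔ b = b) = ⊥ := by
    apply tvB_false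
    intro hh
    exact hk (hh.mpr rfl)
  rw [ht] at h
  have h1 : injK f X Y ⊓ X k ⊓ X k' ⊓ Y b ⊓ Y b ⊓ f k b ⊓ f k' b ≤ ⊥ := by
    have h2 := le_himp_iff.mp h
    have h3 := le_himp_iff.mp h2
    have h4 := le_himp_iff.mp h3
    have h5 := le_himp_iff.mp h4
    have h6 := le_himp_iff.mp h5
    exact le_himp_iff.mp h6
  rw [hb, inf_top_eq, inf_top_eq] at h1
  refine le_bot_iff.mp (le_trans ?_ h1)
  refine le_inf (le_inf (le_inf (le_inf inf_le_right ?_) ?_) ?_) ?_
  · exact (inf_le_left.trans inf_le_left).trans inf_le_left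
  · exact (inf_le_left.trans inf_le_right).trans inf_le_left
  · exact (inf_le_left.trans inf_le_left).trans inf_le_right
  · exact (inf_le_left.trans inf_le_right).trans inf_le_right

theorem cover (hc : CccB B) {T : Set K} (hT : T.Countable) (f : K → K → B) (X : K → B) (q : B)
    (hq : q ≤ injK f X (ind B T)) : {k | X k ⊓ q ≠ ⊥}.Countable := by
  have hsub : {k | X k ⊓ q ≠ ⊥} ⊆ ⋃ b ∈ T, {k | (X k ⊓ f k b) ⊓ q ≠ ⊥} := by
    intro k hk
    by_contra hno
    apply hk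
    have hall : ∀ b ∈ T, (X k ⊓ f k b) ⊓ q = ⊥ := by
      intro b hb
      by_contra hne
      apply hno
      rw [Set.mem_iUnion₂]
      exact ⟨b, hb, hne⟩
    have h1 : X k ⊓ q ≤ ⨆ b, ind B T b ⊓ f k b :=
      le_trans (le_inf (inf_le_right.trans hq) inf_le_left) (a3_first f X (ind B T) k)
    have h2 : X k ⊓ q ≤ (X k ⊓ q) ⊓ ⨆ b, ind B T b ⊓ f k b := le_inf le_rfl h1
    rw [inf_iSup_eq] at h2
    refine le_bot_iff.mp (h2.trans (iSup_le fun b => ?_))
    by_cases hb : b ∈ T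
    · rw [← hall b hb]
      refine le_inf (le_inf ?_ ?_) ?_
      · exact inf_le_left.trans inf_le_left
      · exact inf_le_right.trans inf_le_right
      · exact inf_le_left.trans inf_le_right
    · have hz : ind B T b = ⊥ := tvB_false hb
      rw [hz, bot_inf_eq, inf_bot_eq]
  refine Set.Countable.mono hsub (Set.Countable.biUnion hT fun b hb => ?_)
  apply ccc_count hc (fun k => X k ⊓ f k b) q
  intro k k' hkk
  have hbT : ind B T b = ⊤ := tvB_true hb
  have h := a3_second f X (ind B T) k k' b hbT hkk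
  refine le_bot_iff.mp (le_trans (inf_le_inf_left _ hq) (le_of_eq h))

theorem fin_emb {x T : Set K} (X : K → B) (q : B) (hx : ∀ k, k ∉ x → X k ⊓ q = ⊥) (h : #x ≤ #T) :
    q ≤ embK X (ind B T) := by
  have h1 : q ≤ subK X (ind B x) := by
    unfold subK
    refine le_iInf fun k => ?_
    rw [le_himp_iff]
    by_cases hk : k ∈ x
    · have : ind B x k = ⊤ := tvB_true hk
      rw [this]
      exact le_top
    · rw [inf_comm, hx k hk]
      exact bot_le
  have h2 : subK (ind B T) (ind B T) = (⊤ : B) := by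
    unfold subK
    refine top_le_iff.mp (le_iInf fun k => ?_)
    rw [himp_self]
  have h3 := emb_mono X (ind B x) (ind B T) (ind B T)
  rw [h2, inf_top_eq, emb_top h, inf_top_eq] at h3
  exact h1.trans h3

theorem supp_eq {x : Set K} (X Y : K → B) (q : B) (hx : ∀ k, k ∉ x → X k ⊓ q = ⊥) (hY : ∀ k ∈ x, Y k = X k)
    (hY' : ∀ k, k ∉ x → Y k = ⊥) : q ≤ eqK X Y := by
  unfold eqK
  refine le_iInf fun k => ?_
  by_cases hk : k ∈ x
  · rw [hY k hk, himp_self, inf_top_eq]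
    exact le_top
  · rw [hY' k hk, bot_himp, inf_top_eq, le_himp_iff, inf_comm, hx k hk]

end Pool.Agent.H8MC
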