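import Pool.Agent.Lib.H8MC.C1A
import Pool.Agent.Lib.H8MC.KDefs

/-!
# C1: the counting function (S/M)

`cnt a n k` is the Boolean value of: `a ∩ n` has exactly `k` elements. For fixed `n` the values are a partition of unity.

* `cnt_disj`, `cnt_sup`, `cnt_gt`: induction on `n`; (`cnt_sup`: `⨆ k, cnt a (n+1) k = (⨆ k, cnt a n k ⊓ (a n)ᶜ) ⊔ ⨆ k, cnt a n k ⊓ a n`).
* `cnt_elem`: if `infB a = ⊤` then for each `k` the `k`-th element of `a` exists: `⨆ n, a n ⊓ cnt a n k = ⊤`. Induction on `k`. First show, for all `n₀` and `k`: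
  `cnt a n₀ k ≤ ⨆ n, a n ⊓ cnt a n k`: by `infB a = ⊤` it is enough to show `cnt a n₀ k ⊓ a m ≤ ⨆ n, a n ⊓ cnt a n k` for `m ≥ n₀`: induction on `m - n₀`
  (if `a n₀` then `n = n₀`; on `(a n₀)ᶜ` we have `cnt a n₀ k ⊓ (a n₀)ᶜ ≤ cnt a (n₀+1) k`). `k = 0`: `cnt a 0 0 = ⊤`. `k + 1`: `a n ⊓ cnt a n k ≤ cnt a (n+1) (k+1)`.
-/

set_option autoImplicit false

open Set Function Cardinal

namespace Pool.Agent.H8MC

variable {B : Type} [CompleteBooleanAlgebra B]

theorem c1_step (a : ℕ → B) (k d n : ℕ) : cnt a n k ⊓ a (n + d) ≤ ⨆ n, a n ⊓ cnt a n k := by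
  induction d generalizing n with
  | zero =>
    rw [Nat.add_zero, inf_comm]
    exact le_iSup (fun n => a n ⊓ cnt a n k) n
  | succ d ih =>
    have e : cnt a n k = cnt a n k ⊓ a n ⊔ cnt a n k ⊓ (a n)ᶜ := by
      rw [← inf_sup_left, sup_compl_eq_top, inf_top_eq]
    rw [e, inf_sup_right]
    refine sup_le ?_ ?_
    · refine inf_le_left.trans ?_
      rw [inf_comm]
      exact le_iSup (fun n => a n ⊓ cnt a n k) n
    · have h1 : cnt a n k ⊓ (a n)ᶜ ≤ cnt a (n + 1) k := by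
        rw [c1a_succ]
        exact le_sup_right
      have h2 : n + (d + 1) = n + 1 + d := by omega
      rw [h2]
      exact (inf_le_inf_right _ h1).trans (ih (n + 1))

theorem c1_le (a : ℕ → B) (h : infB a = ⊤) (k n : ℕ) : cnt a n k ≤ ⨆ n, a n ⊓ cnt a n k := by
  have h1 : ⨆ m, tvB B (n ≤ m) ⊓ a m = ⊤ := by
    have h2 : infB a ≤ ⨆ m, tvB B (n ≤ m) ⊓ a m := iInf_le _ n
    rw [h] at h2
    exact top_le_iff.1 h2
  calc cnt a n k = cnt a n k ⊓ ⨆ m, tvB B (n ≤ m) ⊓ a m := by rw [h1, inf_top_eq]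
    _ = ⨆ m, cnt a n k ⊓ (tvB B (n ≤ m) ⊓ a m) := inf_iSup_eq _ _
    _ ≤ ⨆ n, a n ⊓ cnt a n k := by
      refine iSup_le fun m => ?_
      by_cases hm : n ≤ m
      · obtain ⟨d, rfl⟩ := Nat.exists_eq_add_of_le hm
        exact (inf_le_inf_left _ inf_le_right).trans (c1_step a k d n)
      · rw [tvB_false hm, bot_inf_eq, inf_bot_eq]
        exact bot_le

theorem cnt_elem (a : ℕ → B) (h : infB a = ⊤) (k : ℕ) : ⨆ n, a n ⊓ cnt a n k = ⊤ := by
  induction k with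
  | zero =>
    refine top_le_iff.1 (le_trans ?_ (c1_le a h 0 0))
    exact (tvB_true (B := B) (P := (0 : ℕ) = 0) rfl).ge
  | succ k ih =>
    rw [← top_le_iff, ← ih]
    refine iSup_le fun n => ?_
    refine le_trans ?_ (c1_le a h (k + 1) (n + 1))
    rw [c1a_succ]
    refine le_trans ?_ le_sup_left
    rw [inf_comm]
    exact le_rfl

end Pool.Agent.H8MC
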