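import Pool.Agent.Lib.H8MC.KDefs

/-!
# C1: the counting function (S/M)

`cnt a n k` is the Boolean value of: `a ∩ n` has exactly `k` elements. For fixed `n` the values are a partition of unity.

* `cnt_disj`, `cnt_sup`, `cnt_gt`: induction on `n`; (`cnt_sup`: `⨆ k, cnt a (n+1) k = (⨆ k, cnt a n k ⊓ (a n)ᶜ) ⊔ ⨆ k, cnt a n k ⊓ a n`).
* `cnt_elem`: if `infB a = ⊤` then for each `k` the `k`-th element of `a` exists: `⨆ n, a n ⊓ cnt a n k = ⊤`. Induction on `k`. First show, for all `n₀` and `k`: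
  `cnt a n₀ k ≤ ⨆ n, a n ⊓ cnt a n k`: by `infB a = ⊤` it is enough to show `cnt a n₀ k ⊓ a m ≤ ⨆ n, a n ⊓ cnt a n k` for `m ≥ n₀`: induction on `m - n₀`
  (if `a n₀` then `n = n₀`; on `(a n₀)ᶜ` we have `cnt a n₀ k ⊓ (a n₀)ᶜ ≤ cnt a (n₀+1) k`). `k = 0`: `cnt a 0 0 = ⊤`. `k + 1`: `a n ⊓ cnt a n k ≤ cnt a (n+1) (k+1)`.
-/

set_option autoImplicit false

open Set Function Cardinal

namespace Pool.Agent.H8MC

variable {B : Type} [CompleteBooleanAlgebra B]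

/-- Boolean value of: `a ∩ n` has exactly `k` elements -/
noncomputable def cnt (a : ℕ → B) : ℕ → ℕ → B
  | 0, k => tvB B (k = 0)
  | n + 1, 0 => cnt a n 0 ⊓ (a n)ᶜ
  | n + 1, k + 1 => (cnt a n k ⊓ a n) ⊔ (cnt a n (k + 1) ⊓ (a n)ᶜ)

theorem c1a_four {x x' y y' a : B} (h1 : x ⊓ x' = ⊥) (h2 : y ⊓ y' = ⊥) :
    (x ⊓ a ⊔ y ⊓ aᶜ) ⊓ (x' ⊓ a ⊔ y' ⊓ aᶜ) = ⊥ := by
  rw [inf_sup_right, inf_sup_left, inf_sup_left]
  have e1 : x ⊓ a ⊓ (x' ⊓ a) = ⊥ := le_bot_iff.1 ((inf_le_inf inf_le_left inf_le_left).trans h1.le)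
  have e2 : x ⊓ a ⊓ (y' ⊓ aᶜ) = ⊥ := le_bot_iff.1 ((inf_le_inf inf_le_right inf_le_right).trans (inf_compl_self a).le)
  have e3 : y ⊓ aᶜ ⊓ (x' ⊓ a) = ⊥ := le_bot_iff.1 ((inf_le_inf inf_le_right inf_le_right).trans (compl_inf_self a).le)
  have e4 : y ⊓ aᶜ ⊓ (y' ⊓ aᶜ) = ⊥ := le_bot_iff.1 ((inf_le_inf inf_le_left inf_le_left).trans h2.le)
  rw [e1, e2, e3, e4]
  simp

/-- the previous value -/
noncomputable def c1a_p (a : ℕ → B) (n : ℕ) : ℕ → B
  | 0 => ⊥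
  | k + 1 => cnt a n k

theorem c1a_succ (a : ℕ → B) (n k : ℕ) : cnt a (n + 1) k = c1a_p a n k ⊓ a n ⊔ cnt a n k ⊓ (a n)ᶜ := by
  cases k with
  | zero => simp [cnt, c1a_p]
  | succ k => rfl

theorem cnt_disj (a : ℕ → B) (n k k' : ℕ) (h : k ≠ k') : cnt a n k ⊓ cnt a n k' = ⊥ := by
  induction n generalizing k k' with
  | zero =>
    by_cases hk : k = 0
    · have hk' : k' ≠ 0 := fun h' => h (hk.trans h'.symm)
      have e : cnt a 0 k' = ⊥ := tvB_false hk'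
      rw [e, inf_bot_eq]
    · have e : cnt a 0 k = ⊥ := tvB_false hk
      rw [e, bot_inf_eq]
  | succ n ih =>
    rw [c1a_succ, c1a_succ]
    apply c1a_four _ (ih k k' h)
    cases k with
    | zero => exact bot_inf_eq _
    | succ k =>
      cases k' with
      | zero => exact inf_bot_eq _
      | succ k' => exact ih k k' fun h' => h (by rw [h'])

theorem cnt_gt (a : ℕ → B) (n k : ℕ) (h : n < k) : cnt a n k = ⊥ := by
  induction n generalizing k with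
  | zero => exact tvB_false (by omega)
  | succ n ih =>
    cases k with
    | zero => omega
    | succ k =>
      rw [c1a_succ, ih (k + 1) (by omega)]
      have e : c1a_p a n (k + 1) = ⊥ := ih k (by omega)
      rw [e]
      simp

theorem cnt_sup (a : ℕ → B) (n : ℕ) : ⨆ k, cnt a n k = ⊤ := by
  induction n with
  | zero =>
    refine top_le_iff.1 (le_trans ?_ (le_iSup (fun k => cnt a 0 k) 0))
    exact (tvB_true (B := B) (P := (0 : ℕ) = 0) rfl).ge
  | succ n ih =>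
    rw [← top_le_iff, ← ih]
    refine iSup_le fun k => ?_
    have e : cnt a n k = cnt a n k ⊓ a n ⊔ cnt a n k ⊓ (a n)ᶜ := by
      rw [← inf_sup_left, sup_compl_eq_top, inf_top_eq]
    rw [e]
    refine sup_le ?_ ?_
    · refine le_trans ?_ (le_iSup (fun k => cnt a (n + 1) k) (k + 1))
      exact le_sup_left
    · refine le_trans ?_ (le_iSup (fun k => cnt a (n + 1) k) k)
      show _ ≤ cnt a (n + 1) k
      rw [c1a_succ]
      exact le_sup_right

end Pool.Agent.H8MC
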