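import Pool.Agent.Lib.H8MC.C2A
import Pool.Agent.Lib.H8MC.C1

/-!
# C2: the Cohen subset of an infinite set (M)

`bet a g` is the name of the set of the `k`-th elements of `a`, `k ∈ g`.

* `bet_le`: clear.
* `bet_inf`: for `n`: for `k ≥ n`: `g k = g k ⊓ ⨆ m, a m ⊓ cnt a m k` (`cnt_elem`), and `cnt a m k ≠ ⊥` only for `k ≤ m` (`cnt_gt`), so
  `g k ≤ ⨆ m, tvB B (n ≤ m) ⊓ bet a g m`. Take the supremum over `k ≥ n`: `infB g = ⊤`.
* `bet_ne`: let `q = eqN (bet a g) (bet a g')`. For each `k`: `q ⊓ g k ≤ g' k`: `g k = ⨆ m, g k ⊓ (a m ⊓ cnt a m k)`, and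
  `q ⊓ g k ⊓ a m ⊓ cnt a m k ≤ q ⊓ bet a g m ⊓ cnt a m k ≤ bet a g' m ⊓ cnt a m k ≤ g' k` (`cnt_disj`). By symmetry `q ≤ eqN g g'`.
* `eqN_symm`, `eqN_trans`: clear.
-/

set_option autoImplicit false

open Set Function Cardinal

namespace Pool.Agent.H8MC

variable {B : Type} [CompleteBooleanAlgebra B]

theorem c2_le (a g g' : ℕ → B) (ha : infB a = ⊤) (k : ℕ) : eqN (bet a g) (bet a g') ⊓ g k ≤ g' k := by
  have h1 : eqN (bet a g) (bet a g') ⊓ g k = ⨆ m, (eqN (bet a g) (bet a g') ⊓ g k) ⊓ (a m ⊓ cnt a m k) := by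
    rw [← inf_iSup_eq, cnt_elem a ha k, inf_top_eq]
  rw [h1]
  refine iSup_le fun m => ?_
  have h2 : eqN (bet a g) (bet a g') ⊓ bet a g m ≤ bet a g' m := by
    have h3 : eqN (bet a g) (bet a g') ≤ bet a g m ⇨ bet a g' m := (iInf_le _ m).trans inf_le_left
    exact (inf_le_inf_right _ h3).trans himp_inf_le
  have h4 : g k ⊓ (a m ⊓ cnt a m k) ≤ bet a g m := by
    refine le_inf (inf_le_right.trans inf_le_left) ?_
    refine le_trans ?_ (le_iSup (fun k => cnt a m k ⊓ g k) k)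
    exact le_inf (inf_le_right.trans inf_le_right) inf_le_left
  have h5 : bet a g' m ⊓ cnt a m k ≤ g' k := by
    have h6 : bet a g' m ⊓ cnt a m k ≤ (⨆ k', cnt a m k' ⊓ g' k') ⊓ cnt a m k := inf_le_inf_right _ inf_le_right
    refine h6.trans ?_
    rw [iSup_inf_eq]
    refine iSup_le fun k' => ?_
    by_cases hk : k' = k
    · rw [hk]
      exact inf_le_left.trans inf_le_right
    · have h7 : cnt a m k' ⊓ g' k' ⊓ cnt a m k ≤ cnt a m k' ⊓ cnt a m k := inf_le_inf_right _ inf_le_left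
      rw [cnt_disj a m k' k hk] at h7
      exact h7.trans bot_le
  refine le_trans ?_ h5
  refine le_inf ?_ (inf_le_right.trans inf_le_right)
  refine le_trans ?_ h2
  refine le_inf (inf_le_left.trans inf_le_left) ?_
  exact (inf_le_inf_right _ inf_le_right).trans h4

theorem bet_ne (a g g' : ℕ → B) (ha : infB a = ⊤) : eqN (bet a g) (bet a g') ≤ eqN g g' := by
  refine le_iInf fun k => le_inf ?_ ?_
  · rw [le_himp_iff]
    exact c2_le a g g' ha k
  · rw [le_himp_iff, eqN_symm]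
    exact c2_le a g' g ha k

end Pool.Agent.H8MC
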