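import Pool.Agent.Lib.H8MC.C1

/-!
# C2: the Cohen subset of an infinite set (M)

`bet a g` is the name of the set of the `k`-th elements of `a`, `k ∈ g`.

* `bet_le`: clear.
* `bet_inf`: for `n`: for `k ≥ n`: `g k = g k ⊓ ⨆ m, a m ⊓ cnt a m k` (`cnt_elem`), and `cnt a m k ≠ ⊥` only for `k ≤ m` (`cnt_gt`), so
  `g k ≤ ⨆ m, tvB B (n ≤ m) ⊓ bet a g m`. Take the supremum over `k ≥ n`: `infB g = ⊤`.
* `bet_ne`: let `q = eqN (bet a g) (bet a g')`. For each `k`: `q ⊓ g k ≤ g' k`: `g k = ⨆ m, g k ⊓ (a m ⊓ cnt a m k)`, and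
  `q ⊓ g k ⊓ a m ⊓ cnt a m k ≤ q ⊓ bet a g m ⊓ cnt a m k ≤ bet a g' m ⊓ cnt a m k ≤ g' k` (`cnt_disj`). By symmetry `q ≤ eqN g g'`.
* `eqN_symm`, `eqN_trans`: clear.
-/

set_option autoImplicit false

open Set Function Cardinal

namespace Pool.Agent.H8MC

variable {B : Type} [CompleteBooleanAlgebra B]

/-- the set of the `k`-th elements of `a`, `k ∈ g` -/
noncomputable def bet (a g : ℕ → B) (n : ℕ) : B := a n ⊓ ⨆ k, cnt a n k ⊓ g k

theorem bet_le (a g : ℕ → B) (n : ℕ) : bet a g n ≤ a n := by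
  exact inf_le_left

theorem eqN_symm (a b : ℕ → B) : eqN a b = eqN b a := by
  unfold eqN
  exact iInf_congr fun k => inf_comm _ _

theorem eqN_trans (a b c : ℕ → B) : eqN a b ⊓ eqN b c ≤ eqN a c := by
  unfold eqN
  refine le_iInf fun k => ?_
  refine (inf_le_inf (iInf_le _ k) (iInf_le _ k)).trans (le_inf ?_ ?_)
  · rw [le_himp_iff]
    have h1 : (a k ⇨ b k) ⊓ (b k ⇨ a k) ⊓ ((b k ⇨ c k) ⊓ (c k ⇨ b k)) ⊓ a k ≤ b k :=
      (inf_le_inf_right _ (inf_le_left.trans inf_le_left)).trans himp_inf_le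
    have h2 : (a k ⇨ b k) ⊓ (b k ⇨ a k) ⊓ ((b k ⇨ c k) ⊓ (c k ⇨ b k)) ⊓ a k ≤ (b k ⇨ c k) ⊓ b k :=
      le_inf (inf_le_left.trans (inf_le_right.trans inf_le_left)) h1
    exact h2.trans himp_inf_le
  · rw [le_himp_iff]
    have h1 : (a k ⇨ b k) ⊓ (b k ⇨ a k) ⊓ ((b k ⇨ c k) ⊓ (c k ⇨ b k)) ⊓ c k ≤ b k :=
      (inf_le_inf_right _ (inf_le_right.trans inf_le_right)).trans himp_inf_le
    have h2 : (a k ⇨ b k) ⊓ (b k ⇨ a k) ⊓ ((b k ⇨ c k) ⊓ (c k ⇨ b k)) ⊓ c k ≤ (b k ⇨ a k) ⊓ b k :=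
      le_inf (inf_le_left.trans (inf_le_left.trans inf_le_right)) h1
    exact h2.trans himp_inf_le

theorem bet_inf (a g : ℕ → B) (ha : infB a = ⊤) (hg : infB g = ⊤) : infB (bet a g) = ⊤ := by
  refine top_le_iff.1 (le_iInf fun n => ?_)
  have h1 : ⨆ k, tvB B (n ≤ k) ⊓ g k = ⊤ := top_le_iff.1 (hg.symm.le.trans (iInf_le _ n))
  rw [← h1]
  refine iSup_le fun k => ?_
  by_cases hk : n ≤ k
  · rw [tvB_true hk, top_inf_eq]
    have h2 : g k = ⨆ m, g k ⊓ (a m ⊓ cnt a m k) := by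
      rw [← inf_iSup_eq, cnt_elem a ha k, inf_top_eq]
    rw [h2]
    refine iSup_le fun m => ?_
    by_cases hm : m < k
    · rw [cnt_gt a m k hm, inf_bot_eq, inf_bot_eq]
      exact bot_le
    · refine le_iSup_of_le m (le_inf ?_ ?_)
      · rw [tvB_true (hk.trans (not_lt.1 hm))]
        exact le_top
      · exact le_inf (inf_le_right.trans inf_le_left)
          (le_iSup_of_le k (le_inf (inf_le_right.trans inf_le_right) inf_le_left))
  · rw [tvB_false hk, bot_inf_eq]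
    exact bot_le

end Pool.Agent.H8MC
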