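import Mathlib

/-!
# C3: choosing with countable conflicts (M, only Mathlib)

`I` is well-ordered, every initial segment is smaller than the uncountable set `Y`. `Conf j y i y'` (the choice `y` at `j` conflicts with the choice `y'` at `i`):
for each `j, y, i` only countably many `y'`. Then there is a choice without conflicts.

Proof: define `F i` by well-founded recursion on `i` (`WellFounded.fix` / `WellFoundedLT.fix`) such that `F i` is not in
`⋃ j < i, {y' | Conf j (F j) i y'}`; this union has cardinality at most `#(Iio i) * ℵ₀ < #Y` (`Cardinal.mul_lt_of_lt` if `#(Iio i)`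
or `ℵ₀`, both `< #Y`, `ℵ₀ ≤ #Y`), so its complement is not empty.
A convenient way: let `P i (f : ∀ j, j < i → Y) : Y := if h : ∃ y', ∀ j (hj : j < i), ¬ Conf j (f j hj) i y' then h.choose else default`.
-/

set_option autoImplicit false

open Set Function Cardinal

namespace Pool.Agent.H8MC

theorem exists_choice {I Y : Type} [LinearOrder I] [WellFoundedLT I] (hY : ℵ₀ < #Y) (hI : ∀ i : I, #(Iio i) < #Y)
    (Conf : I → Y → I → Y → Prop) (hc : ∀ j y i, {y' | Conf j y i y'}.Countable) :
    ∃ F : I → Y, ∀ j i, j < i → ¬ Conf j (F j) i (F i) := by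
  classical
  have hne : Nonempty Y := by
    rw [← Cardinal.mk_ne_zero_iff]
    intro h
    rw [h] at hY
    exact absurd hY (not_lt.2 zero_le)
  let P : ∀ i : I, (∀ j, j < i → Y) → Y := fun i f =>
    if h : ∃ y', ∀ j (hj : j < i), ¬ Conf j (f j hj) i y' then h.choose else hne.some
  let F : I → Y := WellFounded.fix (wellFounded_lt (α := I)) P
  have hF : ∀ i, F i = P i (fun j _ => F j) := fun i => WellFounded.fix_eq _ _ _
  refine ⟨F, fun j i hji => ?_⟩
  have hex : ∃ y', ∀ j (_ : j < i), ¬ Conf j (F j) i y' := by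
    by_contra hcon
    push Not at hcon
    have h1 : (univ : Set Y) ⊆ ⋃ j : Iio i, {y' | Conf j.1 (F j.1) i y'} := by
      intro y _
      obtain ⟨j, hj, hc'⟩ := hcon y
      exact mem_iUnion.2 ⟨⟨j, hj⟩, hc'⟩
    have h2 : #Y ≤ #(Iio i) * ℵ₀ := by
      calc #Y = #(univ : Set Y) := Cardinal.mk_univ.symm
        _ ≤ #(⋃ j : Iio i, {y' | Conf j.1 (F j.1) i y'}) := Cardinal.mk_le_mk_of_subset h1
        _ ≤ Cardinal.sum fun j : Iio i => #{y' | Conf j.1 (F j.1) i y'} := Cardinal.mk_iUnion_le_sum_mk
        _ ≤ Cardinal.sum fun _ : Iio i => ℵ₀ := Cardinal.sum_le_sum _ _ fun j =>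
            Cardinal.le_aleph0_iff_set_countable.2 (hc _ _ _)
        _ = #(Iio i) * ℵ₀ := by rw [Cardinal.sum_const']
    exact absurd h2 (not_le.2 (Cardinal.mul_lt_of_lt hY.le (hI i) hY))
  have h3 : F i = hex.choose := by
    rw [hF i]
    simp only [P]
    rw [dif_pos hex]
  rw [h3]
  exact hex.choose_spec j hji

end Pool.Agent.H8MC
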