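import Pool.Agent.Lib.H8MC.C2
import Pool.Agent.Lib.H8MC.C3
import Pool.Agent.Lib.H8MC.A2

/-!
# C4: the list of subsets of `ℕ` (M)

`I = {a : ℕ → B // infB a = ⊤} × Γ`. `#I ≤ μ` (`#(ℕ → B) = #B ^ ℵ₀ ≤ μ ^ ℵ₀ = μ`, `#Γ ≤ μ`). Give `I` a well-order such that all initial segments are
smaller than `μ`: from an injection of `I` to `μ.ord.ToType` (`#(μ.ord.ToType) = μ`, and `#(Iio k) < μ` by `Cardinal.mk_Iio_toType_ord_lt` or
`Cardinal.mk_Iio_lt`; `LinearOrder.lift'`). Let `Conf j y i y'` be: `eqN (bet a_j (g y)) (bet a_i (g y')) ≠ ⊥`, `a_i = i.1.1`. For fixed `j, y, i` the set of these `y'` is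
countable: `ccc_count` (with `q = ⊤`) or `CccB` for the family `y' ↦ eqN (bet a_j (g y)) (bet a_i (g y'))`: for `y' ≠ y''` the meet is at most
`eqN (bet a_i (g y')) (bet a_i (g y'')) ≤ eqN (g y') (g y'') = ⊥` (`eqN_trans`, `bet_ne`). `exists_choice` gives `F`; let `β (a, ξ) = bet a (g (F (a, ξ)))`. For
`i ≠ j` one is smaller (`lt_or_gt_of_ne`) and `eqN_symm`.
-/

set_option autoImplicit false

open Set Function Cardinal

namespace Pool.Agent.H8MC

variable {B : Type} [CompleteBooleanAlgebra B]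

/-- For every infinite subset `a` of `ℕ` and every colour `ξ` there is an infinite subset `β a ξ` of `a`; these sets are different
for different pairs. -/
theorem exists_list (hc : CccB B) {mu : Cardinal.{0}} (hmu : mu ^ ℵ₀ = mu) (h0 : ℵ₀ < mu) (hB : #B ≤ mu) {Y : Type} (hY : #Y = mu)
    (g : Y → ℕ → B) (hg : ∀ y, infB (g y) = ⊤) (hg' : ∀ y y', y ≠ y' → eqN (g y) (g y') = ⊥) {Γ : Type} (hΓ : #Γ ≤ mu) :
    ∃ β : (ℕ → B) → Γ → ℕ → B, (∀ a ξ, infB a = ⊤ → (∀ n, β a ξ n ≤ a n) ∧ infB (β a ξ) = ⊤) ∧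
      ∀ a ξ a' ξ', infB a = ⊤ → infB a' = ⊤ → (a, ξ) ≠ (a', ξ') → eqN (β a ξ) (β a' ξ') = ⊥ := by
  classical
  let I : Type := {a : ℕ → B // infB a = ⊤} × Γ
  have hI : #I ≤ mu := by
    have h1 : #{a : ℕ → B // infB a = ⊤} ≤ mu := by
      refine (Cardinal.mk_subtype_le _).trans ?_
      calc #(ℕ → B) = #B ^ ℵ₀ := by simp
        _ ≤ mu ^ ℵ₀ := Cardinal.power_le_power_right hB
        _ = mu := hmu
    calc #I = #{a : ℕ → B // infB a = ⊤} * #Γ := by
          rw [← Cardinal.mul_def]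
      _ ≤ mu * mu := mul_le_mul' h1 hΓ
      _ = mu := Cardinal.mul_eq_self h0.le
  have hI' : #I ≤ #(mu.ord.ToType) := by rwa [Cardinal.mk_ord_toType]
  obtain ⟨φ⟩ := (Cardinal.le_def _ _).1 hI'
  let _ : LinearOrder I := LinearOrder.lift' φ φ.injective
  have _ : WellFoundedLT I := ⟨InvImage.wf φ wellFounded_lt⟩
  have hIio : ∀ i : I, #(Iio i) < #Y := by
    intro i
    rw [hY]
    refine lt_of_le_of_lt ?_ (Cardinal.mk_Iio_toType_ord_lt (φ i))
    refine Cardinal.mk_le_of_injective (f := fun j : Iio i => (⟨φ j.1, j.2⟩ : Iio (φ i))) ?_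
    intro j j' h
    exact Subtype.ext (φ.injective (congrArg Subtype.val h))
  have hconf : ∀ (j : I) (y : Y) (i : I), {y' | eqN (bet j.1.1 (g y)) (bet i.1.1 (g y')) ≠ ⊥}.Countable := by
    intro j y i
    refine hc Y (fun y' => eqN (bet j.1.1 (g y)) (bet i.1.1 (g y'))) fun y' y'' hne => ?_
    refine le_bot_iff.1 ?_
    calc eqN (bet j.1.1 (g y)) (bet i.1.1 (g y')) ⊓ eqN (bet j.1.1 (g y)) (bet i.1.1 (g y''))
        ≤ eqN (bet i.1.1 (g y')) (bet i.1.1 (g y'')) := by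
          rw [eqN_symm (bet j.1.1 (g y)) (bet i.1.1 (g y'))]
          exact eqN_trans _ _ _
      _ ≤ eqN (g y') (g y'') := bet_ne _ _ _ i.1.2
      _ ≤ ⊥ := (hg' _ _ hne).le
  obtain ⟨F, hF⟩ := exists_choice (I := I) (hY ▸ h0) hIio
    (fun j y i y' => eqN (bet j.1.1 (g y)) (bet i.1.1 (g y')) ≠ ⊥) hconf
  refine ⟨fun a ξ => if h : infB a = ⊤ then bet a (g (F (⟨a, h⟩, ξ))) else a, ?_, ?_⟩
  · intro a ξ ha
    simp only [dif_pos ha]
    exact ⟨fun n => bet_le _ _ _, bet_inf _ _ ha (hg _)⟩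
  · intro a ξ a' ξ' ha ha' hne
    simp only [dif_pos ha, dif_pos ha']
    have hne' : ((⟨a, ha⟩, ξ) : I) ≠ (⟨a', ha'⟩, ξ') := by
      intro h
      apply hne
      have h1 := congrArg (fun x : I => x.1.1) h
      have h2 := congrArg (fun x : I => x.2) h
      exact Prod.ext h1 h2
    rcases lt_or_gt_of_ne hne' with h | h
    · exact not_not.1 (hF _ _ h)
    · rw [eqN_symm]
      exact not_not.1 (hF _ _ h)

end Pool.Agent.H8MC
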