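import Pool.Agent.Lib.H8MC.D1A
import Pool.Agent.Lib.H8MC.KDefs

/-!
# D1: the least principle and the elements of `A` (S, M)

`least`: `P k ≤ ⨆ D, tvB B (D ≤ k) ⊓ (P D ⊓ ⨅ D', tvB B (D' < D) ⇨ (P D')ᶜ)`: induction on `k` (well-founded): on
`⨅ D' < k, (P D')ᶜ` take `D = k`; otherwise (`P k ≤ (⨅ ..)  ⊔ ⨆ D' < k, P D'`, complement of an infimum) use the induction hypothesis for `D'`.

`alp A n ζ` is the Boolean value of: `ζ` is the `n`-th element of `A`.
* `alp_le`: clear. `alp_disj`: induction on `n`. WLOG `ζ < ζ'`. `n = 0`: `alp A 0 ζ' ≤ (A ζ)ᶜ`. `n + 1`: expand both suprema: `η < ζ`, `η' < ζ'`, `alp A n η ⊓ alp A n η'`: this is `⊥` unless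
  `η = η'`, and then `η' < ζ < ζ'` and the second one is at most `(A ζ)ᶜ`, the first one at most `A ζ`.
* `alp_lt`: `alp A (n+1) η' ≤ ⨆ η'' < η', alp A n η''` and `η'' < η' ≤ η`, so `η'' ≠ η`, `alp_disj`.
* `alp_below`: `A ζ ⊓ (⨆ n, alp A n ζ)ᶜ ≤ ⨆ η, tvB B (η < ζ) ⊓ alp A n η`, by induction on `n`. `n = 0`: `least` for `P = A`: `A ζ ≤ ⨆ D ≤ ζ, alp A 0 D`; `D = ζ` is excluded by the
  complement. `n + 1`: for `η < ζ` we have `A ζ ⊓ alp A n η ≤ ⨆ D, (η < D ≤ ζ), alp A (n+1) D`: `least` for `P D = tvB B (η < D) ⊓ A D`.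
-/

set_option autoImplicit false

open Set Function Cardinal

namespace Pool.Agent.H8MC

variable {K B : Type} [CompleteBooleanAlgebra B] [LinearOrder K] [WellFoundedLT K]

omit [LinearOrder K] [WellFoundedLT K] in
theorem d1_dense {x z : B} (h : ∀ q, q ≠ ⊥ → q ≤ x → ∃ r, r ≠ ⊥ ∧ r ≤ q ∧ r ≤ z) : x ≤ z := by
  by_contra hn
  have h1 : x ⊓ zᶜ ≠ ⊥ := fun h0 => hn (disjoint_compl_right_iff.1 (disjoint_iff.2 h0))
  obtain ⟨r, hr, h2, h3⟩ := h (x ⊓ zᶜ) h1 inf_le_left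
  exact hr (le_bot_iff.1 ((le_inf h3 (h2.trans inf_le_right)).trans inf_compl_eq_bot.le))

theorem d1_sup {ι : Type} {q : B} (hq : q ≠ ⊥) {f : ι → B} (h : q ≤ ⨆ i, f i) : ∃ i, q ⊓ f i ≠ ⊥ := by
  by_contra hn
  push Not at hn
  apply hq
  rw [← inf_eq_left.2 h, inf_iSup_eq]
  exact iSup_eq_bot.2 hn

theorem d1_tv {q a : B} {P : Prop} (h : q ⊓ (tvB B P ⊓ a) ≠ ⊥) : P ∧ q ⊓ a ≠ ⊥ := by
  by_cases hP : P
  · rw [tvB_true hP, top_inf_eq] at h
    exact ⟨hP, h⟩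
  · rw [tvB_false hP, bot_inf_eq, inf_bot_eq] at h
    exact absurd rfl h

theorem d1_supt {ι : Type} {q : B} (hq : q ≠ ⊥) {P : ι → Prop} {f : ι → B}
    (h : q ≤ ⨆ i, tvB B (P i) ⊓ f i) : ∃ i, P i ∧ q ⊓ f i ≠ ⊥ := by
  obtain ⟨i, hi⟩ := d1_sup hq h
  exact ⟨i, d1_tv hi⟩

theorem d1_inft {ι : Type} {q : B} {P : ι → Prop} {f : ι → B} (h : q ≤ ⨅ i, tvB B (P i) ⇨ f i) {i : ι}
    (hi : P i) : q ≤ f i := by
  have h1 := h.trans (iInf_le _ i)
  rwa [tvB_true hi, top_himp] at h1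

theorem d1_lesup {ι : Type} {q : B} {P : ι → Prop} {f : ι → B} {i : ι} (hi : P i) (h : q ≤ f i) :
    q ≤ ⨆ i, tvB B (P i) ⊓ f i := by
  refine le_iSup_of_le i ?_
  rw [tvB_true hi, top_inf_eq]
  exact h

theorem d1_no {q a : B} (hq : q ≠ ⊥) (h1 : q ≤ a) (h2 : q ≤ aᶜ) : False :=
  hq (le_bot_iff.1 ((le_inf h1 h2).trans inf_compl_eq_bot.le))

theorem d1_bot {x : B} (h : ∀ q, q ≠ ⊥ → q ≤ x → False) : x = ⊥ := by
  by_contra hx
  exact h x hx le_rfl

theorem alp_disj (A : K → B) (n : ℕ) (ζ ζ' : K) (h : ζ ≠ ζ') : alp A n ζ ⊓ alp A n ζ' = ⊥ := by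
  induction n generalizing ζ ζ' with
  | zero =>
    have key : ∀ a b : K, a < b → alp A 0 a ⊓ alp A 0 b = ⊥ := by
      intro a b hab
      refine d1_bot fun q hq hl => d1_no hq (a := A a) ((hl.trans inf_le_left).trans inf_le_left) ?_
      exact d1_inft ((hl.trans inf_le_right).trans inf_le_right) hab
    rcases lt_or_gt_of_ne h with h1 | h1
    · exact key _ _ h1
    · rw [inf_comm]
      exact key _ _ h1
  | succ n ih =>
    have key : ∀ a b : K, a < b → alp A (n + 1) a ⊓ alp A (n + 1) b = ⊥ := by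
      intro a b hab
      refine d1_bot fun q hq hl => ?_
      have h1 : q ≤ A a := (hl.trans inf_le_left).trans inf_le_left
      obtain ⟨η, hη, h2⟩ := d1_supt hq ((hl.trans inf_le_left).trans inf_le_right)
      obtain ⟨η', hη', h3⟩ := d1_supt h2 (inf_le_left.trans ((hl.trans inf_le_right).trans inf_le_right))
      by_cases he : η = η'
      · subst he
        refine d1_no h3 (a := A a) ((inf_le_left.trans inf_le_left).trans h1) ?_
        have h4 : q ⊓ (alp A n η ⊓ ⨅ η', tvB B (η < η' ∧ η' < a) ⇨ (A η')ᶜ) ⊓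
            (alp A n η ⊓ ⨅ η', tvB B (η < η' ∧ η' < b) ⇨ (A η')ᶜ) ≤
            ⨅ η', tvB B (η < η' ∧ η' < b) ⇨ (A η')ᶜ := inf_le_right.trans inf_le_right
        exact d1_inft h4 (i := a) ⟨hη, hab⟩
      · apply h3
        refine le_bot_iff.1 ?_
        rw [← ih η η' he]
        exact le_inf ((inf_le_left.trans inf_le_right).trans inf_le_left) (inf_le_right.trans inf_le_left)
    rcases lt_or_gt_of_ne h with h1 | h1
    · exact key _ _ h1
    · rw [inf_comm]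
      exact key _ _ h1

theorem alp_lt (A : K → B) (n : ℕ) (η η' : K) (h : η' ≤ η) : alp A n η ⊓ alp A (n + 1) η' = ⊥ := by
  refine d1_bot fun q hq hl => ?_
  obtain ⟨a, ha, h1⟩ := d1_supt hq ((hl.trans inf_le_right).trans inf_le_right)
  apply h1
  refine le_bot_iff.1 ?_
  rw [← alp_disj A n η a (ne_of_gt (ha.trans_le h))]
  exact le_inf (inf_le_left.trans (hl.trans inf_le_left)) (inf_le_right.trans inf_le_left)

theorem alp_below (A : K → B) (n : ℕ) (ζ : K) :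
    A ζ ⊓ (⨆ n, alp A n ζ)ᶜ ≤ ⨆ η, tvB B (η < ζ) ⊓ alp A n η := by
  induction n with
  | zero =>
    refine d1_dense fun q hq hl => ?_
    obtain ⟨D, hD, h1⟩ := d1_supt hq ((hl.trans inf_le_left).trans (least A ζ))
    have h2 : q ⊓ (A D ⊓ ⨅ D', tvB B (D' < D) ⇨ (A D')ᶜ) ≤ alp A 0 D := inf_le_right
    rcases hD.lt_or_eq with h3 | h3
    · exact ⟨_, h1, inf_le_left, d1_lesup h3 h2⟩
    · exfalso
      rw [h3] at h1 h2
      exact d1_no h1 (a := ⨆ n, alp A n ζ) (h2.trans (le_iSup (fun n => alp A n ζ) 0))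
        (inf_le_left.trans (hl.trans inf_le_right))
  | succ n ih =>
    refine d1_dense fun q hq hl => ?_
    obtain ⟨η, hη, h1⟩ := d1_supt hq (hl.trans ih)
    have h2 : q ⊓ alp A n η ≤ tvB B (η < ζ) ⊓ A ζ := by
      rw [tvB_true hη, top_inf_eq]
      exact inf_le_left.trans (hl.trans inf_le_left)
    obtain ⟨D, hD, h3⟩ := d1_supt h1 (h2.trans (least (fun D => tvB B (η < D) ⊓ A D) ζ))
    set r := q ⊓ alp A n η ⊓ ((tvB B (η < D) ⊓ A D) ⊓ ⨅ D', tvB B (D' < D) ⇨ (tvB B (η < D') ⊓ A D')ᶜ) with hr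
    have h4 : η < D := by
      by_contra hn
      apply h3
      rw [hr, tvB_false hn, bot_inf_eq, bot_inf_eq, inf_bot_eq]
    have h5 : r ≤ alp A (n + 1) D := by
      refine le_inf ((inf_le_right.trans inf_le_left).trans inf_le_right) ?_
      refine d1_lesup h4 (le_inf (inf_le_left.trans inf_le_right) (le_iInf fun η' => ?_))
      rw [le_himp_iff]
      by_cases h6 : η < η' ∧ η' < D
      · have h7' : r ≤ ⨅ D', tvB B (D' < D) ⇨ (tvB B (η < D') ⊓ A D')ᶜ := inf_le_right.trans inf_le_right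
        have h7 : r ≤ (tvB B (η < η') ⊓ A η')ᶜ := d1_inft h7' (i := η') h6.2
        rw [tvB_true h6.1, top_inf_eq] at h7
        exact inf_le_left.trans h7
      · rw [tvB_false h6, inf_bot_eq]
        exact bot_le
    rcases hD.lt_or_eq with h8 | h8
    · exact ⟨r, h3, inf_le_left.trans inf_le_left, d1_lesup h8 h5⟩
    · exfalso
      rw [h8] at h5
      exact d1_no h3 (a := ⨆ n, alp A n ζ) (h5.trans (le_iSup (fun n => alp A n ζ) (n + 1)))
        ((inf_le_left.trans inf_le_left).trans (hl.trans inf_le_right))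

end Pool.Agent.H8MC
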