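import Pool.Agent.Lib.H8MC.KDefs

/-!
# D1: the least principle and the elements of `A` (S, M)

`least`: `P k ≤ ⨆ D, tvB B (D ≤ k) ⊓ (P D ⊓ ⨅ D', tvB B (D' < D) ⇨ (P D')ᶜ)`: induction on `k` (well-founded): on
`⨅ D' < k, (P D')ᶜ` take `D = k`; otherwise (`P k ≤ (⨅ ..)  ⊔ ⨆ D' < k, P D'`, complement of an infimum) use the induction hypothesis for `D'`.

`alp A n ζ` is the Boolean value of: `ζ` is the `n`-th element of `A`.
* `alp_le`: clear. `alp_disj`: induction on `n`. WLOG `ζ < ζ'`. `n = 0`: `alp A 0 ζ' ≤ (A ζ)ᶜ`. `n + 1`: expand both suprema: `η < ζ`, `η' < ζ'`, `alp A n η ⊓ alp A n η'`: this is `⊥` unless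
  `η = η'`, and then `η' < ζ < ζ'` and the second one is at most `(A ζ)ᶜ`, the first one at most `A ζ`.
* `alp_lt`: `alp A (n+1) η' ≤ ⨆ η'' < η', alp A n η''` and `η'' < η' ≤ η`, so `η'' ≠ η`, `alp_disj`.
* `alp_below`: `A ζ ⊓ (⨆ n, alp A n ζ)ᶜ ≤ ⨆ η, tvB B (η < ζ) ⊓ alp A n η`, by induction on `n`. `n = 0`: `least` for `P = A`: `A ζ ≤ ⨆ D ≤ ζ, alp A 0 D`; `D = ζ` is excluded by the
  complement. `n + 1`: for `η < ζ` we have `A ζ ⊓ alp A n η ≤ ⨆ D, (η < D ≤ ζ), alp A (n+1) D`: `least` for `P D = tvB B (η < D) ⊓ A D`.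
-/

set_option autoImplicit false

open Set Function Cardinal

namespace Pool.Agent.H8MC

variable {K B : Type} [CompleteBooleanAlgebra B] [LinearOrder K] [WellFoundedLT K]

omit [WellFoundedLT K] in
/-- Boolean value of: `ζ` is the `n`-th element of `A` -/
noncomputable def alp (A : K → B) : ℕ → K → B
  | 0, ζ => A ζ ⊓ ⨅ η, tvB B (η < ζ) ⇨ (A η)ᶜ
  | n + 1, ζ => A ζ ⊓ ⨆ η, tvB B (η < ζ) ⊓ (alp A n η ⊓ ⨅ η', tvB B (η < η' ∧ η' < ζ) ⇨ (A η')ᶜ)

theorem least (P : K → B) (k : K) :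
    P k ≤ ⨆ D, tvB B (D ≤ k) ⊓ (P D ⊓ ⨅ D', tvB B (D' < D) ⇨ (P D')ᶜ) := by
  induction k using WellFoundedLT.induction with
  | ind k ih =>
    have h1 : P k ≤ (P k ⊓ ⨅ D', tvB B (D' < k) ⇨ (P D')ᶜ) ⊔ (⨅ D', tvB B (D' < k) ⇨ (P D')ᶜ)ᶜ := by
      rw [sup_inf_right, sup_compl_eq_top, inf_top_eq]
      exact le_sup_left
    refine h1.trans (sup_le ?_ ?_)
    · refine le_iSup_of_le k ?_
      rw [tvB_true le_rfl, top_inf_eq]
    · rw [compl_iInf]
      refine iSup_le fun D' => ?_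
      by_cases h : D' < k
      · rw [tvB_true h, top_himp, compl_compl]
        refine (ih D' h).trans (iSup_mono fun D => inf_le_inf ?_ le_rfl)
        by_cases hD : D ≤ D'
        · rw [tvB_true hD, tvB_true (hD.trans h.le)]
        · rw [tvB_false hD]
          exact bot_le
      · rw [tvB_false h, bot_himp, compl_top]
        exact bot_le

theorem alp_le (A : K → B) (n : ℕ) (ζ : K) : alp A n ζ ≤ A ζ := by
  cases n with
  | zero => exact inf_le_left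
  | succ n => exact inf_le_left

end Pool.Agent.H8MC
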