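import Pool.Agent.Lib.H8MC.D2A
import Pool.Agent.Lib.H8MC.D1
import Pool.Agent.Lib.H8MC.A1
import Pool.Agent.Lib.H8MC.A2

/-!
# D2: sets of size `λ` have limit points of cofinality `ω` (M, S/M)

`hgt_of_countable`: enumerate `T` (nonempty: `Set.Countable.exists_eq_range`), `T = {t 0, t 1, ..}`, let `u n = max (t 0, .., t n)` (`Nat.rec`, or `Finset.sup'`): monotone, `u n < D`, and for all `η < D` there is
`n` with `η < u n` (`hlim`, `hT'`). Let `h ζ = sInf {n | ζ < u n}` (`Nat.find` if `ζ < D`). Monotone; `h ζ ≤ n`, `ζ < D` imply `ζ < u n` (`ζ < u (h ζ) ≤ u n`).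

`exists_D`. Let `T = {ζ | ⨆ n, alp A n ζ ≠ ⊥}`: countable (`ccc` for each `n`, `alp_disj`). Let `q = embK (fun _ => ⊤) A ⊓ (⨆ D, tvB B (Good D) ⊓ cofB A D)ᶜ` and suppose `q ≠ ⊥`. As
`embK (ind B univ) (ind B T) = ⊥` (`emb_bot`, `ind B univ = fun _ => ⊤`), `q ⊓ subK A (ind B T) = ⊥` (`emb_mono`), so `q ≤ ⨆ ζ, A ζ ⊓ (ind B T ζ)ᶜ` and there is `ζ ∉ T` with `q₁ = q ⊓ A ζ ≠ ⊥`;
`⨆ n, alp A n ζ = ⊥`. By `alp_below`, `q₁ ≤ P ζ`, `P D = ⨅ n, ⨆ η, tvB B (η < D) ⊓ alp A n η`. By `least` there is `D` with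
`q₂ = q₁ ⊓ P D ⊓ ⨅ D', tvB B (D' < D) ⇨ (P D')ᶜ ≠ ⊥`. Then (1) for `η < D`: `q₂ ≤ ⨆ n, ⨆ ζ, tvB B (η ≤ ζ ∧ ζ < D) ⊓ alp A n ζ` (because `q₂ ≤ (P η)ᶜ = ⨆ n, (⨆ ζ < η, alp A n ζ)ᶜ` and `q₂ ≤ ⨆ ζ < D, alp A n ζ`).
So `q₂ ≤ cofB A D` (`alp_le`). (2) `T ∩ Iio D` is cofinal in `D` by (1). (3) `D` is a limit: if `η < D` and no `η'` with `η < η' < D`: by (1) there is `n` with `q₃ = q₂ ⊓ alp A n η ≠ ⊥` (`ζ = η` is the only possibility);
`q₃ ≤ ⨆ ζ < D, alp A (n+1) ζ`, `ζ ≤ η`, which is disjoint from `alp A n η` (`alp_lt`). Also `D` is not the least element (`P D ≥ q₂ ≠ ⊥`).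
So `Good D` by `hgt_of_countable`, and `q₂ ≤ q ⊓ (tvB B (Good D) ⊓ cofB A D) = ⊥`, a contradiction.
-/

set_option autoImplicit false

open Set Function Cardinal

namespace Pool.Agent.H8MC

variable {K B : Type} [CompleteBooleanAlgebra B] [LinearOrder K] [WellFoundedLT K]

theorem d2_ex {ι : Type} {B : Type} [CompleteBooleanAlgebra B] {q : B} {f : ι → B} (h : q ≤ ⨆ i, f i) (hq : q ≠ ⊥) :
    ∃ i, q ⊓ f i ≠ ⊥ := by
  by_contra hcon
  push Not at hcon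
  apply hq
  rw [← inf_eq_left.2 h, inf_iSup_eq]
  exact iSup_eq_bot.2 hcon

omit [LinearOrder K] [WellFoundedLT K] in
theorem d2_tv {P : Prop} {x y : B} (h : x ⊓ (tvB B P ⊓ y) ≠ ⊥) : P ∧ x ⊓ y ≠ ⊥ := by
  by_cases hP : P
  · rw [tvB_true hP, top_inf_eq] at h
    exact ⟨hP, h⟩
  · exfalso
    apply h
    rw [tvB_false hP, bot_inf_eq, inf_bot_eq]

theorem exists_D (hc : CccB B) (hK : ℵ₀ < #K) (A : K → B) :
    embK (fun _ => ⊤) A ≤ ⨆ D, tvB B (Good D) ⊓ cofB A D := by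
  classical
  by_contra hcon
  have hq : embK (fun _ => ⊤) A ⊓ (⨆ D, tvB B (Good D) ⊓ cofB A D)ᶜ ≠ ⊥ := fun h =>
    hcon (disjoint_compl_right_iff.1 (disjoint_iff.2 h))
  set G : B := ⨆ D, tvB B (Good D) ⊓ cofB A D with hG
  set q : B := embK (fun _ => ⊤) A ⊓ Gᶜ with hqd
  have hTn : ∀ n, {ζ | alp A n ζ ≠ ⊥}.Countable := fun n => hc K (alp A n) (alp_disj A n)
  have hT : (⋃ n, {ζ | alp A n ζ ≠ ⊥}).Countable := countable_iUnion hTn
  set T : Set K := ⋃ n, {ζ | alp A n ζ ≠ ⊥} with hTd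
  have hmemT : ∀ n ζ, alp A n ζ ≠ ⊥ → ζ ∈ T := fun n ζ h => mem_iUnion.2 ⟨n, h⟩
  have hnT : ∀ ζ, ζ ∉ T → ∀ n, alp A n ζ = ⊥ := fun ζ h n => by
    by_contra h1
    exact h (hmemT n ζ h1)
  -- `A` is not contained in `T`
  have hb : embK (ind B (univ : Set K)) (ind B T) = ⊥ := by
    refine emb_bot hc ?_ ?_
    · rw [mk_univ]
      exact hK
    · rw [mk_univ]
      exact lt_of_le_of_lt hT.le_aleph0 hK
  have hu : ind B (univ : Set K) = fun _ => (⊤ : B) := funext fun k => tvB_true (mem_univ k)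
  rw [hu] at hb
  have hsub : q ⊓ subK A (ind B T) = ⊥ := by
    have h1 := emb_mono (B := B) (fun _ : K => (⊤ : B)) (fun _ => ⊤) A (ind B T)
    rw [hb] at h1
    have h2 : subK (fun _ : K => (⊤ : B)) (fun _ => ⊤) = ⊤ := by
      unfold subK
      exact iInf_eq_top.2 fun k => himp_self
    rw [h2, top_inf_eq] at h1
    rw [eq_bot_iff]
    refine le_trans ?_ h1
    exact le_inf inf_le_right (inf_le_left.trans inf_le_left)
  have hq2 : q ≤ ⨆ ζ, (A ζ ⇨ ind B T ζ)ᶜ := by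
    rw [← compl_iInf]
    have h1 : Disjoint q (subK A (ind B T)) := disjoint_iff.2 hsub
    exact le_compl_iff_disjoint_right.2 h1
  obtain ⟨ζ, hζ⟩ := d2_ex hq2 hq
  have hζT : ζ ∉ T := by
    intro h
    apply hζ
    have h1 : ind B T ζ = ⊤ := tvB_true h
    rw [h1, himp_top, compl_top, inf_bot_eq]
  have h0 : ind B T ζ = ⊥ := tvB_false hζT
  rw [h0, himp_bot, compl_compl] at hζ
  have hs : (⨆ n, alp A n ζ) = ⊥ := iSup_eq_bot.2 (hnT ζ hζT)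
  have hP : q ⊓ A ζ ≤ (fun D => ⨅ n, ⨆ η, tvB B (η < D) ⊓ alp A n η) ζ := by
    refine le_iInf fun n => ?_
    have h1 := alp_below A n ζ
    rw [hs, compl_bot, inf_top_eq] at h1
    exact inf_le_right.trans h1
  obtain ⟨D, hD⟩ := d2_ex (hP.trans (least (fun D => ⨅ n, ⨆ η, tvB B (η < D) ⊓ alp A n η) ζ)) hζ
  obtain ⟨-, hD⟩ := d2_tv hD
  set q2 : B := q ⊓ A ζ ⊓ ((fun D => ⨅ n, ⨆ η, tvB B (η < D) ⊓ alp A n η) D ⊓
    ⨅ D', tvB B (D' < D) ⇨ ((fun D => ⨅ n, ⨆ η, tvB B (η < D) ⊓ alp A n η) D')ᶜ) with hq2d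
  have hPD : ∀ n, q2 ≤ ⨆ η, tvB B (η < D) ⊓ alp A n η := fun n =>
    inf_le_right.trans (inf_le_left.trans (iInf_le _ n))
  have hPc : ∀ η, η < D → q2 ≤ ⨆ n, (⨆ ζ, tvB B (ζ < η) ⊓ alp A n ζ)ᶜ := by
    intro η hη
    rw [← compl_iInf]
    refine inf_le_right.trans (inf_le_right.trans ((iInf_le _ η).trans ?_))
    rw [tvB_true hη, top_himp]
  have h1 : ∀ η, η < D → q2 ≤ ⨆ n, ⨆ ζ, tvB B (η ≤ ζ ∧ ζ < D) ⊓ alp A n ζ := by
    intro η hη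
    have h2 : q2 ≤ ⨆ n, q2 ⊓ (⨆ ζ, tvB B (ζ < η) ⊓ alp A n ζ)ᶜ := by
      rw [← inf_iSup_eq]
      exact le_inf le_rfl (hPc η hη)
    refine h2.trans (iSup_mono fun n => ?_)
    refine (inf_le_inf_right _ (hPD n)).trans ?_
    rw [iSup_inf_eq]
    refine iSup_le fun ξ => ?_
    refine le_iSup_of_le ξ ?_
    by_cases h3 : ξ < D
    · by_cases h4 : ξ < η
      · have h5 : tvB B (ξ < D) ⊓ alp A n ξ ⊓ (⨆ ζ, tvB B (ζ < η) ⊓ alp A n ζ)ᶜ ≤ ⊥ := by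
          have h6 : alp A n ξ ≤ ⨆ ζ, tvB B (ζ < η) ⊓ alp A n ζ := by
            refine le_iSup_of_le ξ ?_
            rw [tvB_true h4, top_inf_eq]
          calc _ ≤ (⨆ ζ, tvB B (ζ < η) ⊓ alp A n ζ) ⊓ (⨆ ζ, tvB B (ζ < η) ⊓ alp A n ζ)ᶜ :=
                inf_le_inf_right _ (inf_le_right.trans h6)
            _ = ⊥ := inf_compl_self _
        exact h5.trans bot_le
      · rw [tvB_true h3, tvB_true (And.intro (not_lt.1 h4) h3)]
        exact inf_le_left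
    · rw [tvB_false h3, bot_inf_eq, bot_inf_eq]
      exact bot_le
  have hcof : q2 ≤ cofB A D := by
    unfold cofB
    refine le_iInf fun η => ?_
    by_cases hη : η < D
    · rw [tvB_true hη, top_himp]
      refine (h1 η hη).trans (iSup_le fun n => iSup_mono fun ξ => inf_le_inf_left _ (alp_le A n ξ))
    · rw [tvB_false hη, bot_himp]
      exact le_top
  have h2 : ∀ η, η < D → ∃ n ξ, (η ≤ ξ ∧ ξ < D) ∧ q2 ⊓ alp A n ξ ≠ ⊥ := by
    intro η hη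
    obtain ⟨n, hn⟩ := d2_ex (h1 η hη) hD
    rw [inf_iSup_eq] at hn
    by_contra hcon2
    push Not at hcon2
    apply hn
    refine iSup_eq_bot.2 fun ξ => ?_
    by_contra h3
    obtain ⟨h4, h5⟩ := d2_tv h3
    exact h5 (hcon2 n ξ h4)
  have hgood : Good D := by
    refine hgt_of_countable (T := T ∩ Iio D) (hT.mono inter_subset_left) inter_subset_right ?_ ?_ ?_
    · obtain ⟨η, hη⟩ := d2_ex (hPD 0) hD
      exact ⟨η, (d2_tv hη).1⟩
    · intro η hη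
      obtain ⟨n, ξ, h3, h4⟩ := h2 η hη
      refine ⟨ξ, ⟨hmemT n ξ fun h5 => h4 ?_, h3.2⟩, h3.1⟩
      rw [h5, inf_bot_eq]
    · intro η hη
      by_contra hcon2
      push Not at hcon2
      obtain ⟨n, ξ, h3, h4⟩ := h2 η hη
      have h5 : ξ = η := by
        rcases h3.1.lt_or_eq with h6 | h6
        · exact absurd h3.2 (not_lt.2 (hcon2 ξ h6))
        · exact h6.symm
      subst h5
      have h6 : q2 ⊓ alp A n ξ ≤ ⨆ η, tvB B (η < D) ⊓ alp A (n + 1) η := inf_le_left.trans (hPD (n + 1))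
      obtain ⟨ρ, hρ⟩ := d2_ex h6 h4
      obtain ⟨h7, h8⟩ := d2_tv hρ
      have h9 : ρ ≤ ξ := by
        by_contra h10
        exact absurd h7 (not_lt.2 (hcon2 ρ (not_le.1 h10)))
      apply h8
      rw [inf_assoc, alp_lt A n ξ ρ h9, inf_bot_eq]
  apply hD
  rw [eq_bot_iff]
  have h3 : q2 ≤ G := by
    refine le_trans ?_ (le_iSup (fun D => tvB B (Good D) ⊓ cofB A D) D)
    rw [tvB_true hgood, top_inf_eq]
    exact hcof
  have h4 : q2 ≤ Gᶜ := inf_le_left.trans (inf_le_left.trans inf_le_right)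
  calc q2 ≤ G ⊓ Gᶜ := le_inf h3 h4
    _ = ⊥ := inf_compl_self _

end Pool.Agent.H8MC
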