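import Pool.Agent.Lib.H8MC.D1
import Pool.Agent.Lib.H8MC.A1
import Pool.Agent.Lib.H8MC.A2

/-!
# D2: sets of size `λ` have limit points of cofinality `ω` (M, S/M)

`hgt_of_countable`: enumerate `T` (nonempty: `Set.Countable.exists_eq_range`), `T = {t 0, t 1, ..}`, let `u n = max (t 0, .., t n)` (`Nat.rec`, or `Finset.sup'`): monotone, `u n < D`, and for all `η < D` there is
`n` with `η < u n` (`hlim`, `hT'`). Let `h ζ = sInf {n | ζ < u n}` (`Nat.find` if `ζ < D`). Monotone; `h ζ ≤ n`, `ζ < D` imply `ζ < u n` (`ζ < u (h ζ) ≤ u n`).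

`exists_D`. Let `T = {ζ | ⨆ n, alp A n ζ ≠ ⊥}`: countable (`ccc` for each `n`, `alp_disj`). Let `q = embK (fun _ => ⊤) A ⊓ (⨆ D, tvB B (Good D) ⊓ cofB A D)ᶜ` and suppose `q ≠ ⊥`. As
`embK (ind B univ) (ind B T) = ⊥` (`emb_bot`, `ind B univ = fun _ => ⊤`), `q ⊓ subK A (ind B T) = ⊥` (`emb_mono`), so `q ≤ ⨆ ζ, A ζ ⊓ (ind B T ζ)ᶜ` and there is `ζ ∉ T` with `q₁ = q ⊓ A ζ ≠ ⊥`;
`⨆ n, alp A n ζ = ⊥`. By `alp_below`, `q₁ ≤ P ζ`, `P D = ⨅ n, ⨆ η, tvB B (η < D) ⊓ alp A n η`. By `least` there is `D` with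
`q₂ = q₁ ⊓ P D ⊓ ⨅ D', tvB B (D' < D) ⇨ (P D')ᶜ ≠ ⊥`. Then (1) for `η < D`: `q₂ ≤ ⨆ n, ⨆ ζ, tvB B (η ≤ ζ ∧ ζ < D) ⊓ alp A n ζ` (because `q₂ ≤ (P η)ᶜ = ⨆ n, (⨆ ζ < η, alp A n ζ)ᶜ` and `q₂ ≤ ⨆ ζ < D, alp A n ζ`).
So `q₂ ≤ cofB A D` (`alp_le`). (2) `T ∩ Iio D` is cofinal in `D` by (1). (3) `D` is a limit: if `η < D` and no `η'` with `η < η' < D`: by (1) there is `n` with `q₃ = q₂ ⊓ alp A n η ≠ ⊥` (`ζ = η` is the only possibility);
`q₃ ≤ ⨆ ζ < D, alp A (n+1) ζ`, `ζ ≤ η`, which is disjoint from `alp A n η` (`alp_lt`). Also `D` is not the least element (`P D ≥ q₂ ≠ ⊥`).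
So `Good D` by `hgt_of_countable`, and `q₂ ≤ q ⊓ (tvB B (Good D) ⊓ cofB A D) = ⊥`, a contradiction.
-/

set_option autoImplicit false

open Set Function Cardinal

namespace Pool.Agent.H8MC

variable {K B : Type} [CompleteBooleanAlgebra B] [LinearOrder K] [WellFoundedLT K]

omit [WellFoundedLT K] in
theorem hgt_of_countable {D : K} {T : Set K} (hT : T.Countable) (hTD : T ⊆ Iio D) (hne : ∃ η, η < D)
    (hT' : ∀ η < D, ∃ ζ ∈ T, η ≤ ζ) (hlim : ∀ η < D, ∃ η', η < η' ∧ η' < D) : Good D := by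
  obtain ⟨η0, h0⟩ := hne
  obtain ⟨ζ0, hζ0, -⟩ := hT' η0 h0
  obtain ⟨t, ht⟩ := hT.exists_eq_range ⟨ζ0, hζ0⟩
  let u : ℕ → K := fun n => Nat.rec (t 0) (fun n x => max x (t (n + 1))) n
  have hus : ∀ n, u (n + 1) = max (u n) (t (n + 1)) := fun n => rfl
  have humono : Monotone u := monotone_nat_of_le_succ fun n => by
    rw [hus]
    exact le_max_left _ _
  have htu : ∀ n, t n ≤ u n := by
    intro n
    cases n with
    | zero => exact le_rfl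
    | succ n =>
      rw [hus]
      exact le_max_right _ _
  have htD : ∀ n, t n < D := fun n => hTD (by
    rw [ht]
    exact ⟨n, rfl⟩)
  have huD : ∀ n, u n < D := by
    intro n
    induction n with
    | zero => exact htD 0
    | succ n ih =>
      rw [hus]
      exact max_lt ih (htD _)
  have hex : ∀ η < D, ∃ n, η < u n := by
    intro η hη
    obtain ⟨η', h1, h2⟩ := hlim η hη
    obtain ⟨ζ, h3, h4⟩ := hT' η' h2
    rw [ht] at h3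
    obtain ⟨n, rfl⟩ := h3
    exact ⟨n, h1.trans_le (h4.trans (htu n))⟩
  have hmem : ∀ ζ < D, ζ < u (sInf {n | ζ < u n}) := fun ζ hζ =>
    Nat.sInf_mem (s := {n | ζ < u n}) (hex ζ hζ)
  refine ⟨fun ζ => sInf {n | ζ < u n}, ⟨fun a b hab hb => ?_, fun n => ⟨u n, huD n, fun ζ hζ hn => ?_⟩⟩⟩
  · exact Nat.sInf_le (show a < u _ from hab.trans_lt (hmem b hb))
  · exact (hmem ζ hζ).trans_le (humono hn)

end Pool.Agent.H8MC
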