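import Pool.Agent.Lib.H8MC.KDefs

/-!
# Magidor cardinals in the universe; the hypothesis

`lam.ord.ToType` is the well-order of the cardinal `lam` (the set of the ordinals below `lam`).
-/

set_option autoImplicit false

open Set Function Cardinal

namespace Pool.Agent.H8MC

/-- `λ → [λ]^(ℵ₀-bd)_a`: for every colouring `c` of the countably infinite bounded subsets of `λ` with colours in the ordinal `a` there is a set `A ⊆ λ` of size `λ` such
that some colour `g < a` is not the colour of a countably infinite bounded subset of `A`. -/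
def Arrow (lam : Cardinal.{0}) (a : Ordinal.{0}) : Prop :=
  ∀ c : Set lam.ord.ToType → Ordinal.{0}, (∀ x, CB x → c x < a) →
    ∃ A : Set lam.ord.ToType, #A = lam ∧ ∃ g < a, ∀ x, CB x → x ⊆ A → c x ≠ g

/-- `λ` is a Magidor cardinal. -/
def IsMagidor (lam : Cardinal.{0}) : Prop := ℵ₀ < lam ∧ lam.ord.cof = ℵ₀ ∧ Arrow lam lam.ord

/-- `alpha_M(λ)`, the least ordinal `a ≥ 1` with `λ → [λ]^(ℵ₀-bd)_a` -/
noncomputable def alphaM (lam : Cardinal.{0}) : Ordinal.{0} := sInf {a | 1 ≤ a ∧ Arrow lam a}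

/-- There are a Magidor cardinal `λ` and a singular cardinal `μ = μ^ω` with `alpha_M(λ) ≤ μ⁺ < λ`. -/
def Hyp : Prop := ∃ lam mu : Cardinal.{0}, IsMagidor lam ∧ (ℵ₀ ≤ mu ∧ mu.ord.cof < mu) ∧ mu ^ ℵ₀ = mu ∧
  alphaM lam ≤ (Order.succ mu).ord ∧ Order.succ mu < lam

end Pool.Agent.H8MC
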