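import Pool.Agent.Lib.H8MC.H2B
import Pool.Agent.Lib.H8MC.Hyp

/-!
# H2: the well-order of a cardinal (S/M, S/M, S/M)

`K = lam.ord.ToType`. The position of `k : K` is `Ordinal.typein (· < ·) k`.

* `pos_exists`: for `a < lam.ord` the element at position `a` (`Ordinal.enum`, `Ordinal.typein_surj`); `#(Iio k) = a.card` (`Ordinal.typein` is the type of the initial segment). `pos_lt`: `typein` is strictly monotone (`Ordinal.typein_lt_typein`).
* `om_enum`: for `k` at position `ω`: `e n` = the element at position `n`.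
* `cof_seq`: from `lam.ord.cof = ℵ₀` a strictly increasing cofinal sequence: `Ordinal.cof_eq` (or `exists_lsub_cof`, `ord_cof_eq`) gives an unbounded set `S` with `#S = ℵ₀`; enumerate it and take `l (n+1)` above `l n` and the `n`-th element (there is no greatest element because `lam.ord` is a limit).
* `sing_set`: for `m` at position `mu.ord`, `mu.ord.cof < mu`: a subset `D` of `Iio m`, unbounded, with `#D = mu.ord.cof`. (The set of the positions; `Iio m` is order isomorphic to `mu.ord.ToType`; `mu.ord` is a limit, so unbounded = for all `a < m` there is `b ∈ D` with `a < b`.)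
-/

set_option autoImplicit false

open Set Function Cardinal

namespace Pool.Agent.H8MC

variable {lam : Cardinal.{0}}

theorem sing_set {mu : Cardinal.{0}} (h0 : ℵ₀ ≤ mu) (h : mu.ord.cof < mu) {m : lam.ord.ToType} (hm : pos m = mu.ord) :
    ∃ D : Set lam.ord.ToType, D ⊆ Iio m ∧ #D < #(Iio m) ∧ ∀ a < m, ∃ b ∈ D, a < b := by
  have h1 : Order.cof (Iio m) = mu.ord.cof := by
    rw [Order.cof_Iio, ← hm]
    rfl
  obtain ⟨S, hS, hcard⟩ := Order.exists_cof_eq (α := Iio m)
  have hcm : #(Iio m) = mu := by
    rw [card_Iio, hm, Cardinal.card_ord]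
  -- there is no greatest element below `m`
  have hlim : ∀ a < m, ∃ a', a < a' ∧ a' < m := by
    intro a ha
    have h2 : pos a < mu.ord := by
      rw [← hm]
      exact pos_lt.2 ha
    have h3 : Order.succ (pos a) < mu.ord := (Cardinal.isSuccLimit_ord h0).succ_lt h2
    obtain ⟨a', ha'⟩ := pos_exists (lam := lam) (h3.trans (hm ▸ pos_lt_ord m))
    refine ⟨a', ?_, ?_⟩
    · rw [← pos_lt, ha']
      exact Order.lt_succ _
    · rw [← pos_lt, ha', hm]
      exact h3
  refine ⟨Subtype.val '' S, ?_, ?_, ?_⟩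
  · rintro _ ⟨x, _, rfl⟩
    exact x.2
  · calc #(Subtype.val '' S : Set lam.ord.ToType) ≤ #S := Cardinal.mk_image_le
      _ = mu.ord.cof := by rw [hcard, h1]
      _ < mu := h
      _ = #(Iio m) := hcm.symm
  · intro a ha
    obtain ⟨a', h2, h3⟩ := hlim a ha
    obtain ⟨b, hb, hab⟩ := hS ⟨a', h3⟩
    exact ⟨b.1, ⟨b, hb, rfl⟩, h2.trans_le hab⟩

end Pool.Agent.H8MC
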