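import Pool.Agent.Lib.H8MC.H1
import Pool.Agent.Lib.H8MC.H2

/-!
# H3: the order data (S/M)

`K = lam.ord.ToType`, `o, m, s` the elements at the positions `ω`, `mu.ord`, `(succ mu).ord` (`ω < mu.ord`: `ℵ₀ < mu` because `mu ^ ℵ₀ = mu`: `ℵ₀ ^ ℵ₀ > ℵ₀`; `mu < succ mu < lam`). `#K = lam` (`mk_ord_toType`). `ini`: `pos_lt_ord`, `Cardinal.lt_ord`. `card_m`: `k < m`: `pos k < mu.ord`,
`Cardinal.lt_ord`. `suc`, `suc'`: `Cardinal.card_ord`, `Cardinal.lt_ord`, `Order.lt_succ_iff`. `arr`: for `c : Set K → K` apply `Arrow lam (succ mu).ord` (`arrow_of_alphaM`) to `x ↦ pos (c x)`; the colour `g < (succ mu).ord` is the position of an element (`pos_exists`), below `s` (`pos_lt`).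
-/

set_option autoImplicit false

open Set Function Cardinal

namespace Pool.Agent.H8MC

theorem exists_dat (h : Hyp) : ∃ (lam : Cardinal.{0}) (o m s : lam.ord.ToType), Dat lam.ord.ToType o m s := by
  obtain ⟨lam, mu, hM, ⟨hmu0, hsing⟩, hpow, halph, hlt⟩ := h
  have hmu : ℵ₀ < mu := by
    refine lt_of_le_of_ne hmu0 ?_
    intro he
    have h1 : (ℵ₀ : Cardinal.{0}) < 2 ^ (ℵ₀ : Cardinal.{0}) := cantor _
    have h2 : (2 : Cardinal.{0}) ^ (ℵ₀ : Cardinal.{0}) ≤ ℵ₀ ^ (ℵ₀ : Cardinal.{0}) :=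
      power_le_power_right (le_of_lt (natCast_lt_aleph0 (n := 2)))
    rw [← he] at hpow
    rw [hpow] at h2
    exact absurd h1 (not_lt.mpr h2)
  have hmus : mu < Order.succ mu := Order.lt_succ mu
  have hmul : mu < lam := hmus.trans hlt
  have ho' : Ordinal.omega0 < lam.ord := by
    rw [← ord_aleph0]
    exact ord_lt_ord.mpr (hmu.trans hmul)
  obtain ⟨o, ho⟩ := pos_exists (lam := lam) ho'
  obtain ⟨m, hm⟩ := pos_exists (lam := lam) (ord_lt_ord.mpr hmul)
  obtain ⟨s, hs⟩ := pos_exists (lam := lam) (ord_lt_ord.mpr hlt)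
  have hcm : #(Iio m) = mu := by rw [card_Iio, hm, card_ord]
  have hcs : #(Iio s) = Order.succ mu := by rw [card_Iio, hs, card_ord]
  have hK : #(lam.ord.ToType) = lam := mk_ord_toType lam
  refine ⟨lam, o, m, s, ?_⟩
  refine
    { ini := ?_
      cof := ?_
      om := om_enum ho
      om_lt := ?_
      card_m := ?_
      sing := sing_set hmu0 hsing hm
      lt := ?_
      suc := ?_
      suc' := ?_
      pow := ?_
      arr := ?_ }
  · intro k
    rw [card_Iio, hK]
    exact lt_ord.mp (pos_lt_ord k)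
  · exact cof_seq hM.1.le hM.2.1
  · rw [← pos_lt, ho, hm, ← ord_aleph0]
    exact ord_lt_ord.mpr hmu
  · intro k hk
    rw [card_Iio, hcm]
    have h1 := pos_lt.mpr hk
    rw [hm] at h1
    exact lt_ord.mp h1
  · rw [← pos_lt, hm, hs]
    exact ord_lt_ord.mpr hmus
  · rw [hcs, hcm]
  · intro k hk
    rw [card_Iio, hcm]
    have h1 := pos_lt.mpr hk
    rw [hs] at h1
    exact Order.lt_succ_iff.mp (lt_ord.mp h1)
  · rw [hcm]
    exact hpow
  · intro c hc
    have harr : Arrow lam (Order.succ mu).ord := arrow_of_alphaM hM halph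
    obtain ⟨A, hA, g, hg, hA2⟩ := harr (fun x => pos (c x)) (by
      intro x hx
      have h1 := pos_lt.mpr (hc x hx)
      rw [hs] at h1
      exact h1)
    obtain ⟨k, hk⟩ := pos_exists (lam := lam) (hg.trans (ord_lt_ord.mpr hlt))
    refine ⟨A, ?_, k, ?_, ?_⟩
    · rw [hA, hK]
    · rw [← pos_lt, hk, hs]
      exact hg
    · intro x hx hxA he
      refine hA2 x hx hxA ?_
      show pos (c x) = g
      rw [he, hk]

end Pool.Agent.H8MC
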