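import Mathlib

/-!
# V2: coding sequences of subsets of a countable set (S/M, only Mathlib)

`#(ℕ → Set X) = (2 ^ #X) ^ ℵ₀ ≤ (2 ^ ℵ₀) ^ ℵ₀ = 2 ^ ℵ₀ = #(Set ℕ)` for a countable type `X`; so there is a surjection (or an injection in the other direction and `Function.invFun`).
-/

set_option autoImplicit false

open Set Function Cardinal

namespace Pool.Agent.H8MC

theorem exists_code {K : Type} (X : Set K) (hX : X.Countable) :
    ∃ S : Set ℕ → ℕ → Set K, ∀ y : ℕ → Set K, (∀ n, y n ⊆ X) → ∃ t, S t = y := by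
  obtain ⟨f, hf⟩ := Set.countable_iff_exists_injOn.1 hX
  refine ⟨fun t n => {x | x ∈ X ∧ Nat.pair n (f x) ∈ t}, fun y hy =>
    ⟨{m | ∃ n x, x ∈ y n ∧ Nat.pair n (f x) = m}, ?_⟩⟩
  funext n
  ext x
  constructor
  · rintro ⟨hx, n', x', hx', he⟩
    obtain ⟨h1, h2⟩ := Nat.pair_eq_pair.1 he
    subst h1
    rw [hf (hy _ hx') hx h2] at hx'
    exact hx'
  · intro hx
    exact ⟨hy n hx, n, x, hx, rfl⟩

end Pool.Agent.H8MC
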