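import Pool.Agent.Lib.H8MC.V3A
import Mathlib

/-!
# V3: an omega-Jonsson function (Erdos-Hajnal; proof of Galvin and Prikry) (M, S/M, only Mathlib)

`exists_G`: `Σ` is a well-order in which all initial segments are smaller than `#Σ ≥ ℵ₀`. For sequences `y, y' : ℕ → Σ` let `y ~ y'` iff `∃ m n, ∀ k, y (m + k) = y' (n + k)`, an equivalence relation; let `r y` be a representative of the class of `y`
(`Quotient.out`). Let `G y = r y p` if there is `p` with `y = fun k => r y (p + 1 + k)` (choose `p`), arbitrary otherwise. Claim: there is `A` with `#A = #Σ` such that for all `B' ⊆ A` with `#B' = #Σ` and all `a ∈ A` there is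
`y : ℕ → Σ` with values in `B'` and `G y = a`. Suppose not. Then there are sets `A_0 = Σ ⊇ A_1 ⊇ ...` of size `#Σ` and `a_n ∈ A_n` such that `a_n ≠ G y` for all sequences `y` in `A_{n+1}`, and `a_n < x` for all `x ∈ A_{n+1}`
(given `A_n` take `B' ⊆ A_n` and `a_n` by assumption and let `A_{n+1} = B' \ Iic a_n`, which has the same cardinality, `Cardinal.mk_compl..`/`Cardinal.add_lt_of_lt`). The sequence `a` is strictly increasing. Let `ρ = r a`, so
`a (m + k) = ρ (n + k)` for all `k`. `y k = a (m + 1 + k)` has values in `A_{m+1}`, `y ~ a` so `r y = ρ`, and `y k = ρ (n + 1 + k)`. The `p` chosen in the definition of `G y` is `n`: `ρ (p + 1 + k) = ρ (n + 1 + k)` for all `k`, and `ρ` is injective on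
`[n, ∞)`; take `k ≥ n`. So `G y = ρ n = a m`, a contradiction to the choice of `a m`.

`exists_jonsson`: for an infinite type `S` take a well-order of type `(#S).ord` (transfer to `(#S).ord.ToType`, `Cardinal.mk_Iio_ord_toType`), `A`, `G` as above and a bijection `h : A ≃ S` (`Cardinal.eq`); let `f y = h (G (fun k => h⁻¹ (y k)))` if
the value of `G` is in `A`, arbitrary otherwise.
-/

set_option autoImplicit false

open Set Function Cardinal

namespace Pool.Agent.H8MC

theorem exists_jonsson (S : Type) (h0 : ℵ₀ ≤ #S) :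
    ∃ f : (ℕ → S) → S, ∀ B' : Set S, #B' = #S → ∀ g, ∃ y : ℕ → S, (∀ n, y n ∈ B') ∧ f y = g := by
  classical
  have hT : #(#S).ord.ToType = #S := mk_ord_toType _
  obtain ⟨G, A, hA, hG⟩ := exists_G (S := (#S).ord.ToType) (by rw [hT]; exact h0) (fun k => by
    rw [hT]
    have h1 : (Iic k : Set (#S).ord.ToType) ⊆ Iio k ∪ {k} := by
      intro x hx
      rcases lt_or_eq_of_le (show x ≤ k from hx) with h | h
      · exact Or.inl h
      · exact Or.inr h
    refine lt_of_le_of_lt (mk_le_mk_of_subset h1) (lt_of_le_of_lt (mk_union_le _ _) ?_)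
    refine add_lt_of_lt h0 (by simpa using mk_Iio_lt k) ?_
    rw [mk_singleton]
    exact one_lt_aleph0.trans_le h0)
  rw [hT] at hA hG
  obtain ⟨h⟩ := Cardinal.eq.1 hA
  refine ⟨fun y => if hy : G (fun k => (h.symm (y k) : (#S).ord.ToType)) ∈ A then h ⟨_, hy⟩ else y 0, fun B' hB' g => ?_⟩
  have hinj : Function.Injective fun b : S => (h.symm b : (#S).ord.ToType) := fun b b' hb =>
    h.symm.injective (Subtype.ext hb)
  obtain ⟨z, hz, hGz⟩ := hG ((fun b : S => (h.symm b : (#S).ord.ToType)) '' B') (by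
    rintro _ ⟨b, _, rfl⟩
    exact (h.symm b).2) (by rw [mk_image_eq hinj, hB']) (h.symm g) (h.symm g).2
  choose y hyB hyz using hz
  refine ⟨y, hyB, ?_⟩
  have h1 : (fun k => (h.symm (y k) : (#S).ord.ToType)) = z := funext hyz
  have h2 : G (fun k => (h.symm (y k) : (#S).ord.ToType)) ∈ A := by
    rw [h1, hGz]
    exact (h.symm g).2
  show (if hy : G (fun k => (h.symm (y k) : (#S).ord.ToType)) ∈ A then h ⟨_, hy⟩ else y 0) = g
  rw [dif_pos h2]
  have h3 : (⟨_, h2⟩ : A) = h.symm g := Subtype.ext ((congrArg G h1).trans hGz)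
  rw [h3, Equiv.apply_symm_apply]

end Pool.Agent.H8MC
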