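import Pool.Agent.Lib.H8MC.V4A
import Pool.Agent.Lib.H8MC.D2

/-!
# V4: sets of size `λ` (S/M, M)

`K` has countable cofinality (`l`), and every element has fewer than `#K` predecessors.

* `fullseq`: `A` has size `#K > ℵ₀`, `c : K`. There are a strictly increasing sequence `z` in `A` with `c ≤ z n`, and `D` with `z n < D` for all `n`, `D` the least strict upper bound: the set `A' = A \ Iio c` is uncountable (`#(Iio c) < #K`);
  `A' = ⋃ n, A' ∩ Iio (l n)`, so `A' ∩ Iio (l n)` is uncountable, in particular infinite, for some `n`. The infinite subset `A'' = A' ∩ Iio (l n)` of a well-order contains a strictly increasing sequence (`z n` = the least element of `A''` above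
  `z (n-1)`.. : or `Nat.orderEmbeddingOfSet`-like: there is no strictly decreasing sequence, `exists_increasing_or_nonincreasing_subseq`; or recursion: if every element of the
  well-ordered set `A''` had only finitely many.. simplest: `WellFounded.min` of `A'' \ {z 0, .., z (n-1)}`, which is infinite, gives a strictly increasing sequence). `D` = the least element of `{d | ∀ n, z n < d}` (`l n` is in it).
* `bdd_of_count`: if a set of colours below `s` is a countable union of sets bounded below `s` then it is bounded: `hs` for the set of the bounds (`#.. ≤ ℵ₀ ≤ μ`).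
-/

set_option autoImplicit false

open Set Function Cardinal

namespace Pool.Agent.H8MC

variable {K : Type} [LinearOrder K] [WellFoundedLT K]

/-- an infinite subset of a well order contains a strictly increasing sequence -/
theorem v4_seq {A : Set K} (hA : A.Infinite) : ∃ z : ℕ → K, StrictMono z ∧ ∀ n, z n ∈ A := by
  classical
  have : Infinite A := hA.to_subtype
  obtain ⟨f⟩ : Nonempty (ℕ ↪ A) := ⟨Infinite.natEmbedding A⟩
  obtain ⟨g, hg⟩ := exists_increasing_or_nonincreasing_subseq (· < ·) (fun n => (f n : K))
  rcases hg with hg | hg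
  · exact ⟨fun n => f (g n), fun m n h => hg m n h, fun n => (f (g n)).2⟩
  · exfalso
    have h1 : ∀ m n : ℕ, m < n → (f (g n) : K) < f (g m) := by
      intro m n h
      have h2 := hg m n h
      rw [not_lt] at h2
      refine lt_of_le_of_ne h2 ?_
      intro h3
      have h4 := f.injective (Subtype.ext h3)
      have h5 := g.injective h4
      omega
    have h2 : StrictAnti (fun n => (f (g n) : K)) := fun m n h => h1 m n h
    exact not_strictAnti_of_wellFoundedLT _ h2

theorem fullseq (h0 : ℵ₀ < #K) (hini : ∀ k : K, #(Iio k) < #K) {l : ℕ → K} (hl : StrictMono l) (hl' : ∀ k, ∃ n, k < l n)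
    (A : Set K) (hA : #A = #K) (c : K) :
    ∃ (z : ℕ → K) (D : K), StrictMono z ∧ (∀ n, z n ∈ A ∧ c ≤ z n ∧ z n < D) ∧ ∀ η < D, ∃ n, η < z n := by
  classical
  have h1 : ¬ (A \ Iio c).Countable := by
    intro h
    have h2 : #A ≤ #(Iio c) + ℵ₀ := by
      calc #A ≤ #((Iio c : Set K) ∪ (A \ Iio c) : Set K) := Cardinal.mk_le_mk_of_subset (by
            intro x hx
            by_cases hxc : x ∈ Iio c
            · exact Or.inl hxc
            · exact Or.inr ⟨hx, hxc⟩)
        _ ≤ #(Iio c) + #(A \ Iio c : Set K) := Cardinal.mk_union_le _ _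
        _ ≤ #(Iio c) + ℵ₀ := by gcongr; exact h.le_aleph0
    rw [hA] at h2
    exact absurd h2 (not_le.2 (Cardinal.add_lt_of_lt h0.le (hini c) h0))
  have h2 : ∃ n, (A \ Iio c ∩ Iio (l n)).Infinite := by
    by_contra h
    push Not at h
    apply h1
    have h3 : A \ Iio c = ⋃ n, (A \ Iio c ∩ Iio (l n)) := by
      ext x
      simp only [mem_iUnion, mem_inter_iff, mem_Iio]
      constructor
      · intro hx
        obtain ⟨n, hn⟩ := hl' x
        exact ⟨n, hx, hn⟩
      · rintro ⟨n, hx, _⟩
        exact hx
    rw [h3]
    exact Set.countable_iUnion fun n => (h n).countable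
  obtain ⟨n, hn⟩ := h2
  obtain ⟨z, hz, hz'⟩ := v4_seq hn
  have h4 : {d : K | ∀ k, z k < d}.Nonempty := ⟨l n, fun k => (hz' k).2⟩
  refine ⟨z, WellFounded.min wellFounded_lt _ h4, hz, fun k => ⟨(hz' k).1.1, not_lt.1 (hz' k).1.2,
    WellFounded.min_mem wellFounded_lt _ h4 k⟩, ?_⟩
  intro η hη
  by_contra h
  push Not at h
  refine WellFounded.not_lt_min wellFounded_lt {d : K | ∀ k, z k < d} (x := η) ?_ hη
  intro k
  exact (hz (Nat.lt_succ_self k)).trans_le (h (k+1))

end Pool.Agent.H8MC
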