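import Pool.Agent.Lib.H8MC.V1
import Pool.Agent.Lib.H8MC.V2
import Pool.Agent.Lib.H8MC.V3
import Pool.Agent.Lib.H8MC.V4

/-!
# V5: from `λ → [λ]_s` to `λ → [λ]_(s, <s)` (M/L)

Let `c : Set K → K` have values below `s` on the countably infinite bounded sets and suppose that for all `A` of size `#K` the colours `c x`, `x ∈ CB`, `x ⊆ A` are unbounded in `s` (the negation of `star`). Let `S = Iio s` (as a type), `f : (ℕ → S) → S` from
`exists_jonsson`, `φ : Set ℕ → ℕ × Set ℕ` from `exists_phi`, for countable `X` the coding `S_X` from `exists_code`, for good `D` a height function `h_D`. Define `d : Set K → K`: let `D` be the least element with `x ⊆ Iio D` (if any), `r = h_D '' x`,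
`φ r = (m, t)`, `X = {ζ ∈ x | h_D ζ < m}`, `y = S_X t`; `d x = f (fun k => c (y k))` if `D` is good, `X` is countable and all `c (y k) < s`; otherwise `d x` is some fixed element below `s`. So `d x < s`. By `harr` (applied to `d`) there are `A` and `g < s` with `d x ≠ g` for
all `x ∈ CB`, `x ⊆ A`. We construct `x ∈ CB`, `x ⊆ A` with `d x = g`.

(1) There is `n` such that the colours of the `x ∈ CB` with `x ⊆ A ∩ Iio (l n)` are unbounded in `s`: otherwise `bdd_of_count` (every `x ∈ CB` is contained in some `Iio (l n)`). The set `B'` of these colours has size `#S`: `B' ⊆ Iio s`, and if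
`#B' ≤ μ` it would be bounded (`hs`); `#(Iio s) = succ μ`.
(2) `f y' = g` with `y' k = c (x_k)`, `x_k ∈ CB`, `x_k ⊆ A ∩ Iio (l n)`. `X = ⋃ k, x_k` is countable, `X ⊆ Iio (l n)`.
(3) `fullseq` for `c := l n`: `z`, `D`. `D` is good (`hgt_of_countable` with `T = range z`); `h = h_D`. `m = h (z 0) + 1`: for `ζ ∈ X`: `ζ < l n ≤ z 0`, so `h ζ ≤ h (z 0) < m`. `F = h '' X` is finite (bounded by `m`), `a = {h (z k) | k} ∩ [m, ∞)` is infinite (`{h ∘ z}` is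
unbounded: `Hgt.bd`). Let `t` with `S_X t = (x_k)_k` and `b ⊆ a` infinite with `φ (F ∪ b) = (m, t)`.
(4) `x = X ∪ {z k | h (z k) ∈ b}`: countable, infinite, bounded by `D`, `x ⊆ A`. The least strict upper bound of `x` is `D`: for `η < D` there is `k` with `h (z k) ∈ b`, `h (z k) > h η`, so `η < z k` (`Hgt.mono`). `h '' x = F ∪ b`.
`{ζ ∈ x | h ζ < m} = X`. So `d x = f (fun k => c (x_k)) = g`.
-/

set_option autoImplicit false

open Set Function Cardinal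

namespace Pool.Agent.H8MC

variable {K : Type} [LinearOrder K] [WellFoundedLT K]

omit [WellFoundedLT K] in
theorem v5_lst (o : K) : ∃ lst : Set K → K, ∀ x D', IsLeast {D : K | x ⊆ Iio D} D' → lst x = D' := by
  have h : ∀ x : Set K, ∃ D : K, ∀ D', IsLeast {D : K | x ⊆ Iio D} D' → D = D' := by
    intro x
    by_cases H : ∃ D', IsLeast {D : K | x ⊆ Iio D} D'
    · obtain ⟨D', hD'⟩ := H
      exact ⟨D', fun D'' h => hD'.unique h⟩
    · exact ⟨o, fun D' h => absurd ⟨D', h⟩ H⟩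
  choose lst hlst using h
  exact ⟨lst, hlst⟩

omit [WellFoundedLT K] in
/-- the last step: the set `X ∪ {z k | h (z k) ∈ b}` -/
theorem v5_set {D : K} {h : K → ℕ} (hh : Hgt D h) {z : ℕ → K} (hzD : ∀ k, z k < D)
    (hcof : ∀ η < D, ∃ k, η < z k) {X : Set K} (hX : X.Countable) (hXi : X.Infinite) (hXz : ∀ ζ ∈ X, ζ < z 0)
    {R : Type} (φ : Set ℕ → R) (hφ : ∀ (F : Set ℕ) (a : Set ℕ) (t : R), F.Finite → a.Infinite →
      ∃ b ⊆ a, b.Infinite ∧ φ (F ∪ b) = t) (t : R) :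
    ∃ x : Set K, CB x ∧ x ⊆ X ∪ range z ∧ IsLeast {D : K | x ⊆ Iio D} D ∧ φ (h '' x) = t ∧
      {ζ ∈ x | h ζ < h (z 0) + 1} = X := by
  have hXm : ∀ ζ ∈ X, h ζ < h (z 0) + 1 := fun ζ hζ =>
    Nat.lt_succ_of_le (hh.mono _ _ (hXz ζ hζ).le (hzD 0))
  have hF : (h '' X).Finite := by
    refine (Set.finite_Iio (h (z 0) + 1)).subset ?_
    rintro _ ⟨ζ, hζ, rfl⟩
    exact hXm ζ hζ
  have hr : (range (h ∘ z)).Infinite := by
    intro hfin
    obtain ⟨M, hM⟩ := hfin.bddAbove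
    obtain ⟨η, hη, hη'⟩ := hh.bd M
    obtain ⟨k, hk⟩ := hcof η hη
    exact lt_asymm hk (hη' _ (hzD k) (hM ⟨k, rfl⟩))
  obtain ⟨b, hb, hbi, hbt⟩ := hφ (h '' X) (range (h ∘ z) \ Iio (h (z 0) + 1)) t hF
    (hr.sdiff (Set.finite_Iio _))
  have hxD : ∀ ζ ∈ X ∪ {ζ | ∃ k, ζ = z k ∧ h (z k) ∈ b}, ζ < D := by
    rintro ζ (hζ | ⟨k, rfl, _⟩)
    · exact (hXz ζ hζ).trans (hzD 0)
    · exact hzD k
  refine ⟨X ∪ {ζ | ∃ k, ζ = z k ∧ h (z k) ∈ b}, ⟨?_, ?_, D, hxD⟩, ?_, ⟨hxD, ?_⟩, ?_, ?_⟩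
  · refine hX.union ((countable_range z).mono ?_)
    rintro _ ⟨k, rfl, _⟩
    exact ⟨k, rfl⟩
  · exact hXi.mono subset_union_left
  · apply union_subset_union_right
    rintro _ ⟨k, rfl, _⟩
    exact ⟨k, rfl⟩
  · intro D' hD'
    by_contra hlt
    rw [not_le] at hlt
    obtain ⟨e, he, he'⟩ := hbi.exists_gt (h D')
    obtain ⟨k, rfl⟩ := (hb he).1
    have h1 : z k < D' := hD' (Or.inr ⟨k, rfl, he⟩)
    have h2 := hh.mono _ _ h1.le hlt
    simp only [comp_apply] at he'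
    omega
  · rw [image_union]
    have h1 : h '' {ζ | ∃ k, ζ = z k ∧ h (z k) ∈ b} = b := by
      ext e
      constructor
      · rintro ⟨_, ⟨k, rfl, hk⟩, rfl⟩
        exact hk
      · intro he
        obtain ⟨k, rfl⟩ := (hb he).1
        exact ⟨z k, ⟨k, rfl, he⟩, rfl⟩
    rw [h1, hbt]
  · ext ζ
    constructor
    · rintro ⟨hζ | ⟨k, rfl, hk⟩, hm⟩
      · exact hζ
      · exact absurd hm (hb hk).2
    · intro hζ
      exact ⟨Or.inl hζ, hXm ζ hζ⟩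

theorem star (h0 : ℵ₀ < #K) (hini : ∀ k : K, #(Iio k) < #K) {l : ℕ → K} (hl : StrictMono l) (hl' : ∀ k, ∃ n, k < l n)
    {s : K} {mu : Cardinal.{0}} (hmu : ℵ₀ ≤ mu) (hs : ∀ T : Set K, T ⊆ Iio s → #T ≤ mu → ∃ δ < s, ∀ g ∈ T, g < δ)
    (hsc : #(Iio s) = Order.succ mu)
    (harr : ∀ c : Set K → K, (∀ x, CB x → c x < s) → ∃ A : Set K, #A = #K ∧ ∃ g < s, ∀ x, CB x → x ⊆ A → c x ≠ g) :
    ∀ c : Set K → K, (∀ x, CB x → c x < s) → ∃ A : Set K, #A = #K ∧ ∃ δ < s, ∀ x, CB x → x ⊆ A → c x < δ := by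
  classical
  intro c hc
  by_contra hcon
  push Not at hcon
  -- the functions
  have hS0 : ℵ₀ ≤ #(Iio s) := hsc ▸ hmu.trans (Order.le_succ mu)
  obtain ⟨f, hf⟩ := exists_jonsson (Iio s) hS0
  obtain ⟨s0, hs0, -⟩ := hs ∅ (empty_subset _) (by simp)
  obtain ⟨φ, hφ⟩ := exists_phi (ℕ × Set ℕ) (by simp)
  have hcode : ∀ X : Set K, ∃ S : Set ℕ → ℕ → Set K, X.Countable → ∀ y : ℕ → Set K, (∀ n, y n ⊆ X) →
      ∃ t, S t = y := by
    intro X
    by_cases hX : X.Countable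
    · obtain ⟨S, hS⟩ := exists_code X hX
      exact ⟨S, fun _ => hS⟩
    · exact ⟨fun _ _ => ∅, fun h => absurd h hX⟩
  choose code hcode using hcode
  have hgt : ∀ D : K, ∃ h : K → ℕ, Good D → Hgt D h := by
    intro D
    by_cases hD : Good D
    · obtain ⟨h, hh⟩ := hD
      exact ⟨h, fun _ => hh⟩
    · exact ⟨fun _ => 0, fun h => absurd h hD⟩
  choose ht hht using hgt
  obtain ⟨lst, hlst⟩ := v5_lst (l 0)
  obtain ⟨F, hF, hF'⟩ : ∃ F : (ℕ → K) → K, (∀ u, F u < s) ∧ ∀ y : ℕ → Iio s, F (fun k => (y k : K)) = f y := by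
    refine ⟨fun u => if hu : ∀ k, u k < s then (f (fun k => ⟨u k, hu k⟩) : K) else s0, ?_, ?_⟩
    · intro u
      dsimp only
      split_ifs with hu
      · exact (f _).2
      · exact hs0
    · intro y
      have hu : ∀ k, (y k : K) < s := fun k => (y k).2
      simp only [dif_pos hu, Subtype.coe_eta]
  obtain ⟨A, hA, g, hg, hne⟩ := harr (fun x => F (fun k => c (code {ζ ∈ x | ht (lst x) ζ < (φ (ht (lst x) '' x)).1}
    (φ (ht (lst x) '' x)).2 k))) (fun x _ => hF _)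
  -- (1)
  have h1 : ∃ n, ∀ δ < s, ∃ x, CB x ∧ x ⊆ A ∩ Iio (l n) ∧ δ ≤ c x := by
    by_contra h
    push Not at h
    obtain ⟨δ, hδ, hδ'⟩ := bdd_of_count hmu hs (fun n => {g | ∃ x, CB x ∧ x ⊆ A ∩ Iio (l n) ∧ c x = g}) (by
      intro n
      obtain ⟨δ, hδ, hδ'⟩ := h n
      refine ⟨δ, hδ, ?_⟩
      rintro _ ⟨x, hx, hxA, rfl⟩
      exact hδ' x hx hxA)
    obtain ⟨x, hx, hxA, hxc⟩ := hcon A hA δ hδ
    obtain ⟨b, hb⟩ := hx.2.2
    obtain ⟨n, hn⟩ := hl' b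
    exact absurd (hδ' n _ ⟨x, hx, fun a ha => ⟨hxA ha, (hb a ha).trans hn⟩, rfl⟩) (not_lt.2 hxc)
  obtain ⟨n, hn⟩ := h1
  have hB : #{g : Iio s | ∃ x, CB x ∧ x ⊆ A ∩ Iio (l n) ∧ c x = g} = #(Iio s) := by
    refine le_antisymm (Cardinal.mk_set_le _) ?_
    by_contra hlt
    rw [not_le, hsc, Order.lt_succ_iff] at hlt
    obtain ⟨δ, hδ, hδ'⟩ := hs (Subtype.val '' {g : Iio s | ∃ x, CB x ∧ x ⊆ A ∩ Iio (l n) ∧ c x = g}) (by
      rintro _ ⟨g, -, rfl⟩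
      exact g.2) (Cardinal.mk_image_le.trans hlt)
    obtain ⟨x, hx, hxA, hxc⟩ := hn δ hδ
    exact absurd (hδ' (c x) ⟨⟨c x, hc x hx⟩, ⟨x, hx, hxA, rfl⟩, rfl⟩) (not_lt.2 hxc)
  -- (2)
  obtain ⟨y', hy', hfy⟩ := hf _ hB ⟨g, hg⟩
  choose xk hxk hxkA hxkc using hy'
  have hXc : (⋃ k, xk k).Countable := countable_iUnion fun k => (hxk k).1
  have hXi : (⋃ k, xk k).Infinite := (hxk 0).2.1.mono (subset_iUnion xk 0)
  -- (3)
  obtain ⟨z, D, hz, hzA, hzc⟩ := fullseq h0 hini hl hl' A hA (l n)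
  have hgood : Good D := hgt_of_countable (T := range z) (countable_range z)
    (by rintro _ ⟨k, rfl⟩; exact (hzA k).2.2) ⟨z 0, (hzA 0).2.2⟩
    (fun η hη => by obtain ⟨k, hk⟩ := hzc η hη; exact ⟨z k, ⟨k, rfl⟩, hk.le⟩)
    (fun η hη => by obtain ⟨k, hk⟩ := hzc η hη; exact ⟨z k, hk, (hzA k).2.2⟩)
  have hXz : ∀ ζ ∈ ⋃ k, xk k, ζ < z 0 := by
    intro ζ hζ
    obtain ⟨k, hk⟩ := mem_iUnion.1 hζ
    exact (hxkA k hk).2.trans_le (hzA 0).2.1
  obtain ⟨t, ht'⟩ := hcode (⋃ k, xk k) hXc xk (fun k => subset_iUnion xk k)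
  obtain ⟨x, hx, hxs, hxD, hxφ, hxX⟩ := v5_set (hht D hgood) (fun k => (hzA k).2.2) hzc hXc hXi hXz φ hφ
    (ht D (z 0) + 1, t)
  refine hne x hx ?_ ?_
  · intro a ha
    rcases hxs ha with ha | ⟨k, rfl⟩
    · obtain ⟨k, hk⟩ := mem_iUnion.1 ha
      exact (hxkA k hk).1
    · exact (hzA k).1
  · have h3 : lst x = D := hlst x D hxD
    rw [h3, hxφ]
    simp only
    rw [hxX, ht']
    have h4 : (fun k => c (xk k)) = fun k => (y' k : K) := funext hxkc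
    rw [h4, hF', hfy]

end Pool.Agent.H8MC
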