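import Pool.Agent.Lib.H8MC.P3A
import Pool.Agent.Lib.H8MC.V5

/-!
# P3: consequences of the order data (S/M)

* `dat_aleph`: `#(Iio m)` is infinite (`Iio o ⊆ Iio m` contains the `e n`), and different from `ℵ₀`: `ℵ₀ ^ ℵ₀ = 2 ^ ℵ₀ > ℵ₀` (`Cardinal.power_self_eq`, `Cardinal.cantor`), `dat.pow`.
* `dat_K`: `#(Iio m) ≤ #K`.
* `dat_hs`: if `T ⊆ Iio s`, `#T ≤ #(Iio m)` and `T` is not bounded below `s`, then `Iio s = ⋃ g ∈ T, Iic g`, so (`#(Iic g) ≤ #(Iio g) + 1 ≤ #(Iio m)`) `#(Iio s) ≤ #(Iio m) * #(Iio m) = #(Iio m)`, a contradiction to `dat.suc`.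
* `dat_fin`: for `N` take `n = e N`: `e 0, .., e (N-1)` are in `Iio n`.
* `dat_star`: `star`.
-/

set_option autoImplicit false

open Set Function Cardinal

namespace Pool.Agent.H8MC

variable {K : Type} [LinearOrder K] {o m s : K}

theorem dat_hs (d : Dat K o m s) : ∀ T : Set K, T ⊆ Iio s → #T ≤ #(Iio m) → ∃ δ < s, ∀ g ∈ T, g < δ := by
  intro T hT hTc
  by_contra hcon
  push Not at hcon
  have hinf : ℵ₀ ≤ #(Iio m) := (dat_aleph d).le
  have h1 : Iio s ⊆ ⋃ g ∈ T, Iic g := by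
    intro x hx
    obtain ⟨g, hg, hxg⟩ := hcon x hx
    exact mem_biUnion hg hxg
  have h2 : ∀ g ∈ T, #(Iic g) ≤ #(Iio m) := by
    intro g hg
    calc #(Iic g) = #(insert g (Iio g) : Set K) := by rw [Set.Iio_insert]
      _ ≤ #(Iio g) + 1 := Cardinal.mk_insert_le
      _ ≤ #(Iio m) + 1 := by gcongr; exact d.suc' g (hT hg)
      _ = #(Iio m) := Cardinal.add_one_eq hinf
  have h3 : #(Iio s) ≤ #(Iio m) := by
    calc #(Iio s) ≤ #(⋃ g ∈ T, Iic g : Set K) := Cardinal.mk_le_mk_of_subset h1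
      _ ≤ #T * ⨆ x : T, #(Iic x.1) := Cardinal.mk_biUnion_le _ _
      _ ≤ #(Iio m) * #(Iio m) := by
        refine mul_le_mul' hTc ?_
        exact ciSup_le' fun x => h2 x.1 x.2
      _ = #(Iio m) := Cardinal.mul_eq_self hinf
  rw [d.suc] at h3
  exact absurd h3 (not_le.2 (Order.lt_succ _))

theorem dat_star [WellFoundedLT K] (d : Dat K o m s) : ∀ c : Set K → K, (∀ x, CB x → c x < s) →
    ∃ A : Set K, #A = #K ∧ ∃ δ < s, ∀ x, CB x → x ⊆ A → c x < δ := by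
  obtain ⟨l, hl, hl'⟩ := d.cof
  exact star (dat_K d) d.ini hl hl' (dat_aleph d).le (dat_hs d) d.suc d.arr

end Pool.Agent.H8MC
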