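import Pool.Agent.Lib.H8MC.R1A
import Pool.Agent.Lib.H8MC.KDefs
import Pool.Agent.Lib.H47Q.MCcc

/-!
# R1: the algebra of the Cohen poset (S/M)

`ccc_ro`: for `f : ι → RO P` with `f i ⊓ f j = ⊥` choose for every `i` with `f i ≠ ⊥` a condition `p i ∈ (f i).s` (`RO.eq_bot_iff'`). For `i ≠ j` the conditions are incompatible (`r ≤ p i, p j` would be in
`(f i ⊓ f j).s`, `RO.lower`, `RO.mem_inf`), in particular different; so `{p i}` is countable by `PCcc` and `i ↦ p i` is injective on `{i | f i ≠ ⊥}` (`Set.Countable.preimage_of_injOn` or `Set.countable_of_injective_of_countable_image`).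

`card_ro`: by `PCcc.exists_gen` the map `f ↦ RO.gen {p | ∃ i, f i = some p}` from `ℕ → Option P` to `RO P` is surjective; `#(ℕ → Option P) = #(Option P) ^ ℵ₀ ≤ μ ^ ℵ₀ = μ`
(`#(Option P) = #P + 1 ≤ μ`, `Cardinal.mk_le_of_surjective`).

`card_co`: `Co I` injects into `Finset I × Finset I`; `#(Finset I) = #I` for infinite `I` (`Cardinal.mk_finset_of_infinite`).
-/

set_option autoImplicit false

open Set Function Cardinal

namespace Pool.Agent.H8MC

open Pool.Agent.H5Z Pool.Agent.H30C Pool.Agent.H47Q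

theorem card_ro {P : Type} [Preorder P] (hP : PCcc P) {mu : Cardinal.{0}} (hmu : mu ^ ℵ₀ = mu) (h0 : ℵ₀ ≤ mu) (h : #P ≤ mu) :
    #(RO P) ≤ mu := by
  have hs : Function.Surjective (fun f : ℕ → Option P => RO.gen {p | ∃ i, f i = some p}) := by
    intro b
    obtain ⟨f, hf⟩ := hP.exists_gen b
    exact ⟨f, hf.symm⟩
  have h1 : #(RO P) ≤ #(ℕ → Option P) := mk_le_of_surjective hs
  have h2 : #(ℕ → Option P) = #(Option P) ^ ℵ₀ := by
    rw [← mk_nat, power_def]
  have h3 : #(Option P) ≤ mu := by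
    rw [mk_option]
    exact add_le_of_le h0 h (one_le_aleph0.trans h0)
  calc #(RO P) ≤ #(Option P) ^ ℵ₀ := h1.trans_eq h2
    _ ≤ mu ^ ℵ₀ := power_le_power_right h3
    _ = mu := hmu

theorem card_co {I : Type} [Infinite I] : #(Co I) ≤ #I := by
  have hi : Function.Injective (fun p : Co I => (p.z, p.o)) := by
    intro p q hpq
    obtain ⟨z, o, d⟩ := p
    obtain ⟨z', o', d'⟩ := q
    have h1 : z = z' := congrArg Prod.fst hpq
    have h2 : o = o' := congrArg Prod.snd hpq
    subst h1
    subst h2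
    rfl
  calc #(Co I) ≤ #(Finset I × Finset I) := mk_le_of_injective hi
    _ = #(Finset I) * #(Finset I) := by simp only [mk_prod, lift_id]
    _ = #I * #I := by rw [mk_finset_of_infinite]
    _ = #I := mul_eq_self (aleph0_le_mk I)

end Pool.Agent.H8MC
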