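import Pool.Agent.Lib.H8MC.KDefs
import Pool.Agent.Lib.H47Q.MCcc

/-!
# R2: the Cohen reals (S/M)

`coh y n` is the Boolean value of `n ∈ g_y`. `mem_coh`: `p ∈ (coh y n).s ↔ (y, n) ∈ p.o`: if `p` is in `RO.gen {p | (y, n) ∈ p.o}` and `(y, n) ∉ p.o`, then add `(y, n)` to `p.z` (possible if `(y, n) ∉ p.o`; if it is already in `p.z`
take `q = p`): this `q ≤ p` has no extension below an `a` with `(y, n) ∈ a.o`. Conversely clear (`RO.mem_gen`).

`coh_inf`: `RO.eq_top_iff'`, `RO.mem_iInf`, `RO.mem_iSup` (see its form in `H5Z/BRO.lean`): given `q` and `n` choose `m ≥ n` such that `(y, m)` does not occur in `q` (finite sets), and add `(y, m)` to `q.o`.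

`coh_ne`: `RO.eq_bot_iff'`: let `p ∈ (eqN (coh y) (coh y')).s`. Choose `n` such that `(y, n)`, `(y', n)` do not occur in `p`; add `(y, n)` to `p.o` and `(y', n)` to `p.z`: `q ≤ p` is in `(coh y n).s`, so (`RO.mem_himp`) in `(coh y' n).s`,
so `(y', n) ∈ q.o ∩ q.z`, a contradiction.
-/

set_option autoImplicit false

open Set Function Cardinal

namespace Pool.Agent.H8MC

open Pool.Agent.H5Z Pool.Agent.H30C Pool.Agent.H47Q

variable {Y : Type}

/-- the Cohen real `g_y` -/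
def coh (y : Y) (n : ℕ) : RO (Co (Y × ℕ)) := RO.gen {p | (y, n) ∈ p.o}

theorem mem_coh (y : Y) (n : ℕ) (p : Co (Y × ℕ)) : p ∈ (coh y n).s ↔ (y, n) ∈ p.o := by
  constructor
  · intro h
    by_contra hno
    classical
    have hd : Disjoint (insert (y, n) p.z) p.o := by
      rw [Finset.disjoint_insert_left]
      exact ⟨hno, p.disj⟩
    obtain ⟨r, hr, a, ha, hra⟩ := h ⟨insert (y, n) p.z, p.o, hd⟩ ⟨Finset.subset_insert _ _, Finset.Subset.refl _⟩
    have h1 : (y, n) ∈ r.z := hr.1 (Finset.mem_insert_self _ _)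
    have h2 : (y, n) ∈ r.o := hra.2 ha
    exact Finset.disjoint_left.1 r.disj h1 h2
  · intro h q hq
    exact ⟨q, le_refl q, p, h, hq⟩

theorem r2_fresh (p : Co (Y × ℕ)) (k : ℕ) : ∃ n, k ≤ n ∧ ∀ y, (y, n) ∉ p.z ∧ (y, n) ∉ p.o := by
  classical
  refine ⟨max k (((p.z ∪ p.o).image Prod.snd).sup id + 1), le_max_left _ _, fun y => ?_⟩
  have key : ∀ m, (y, m) ∈ p.z ∪ p.o → m < max k (((p.z ∪ p.o).image Prod.snd).sup id + 1) := by
    intro m hm
    have h1 : m ∈ (p.z ∪ p.o).image Prod.snd := Finset.mem_image.2 ⟨_, hm, rfl⟩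
    have h2 : id m ≤ ((p.z ∪ p.o).image Prod.snd).sup id := Finset.le_sup h1
    exact lt_max_of_lt_right (Nat.lt_succ_of_le h2)
  exact ⟨fun h => lt_irrefl _ (key _ (Finset.mem_union_left _ h)), fun h => lt_irrefl _ (key _ (Finset.mem_union_right _ h))⟩

theorem coh_inf (y : Y) : infB (coh y) = ⊤ := by
  rw [RO.eq_top_iff']
  intro p
  unfold infB
  rw [RO.mem_iInf]
  intro n
  rw [RO.mem_iSup]
  intro q _
  classical
  obtain ⟨m, hnm, hm⟩ := r2_fresh q n
  have hd : Disjoint q.z (insert (y, m) q.o) := by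
    rw [Finset.disjoint_insert_right]
    exact ⟨(hm y).1, q.disj⟩
  refine ⟨⟨q.z, insert (y, m) q.o, hd⟩, ⟨Finset.Subset.refl _, Finset.subset_insert _ _⟩, m, ?_⟩
  rw [RO.mem_inf, tvB_true hnm]
  exact ⟨RO.mem_top _, (mem_coh y m _).2 (Finset.mem_insert_self _ _)⟩

theorem coh_ne (y y' : Y) (h : y ≠ y') : eqN (coh y) (coh y') = ⊥ := by
  rw [RO.eq_bot_iff']
  intro p hp
  unfold eqN at hp
  rw [RO.mem_iInf] at hp
  classical
  obtain ⟨n, _, hn⟩ := r2_fresh p 0
  have hne : (y', n) ≠ (y, n) := fun e => h (congrArg Prod.fst e).symm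
  have hd : Disjoint (insert (y', n) p.z) (insert (y, n) p.o) := by
    rw [Finset.disjoint_insert_left, Finset.disjoint_insert_right]
    refine ⟨fun h1 => ?_, (hn y).1, p.disj⟩
    rcases Finset.mem_insert.1 h1 with h1 | h1
    · exact hne h1
    · exact (hn y').2 h1
  have h1 := ((RO.mem_inf _ _ _).1 (hp n)).1
  rw [RO.mem_himp] at h1
  have h2 := h1 ⟨insert (y', n) p.z, insert (y, n) p.o, hd⟩ ⟨Finset.subset_insert _ _, Finset.subset_insert _ _⟩
    ((mem_coh y n _).2 (Finset.mem_insert_self _ _))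
  rw [mem_coh] at h2
  rcases Finset.mem_insert.1 h2 with h3 | h3
  · exact hne h3
  · exact (hn y').2 h3

end Pool.Agent.H8MC
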