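import Pool.Agent.Lib.H8MC.P2
import Pool.Agent.Lib.H8MC.P3
import Pool.Agent.Lib.H8MC.R1
import Pool.Agent.Lib.H8MC.R2
import Pool.Agent.Lib.H8MC.H3
import Pool.Agent.Lib.H30C.Models

/-!
# Fin: the model (M)

`answer_quot`: `w = cls U (chk B (Iio o))`, `l = cls U (chk B univ)`, `m`: `Iio m`, `s`: `Iio s`.

* `omega_chk`. `l`: `card_chk` (`d.ini`), a countable cofinal subset: `chk B (range l)`, `cof_chk`, `emb_chk` (`#(range l) ≤ ℵ₀ = #(Iio o)`), `arrow_chk` with `S = univ`.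
* `m`: `card_chk` (`d.card_m`), `EU w m`: `mem_chk`, `cls_kchk` (`d.om_lt`); singular: `d.sing`, `cof_chk`, `not_emb_chk` (`ℵ₀ < #(Iio m)`: `dat_aleph`).
* `s`: `card_chk`: for `k < s`: `#(Iio k) ≤ #(Iio m) < #(Iio s)`; `forall_emb_chk` with `d.suc'`; `EU s l`.
* `arrow_chk` with `S = Iio s`, `not_arrow_chk`; `hup` is `upper` with `mu = #(Iio m)`, `hlow` is `lower` (`#(Iio k) ≤ #(Iio m)`: `d.suc'`).

`exists_model`: `I = (Iio m) × ℕ`, `B = RO (Co I)`; `co_ccc`, `ccc_ro`, `card_ro`, `card_co` (`#I = #(Iio m)`), `coh`, `exists_UF`, `mod_modelsZFC` (compare `H47Q/Model.lean`).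
-/

set_option autoImplicit false

open Set Function Cardinal

namespace Pool.Agent.H8MC

open Pool.Agent.H5Z Pool.Agent.H30C Pool.Agent.H47Q BSet Fml

theorem answer_quot {K : Type} [LinearOrder K] [WellFoundedLT K] {o m s : K} (d : Dat K o m s)
    {B : Type} [CompleteBooleanAlgebra B] (U : UF B) (hc : CccB B) (hB : #B ≤ #(Iio m))
    (g : Iio m → ℕ → B) (hg : ∀ y, infB (g y) = ⊤) (hg' : ∀ y y', y ≠ y' → eqN (g y) (g y') = ⊥) :
    AnswerIn (EU U) := by
  obtain ⟨e, he, he'⟩ := d.om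
  obtain ⟨l, _, hl⟩ := d.cof
  have ho : (Iio o).Countable := by
    have h1 : Iio o ⊆ range e := fun k hk => (he' k).1 hk
    exact (countable_range e).mono h1
  have ho' : ℵ₀ ≤ #(Iio o) := by
    have h1 : Infinite (Iio o) := by
      refine Infinite.of_injective (fun n : ℕ => (⟨e n, (he' _).2 ⟨n, rfl⟩⟩ : Iio o)) fun a b hab => ?_
      exact he.injective (Subtype.ext_iff.1 hab)
    exact Cardinal.aleph0_le_mk _
  have hms : #(Iio m) < #(Iio s) := by
    rw [d.suc]
    exact Order.lt_succ _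
  have hup : ∀ S : Set K, Iio s ⊆ S → ∀ C : (K → B) → K → B, ExtK C → ∃ A : Set K, #A = #K ∧
      ∃ δ < s, ∀ X : K → B, colK o S C ⊓ cbK o X ⊓ subK X (ind B A) ⊓ C X δ = ⊥ := fun S hS C hC =>
    upper hc d.pow (dat_aleph d).le hB o s ho (dat_fin d) (dat_hs d) (dat_star d) S hS C hC
  refine ⟨cls U (chk B (Iio o)), cls U (chk B (univ : Set K)), cls U (chk B (Iio m)), cls U (chk B (Iio s)),
    omega_chk U he he', ⟨?_, ⟨cls U (chk B (range l)), ?_, ?_⟩, ?_⟩, ⟨?_, ?_, ?_⟩, ⟨?_, ?_, ?_, ?_⟩, ?_, ?_⟩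
  · refine card_chk U hc univ (fun _ _ _ _ => mem_univ _) ?_ fun k _ => ?_
    · rw [Cardinal.mk_univ]
      exact dat_K d
    · rw [Cardinal.mk_univ]
      exact d.ini k
  · refine cof_chk U univ (range l) (subset_univ _) fun a _ => ?_
    obtain ⟨n, hn⟩ := hl a
    exact ⟨l n, mem_range_self n, hn⟩
  · exact emb_chk U ((countable_range l).le_aleph0.trans ho')
  · exact arrow_chk U o univ s (subset_univ _) (hup univ (subset_univ _))
  · exact card_chk U hc (Iio m) (fun a b hab hb => lt_trans hab hb) (dat_aleph d) fun k hk => d.card_m k hk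
  · rw [← cls_kchk, mem_chk]
    exact d.om_lt
  · obtain ⟨D, hD, hDc, hDco⟩ := d.sing
    exact ⟨cls U (chk B D), cof_chk U (Iio m) D hD hDco, not_emb_chk U hc (dat_aleph d) hDc⟩
  · exact card_chk U hc (Iio s) (fun a b hab hb => lt_trans hab hb) ((dat_aleph d).trans hms)
      fun k hk => (d.suc' k hk).trans_lt hms
  · rw [← cls_kchk, mem_chk]
    exact d.lt
  · exact forall_emb_chk U (Iio s) (Iio m) fun k hk => d.suc' k hk
  · rw [← cls_kchk, mem_chk]
    exact mem_univ _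
  · exact arrow_chk U o (Iio s) s subset_rfl (hup (Iio s) subset_rfl)
  · exact not_arrow_chk U o s fun k hk hne =>
      lower hc (dat_K d) d.pow (dat_aleph d) hB (Y := Iio m) rfl g hg hg' he he' hne (d.suc' k hk)

theorem exists_model {K : Type} [LinearOrder K] [WellFoundedLT K] {o m s : K} (d : Dat K o m s) :
    ∃ (M : Type 1) (E : M → M → Prop), ModelsZFC E ∧ AnswerIn E := by
  classical
  have hI : Infinite (Iio m) := by
    rw [Cardinal.infinite_iff]
    exact (dat_aleph d).le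
  have hne : Nonempty (Co ((Iio m) × ℕ)) := ⟨⟨∅, ∅, Finset.disjoint_empty_left _⟩⟩
  obtain ⟨U⟩ := exists_UF (RO (Co ((Iio m) × ℕ)))
  have hc : CccB (RO (Co ((Iio m) × ℕ))) := ccc_ro (co_ccc _)
  have hcard : #((Iio m) × ℕ) = #(Iio m) := by
    rw [Cardinal.mk_prod, Cardinal.lift_id, Cardinal.lift_id, Cardinal.mk_nat]
    exact Cardinal.mul_eq_left (dat_aleph d).le (dat_aleph d).le Cardinal.aleph0_ne_zero
  have hB : #(RO (Co ((Iio m) × ℕ))) ≤ #(Iio m) := by
    refine card_ro (co_ccc _) d.pow (dat_aleph d).le ?_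
    exact card_co.trans hcard.le
  exact ⟨Mod U, EU U, mod_modelsZFC U, answer_quot d U hc hB (fun y : Iio m => coh y) coh_inf
    fun y y' h => coh_ne y y' h⟩

theorem answer_of_hyp (h : Hyp) : ∃ (M : Type 1) (E : M → M → Prop), ModelsZFC E ∧ AnswerIn E := by
  obtain ⟨lam, o, m, s, d⟩ := exists_dat h
  exact exists_model d

end Pool.Agent.H8MC
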