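import Pool.Agent.Lib.H8MC.Hyp

/-!
# H1: monotonicity of the arrow relation (S)

`arrow_mono`: given `c` with colours below `b` let `c' x = c x` if `c x < a`, `0` otherwise. There are `A` and `g < a` such that no `x ∈ CB`, `x ⊆ A` has `c' x = g`. If `c x = g` for such an `x` then `c x < a`, so `c' x = g`, a contradiction. So `g < b`
is not a value of `c` either.

`arrow_of_alphaM`: the set in the definition of `alphaM` contains `lam.ord` (`1 ≤ lam.ord`), so `csInf_mem` gives `1 ≤ alphaM lam` and `Arrow lam (alphaM lam)`; then `arrow_mono`.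
-/

set_option autoImplicit false

open Set Function Cardinal

namespace Pool.Agent.H8MC

theorem arrow_mono {lam : Cardinal.{0}} {a b : Ordinal.{0}} (h1 : 1 ≤ a) (hab : a ≤ b) (h : Arrow lam a) : Arrow lam b := by
  classical
  intro c _
  have ha0 : (0 : Ordinal.{0}) < a := lt_of_lt_of_le zero_lt_one h1
  obtain ⟨A, hA, g, hg, hno⟩ := h (fun x => if c x < a then c x else 0) (by
    intro x _
    by_cases hx : c x < a
    · simp only [hx, if_true]
    · simp only [hx, if_false]
      exact ha0)
  refine ⟨A, hA, g, lt_of_lt_of_le hg hab, ?_⟩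
  intro x hx hxA hcx
  have hlt : c x < a := hcx ▸ hg
  exact hno x hx hxA (by simp only [hlt, if_true]; exact hcx)

theorem arrow_of_alphaM {lam : Cardinal.{0}} (h : IsMagidor lam) {b : Ordinal.{0}} (hb : alphaM lam ≤ b) : Arrow lam b := by
  have hne : ({a : Ordinal.{0} | 1 ≤ a ∧ Arrow lam a}).Nonempty := by
    refine ⟨lam.ord, ?_, h.2.2⟩
    rw [Order.one_le_iff_pos]
    have h0 : (0 : Cardinal.{0}) < lam := lt_trans Cardinal.aleph0_pos h.1
    rw [Cardinal.lt_ord, Ordinal.card_zero]
    exact h0
  have hmem := csInf_mem hne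
  exact arrow_mono hmem.1 hb hmem.2

end Pool.Agent.H8MC
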