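import Pool.Agent.Lib.H8MC.Hyp

/-!
# H2: the well-order of a cardinal (S/M, S/M, S/M)

`K = lam.ord.ToType`. The position of `k : K` is `Ordinal.typein (· < ·) k`.

* `pos_exists`: for `a < lam.ord` the element at position `a` (`Ordinal.enum`, `Ordinal.typein_surj`); `#(Iio k) = a.card` (`Ordinal.typein` is the type of the initial segment). `pos_lt`: `typein` is strictly monotone (`Ordinal.typein_lt_typein`).
* `om_enum`: for `k` at position `ω`: `e n` = the element at position `n`.
* `cof_seq`: from `lam.ord.cof = ℵ₀` a strictly increasing cofinal sequence: `Ordinal.cof_eq` (or `exists_lsub_cof`, `ord_cof_eq`) gives an unbounded set `S` with `#S = ℵ₀`; enumerate it and take `l (n+1)` above `l n` and the `n`-th element (there is no greatest element because `lam.ord` is a limit).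
* `sing_set`: for `m` at position `mu.ord`, `mu.ord.cof < mu`: a subset `D` of `Iio m`, unbounded, with `#D = mu.ord.cof`. (The set of the positions; `Iio m` is order isomorphic to `mu.ord.ToType`; `mu.ord` is a limit, so unbounded = for all `a < m` there is `b ∈ D` with `a < b`.)
-/

set_option autoImplicit false

open Set Function Cardinal

namespace Pool.Agent.H8MC

variable {lam : Cardinal.{0}}

/-- position of an element -/
noncomputable def pos (k : lam.ord.ToType) : Ordinal.{0} := Ordinal.typein (α := lam.ord.ToType) (· < ·) k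

theorem pos_lt_ord (k : lam.ord.ToType) : pos k < lam.ord := by
  unfold pos
  exact Ordinal.typein_lt_self k

theorem pos_lt {k k' : lam.ord.ToType} : pos k < pos k' ↔ k < k' := by
  unfold pos
  exact Ordinal.typein_lt_typein (· < ·)

theorem pos_exists {a : Ordinal.{0}} (h : a < lam.ord) : ∃ k : lam.ord.ToType, pos k = a := by
  have h1 : a < Ordinal.type (α := lam.ord.ToType) (· < ·) := by
    rw [Ordinal.type_toType]
    exact h
  obtain ⟨k, hk⟩ := Ordinal.typein_surj (α := lam.ord.ToType) (· < ·) h1
  exact ⟨k, hk⟩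

theorem card_Iio (k : lam.ord.ToType) : #(Iio k) = (pos k).card := by
  unfold pos
  exact (Ordinal.card_typein (r := ((· < ·) : lam.ord.ToType → lam.ord.ToType → Prop)) k).symm

theorem om_enum {o : lam.ord.ToType} (ho : pos o = Ordinal.omega0) :
    ∃ e : ℕ → lam.ord.ToType, StrictMono e ∧ ∀ k, k < o ↔ ∃ n, e n = k := by
  have h1 : ∀ n : ℕ, ∃ k : lam.ord.ToType, pos k = (n : Ordinal.{0}) := fun n =>
    pos_exists (lt_of_lt_of_le (Ordinal.natCast_lt_omega0 n) (ho ▸ (pos_lt_ord o).le))
  choose e he using h1
  refine ⟨e, ?_, fun k => ⟨fun hk => ?_, ?_⟩⟩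
  · intro a b hab
    rw [← pos_lt, he, he]
    exact_mod_cast hab
  · have h2 : pos k < Ordinal.omega0 := by
      rw [← ho]
      exact pos_lt.2 hk
    obtain ⟨n, hn⟩ := Ordinal.lt_omega0.1 h2
    refine ⟨n, ?_⟩
    by_contra hne
    rcases lt_or_gt_of_ne hne with h3 | h3
    · have h4 := pos_lt.2 h3
      rw [he, hn] at h4
      exact lt_irrefl _ h4
    · have h4 := pos_lt.2 h3
      rw [he, hn] at h4
      exact lt_irrefl _ h4
  · rintro ⟨n, rfl⟩
    rw [← pos_lt, he, ho]
    exact Ordinal.natCast_lt_omega0 n

end Pool.Agent.H8MC
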