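import Pool.Agent.Lib.H8MC.H2A
import Pool.Agent.Lib.H8MC.Hyp

/-!
# H2: the well-order of a cardinal (S/M, S/M, S/M)

`K = lam.ord.ToType`. The position of `k : K` is `Ordinal.typein (· < ·) k`.

* `pos_exists`: for `a < lam.ord` the element at position `a` (`Ordinal.enum`, `Ordinal.typein_surj`); `#(Iio k) = a.card` (`Ordinal.typein` is the type of the initial segment). `pos_lt`: `typein` is strictly monotone (`Ordinal.typein_lt_typein`).
* `om_enum`: for `k` at position `ω`: `e n` = the element at position `n`.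
* `cof_seq`: from `lam.ord.cof = ℵ₀` a strictly increasing cofinal sequence: `Ordinal.cof_eq` (or `exists_lsub_cof`, `ord_cof_eq`) gives an unbounded set `S` with `#S = ℵ₀`; enumerate it and take `l (n+1)` above `l n` and the `n`-th element (there is no greatest element because `lam.ord` is a limit).
* `sing_set`: for `m` at position `mu.ord`, `mu.ord.cof < mu`: a subset `D` of `Iio m`, unbounded, with `#D = mu.ord.cof`. (The set of the positions; `Iio m` is order isomorphic to `mu.ord.ToType`; `mu.ord` is a limit, so unbounded = for all `a < m` there is `b ∈ D` with `a < b`.)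
-/

set_option autoImplicit false

open Set Function Cardinal

namespace Pool.Agent.H8MC

variable {lam : Cardinal.{0}}

theorem cof_seq (h0 : ℵ₀ ≤ lam) (h : lam.ord.cof = ℵ₀) : ∃ l : ℕ → lam.ord.ToType, StrictMono l ∧ ∀ k, ∃ n, k < l n := by
  have : NoMaxOrder lam.ord.ToType := Cardinal.noMaxOrder h0
  obtain ⟨S, hS, hcard⟩ := Order.exists_cof_eq (α := lam.ord.ToType)
  rw [Ordinal.cof_toType, h] at hcard
  have hc : S.Countable := by
    rw [← Set.countable_coe_iff, ← Cardinal.mk_le_aleph0_iff, hcard]
  have hne : S.Nonempty := by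
    rw [Set.nonempty_iff_ne_empty]
    rintro rfl
    rw [Cardinal.mk_eq_zero] at hcard
    exact Cardinal.aleph0_ne_zero hcard.symm
  obtain ⟨f, hf⟩ := hc.exists_eq_range hne
  have hstep : ∀ (n : ℕ) (x : lam.ord.ToType), ∃ y, x < y ∧ f n < y := by
    intro n x
    obtain ⟨y, hy⟩ := exists_gt (max x (f n))
    exact ⟨y, (le_max_left _ _).trans_lt hy, (le_max_right _ _).trans_lt hy⟩
  choose g hg1 hg2 using hstep
  let l : ℕ → lam.ord.ToType := fun n => Nat.rec (f 0) (fun n x => g n x) n
  have hl : ∀ n, l (n + 1) = g n (l n) := fun n => rfl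
  refine ⟨l, strictMono_nat_of_lt_succ fun n => ?_, fun k => ?_⟩
  · rw [hl]
    exact hg1 n (l n)
  · obtain ⟨a, ha, hka⟩ := hS k
    rw [hf] at ha
    obtain ⟨n, rfl⟩ := ha
    refine ⟨n + 1, hka.trans_lt ?_⟩
    rw [hl]
    exact hg2 n (l n)

end Pool.Agent.H8MC
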