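import Pool.Agent.Lib.H8MC.IDefs

/-!
# IA: definability combinators (S/M)

`DefN E n P`: there is a formula `φ` with `Sat E φ v ↔ P (fun i => v i)` (its free variables are below `n`).

* `mem`, `eq`: the formulas `Fml.mem i j`, `Fml.eq i j` for `t = fun v => v i`, `t' = fun v => v j`. `imp`: `Fml.imp`; `fal`: `Fml.bot`; `not`, `and`, `or`, `iff`: by logic from `imp`, `fal` (or the combinators of `H5Z/DForm.lean`). `tru`: `Fml.imp Fml.bot Fml.bot`.
* `all`: the formula `Fml.all n φ`: `update v n a` restricted to `Fin (n+1)` is `Fin.snoc (fun i : Fin n => v i) a`; its `Fin.init` is `fun i => v i` and its last value is `a`. `ex`: from `all` and `not`.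
* `elem_iff`: extend `v : Fin n → Vs lam` to `ℕ` by `∅`-like default `vo lam 0`: `v' i = if h : i < n then v ⟨i, h⟩ else vo lam 0`; apply `IsElem` to `v'`; the restrictions of `v'` and of `j ∘ v'` to `Fin n` are `v`, `j ∘ v`.
-/

set_option autoImplicit false

open Set Function Cardinal

namespace Pool.Agent.H8MC

open Pool.Agent.H5Z

section

variable {M : Type*} {E : M → M → Prop} {n : ℕ}

theorem Proj.var (i : Fin n) : Proj (M := M) n (fun v => v i) := ⟨i, rfl⟩

theorem Proj.init {t : (Fin n → M) → M} (h : Proj n t) : Proj (n + 1) (fun w => t (Fin.init w)) := by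
  obtain ⟨i, rfl⟩ := h
  exact ⟨i.castSucc, rfl⟩

theorem Proj.last : Proj (M := M) (n + 1) (fun w => w (Fin.last n)) := ⟨_, rfl⟩

theorem DefN.mem {t t' : (Fin n → M) → M} (h : Proj n t) (h' : Proj n t') : DefN E n (fun v => E (t v) (t' v)) := by
  obtain ⟨i, rfl⟩ := h
  obtain ⟨i', rfl⟩ := h'
  exact ⟨Fml.mem i i', fun v => Iff.rfl⟩

theorem DefN.eq {t t' : (Fin n → M) → M} (h : Proj n t) (h' : Proj n t') : DefN E n (fun v => t v = t' v) := by
  obtain ⟨i, rfl⟩ := h
  obtain ⟨i', rfl⟩ := h'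
  exact ⟨Fml.eq i i', fun v => Iff.rfl⟩

theorem DefN.fal : DefN E n (fun _ => False) := ⟨Fml.bot, fun _ => Iff.rfl⟩

theorem DefN.tru : DefN E n (fun _ => True) :=
  ⟨Fml.imp Fml.bot Fml.bot, fun _ => ⟨fun _ => trivial, fun _ h => h⟩⟩

theorem DefN.imp {P Q : (Fin n → M) → Prop} (h : DefN E n P) (h' : DefN E n Q) : DefN E n (fun v => P v → Q v) := by
  obtain ⟨φ, hφ⟩ := h
  obtain ⟨ψ, hψ⟩ := h'
  exact ⟨Fml.imp φ ψ, fun v => ⟨fun hh hp => (hψ v).1 (hh ((hφ v).2 hp)), fun hh hp => (hψ v).2 (hh ((hφ v).1 hp))⟩⟩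

theorem DefN.not {P : (Fin n → M) → Prop} (h : DefN E n P) : DefN E n (fun v => ¬ P v) := DefN.imp h DefN.fal

theorem DefN.and {P Q : (Fin n → M) → Prop} (h : DefN E n P) (h' : DefN E n Q) : DefN E n (fun v => P v ∧ Q v) := by
  obtain ⟨φ, hφ⟩ := DefN.not (DefN.imp h (DefN.not h'))
  refine ⟨φ, fun v => (hφ v).trans ?_⟩
  tauto

theorem DefN.or {P Q : (Fin n → M) → Prop} (h : DefN E n P) (h' : DefN E n Q) : DefN E n (fun v => P v ∨ Q v) := by
  obtain ⟨φ, hφ⟩ := DefN.imp (DefN.not h) h'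
  refine ⟨φ, fun v => (hφ v).trans ?_⟩
  tauto

theorem DefN.iff {P Q : (Fin n → M) → Prop} (h : DefN E n P) (h' : DefN E n Q) : DefN E n (fun v => P v ↔ Q v) := by
  obtain ⟨φ, hφ⟩ := DefN.and (DefN.imp h h') (DefN.imp h' h)
  refine ⟨φ, fun v => (hφ v).trans ?_⟩
  tauto

theorem DefN.all {P : (Fin n → M) → M → Prop} (h : DefN E (n + 1) (fun w => P (Fin.init w) (w (Fin.last n)))) :
    DefN E n (fun v => ∀ a, P v a) := by
  obtain ⟨φ, hφ⟩ := h
  refine ⟨Fml.all n φ, fun v => forall_congr' fun a => (hφ (update v n a)).trans ?_⟩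
  have h1 : (Fin.init fun i : Fin (n + 1) => update v n a (i : ℕ)) = fun i : Fin n => v i := by
    funext i
    show update v n a ((Fin.castSucc i : Fin (n + 1)) : ℕ) = v i
    rw [Fin.val_castSucc, update_of_ne (Nat.ne_of_lt i.2)]
  have h2 : update v n a ((Fin.last n : Fin (n + 1)) : ℕ) = a := by
    rw [Fin.val_last, update_self]
  show P (Fin.init fun i : Fin (n + 1) => update v n a (i : ℕ)) (update v n a ((Fin.last n : Fin (n + 1)) : ℕ)) ↔
    P (fun i : Fin n => v i) a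
  rw [h1, h2]

theorem DefN.ex {P : (Fin n → M) → M → Prop} (h : DefN E (n + 1) (fun w => P (Fin.init w) (w (Fin.last n)))) :
    DefN E n (fun v => ∃ a, P v a) := by
  obtain ⟨φ, hφ⟩ := DefN.not (DefN.all (P := fun v a => ¬ P v a) (DefN.not h))
  refine ⟨φ, fun v => (hφ v).trans ?_⟩
  exact not_forall.trans (exists_congr fun a => not_not)

end

theorem elem_iff {lam : Ordinal.{0}} {j : Vs lam → Vs lam} (hj : IsElem lam j) {n : ℕ} {P : (Fin n → Vs lam) → Prop}
    (h : DefN (VE lam) n P) (v : Fin n → Vs lam) : P v ↔ P (fun i => j (v i)) := by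
  obtain ⟨φ, hφ⟩ := h
  have h1 : (fun i : Fin n => (fun k : ℕ => if hk : k < n then v ⟨k, hk⟩ else vo lam 0) (i : ℕ)) = v := by
    funext i
    simp
  have h2 := hj φ (fun k : ℕ => if hk : k < n then v ⟨k, hk⟩ else vo lam 0)
  rw [hφ, hφ, h1] at h2
  have h3 : (fun i : Fin n => j ((fun k : ℕ => if hk : k < n then v ⟨k, hk⟩ else vo lam 0) (i : ℕ))) =
      fun i => j (v i) := by
    funext i
    exact congrArg j (congrFun h1 i)
  rw [h3] at h2
  exact h2

end Pool.Agent.H8MC
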