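import Pool.Agent.Lib.H8MC.IB1
import Pool.Agent.Lib.H8MC.IA

/-!
# IB: definability of the notions used (S/M, mechanical)

Unfold the notions (`SubIn`, `OrdIn`, `EmbIn`, `CbIn`, `ColIn`, `FullIn`, `NReg`, `NSL`, `IsOmega`, `IsInd`, `Rel`, `IsPair`) and use a syntax-directed block
`repeat' first | exact DefN.mem ⟨_, rfl⟩ ⟨_, rfl⟩ | exact DefN.eq ⟨_, rfl⟩ ⟨_, rfl⟩ | refine DefN.all ?_ | refine DefN.ex ?_ | refine DefN.imp ?_ ?_ | refine DefN.not ?_ | refine DefN.and ?_ ?_ | refine DefN.or ?_ ?_ | refine DefN.iff ?_ ?_`.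
(For nested notions it may be better to prove a lemma `DefN E n (fun v => EmbIn E (t v) (t' v))` for all `Proj n t`, `Proj n t'` first, and use it as an atomic step.)
-/

set_option autoImplicit false

open Set Function Cardinal

namespace Pool.Agent.H8MC

open Pool.Agent.H5Z

variable {M : Type*} (E : M → M → Prop)

section ib_aux

variable {n : ℕ} {t t' t'' : (Fin n → M) → M}

theorem ib_p2 (h : Proj n t) : Proj (n + 1 + 1) (fun w => t (Fin.init (Fin.init w))) :=
  Proj.init (t := fun w => t (Fin.init w)) (Proj.init h)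

theorem ib_p3 (h : Proj n t) : Proj (n + 1 + 1 + 1) (fun w => t (Fin.init (Fin.init (Fin.init w)))) :=
  Proj.init (t := fun w => t (Fin.init (Fin.init w))) (ib_p2 h)

theorem ib_p4 (h : Proj n t) :
    Proj (n + 1 + 1 + 1 + 1) (fun w => t (Fin.init (Fin.init (Fin.init (Fin.init w))))) :=
  Proj.init (t := fun w => t (Fin.init (Fin.init (Fin.init w)))) (ib_p3 h)

theorem ib_p5 (h : Proj n t) :
    Proj (n + 1 + 1 + 1 + 1 + 1) (fun w => t (Fin.init (Fin.init (Fin.init (Fin.init (Fin.init w)))))) :=
  Proj.init (t := fun w => t (Fin.init (Fin.init (Fin.init (Fin.init w))))) (ib_p4 h)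

theorem ib_pair (h : Proj n t) (h' : Proj n t') (h'' : Proj n t'') :
    DefN E n (fun v => IsPair E (t v) (t' v) (t'' v)) := by
  unfold IsPair
  repeat' first
    | assumption
    | exact Proj.last
    | exact Proj.var _
    | refine Proj.init ?_
    | exact ib_p2 (by assumption)
    | exact ib_p3 (by assumption)
    | exact ib_p4 (by assumption)
    | exact ib_p5 (by assumption)
    | refine DefN.mem ?_ ?_
    | refine DefN.eq ?_ ?_
    | refine DefN.all ?_
    | refine DefN.ex ?_
    | refine DefN.iff ?_ ?_
    | refine DefN.and ?_ ?_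
    | refine DefN.or ?_ ?_
    | refine DefN.not ?_
    | refine DefN.imp ?_ ?_

theorem ib_rel (h : Proj n t) (h' : Proj n t') (h'' : Proj n t'') :
    DefN E n (fun v => Rel E (t v) (t' v) (t'' v)) := by
  unfold Pool.Agent.H5Z.Rel
  repeat' first
    | assumption
    | exact Proj.last
    | exact Proj.var _
    | refine Proj.init ?_
    | exact ib_p2 (by assumption)
    | exact ib_p3 (by assumption)
    | exact ib_p4 (by assumption)
    | exact ib_p5 (by assumption)
    | refine ib_pair E ?_ ?_ ?_
    | refine DefN.mem ?_ ?_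
    | refine DefN.eq ?_ ?_
    | refine DefN.all ?_
    | refine DefN.ex ?_
    | refine DefN.iff ?_ ?_
    | refine DefN.and ?_ ?_
    | refine DefN.or ?_ ?_
    | refine DefN.not ?_
    | refine DefN.imp ?_ ?_

theorem ib_sub (h : Proj n t) (h' : Proj n t') : DefN E n (fun v => SubIn E (t v) (t' v)) := by
  unfold SubIn
  repeat' first
    | assumption
    | exact Proj.last
    | exact Proj.var _
    | refine Proj.init ?_
    | exact ib_p2 (by assumption)
    | exact ib_p3 (by assumption)
    | exact ib_p4 (by assumption)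
    | exact ib_p5 (by assumption)
    | refine DefN.mem ?_ ?_
    | refine DefN.eq ?_ ?_
    | refine DefN.all ?_
    | refine DefN.ex ?_
    | refine DefN.iff ?_ ?_
    | refine DefN.and ?_ ?_
    | refine DefN.or ?_ ?_
    | refine DefN.not ?_
    | refine DefN.imp ?_ ?_

theorem ib_emb (h : Proj n t) (h' : Proj n t') : DefN E n (fun v => EmbIn E (t v) (t' v)) := by
  unfold EmbIn
  repeat' first
    | assumption
    | exact Proj.last
    | exact Proj.var _
    | refine Proj.init ?_
    | exact ib_p2 (by assumption)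
    | exact ib_p3 (by assumption)
    | exact ib_p4 (by assumption)
    | exact ib_p5 (by assumption)
    | refine ib_rel E ?_ ?_ ?_
    | refine DefN.mem ?_ ?_
    | refine DefN.eq ?_ ?_
    | refine DefN.all ?_
    | refine DefN.ex ?_
    | refine DefN.iff ?_ ?_
    | refine DefN.and ?_ ?_
    | refine DefN.or ?_ ?_
    | refine DefN.not ?_
    | refine DefN.imp ?_ ?_

theorem ib_cb (h : Proj n t) (h' : Proj n t') (h'' : Proj n t'') :
    DefN E n (fun v => CbIn E (t v) (t' v) (t'' v)) := by
  unfold CbIn
  repeat' first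
    | assumption
    | exact Proj.last
    | exact Proj.var _
    | refine Proj.init ?_
    | exact ib_p2 (by assumption)
    | exact ib_p3 (by assumption)
    | exact ib_p4 (by assumption)
    | exact ib_p5 (by assumption)
    | refine ib_sub E ?_ ?_
    | refine ib_emb E ?_ ?_
    | refine DefN.mem ?_ ?_
    | refine DefN.eq ?_ ?_
    | refine DefN.all ?_
    | refine DefN.ex ?_
    | refine DefN.iff ?_ ?_
    | refine DefN.and ?_ ?_
    | refine DefN.or ?_ ?_
    | refine DefN.not ?_
    | refine DefN.imp ?_ ?_

end ib_aux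

theorem def_col : DefN E 4 (fun v => ColIn E (v 0) (v 1) (v 2) (v 3)) := by
  unfold ColIn
  repeat' first
    | assumption
    | exact Proj.last
    | exact Proj.var _
    | refine Proj.init ?_
    | exact ib_p2 (by assumption)
    | exact ib_p3 (by assumption)
    | exact ib_p4 (by assumption)
    | exact ib_p5 (by assumption)
    | refine ib_rel E ?_ ?_ ?_
    | refine ib_cb E ?_ ?_ ?_
    | refine DefN.mem ?_ ?_
    | refine DefN.eq ?_ ?_
    | refine DefN.all ?_
    | refine DefN.ex ?_
    | refine DefN.iff ?_ ?_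
    | refine DefN.and ?_ ?_
    | refine DefN.or ?_ ?_
    | refine DefN.not ?_
    | refine DefN.imp ?_ ?_

theorem def_full : DefN E 4 (fun v => FullIn E (v 0) (v 1) (v 2) (v 3)) := by
  unfold FullIn
  repeat' first
    | assumption
    | exact Proj.last
    | exact Proj.var _
    | refine Proj.init ?_
    | exact ib_p2 (by assumption)
    | exact ib_p3 (by assumption)
    | exact ib_p4 (by assumption)
    | exact ib_p5 (by assumption)
    | refine ib_rel E ?_ ?_ ?_
    | refine ib_sub E ?_ ?_
    | refine ib_emb E ?_ ?_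
    | refine ib_cb E ?_ ?_ ?_
    | refine DefN.mem ?_ ?_
    | refine DefN.eq ?_ ?_
    | refine DefN.all ?_
    | refine DefN.ex ?_
    | refine DefN.iff ?_ ?_
    | refine DefN.and ?_ ?_
    | refine DefN.or ?_ ?_
    | refine DefN.not ?_
    | refine DefN.imp ?_ ?_

theorem def_nreg : DefN E 1 (fun v => NReg E (v 0)) := by
  unfold NReg
  repeat' first
    | assumption
    | exact Proj.last
    | exact Proj.var _
    | refine Proj.init ?_
    | exact ib_p2 (by assumption)
    | exact ib_p3 (by assumption)
    | exact ib_p4 (by assumption)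
    | exact ib_p5 (by assumption)
    | refine ib_rel E ?_ ?_ ?_
    | refine ib_sub E ?_ ?_
    | refine DefN.mem ?_ ?_
    | refine DefN.eq ?_ ?_
    | refine DefN.all ?_
    | refine DefN.ex ?_
    | refine DefN.iff ?_ ?_
    | refine DefN.and ?_ ?_
    | refine DefN.or ?_ ?_
    | refine DefN.not ?_
    | refine DefN.imp ?_ ?_

theorem def_nsl : DefN E 1 (fun v => NSL E (v 0)) := by
  unfold NSL
  repeat' first
    | assumption
    | exact Proj.last
    | exact Proj.var _
    | refine Proj.init ?_
    | exact ib_p2 (by assumption)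
    | exact ib_p3 (by assumption)
    | exact ib_p4 (by assumption)
    | exact ib_p5 (by assumption)
    | refine ib_rel E ?_ ?_ ?_
    | refine ib_sub E ?_ ?_
    | refine DefN.mem ?_ ?_
    | refine DefN.eq ?_ ?_
    | refine DefN.all ?_
    | refine DefN.ex ?_
    | refine DefN.iff ?_ ?_
    | refine DefN.and ?_ ?_
    | refine DefN.or ?_ ?_
    | refine DefN.not ?_
    | refine DefN.imp ?_ ?_

end Pool.Agent.H8MC
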