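import Pool.Agent.Lib.H8MC.IA

/-!
# IB: definability of the notions used (S/M, mechanical)

Unfold the notions (`SubIn`, `OrdIn`, `EmbIn`, `CbIn`, `ColIn`, `FullIn`, `NReg`, `NSL`, `IsOmega`, `IsInd`, `Rel`, `IsPair`) and use a syntax-directed block
`repeat' first | exact DefN.mem ⟨_, rfl⟩ ⟨_, rfl⟩ | exact DefN.eq ⟨_, rfl⟩ ⟨_, rfl⟩ | refine DefN.all ?_ | refine DefN.ex ?_ | refine DefN.imp ?_ ?_ | refine DefN.not ?_ | refine DefN.and ?_ ?_ | refine DefN.or ?_ ?_ | refine DefN.iff ?_ ?_`.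
(For nested notions it may be better to prove a lemma `DefN E n (fun v => EmbIn E (t v) (t' v))` for all `Proj n t`, `Proj n t'` first, and use it as an atomic step.)
-/

set_option autoImplicit false

open Set Function Cardinal

namespace Pool.Agent.H8MC

open Pool.Agent.H5Z

variable {M : Type*} (E : M → M → Prop)

theorem def_ord : DefN E 1 (fun v => OrdIn E (v 0)) := by
  unfold OrdIn SubIn
  repeat' first
    | exact DefN.mem ⟨_, rfl⟩ ⟨_, rfl⟩
    | exact DefN.eq ⟨_, rfl⟩ ⟨_, rfl⟩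
    | refine DefN.and ?_ ?_
    | refine DefN.or ?_ ?_
    | refine DefN.iff ?_ ?_
    | refine DefN.not ?_
    | refine DefN.imp ?_ ?_
    | refine DefN.ex ?_
    | refine DefN.all ?_

theorem def_rel : DefN E 3 (fun v => Rel E (v 0) (v 1) (v 2)) := by
  unfold H5Z.Rel H5Z.IsPair
  repeat' first
    | exact DefN.mem ⟨_, rfl⟩ ⟨_, rfl⟩
    | exact DefN.eq ⟨_, rfl⟩ ⟨_, rfl⟩
    | refine DefN.and ?_ ?_
    | refine DefN.or ?_ ?_
    | refine DefN.iff ?_ ?_
    | refine DefN.not ?_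
    | refine DefN.imp ?_ ?_
    | refine DefN.ex ?_
    | refine DefN.all ?_

theorem def_sub : DefN E 2 (fun v => SubIn E (v 0) (v 1)) := by
  unfold SubIn
  repeat' first
    | exact DefN.mem ⟨_, rfl⟩ ⟨_, rfl⟩
    | refine DefN.imp ?_ ?_
    | refine DefN.all ?_

theorem def_suc : DefN E 2 (fun v => ∀ z, E z (v 0) ↔ E z (v 1) ∨ z = v 1) := by
  repeat' first
    | exact DefN.mem ⟨_, rfl⟩ ⟨_, rfl⟩
    | exact DefN.eq ⟨_, rfl⟩ ⟨_, rfl⟩
    | refine DefN.or ?_ ?_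
    | refine DefN.iff ?_ ?_
    | refine DefN.all ?_

theorem def_omega : DefN E 1 (fun v => IsOmega E (v 0)) := by
  unfold IsOmega IsInd
  repeat' first
    | exact DefN.mem ⟨_, rfl⟩ ⟨_, rfl⟩
    | exact DefN.eq ⟨_, rfl⟩ ⟨_, rfl⟩
    | refine DefN.and ?_ ?_
    | refine DefN.or ?_ ?_
    | refine DefN.iff ?_ ?_
    | refine DefN.not ?_
    | refine DefN.imp ?_ ?_
    | refine DefN.ex ?_
    | refine DefN.all ?_

/-- `f` (variable 2) enumerates `y` (variable 1): a function on `w` (variable 0) -/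
theorem def_enum : DefN E 3 (fun v => (∀ z, E z (v 1) → ∃ n, E n (v 0) ∧ Rel E n z (v 2)) ∧
    ∀ n z z', E n (v 0) → E z (v 1) → E z' (v 1) → Rel E n z (v 2) → Rel E n z' (v 2) → z = z') := by
  unfold H5Z.Rel H5Z.IsPair
  repeat' first
    | exact DefN.mem ⟨_, rfl⟩ ⟨_, rfl⟩
    | exact DefN.eq ⟨_, rfl⟩ ⟨_, rfl⟩
    | refine DefN.and ?_ ?_
    | refine DefN.or ?_ ?_
    | refine DefN.iff ?_ ?_
    | refine DefN.not ?_
    | refine DefN.imp ?_ ?_
    | refine DefN.ex ?_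
    | refine DefN.all ?_

/-- variable 1 is the supremum of variable 0 -/
theorem def_sup : DefN E 2 (fun v => (∀ b, E b (v 0) → E b (v 1)) ∧ ∀ b, E b (v 1) → ∃ c, E c (v 0) ∧ E b c) := by
  repeat' first
    | exact DefN.mem ⟨_, rfl⟩ ⟨_, rfl⟩
    | exact DefN.eq ⟨_, rfl⟩ ⟨_, rfl⟩
    | refine DefN.and ?_ ?_
    | refine DefN.or ?_ ?_
    | refine DefN.iff ?_ ?_
    | refine DefN.not ?_
    | refine DefN.imp ?_ ?_
    | refine DefN.ex ?_
    | refine DefN.all ?_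

end Pool.Agent.H8MC
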