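import Pool.Agent.Lib.H8MC.Sent
import Pool.Agent.Lib.H8MC.Hyp

/-!
# The axiom I1

`Vs lam` is `V_(λ+1)`, the set of the subsets of `V_λ` (`ZFSet.vonNeumann lam`), `VE lam` its membership relation. The ordinals are the sets `a.toZFSet`, `a : Ordinal`.
-/

set_option autoImplicit false

open Set Function Cardinal

namespace Pool.Agent.H8MC

open Pool.Agent.H5Z

/-- `V_(λ+1)` -/
def Vs (lam : Ordinal.{0}) : Type 1 := {x : ZFSet.{0} // x ⊆ ZFSet.vonNeumann lam}

/-- the membership relation of `V_(λ+1)` -/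
def VE (lam : Ordinal.{0}) : Vs lam → Vs lam → Prop := fun x y => x.1 ∈ y.1

/-- `j` is an elementary embedding of `(V_(λ+1), ∈)` into itself. -/
def IsElem (lam : Ordinal.{0}) (j : Vs lam → Vs lam) : Prop :=
  ∀ (φ : Fml) (v : ℕ → Vs lam), Sat (VE lam) φ v ↔ Sat (VE lam) φ (fun i => j (v i))

/-- `I1(κ, λ)`: there is an elementary embedding `j : V_(λ+1) → V_(λ+1)` with critical point `κ`, and `λ` is the first fixed point of `j` above `κ`. -/
def I1 (kap lam : Ordinal.{0}) : Prop :=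
  kap < lam ∧ ∃ j : Vs lam → Vs lam, IsElem lam j ∧
    (∀ a < kap, ∀ x : Vs lam, x.1 = a.toZFSet → j x = x) ∧
    (∀ x : Vs lam, x.1 = kap.toZFSet → j x ≠ x) ∧
    (∀ x : Vs lam, x.1 = lam.toZFSet → j x = x) ∧
    ∀ a, kap < a → a < lam → ∀ x : Vs lam, x.1 = a.toZFSet → j x ≠ x

section

variable (lam : Ordinal.{0})

theorem ord_sub (a : Ordinal.{0}) : (min a lam).toZFSet ⊆ ZFSet.vonNeumann lam :=
  fun _ hz => ZFSet.vonNeumann_subset_of_le (min_le_right a lam) (Ordinal.toZFSet_subset_vonNeumann _ hz)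

/-- the ordinal `min a λ` as an element of `V_(λ+1)` -/
noncomputable def vo (a : Ordinal.{0}) : Vs lam := ⟨(min a lam).toZFSet, ord_sub lam a⟩

/-- the element of `V_(λ+1)` whose elements are the `z ∈ V_λ` with `P z` -/
noncomputable def vsep (P : ZFSet.{0} → Prop) : Vs lam :=
  ⟨ZFSet.sep P (ZFSet.vonNeumann lam), fun _ hz => (ZFSet.mem_sep.1 hz).1⟩

end

/-- Definability of a property of `n`-tuples -/
def DefN {M : Type*} (E : M → M → Prop) (n : ℕ) (P : (Fin n → M) → Prop) : Prop :=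
  ∃ φ : Fml, ∀ v : ℕ → M, Sat E φ v ↔ P (fun i => v i)

/-- `t` is a variable -/
def Proj {M : Type*} (n : ℕ) (t : (Fin n → M) → M) : Prop := ∃ i, t = fun v => v i

/-- `k` is not regular (in `(M, E)`): there are `g ∈ k` and a function `f` from `g` to `k` with cofinal range -/
def NReg {M : Type*} (E : M → M → Prop) (k : M) : Prop :=
  ∃ g f, E g k ∧ (∀ x, E x g → ∃ y, E y k ∧ Rel E x y f ∧ ∀ y', E y' k → Rel E x y' f → y' = y) ∧
    ∀ d, E d k → ∃ x y, E x g ∧ E y k ∧ Rel E x y f ∧ SubIn E d y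

/-- `k` is not a strong limit (in `(M, E)`): there are `g ∈ k` and a function `f` from a set of subsets of `g` onto `k` -/
def NSL {M : Type*} (E : M → M → Prop) (k : M) : Prop :=
  ∃ g f, E g k ∧ (∀ x y y', E y k → E y' k → Rel E x y f → Rel E x y' f → y = y') ∧
    (∀ x y, E y k → Rel E x y f → SubIn E x g) ∧ ∀ y, E y k → ∃ x, Rel E x y f

/-- the data of an elementary embedding as in `I1` -/
structure JD (kap lam : Ordinal.{0}) (j : Vs lam → Vs lam) : Prop where
  lt : kap < lam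
  elem : IsElem lam j
  fix : ∀ a < kap, j (vo lam a) = vo lam a
  crit : j (vo lam kap) ≠ vo lam kap
  top : j (vo lam lam) = vo lam lam
  first : ∀ a, kap < a → a < lam → j (vo lam a) ≠ vo lam a

theorem vo_val {lam a : Ordinal.{0}} (h : a ≤ lam) : (vo lam a).1 = a.toZFSet :=
  congrArg Ordinal.toZFSet (min_eq_left h)

theorem exists_jd {kap lam : Ordinal.{0}} (h : I1 kap lam) : ∃ j, JD kap lam j := by
  obtain ⟨hlt, j, he, h1, h2, h3, h4⟩ := h
  exact ⟨j, hlt, he, fun a ha => h1 a ha _ (vo_val (ha.trans hlt).le), h2 _ (vo_val hlt.le), h3 _ (vo_val le_rfl),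
    fun a ha ha' => h4 a ha ha' _ (vo_val ha'.le)⟩

/-- the ordinal function of `j`: `j (vo lam a) = vo lam (Jo j a)` -/
noncomputable def Jo {lam : Ordinal.{0}} (j : Vs lam → Vs lam) (a : Ordinal.{0}) : Ordinal.{0} := (j (vo lam a)).1.rank

/-- the critical sequence -/
noncomputable def crs {lam : Ordinal.{0}} (j : Vs lam → Vs lam) (kap : Ordinal.{0}) (n : ℕ) : Ordinal.{0} := (Jo j)^[n] kap

/-- the set of ordinals which corresponds to a set of positions, as an element of `V_(λ+1)` -/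
noncomputable def hat {c : Cardinal.{0}} (lam : Ordinal.{0}) (x : Set c.ord.ToType) : Vs lam :=
  vsep lam (fun z => ∃ k ∈ x, z = (Ordinal.typein (α := c.ord.ToType) (· < ·) k).toZFSet)

end Pool.Agent.H8MC
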