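import Pool.Agent.Lib.H8MC.IC1
import Pool.Agent.Lib.H8MC.IDefs

/-!
# IC: absoluteness in `V_(λ+1)` (S/M)

* `sm_of_mem`: if `z ∈ x.1`, `x : Vs lam`, then `z ∈ V_λ`, `rank z < λ`; and `z ⊆ V_λ`, so `z` is (the value of) an element of `Vs lam`.
* `mem_vsep`. `mem_vo`: `z ∈ (vo lam a).1 ↔ ∃ b < a, z = b.toZFSet` for `a ≤ lam` (`ZFSet.mem_toZFSet_iff`-like lemma `Ordinal.mem_toZFSet_iff`).
* `sub_iff`: `SubIn` is `⊆` (elements of elements are in `Vs lam`).
* `ord_iff`: `OrdIn (VE lam) x ↔ ∃ a ≤ lam, x = vo lam a`: `OrdIn` says that `x.1` is a transitive set of transitive sets (`ZFSet.IsOrdinal`, `ZFSet.isOrdinal_iff_forall_mem_isTransitive`), so `x.1 = a.toZFSet` for `a = rank x.1` (`IsOrdinal.toZFSet_rank_eq`), `a ≤ lam` because `x.1 ⊆ V_λ` (`ZFSet.subset_vonNeumann`).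
* `suc_iff`: for `a < lam`: the successor of `vo lam a` is `vo lam (a + 1)` (`Ordinal.toZFSet_add_one`).
* `pair_iff` (`λ` a limit, `x, y` in `V_λ`): `IsPair (VE lam) p x y ↔ p.1 = ZFSet.pair x.1 y.1` (`ZFSet.pair x y = {{x}, {x, y}}`; the sets `{x}`, `{x, y}` are in `V_λ`, ranks below `λ`: `ZFSet.rank_pair`, `ZFSet.rank_singleton`). `rel_iff` follows. `pair_sm`: the pair is in `V_λ`.
* `omega_iff`: `IsOmega (VE lam) x ↔ x = vo lam ω` for `ω < lam`, `λ` a limit.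
-/

set_option autoImplicit false

open Set Function Cardinal

namespace Pool.Agent.H8MC

open Pool.Agent.H5Z

variable {lam : Ordinal.{0}}

theorem sub_iff (x y : Vs lam) : SubIn (VE lam) x y ↔ x.1 ⊆ y.1 := by
  constructor
  · intro h z hz
    obtain ⟨z', rfl⟩ := exists_vs hz
    exact h z' hz
  · intro h z hz
    exact h hz

theorem sub_vo {a b : Ordinal.{0}} (ha : a ≤ lam) (hb : b ≤ lam) : SubIn (VE lam) (vo lam a) (vo lam b) ↔ a ≤ b := by
  rw [sub_iff, vo_val ha, vo_val hb]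
  exact Ordinal.toZFSet_subset_toZFSet_iff

theorem ord_iff (x : Vs lam) : OrdIn (VE lam) x ↔ ∃ a ≤ lam, x = vo lam a := by
  constructor
  · rintro ⟨h1, h2⟩
    have hO : ZFSet.IsOrdinal x.1 := by
      rw [ZFSet.isOrdinal_iff_forall_mem_isTransitive]
      refine ⟨fun y hy => ?_, fun y hy z hz => ?_⟩
      · obtain ⟨y', rfl⟩ := exists_vs hy
        exact (sub_iff y' x).1 (h1 y' hy)
      · obtain ⟨y', rfl⟩ := exists_vs hy
        obtain ⟨z', rfl⟩ := exists_vs hz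
        exact (sub_iff z' y').1 (h2 y' hy z' hz)
    have hr : x.1.rank ≤ lam := ZFSet.subset_vonNeumann.1 x.2
    exact ⟨x.1.rank, hr, vs_ext (by rw [vo_val hr, hO.toZFSet_rank_eq])⟩
  · rintro ⟨a, ha, rfl⟩
    have hO : ZFSet.IsOrdinal (vo lam a).1 := by
      rw [vo_val ha]
      exact ZFSet.isOrdinal_toZFSet a
    rw [ZFSet.isOrdinal_iff_forall_mem_isTransitive] at hO
    exact ⟨fun y hy => (sub_iff _ _).2 (hO.1 _ hy), fun y hy z hz => (sub_iff _ _).2 (hO.2 _ hy _ hz)⟩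

theorem suc_iff {a : Ordinal.{0}} (ha : a < lam) (x : Vs lam) :
    (∀ z, VE lam z x ↔ VE lam z (vo lam a) ∨ z = vo lam a) ↔ x = vo lam (a + 1) := by
  have h1 : a + 1 ≤ lam := Order.add_one_le_of_lt ha
  have key : ∀ z : Vs lam, VE lam z (vo lam (a + 1)) ↔ VE lam z (vo lam a) ∨ z = vo lam a := by
    intro z
    rw [mem_vo h1, mem_vo ha.le]
    constructor
    · rintro ⟨b, hb, rfl⟩
      rcases (Order.lt_add_one_iff.1 hb).lt_or_eq with h | h
      · exact Or.inl ⟨b, h, rfl⟩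
      · exact Or.inr (by rw [h])
    · rintro (⟨b, hb, rfl⟩ | rfl)
      · exact ⟨b, Order.lt_add_one_iff.2 hb.le, rfl⟩
      · exact ⟨a, Order.lt_add_one_iff.2 le_rfl, rfl⟩
  constructor
  · intro h
    refine vs_ext (ZFSet.ext fun z => ⟨fun hz => ?_, fun hz => ?_⟩)
    · obtain ⟨z', rfl⟩ := exists_vs hz
      exact (key z').2 ((h z').1 hz)
    · obtain ⟨z', rfl⟩ := exists_vs hz
      exact (h z').2 ((key z').1 hz)
  · rintro rfl
    exact key

end Pool.Agent.H8MC
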