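import Pool.Agent.Lib.H8MC.IDefs

/-!
# IC: absoluteness in `V_(λ+1)` (S/M)

* `sm_of_mem`: if `z ∈ x.1`, `x : Vs lam`, then `z ∈ V_λ`, `rank z < λ`; and `z ⊆ V_λ`, so `z` is (the value of) an element of `Vs lam`.
* `mem_vsep`. `mem_vo`: `z ∈ (vo lam a).1 ↔ ∃ b < a, z = b.toZFSet` for `a ≤ lam` (`ZFSet.mem_toZFSet_iff`-like lemma `Ordinal.mem_toZFSet_iff`).
* `sub_iff`: `SubIn` is `⊆` (elements of elements are in `Vs lam`).
* `ord_iff`: `OrdIn (VE lam) x ↔ ∃ a ≤ lam, x = vo lam a`: `OrdIn` says that `x.1` is a transitive set of transitive sets (`ZFSet.IsOrdinal`, `ZFSet.isOrdinal_iff_forall_mem_isTransitive`), so `x.1 = a.toZFSet` for `a = rank x.1` (`IsOrdinal.toZFSet_rank_eq`), `a ≤ lam` because `x.1 ⊆ V_λ` (`ZFSet.subset_vonNeumann`).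
* `suc_iff`: for `a < lam`: the successor of `vo lam a` is `vo lam (a + 1)` (`Ordinal.toZFSet_add_one`).
* `pair_iff` (`λ` a limit, `x, y` in `V_λ`): `IsPair (VE lam) p x y ↔ p.1 = ZFSet.pair x.1 y.1` (`ZFSet.pair x y = {{x}, {x, y}}`; the sets `{x}`, `{x, y}` are in `V_λ`, ranks below `λ`: `ZFSet.rank_pair`, `ZFSet.rank_singleton`). `rel_iff` follows. `pair_sm`: the pair is in `V_λ`.
* `omega_iff`: `IsOmega (VE lam) x ↔ x = vo lam ω` for `ω < lam`, `λ` a limit.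
-/

set_option autoImplicit false

open Set Function Cardinal

namespace Pool.Agent.H8MC

open Pool.Agent.H5Z

variable {lam : Ordinal.{0}}

theorem vs_ext {x y : Vs lam} (h : x.1 = y.1) : x = y := Subtype.ext h

theorem sm_of_mem {x : Vs lam} {z : ZFSet.{0}} (h : z ∈ x.1) : z ∈ ZFSet.vonNeumann lam := x.2 h

theorem exists_vs {x : Vs lam} {z : ZFSet.{0}} (h : z ∈ x.1) : ∃ y : Vs lam, y.1 = z :=
  ⟨⟨z, (ZFSet.isTransitive_vonNeumann lam).subset_of_mem (sm_of_mem h)⟩, rfl⟩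

theorem mem_vsep {P : ZFSet.{0} → Prop} {z : ZFSet.{0}} : z ∈ (vsep lam P).1 ↔ z ∈ ZFSet.vonNeumann lam ∧ P z :=
  ZFSet.mem_sep

theorem mem_vo {a : Ordinal.{0}} (ha : a ≤ lam) (x : Vs lam) : VE lam x (vo lam a) ↔ ∃ b < a, x = vo lam b := by
  unfold VE
  rw [vo_val ha, Ordinal.mem_toZFSet_iff]
  constructor
  · rintro ⟨b, hb, he⟩
    exact ⟨b, hb, vs_ext (by rw [vo_val (hb.le.trans ha), he])⟩
  · rintro ⟨b, hb, rfl⟩
    exact ⟨b, hb, (vo_val (hb.le.trans ha)).symm⟩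

theorem vo_inj {a b : Ordinal.{0}} (ha : a ≤ lam) (hb : b ≤ lam) (h : vo lam a = vo lam b) : a = b := by
  have h1 := congrArg Subtype.val h
  rw [vo_val ha, vo_val hb] at h1
  exact Ordinal.toZFSet_injective h1

theorem vo_mem_vo {a b : Ordinal.{0}} (ha : a ≤ lam) (hb : b ≤ lam) : VE lam (vo lam a) (vo lam b) ↔ a < b := by
  unfold VE
  rw [vo_val ha, vo_val hb]
  exact Ordinal.toZFSet_mem_toZFSet_iff

end Pool.Agent.H8MC
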