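import Pool.Agent.Lib.H8MC.ICp2
import Pool.Agent.Lib.H8MC.IC

/-!
# ICp: pairs and omega in `V_(λ+1)` (S/M)

`λ` is a limit (`hl`). See IC.

* `pair_sm`: the Kuratowski pair `ZFSet.pair x y = {{x}, {x, y}}` of elements of `V_λ` is in `V_λ`: ranks (`ZFSet.mem_vonNeumann`, `ZFSet.rank_pair`, `ZFSet.rank_singleton`, `ZFSet.pair` is `{{x}, {x, y}}`).
* `pair_iff`: both sides say that the elements of `p.1` are the sets `{x}` and `{x, y}`; (`∀ u, u ∈ z ↔ u = x` for `z : Vs lam` means `z.1 = {x.1}`, since `x.1 ∈ V_λ`).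
* `rel_iff`: `Rel (VE lam) x y r ↔ ZFSet.pair x.1 y.1 ∈ r.1`.
* `omega_iff`: `IsInd`, `IsOmega`: `(vo lam ω).1 = ω.toZFSet` is inductive (elements `n.toZFSet`, `Ordinal.toZFSet_zero`, `suc_iff`); every inductive `u : Vs lam` contains all `vo lam n` (induction on `n`), so `vo lam ω ⊆ u`; `IsOmega` says `x` is inductive and contained in every inductive set, so `x = vo lam ω`
  by extensionality.
* `exists_rel`: `vsep` of the pairs `ZFSet.pair x.1 y.1`, `R x y`. (A pair is not empty; if `x.1` is not in `V_λ` then `IsPair (VE lam) p x y` implies that `p` is empty, so `Rel (VE lam) x y r` fails. For `x` in `V_λ` and `y` not in `V_λ` nothing is claimed.)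
-/

set_option autoImplicit false

open Set Function Cardinal

namespace Pool.Agent.H8MC

open Pool.Agent.H5Z

variable {lam : Ordinal.{0}}

theorem icp_ext {x y : Vs lam} (h : ∀ z : Vs lam, VE lam z x ↔ VE lam z y) : x = y := by
  refine vs_ext (ZFSet.ext fun z => ⟨fun hz => ?_, fun hz => ?_⟩)
  · obtain ⟨w, hw⟩ := exists_vs hz
    subst hw
    exact (h w).1 hz
  · obtain ⟨w, hw⟩ := exists_vs hz
    subst hw
    exact (h w).2 hz

theorem icp_ind (h0 : Ordinal.omega0 < lam) : IsInd (VE lam) (vo lam Ordinal.omega0) := by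
  refine ⟨⟨vo lam 0, ?_, fun z hz => ?_⟩, fun x hx => ?_⟩
  · exact (vo_mem_vo (zero_le (a := lam)) h0.le).2 Ordinal.omega0_pos
  · obtain ⟨b, hb, -⟩ := (mem_vo (zero_le (a := lam)) z).1 hz
    exact not_lt_zero hb
  · obtain ⟨b, hb, rfl⟩ := (mem_vo h0.le x).1 hx
    have hb1 : b + 1 < Ordinal.omega0 := by
      obtain ⟨n, rfl⟩ := Ordinal.lt_omega0.1 hb
      exact_mod_cast Ordinal.nat_lt_omega0 (n + 1)
    exact ⟨vo lam (b + 1), (vo_mem_vo (hb1.trans h0).le h0.le).2 hb1, (suc_iff (hb.trans h0) (vo lam (b + 1))).2 rfl⟩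

theorem icp_min (h0 : Ordinal.omega0 < lam) (u : Vs lam) (hu : IsInd (VE lam) u) (z : Vs lam)
    (hz : VE lam z (vo lam Ordinal.omega0)) : VE lam z u := by
  obtain ⟨b, hb, rfl⟩ := (mem_vo h0.le z).1 hz
  obtain ⟨n, rfl⟩ := Ordinal.lt_omega0.1 hb
  clear hz hb
  induction n with
  | zero =>
    obtain ⟨e, he, he'⟩ := hu.1
    have h1 : e = vo lam 0 := by
      refine icp_ext fun z => ⟨fun h => (he' z h).elim, fun h => ?_⟩
      obtain ⟨b, hb, -⟩ := (mem_vo (zero_le (a := lam)) z).1 h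
      exact (not_lt_zero hb).elim
    rw [h1] at he
    simpa using he
  | succ n ih =>
    obtain ⟨s, hs, hs'⟩ := hu.2 _ ih
    have h1 : s = vo lam ((n : Ordinal.{0}) + 1) := (suc_iff ((Ordinal.nat_lt_omega0 n).trans h0) s).1 hs'
    rw [h1] at hs
    rw [Nat.cast_succ]
    exact hs

theorem omega_iff (hl : ∀ a < lam, a + 1 < lam) (h0 : Ordinal.omega0 < lam) (x : Vs lam) :
    IsOmega (VE lam) x ↔ x = vo lam Ordinal.omega0 := by
  constructor
  · rintro ⟨h1, h2⟩
    exact icp_ext fun z => ⟨h2 _ (icp_ind h0) z, icp_min h0 x h1 z⟩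
  · rintro rfl
    exact ⟨icp_ind h0, icp_min h0⟩

end Pool.Agent.H8MC
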