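import Pool.Agent.Lib.H8MC.IC

/-!
# ICp: pairs and omega in `V_(λ+1)` (S/M)

`λ` is a limit (`hl`). See IC.

* `pair_sm`: the Kuratowski pair `ZFSet.pair x y = {{x}, {x, y}}` of elements of `V_λ` is in `V_λ`: ranks (`ZFSet.mem_vonNeumann`, `ZFSet.rank_pair`, `ZFSet.rank_singleton`, `ZFSet.pair` is `{{x}, {x, y}}`).
* `pair_iff`: both sides say that the elements of `p.1` are the sets `{x}` and `{x, y}`; (`∀ u, u ∈ z ↔ u = x` for `z : Vs lam` means `z.1 = {x.1}`, since `x.1 ∈ V_λ`).
* `rel_iff`: `Rel (VE lam) x y r ↔ ZFSet.pair x.1 y.1 ∈ r.1`.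
* `omega_iff`: `IsInd`, `IsOmega`: `(vo lam ω).1 = ω.toZFSet` is inductive (elements `n.toZFSet`, `Ordinal.toZFSet_zero`, `suc_iff`); every inductive `u : Vs lam` contains all `vo lam n` (induction on `n`), so `vo lam ω ⊆ u`; `IsOmega` says `x` is inductive and contained in every inductive set, so `x = vo lam ω`
  by extensionality.
* `exists_rel`: `vsep` of the pairs `ZFSet.pair x.1 y.1`, `R x y`. (A pair is not empty; if `x.1` is not in `V_λ` then `IsPair (VE lam) p x y` implies that `p` is empty, so `Rel (VE lam) x y r` fails. For `x` in `V_λ` and `y` not in `V_λ` nothing is claimed.)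
-/

set_option autoImplicit false

open Set Function Cardinal

namespace Pool.Agent.H8MC

open Pool.Agent.H5Z

variable {lam : Ordinal.{0}}

theorem icp1_two (hl : ∀ a < lam, a + 1 < lam) {x y : ZFSet.{0}} (hx : x ∈ ZFSet.vonNeumann lam)
    (hy : y ∈ ZFSet.vonNeumann lam) : ({x, y} : ZFSet.{0}) ∈ ZFSet.vonNeumann lam := by
  rw [ZFSet.mem_vonNeumann] at hx hy ⊢
  rw [ZFSet.rank_pair]
  exact max_lt (hl _ hx) (hl _ hy)

theorem icp1_one (hl : ∀ a < lam, a + 1 < lam) {x : ZFSet.{0}} (hx : x ∈ ZFSet.vonNeumann lam) :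
    ({x} : ZFSet.{0}) ∈ ZFSet.vonNeumann lam := by
  rw [ZFSet.mem_vonNeumann] at hx ⊢
  rw [ZFSet.rank_singleton]
  exact hl _ hx

theorem icp1_A (x z : Vs lam) : (∀ u : Vs lam, VE lam u z ↔ u = x) ↔ z.1 = {x.1} := by
  constructor
  · intro h
    ext w
    rw [ZFSet.mem_singleton]
    constructor
    · intro hw
      obtain ⟨u, hu⟩ := exists_vs hw
      have h1 : VE lam u z := by
        show u.1 ∈ z.1
        rw [hu]
        exact hw
      rw [← hu, (h u).1 h1]
    · intro hw
      rw [hw]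
      exact (h x).2 rfl
  · intro h u
    show u.1 ∈ z.1 ↔ u = x
    rw [h, ZFSet.mem_singleton]
    exact ⟨fun h1 => vs_ext h1, fun h1 => by rw [h1]⟩

theorem icp1_B (x y z : Vs lam) : (∀ u : Vs lam, VE lam u z ↔ u = x ∨ u = y) ↔ z.1 = {x.1, y.1} := by
  constructor
  · intro h
    ext w
    rw [ZFSet.mem_pair]
    constructor
    · intro hw
      obtain ⟨u, hu⟩ := exists_vs hw
      have h1 : VE lam u z := by
        show u.1 ∈ z.1
        rw [hu]
        exact hw
      rcases (h u).1 h1 with h2 | h2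
      · left
        rw [← hu, h2]
      · right
        rw [← hu, h2]
    · rintro (hw | hw)
      · rw [hw]
        exact (h x).2 (Or.inl rfl)
      · rw [hw]
        exact (h y).2 (Or.inr rfl)
  · intro h u
    show u.1 ∈ z.1 ↔ u = x ∨ u = y
    rw [h, ZFSet.mem_pair]
    constructor
    · rintro (h1 | h1)
      · exact Or.inl (vs_ext h1)
      · exact Or.inr (vs_ext h1)
    · rintro (h1 | h1)
      · exact Or.inl (by rw [h1])
      · exact Or.inr (by rw [h1])

theorem icp1_mem_pair (x y w : ZFSet.{0}) : w ∈ ZFSet.pair x y ↔ w = {x} ∨ w = {x, y} := ZFSet.mem_pair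

theorem pair_sm (hl : ∀ a < lam, a + 1 < lam) {x y : ZFSet.{0}} (hx : x ∈ ZFSet.vonNeumann lam)
    (hy : y ∈ ZFSet.vonNeumann lam) : ZFSet.pair x y ∈ ZFSet.vonNeumann lam := by
  exact icp1_two hl (icp1_one hl hx) (icp1_two hl hx hy)

theorem pair_iff (hl : ∀ a < lam, a + 1 < lam) (p x y : Vs lam) (hx : x.1 ∈ ZFSet.vonNeumann lam)
    (hy : y.1 ∈ ZFSet.vonNeumann lam) : IsPair (VE lam) p x y ↔ p.1 = ZFSet.pair x.1 y.1 := by
  have e : IsPair (VE lam) p x y ↔ ∀ z : Vs lam, VE lam z p ↔ z.1 = {x.1} ∨ z.1 = {x.1, y.1} := by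
    unfold IsPair
    refine forall_congr' fun z => ?_
    rw [icp1_A, icp1_B]
  rw [e]
  constructor
  · intro h
    ext w
    rw [icp1_mem_pair]
    constructor
    · intro hw
      obtain ⟨u, hu⟩ := exists_vs hw
      have h1 : VE lam u p := by
        show u.1 ∈ p.1
        rw [hu]
        exact hw
      rw [← hu]
      exact (h u).1 h1
    · rintro (hw | hw)
      · have h1 : w ⊆ ZFSet.vonNeumann lam := by
          intro z hz
          rw [hw, ZFSet.mem_singleton] at hz
          rw [hz]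
          exact hx
        exact (h ⟨w, h1⟩).2 (Or.inl hw)
      · have h1 : w ⊆ ZFSet.vonNeumann lam := by
          intro z hz
          rw [hw, ZFSet.mem_pair] at hz
          rcases hz with hz | hz
          · rw [hz]
            exact hx
          · rw [hz]
            exact hy
        exact (h ⟨w, h1⟩).2 (Or.inr hw)
  · intro h z
    show z.1 ∈ p.1 ↔ _
    rw [h, icp1_mem_pair]

theorem rel_iff (hl : ∀ a < lam, a + 1 < lam) (x y r : Vs lam) (hx : x.1 ∈ ZFSet.vonNeumann lam)
    (hy : y.1 ∈ ZFSet.vonNeumann lam) : Rel (VE lam) x y r ↔ ZFSet.pair x.1 y.1 ∈ r.1 := by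
  constructor
  · rintro ⟨p, hp, hr⟩
    rw [pair_iff hl p x y hx hy] at hp
    have h1 : p.1 ∈ r.1 := hr
    rwa [hp] at h1
  · intro h
    obtain ⟨p, hp⟩ := exists_vs h
    refine ⟨p, (pair_iff hl p x y hx hy).2 hp, ?_⟩
    show p.1 ∈ r.1
    rw [hp]
    exact h

end Pool.Agent.H8MC
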