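import Pool.Agent.Lib.H8MC.ICp1
import Pool.Agent.Lib.H8MC.IC

/-!
# ICp: pairs and omega in `V_(λ+1)` (S/M)

`λ` is a limit (`hl`). See IC.

* `pair_sm`: the Kuratowski pair `ZFSet.pair x y = {{x}, {x, y}}` of elements of `V_λ` is in `V_λ`: ranks (`ZFSet.mem_vonNeumann`, `ZFSet.rank_pair`, `ZFSet.rank_singleton`, `ZFSet.pair` is `{{x}, {x, y}}`).
* `pair_iff`: both sides say that the elements of `p.1` are the sets `{x}` and `{x, y}`; (`∀ u, u ∈ z ↔ u = x` for `z : Vs lam` means `z.1 = {x.1}`, since `x.1 ∈ V_λ`).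
* `rel_iff`: `Rel (VE lam) x y r ↔ ZFSet.pair x.1 y.1 ∈ r.1`.
* `omega_iff`: `IsInd`, `IsOmega`: `(vo lam ω).1 = ω.toZFSet` is inductive (elements `n.toZFSet`, `Ordinal.toZFSet_zero`, `suc_iff`); every inductive `u : Vs lam` contains all `vo lam n` (induction on `n`), so `vo lam ω ⊆ u`; `IsOmega` says `x` is inductive and contained in every inductive set, so `x = vo lam ω`
  by extensionality.
* `exists_rel`: `vsep` of the pairs `ZFSet.pair x.1 y.1`, `R x y`. (A pair is not empty; if `x.1` is not in `V_λ` then `IsPair (VE lam) p x y` implies that `p` is empty, so `Rel (VE lam) x y r` fails. For `x` in `V_λ` and `y` not in `V_λ` nothing is claimed.)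
-/

set_option autoImplicit false

open Set Function Cardinal

namespace Pool.Agent.H8MC

open Pool.Agent.H5Z

variable {lam : Ordinal.{0}}

/-- Every relation between elements of `V_λ` is an element of `V_(λ+1)`. -/
theorem exists_rel (hl : ∀ a < lam, a + 1 < lam) (R : Vs lam → Vs lam → Prop) : ∃ r : Vs lam,
    (∀ x y : Vs lam, x.1 ∈ ZFSet.vonNeumann lam → y.1 ∈ ZFSet.vonNeumann lam → (Rel (VE lam) x y r ↔ R x y)) ∧
    ∀ x y : Vs lam, Rel (VE lam) x y r → x.1 ∈ ZFSet.vonNeumann lam := by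
  refine ⟨vsep lam (fun z => ∃ x y : Vs lam, (x.1 ∈ ZFSet.vonNeumann lam ∧ y.1 ∈ ZFSet.vonNeumann lam) ∧ z = ZFSet.pair x.1 y.1 ∧ R x y), fun x y hx hy => ?_, fun x y h => ?_⟩
  · rw [rel_iff hl x y _ hx hy, mem_vsep]
    constructor
    · rintro ⟨-, x', y', -, h1, h2⟩
      have h3 := ZFSet.pair_inj.1 h1
      have hx' : x = x' := vs_ext h3.1
      have hy' : y = y' := vs_ext h3.2
      rw [hx', hy']
      exact h2
    · intro h
      exact ⟨pair_sm hl hx hy, x, y, ⟨hx, hy⟩, rfl, h⟩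
  · obtain ⟨p, h1, h2⟩ := h
    have h3 : p.1 ∈ (vsep lam (fun z => ∃ x y : Vs lam, (x.1 ∈ ZFSet.vonNeumann lam ∧ y.1 ∈ ZFSet.vonNeumann lam) ∧ z = ZFSet.pair x.1 y.1 ∧ R x y)).1 := h2
    rw [mem_vsep] at h3
    obtain ⟨-, x', y', ⟨hx', -⟩, h4, -⟩ := h3
    have h5 : ({x'.1} : ZFSet.{0}) ∈ p.1 := by
      rw [h4]
      unfold ZFSet.pair
      rw [ZFSet.mem_pair]
      exact Or.inl rfl
    obtain ⟨z, hz⟩ := exists_vs h5
    have h6 : VE lam z p := by
      show z.1 ∈ p.1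
      rw [hz]
      exact h5
    have h7 : VE lam x z := by
      rcases (h1 z).1 h6 with h | h
      · exact (h x).2 rfl
      · exact (h x).2 (Or.inl rfl)
    have h8 : x.1 ∈ z.1 := h7
    rw [hz, ZFSet.mem_singleton] at h8
    rw [h8]
    exact hx'

end Pool.Agent.H8MC
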