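import Pool.Agent.Lib.H8MC.ID1
import Pool.Agent.Lib.H8MC.IB
import Pool.Agent.Lib.H8MC.IC

/-!
# ID: the ordinal function of `j` (S/M)

`d : JD kap lam j`. Elementarity is used through `elem_iff` with the definability lemmas of `IB` (for `v = ![x, y, ..]`; `by simpa using` the instance).

* `j_mem`: `VE lam x y ↔ VE lam (j x) (j y)`; `j_inj`: `x = y ↔ j x = j y`.
* `j_vo`: for `a ≤ lam`: `j (vo lam a) = vo lam (Jo j a)` and `Jo j a ≤ lam`: `ord_iff` and `def_ord`; the rank of `b.toZFSet` is `b` (`ZFSet.rank_toZFSet`).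
* `J_lt`: `a < b ≤ lam → Jo j a < Jo j b` (`vo_mem_vo`, `j_mem`). `J_ge`: `a ≤ Jo j a` for `a ≤ lam` (strictly increasing, well-founded induction). `J_fix`: `Jo j a = a` for `a < kap`; `J_crit`: `kap < Jo j kap`; `J_top`.
* `J_suc`: `Jo j (a + 1) = Jo j a + 1` for `a < lam` (`suc_iff`, `def_suc`).
* `lam_lim`: `a < lam → a + 1 < lam`: otherwise `lam = a + 1`, `Jo j a + 1 = lam = a + 1`, so `Jo j a = a`; `kap ≤ a`, so `a = kap` contradicts `crit`, `kap < a` contradicts `first`.
* `not_range`: `Jo j a ≠ kap` for `a ≤ lam`: `a < kap`: `Jo j a = a`; `kap ≤ a`: `Jo j a ≥ Jo j kap > kap`.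
-/

set_option autoImplicit false

open Set Function Cardinal

namespace Pool.Agent.H8MC

open Pool.Agent.H5Z

variable {kap lam : Ordinal.{0}} {j : Vs lam → Vs lam}

theorem J_suc (d : JD kap lam j) {a : Ordinal.{0}} (ha : a < lam) : Jo j (a + 1) = Jo j a + 1 := by
  have hJ : Jo j a < lam := by
    have h := J_lt d ha le_rfl
    rwa [J_top d] at h
  have ha1 : a + 1 ≤ lam := Order.add_one_le_of_lt ha
  have h1 := (suc_iff ha (vo lam (a + 1))).2 rfl
  have h2 := elem_iff d.elem (def_suc (VE lam)) ![vo lam (a + 1), vo lam a]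
  have h3 : ∀ z, VE lam z (j (vo lam (a + 1))) ↔ VE lam z (j (vo lam a)) ∨ z = j (vo lam a) := h2.1 h1
  rw [j_vo d ha.le] at h3
  have h4 : j (vo lam (a + 1)) = vo lam (Jo j a + 1) := (suc_iff hJ _).1 h3
  rw [j_vo d ha1] at h4
  exact vo_inj (J_le d ha1) (Order.add_one_le_of_lt hJ) h4

theorem lam_lim (d : JD kap lam j) : ∀ a < lam, a + 1 < lam := by
  intro a ha
  by_contra h
  have h1 : a + 1 = lam := le_antisymm (Order.add_one_le_of_lt ha) (not_lt.1 h)
  have h2 := J_suc d ha
  rw [h1, J_top d] at h2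
  have h2 : a + 1 = Jo j a + 1 := h1.trans h2
  have h3 : a = Jo j a := by
    rcases lt_trichotomy a (Jo j a) with h4 | h4 | h4
    · exact absurd (Order.add_one_le_of_lt h4) (by rw [h2]; exact not_le.2 (lt_add_one _))
    · exact h4
    · exact absurd (Order.add_one_le_of_lt h4) (by rw [← h2]; exact not_le.2 (lt_add_one _))
  have h5 : kap ≤ a := by
    have h6 := d.lt
    rw [← h1] at h6
    exact Order.lt_add_one_iff.1 h6
  rcases h5.eq_or_lt with h6 | h6
  · have h7 := J_crit d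
    rw [h6, ← h3] at h7
    exact lt_irrefl _ h7
  · refine d.first a h6 ha ?_
    rw [j_vo d ha.le, ← h3]

theorem not_range (d : JD kap lam j) {a : Ordinal.{0}} (ha : a ≤ lam) : Jo j a ≠ kap := by
  rcases lt_trichotomy a kap with h | h | h
  · rw [J_fix d h]
    exact h.ne
  · rw [h]
    exact (J_crit d).ne'
  · exact ((J_crit d).trans (J_lt d h ha)).ne'

end Pool.Agent.H8MC
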