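import Pool.Agent.Lib.H8MC.IB
import Pool.Agent.Lib.H8MC.IC

/-!
# ID: the ordinal function of `j` (S/M)

`d : JD kap lam j`. Elementarity is used through `elem_iff` with the definability lemmas of `IB` (for `v = ![x, y, ..]`; `by simpa using` the instance).

* `j_mem`: `VE lam x y ↔ VE lam (j x) (j y)`; `j_inj`: `x = y ↔ j x = j y`.
* `j_vo`: for `a ≤ lam`: `j (vo lam a) = vo lam (Jo j a)` and `Jo j a ≤ lam`: `ord_iff` and `def_ord`; the rank of `b.toZFSet` is `b` (`ZFSet.rank_toZFSet`).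
* `J_lt`: `a < b ≤ lam → Jo j a < Jo j b` (`vo_mem_vo`, `j_mem`). `J_ge`: `a ≤ Jo j a` for `a ≤ lam` (strictly increasing, well-founded induction). `J_fix`: `Jo j a = a` for `a < kap`; `J_crit`: `kap < Jo j kap`; `J_top`.
* `J_suc`: `Jo j (a + 1) = Jo j a + 1` for `a < lam` (`suc_iff`, `def_suc`).
* `lam_lim`: `a < lam → a + 1 < lam`: otherwise `lam = a + 1`, `Jo j a + 1 = lam = a + 1`, so `Jo j a = a`; `kap ≤ a`, so `a = kap` contradicts `crit`, `kap < a` contradicts `first`.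
* `not_range`: `Jo j a ≠ kap` for `a ≤ lam`: `a < kap`: `Jo j a = a`; `kap ≤ a`: `Jo j a ≥ Jo j kap > kap`.
-/

set_option autoImplicit false

open Set Function Cardinal

namespace Pool.Agent.H8MC

open Pool.Agent.H5Z

variable {kap lam : Ordinal.{0}} {j : Vs lam → Vs lam}

theorem j_mem (d : JD kap lam j) (x y : Vs lam) : VE lam x y ↔ VE lam (j x) (j y) := by
  have h := elem_iff d.elem (DefN.mem (E := VE lam) (Proj.var (0 : Fin 2)) (Proj.var (1 : Fin 2))) ![x, y]
  exact h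

theorem j_inj (d : JD kap lam j) (x y : Vs lam) : x = y ↔ j x = j y := by
  have h := elem_iff d.elem (DefN.eq (E := VE lam) (Proj.var (0 : Fin 2)) (Proj.var (1 : Fin 2))) ![x, y]
  exact h

theorem id1_vo (d : JD kap lam j) {a : Ordinal.{0}} (ha : a ≤ lam) : ∃ b ≤ lam, j (vo lam a) = vo lam b := by
  have h := elem_iff d.elem (def_ord (VE lam)) ![vo lam a]
  exact (ord_iff _).1 (h.1 ((ord_iff _).2 ⟨a, ha, rfl⟩))

theorem J_le (d : JD kap lam j) {a : Ordinal.{0}} (ha : a ≤ lam) : Jo j a ≤ lam := by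
  obtain ⟨b, hb, e⟩ := id1_vo d ha
  rw [Jo, e, vo_val hb, Ordinal.rank_toZFSet]
  exact hb

theorem j_vo (d : JD kap lam j) {a : Ordinal.{0}} (ha : a ≤ lam) : j (vo lam a) = vo lam (Jo j a) := by
  obtain ⟨b, hb, e⟩ := id1_vo d ha
  rw [Jo, e, vo_val hb, Ordinal.rank_toZFSet]

theorem J_lt (d : JD kap lam j) {a b : Ordinal.{0}} (h : a < b) (hb : b ≤ lam) : Jo j a < Jo j b := by
  have ha : a ≤ lam := (h.trans_le hb).le
  have h1 := (j_mem d _ _).1 ((vo_mem_vo ha hb).2 h)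
  rw [j_vo d ha, j_vo d hb] at h1
  exact (vo_mem_vo (J_le d ha) (J_le d hb)).1 h1

theorem J_ge (d : JD kap lam j) {a : Ordinal.{0}} (ha : a ≤ lam) : a ≤ Jo j a := by
  induction a using WellFoundedLT.induction with
  | ind a ih =>
    by_contra hlt
    rw [not_le] at hlt
    exact absurd (ih _ hlt (hlt.le.trans ha)) (not_le.2 (J_lt d hlt ha))

theorem J_fix (d : JD kap lam j) {a : Ordinal.{0}} (ha : a < kap) : Jo j a = a := by
  rw [Jo, d.fix a ha, vo_val (ha.trans d.lt).le, Ordinal.rank_toZFSet]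

theorem J_crit (d : JD kap lam j) : kap < Jo j kap := by
  refine lt_of_le_of_ne (J_ge d d.lt.le) fun h => d.crit ?_
  rw [j_vo d d.lt.le, ← h]

theorem J_top (d : JD kap lam j) : Jo j lam = lam := by
  rw [Jo, d.top, vo_val le_rfl, Ordinal.rank_toZFSet]

end Pool.Agent.H8MC
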