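import Pool.Agent.Lib.H8MC.ID
import Pool.Agent.Lib.H8MC.ICp

/-!
# IE: omega, countable sets, regularity (S/M, M)

* `om_lt`: `ω < kap`: `Jo j n = n` for `n : ℕ` by induction (`J_suc`; `Jo j 0 = 0`: `vo lam 0` has no elements, and having no elements is definable; or: if `Jo j 0 > 0` then.. use definability of `∀ z, ¬ E z x`), so `kap ≠ n`, `ω ≤ kap < lam`; `Jo j ω = ω` by `def_omega`, `omega_iff`; so `kap ≠ ω`.
  (`kap ≤ n` is impossible for the same reason; `kap = a` finite would be fixed.)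
* `j_enum`: let `y : Vs lam` with elements exactly the `u n`, `n : ℕ`, where `(u n).1 ∈ V_λ`. By `exists_rel` there is `f` with `Rel (vo lam n) z f ↔ z = u n` for `z` in `V_λ` (`R x z := ∃ n : ℕ, x = vo lam n ∧ z = u n`). By `def_enum` (elementarity for `vo lam ω`, `y`, `f`; `j (vo lam ω) = vo lam ω`) every element `z` of `j y`
  is related to some `vo lam n` by `j f`; also `Rel (vo lam n) (j (u n)) (j f)` (`def_rel`, `j (vo lam n) = vo lam n`) and `j (u n) ∈ j y`; so `z = j (u n)`.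
* `not_nreg`: suppose `g, f` as in `NReg` for `vo lam kap`: `g = vo lam a`, `a < kap`, `j g = g`. By elementarity (`def_nreg` is not enough: use the definability of the body, with the parameters `g`, `f`, `k`; prove it as in `IB`) the same holds for `g`, `j f`, `vo lam (Jo j kap)`. Take `d = vo lam kap`: `x ∈ g`, `y ∈ vo lam (Jo j kap)`,
  `Rel x y (j f)`, `kap ≤ y`. `x = vo lam b`, `b < kap`, `j x = x`. There is `y₀ ∈ vo lam kap` with `Rel x y₀ f`, so `Rel x (j y₀) (j f)`, `j y₀ = y₀`. By uniqueness `y = y₀ < kap`, a contradiction.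
* `j_sub`: if `x ⊆ vo lam a`, `a < kap` then `j x = x`: the elements of `j x` are in `j (vo lam a) = vo lam a`, so of the form `vo lam b`, `b < a`, `j (vo lam b) = vo lam b`; `j_mem`.
* `not_nsl`: suppose `g, f` as in `NSL` for `vo lam kap`; the body holds for `g`, `j f`, `vo lam (Jo j kap)`. Take `y = vo lam kap`: `x` with `Rel x (vo lam kap) (j f)`, so `x ⊆ g`, `j x = x` (`j_sub`). By elementarity of `∃ y ∈ k, Rel x y f` (parameters `x, k, f`) there is `y₀ ∈ vo lam kap` with `Rel x y₀ f`, so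
  `Rel x (j y₀) (j f)`, `j y₀ = y₀`; functionality: `y₀ = vo lam kap`, a contradiction.
-/

set_option autoImplicit false

open Set Function Cardinal

namespace Pool.Agent.H8MC

open Pool.Agent.H5Z

variable {kap lam : Ordinal.{0}} {j : Vs lam → Vs lam}

theorem ie1_zero (d : JD kap lam j) : Jo j 0 = 0 := by
  have hd : DefN (VE lam) 1 (fun v => ∀ z, ¬ VE lam z (v 0)) :=
    DefN.all (P := fun v z => ¬ VE lam z (v 0)) (DefN.not (DefN.mem ⟨_, rfl⟩ ⟨_, rfl⟩))
  have h := elem_iff d.elem hd (fun _ => vo lam 0)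
  have h1 : ∀ z, ¬ VE lam z (vo lam 0) := by
    intro z hz
    obtain ⟨b, hb, _⟩ := (mem_vo zero_le z).1 hz
    exact not_lt_of_ge zero_le hb
  have h2 : ∀ z, ¬ VE lam z (j (vo lam 0)) := h.1 h1
  rw [j_vo d zero_le] at h2
  by_contra hne
  exact h2 (vo lam 0) ((vo_mem_vo zero_le (J_le d zero_le)).2 (pos_iff_ne_zero.mpr hne))

theorem ie1_nat (d : JD kap lam j) : ∀ n : ℕ, (n : Ordinal.{0}) < lam ∧ Jo j (n : Ordinal.{0}) = n := by
  intro n
  induction n with
  | zero =>
    rw [Nat.cast_zero]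
    exact ⟨lt_of_le_of_lt zero_le d.lt, ie1_zero d⟩
  | succ n ih =>
    rw [Nat.cast_succ]
    exact ⟨lam_lim d _ ih.1, by rw [J_suc d ih.1, ih.2]⟩

theorem om_lt (d : JD kap lam j) : Ordinal.omega0 < kap := by
  have h1 : Ordinal.omega0 ≤ kap := by
    by_contra hlt
    obtain ⟨n, hn⟩ := Ordinal.lt_omega0.1 (not_le.mp hlt)
    have h2 := J_crit d
    rw [hn, (ie1_nat d n).2] at h2
    exact lt_irrefl _ h2
  have h0 : Ordinal.omega0 < lam := lt_of_le_of_lt h1 d.lt
  have h3 := elem_iff d.elem (def_omega (VE lam)) (fun _ => vo lam Ordinal.omega0)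
  have h4 : IsOmega (VE lam) (j (vo lam Ordinal.omega0)) :=
    h3.1 ((omega_iff (lam_lim d) h0 (vo lam Ordinal.omega0)).2 rfl)
  have h5 := (omega_iff (lam_lim d) h0 _).1 h4
  refine lt_of_le_of_ne h1 ?_
  intro he
  apply d.crit
  rw [← he]
  exact h5

end Pool.Agent.H8MC
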