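import Pool.Agent.Lib.H8MC.IE1
import Pool.Agent.Lib.H8MC.ID
import Pool.Agent.Lib.H8MC.ICp

/-!
# IE: omega, countable sets, regularity (S/M, M)

* `om_lt`: `ω < kap`: `Jo j n = n` for `n : ℕ` by induction (`J_suc`; `Jo j 0 = 0`: `vo lam 0` has no elements, and has no elements is definable; or: if `Jo j 0 > 0` then.. use definability of `∀ z, ¬ E z x`), so `kap ≠ n`, `ω ≤ kap < lam`; `Jo j ω = ω` by `def_omega`, `omega_iff`; so `kap ≠ ω`.
  (`kap ≤ n` is impossible for the same reason; `kap = a` finite would be fixed.)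
* `j_enum`: let `y : Vs lam` with elements exactly the `u n`, `n : ℕ`, where `(u n).1 ∈ V_λ`. By `exists_rel` there is `f` with `Rel (vo lam n) z f ↔ z = u n` for `z` in `V_λ` (`R x z := ∃ n : ℕ, x = vo lam n ∧ z = u n`). By `def_enum` (elementarity for `vo lam ω`, `y`, `f`; `j (vo lam ω) = vo lam ω`) every element `z` of `j y`
  is related to some `vo lam n` by `j f`; also `Rel (vo lam n) (j (u n)) (j f)` (`def_rel`, `j (vo lam n) = vo lam n`) and `j (u n) ∈ j y`; so `z = j (u n)`.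
* `not_nreg`: suppose `g, f` as in `NReg` for `vo lam kap`: `g = vo lam a`, `a < kap`, `j g = g`. By elementarity (`def_nreg` is not enough: use the definability of the body, with the parameters `g`, `f`, `k`; prove it as in `IB`) the same holds for `g`, `j f`, `vo lam (Jo j kap)`. Take `d = vo lam kap`: `x ∈ g`, `y ∈ vo lam (Jo j kap)`,
  `Rel x y (j f)`, `kap ≤ y`. `x = vo lam b`, `b < kap`, `j x = x`. There is `y₀ ∈ vo lam kap` with `Rel x y₀ f`, so `Rel x (j y₀) (j f)`, `j y₀ = y₀`. By uniqueness `y = y₀ < kap`, a contradiction.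
* `j_sub`: if `x ⊆ vo lam a`, `a < kap` then `j x = x`: the elements of `j x` are in `j (vo lam a) = vo lam a`, so of the form `vo lam b`, `b < a`, `j (vo lam b) = vo lam b`; `j_mem`.
* `not_nsl`: suppose `g, f` as in `NSL` for `vo lam kap`; the body holds for `g`, `j f`, `vo lam (Jo j kap)`. Take `y = vo lam kap`: `x` with `Rel x (vo lam kap) (j f)`, so `x ⊆ g`, `j x = x` (`j_sub`). By elementarity of there is `y ∈ k` with `Rel x y f` (parameters `x, k, f`) there is `y₀ ∈ vo lam kap` with `Rel x y₀ f`, so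
  `Rel x (j y₀) (j f)`, `j y₀ = y₀`; functionality: `y₀ = vo lam kap`, a contradiction.
-/

set_option autoImplicit false

open Set Function Cardinal

namespace Pool.Agent.H8MC

open Pool.Agent.H5Z

variable {kap lam : Ordinal.{0}} {j : Vs lam → Vs lam}

theorem j_enum (d : JD kap lam j) (y : Vs lam) (u : ℕ → Vs lam) (hu : ∀ n, (u n).1 ∈ ZFSet.vonNeumann lam)
    (hy : ∀ z, VE lam z y ↔ ∃ n, z = u n) : ∀ z, VE lam z (j y) ↔ ∃ n, z = j (u n) := by
  have hl := lam_lim d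
  have hom : Ordinal.omega0 < lam := (om_lt d).trans d.lt
  have hnl : ∀ n : ℕ, (n : Ordinal.{0}) < lam := fun n => (Ordinal.natCast_lt_omega0 n).trans hom
  have hmem : ∀ n : ℕ, VE lam (vo lam (n : Ordinal.{0})) (vo lam Ordinal.omega0) := fun n =>
    (vo_mem_vo (hnl n).le hom.le).2 (Ordinal.natCast_lt_omega0 n)
  have hsm : ∀ n : ℕ, (vo lam (n : Ordinal.{0})).1 ∈ ZFSet.vonNeumann lam := fun n => sm_of_mem (hmem n)
  obtain ⟨f, hf, _⟩ := exists_rel hl (fun x z => ∃ n : ℕ, x = vo lam (n : Ordinal.{0}) ∧ z = u n)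
  have hP : (∀ z, VE lam z y → ∃ n, VE lam n (vo lam Ordinal.omega0) ∧ Rel (VE lam) n z f) ∧
      ∀ n z z', VE lam n (vo lam Ordinal.omega0) → VE lam z y → VE lam z' y → Rel (VE lam) n z f →
        Rel (VE lam) n z' f → z = z' := by
    refine ⟨?_, ?_⟩
    · intro z hz
      obtain ⟨n, rfl⟩ := (hy z).1 hz
      exact ⟨_, hmem n, (hf _ _ (hsm n) (hu n)).2 ⟨n, rfl, rfl⟩⟩
    · intro n z z' hn hz hz' h h'
      obtain ⟨m, e1, rfl⟩ := (hf _ _ (sm_of_mem hn) (sm_of_mem hz)).1 h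
      obtain ⟨m', e2, rfl⟩ := (hf _ _ (sm_of_mem hn) (sm_of_mem hz')).1 h'
      have e3 : (m : Ordinal.{0}) = m' := vo_inj (hnl m).le (hnl m').le (e1.symm.trans e2)
      have e4 : m = m' := by exact_mod_cast e3
      rw [e4]
  have hjom : j (vo lam Ordinal.omega0) = vo lam Ordinal.omega0 := d.fix _ (om_lt d)
  have hj := (elem_iff d.elem (def_enum (VE lam)) ![vo lam Ordinal.omega0, y, f]).1 hP
  have hj' : (∀ z, VE lam z (j y) → ∃ n, VE lam n (j (vo lam Ordinal.omega0)) ∧ Rel (VE lam) n z (j f)) ∧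
      ∀ n z z', VE lam n (j (vo lam Ordinal.omega0)) → VE lam z (j y) → VE lam z' (j y) → Rel (VE lam) n z (j f) →
        Rel (VE lam) n z' (j f) → z = z' := hj
  rw [hjom] at hj'
  intro z
  refine ⟨fun hz => ?_, ?_⟩
  · obtain ⟨n, hn, hr⟩ := hj'.1 z hz
    obtain ⟨b, hb, rfl⟩ := (mem_vo hom.le n).1 hn
    obtain ⟨m, rfl⟩ := Ordinal.lt_omega0.1 hb
    have h1 : Rel (VE lam) (vo lam (m : Ordinal.{0})) (u m) f := (hf _ _ (hsm m) (hu m)).2 ⟨m, rfl, rfl⟩
    have h2 := (elem_iff d.elem (def_rel (VE lam)) ![vo lam (m : Ordinal.{0}), u m, f]).1 h1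
    have h3 : Rel (VE lam) (j (vo lam (m : Ordinal.{0}))) (j (u m)) (j f) := h2
    rw [d.fix _ ((Ordinal.natCast_lt_omega0 m).trans (om_lt d))] at h3
    exact ⟨m, hj'.2 _ _ _ hn hz ((j_mem d _ _).1 ((hy _).2 ⟨m, rfl⟩)) hr h3⟩
  · rintro ⟨n, rfl⟩
    exact (j_mem d _ _).1 ((hy _).2 ⟨n, rfl⟩)

end Pool.Agent.H8MC
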