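import Pool.Agent.Lib.H8MC.IE2
import Pool.Agent.Lib.H8MC.ID
import Pool.Agent.Lib.H8MC.ICp

/-!
# IE: omega, countable sets, regularity (S/M, M)

* `om_lt`: `ω < kap`: `Jo j n = n` for `n : ℕ` by induction (`J_suc`; `Jo j 0 = 0`: `vo lam 0` has no elements, and has no elements is definable; or: if `Jo j 0 > 0` then.. use definability of `∀ z, ¬ E z x`), so `kap ≠ n`, `ω ≤ kap < lam`; `Jo j ω = ω` by `def_omega`, `omega_iff`; so `kap ≠ ω`.
  (`kap ≤ n` is impossible for the same reason; `kap = a` finite would be fixed.)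
* `j_enum`: let `y : Vs lam` with elements exactly the `u n`, `n : ℕ`, where `(u n).1 ∈ V_λ`. By `exists_rel` there is `f` with `Rel (vo lam n) z f ↔ z = u n` for `z` in `V_λ` (`R x z := ∃ n : ℕ, x = vo lam n ∧ z = u n`). By `def_enum` (elementarity for `vo lam ω`, `y`, `f`; `j (vo lam ω) = vo lam ω`) every element `z` of `j y`
  is related to some `vo lam n` by `j f`; also `Rel (vo lam n) (j (u n)) (j f)` (`def_rel`, `j (vo lam n) = vo lam n`) and `j (u n) ∈ j y`; so `z = j (u n)`.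
* `not_nreg`: suppose `g, f` as in `NReg` for `vo lam kap`: `g = vo lam a`, `a < kap`, `j g = g`. By elementarity (`def_nreg` is not enough: use the definability of the body, with the parameters `g`, `f`, `k`; prove it as in `IB`) the same holds for `g`, `j f`, `vo lam (Jo j kap)`. Take `d = vo lam kap`: `x ∈ g`, `y ∈ vo lam (Jo j kap)`,
  `Rel x y (j f)`, `kap ≤ y`. `x = vo lam b`, `b < kap`, `j x = x`. There is `y₀ ∈ vo lam kap` with `Rel x y₀ f`, so `Rel x (j y₀) (j f)`, `j y₀ = y₀`. By uniqueness `y = y₀ < kap`, a contradiction.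
* `j_sub`: if `x ⊆ vo lam a`, `a < kap` then `j x = x`: the elements of `j x` are in `j (vo lam a) = vo lam a`, so of the form `vo lam b`, `b < a`, `j (vo lam b) = vo lam b`; `j_mem`.
* `not_nsl`: suppose `g, f` as in `NSL` for `vo lam kap`; the body holds for `g`, `j f`, `vo lam (Jo j kap)`. Take `y = vo lam kap`: `x` with `Rel x (vo lam kap) (j f)`, so `x ⊆ g`, `j x = x` (`j_sub`). By elementarity of there is `y ∈ k` with `Rel x y f` (parameters `x, k, f`) there is `y₀ ∈ vo lam kap` with `Rel x y₀ f`, so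
  `Rel x (j y₀) (j f)`, `j y₀ = y₀`; functionality: `y₀ = vo lam kap`, a contradiction.
-/

set_option autoImplicit false

open Set Function Cardinal

namespace Pool.Agent.H8MC

open Pool.Agent.H5Z

variable {kap lam : Ordinal.{0}} {j : Vs lam → Vs lam}

/-- the body of `NReg` -/
def NRB {M : Type*} (E : M → M → Prop) (g f k : M) : Prop :=
  E g k ∧ (∀ x, E x g → ∃ y, E y k ∧ Rel E x y f ∧ ∀ y', E y' k → Rel E x y' f → y' = y) ∧
    ∀ d, E d k → ∃ x y, E x g ∧ E y k ∧ Rel E x y f ∧ SubIn E d y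

theorem def_nrb {M : Type*} (E : M → M → Prop) : DefN E 3 (fun v => NRB E (v 0) (v 1) (v 2)) := by
  unfold NRB H5Z.Rel IsPair SubIn
  repeat' first
    | exact DefN.mem ⟨_, rfl⟩ ⟨_, rfl⟩
    | exact DefN.eq ⟨_, rfl⟩ ⟨_, rfl⟩
    | refine DefN.all ?_
    | refine DefN.ex ?_
    | refine DefN.and ?_ ?_
    | refine DefN.or ?_ ?_
    | refine DefN.iff ?_ ?_
    | refine DefN.imp ?_ ?_

theorem not_nreg (d : JD kap lam j) : ¬ NReg (VE lam) (vo lam kap) := by
  rintro ⟨g, f, h⟩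
  have hkl : kap ≤ lam := d.lt.le
  have hK : j (vo lam kap) = vo lam (Jo j kap) := j_vo d hkl
  have hKl : Jo j kap ≤ lam := J_le d hkl
  have hcr : kap < Jo j kap := J_crit d
  obtain ⟨a, ha, rfl⟩ := (mem_vo hkl g).1 h.1
  have h' : NRB (VE lam) (j (vo lam a)) (j f) (j (vo lam kap)) :=
    (elem_iff d.elem (def_nrb (VE lam)) ![vo lam a, f, vo lam kap]).1 h
  rw [d.fix a ha, hK] at h'
  obtain ⟨x, y, hx, hy, hr, hs⟩ := h'.2.2 (vo lam kap) ((vo_mem_vo hkl hKl).2 hcr)
  obtain ⟨b, hb, rfl⟩ := (mem_vo (ha.le.trans hkl) x).1 hx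
  obtain ⟨y0, hy0, hr0, -⟩ := h.2.1 _ hx
  obtain ⟨c, hc, rfl⟩ := (mem_vo hkl y0).1 hy0
  have hr1 : Rel (VE lam) (j (vo lam b)) (j (vo lam c)) (j f) :=
    (elem_iff d.elem (def_rel (VE lam)) ![vo lam b, vo lam c, f]).1 hr0
  rw [d.fix b (hb.trans ha), d.fix c hc] at hr1
  have hcl : c ≤ lam := hc.le.trans hkl
  obtain ⟨y1, -, -, hu⟩ := h'.2.1 _ hx
  have e1 := hu y hy hr
  have e2 := hu (vo lam c) ((vo_mem_vo hcl hKl).2 (hc.trans hcr)) hr1
  rw [e1, ← e2] at hs
  exact lt_irrefl c ((vo_mem_vo hcl hcl).1 (hs _ ((vo_mem_vo hcl hkl).2 hc)))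

end Pool.Agent.H8MC
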