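import Pool.Agent.Lib.H8MC.IF1
import Pool.Agent.Lib.H8MC.ICp

/-!
# IF: regular strong limits (S/M, S/M)

`λ` is a limit, `ω < k < λ`.

* `reg_of`: `k` is a regular cardinal. If `k` is a successor `a + 1`: the function from `1 = {0}` to `k` with value `a` shows `NReg`. Otherwise `k` is a limit; let `S ⊆ k` be cofinal of order type `cof k`: if `k.cof.ord < k` then the enumeration of a cofinal subset by the ordinal `k.cof.ord` (`Ordinal.exists_fundamental_sequence`, or
  `Ordinal.cof_eq`/`exists_lsub_cof` and a bijection with `k.cof.ord`) shows `NReg` (`exists_rel`; `SubIn d y` is `d ≤ y`). So `k.cof.ord = k` (`Ordinal.cof_ord_le`-like: `k.cof.ord ≤ k`), hence `k = (k.cof).ord` is an initial ordinal and `k.card = k.cof` is regular.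
* `sl_of`: if `c = k.card`, `k = c.ord`, is not a strong limit, there is a cardinal `b < c` with `c ≤ 2 ^ b`: let `g = b.ord < k`; there is an injection `h` of `k` to the set of the subsets of `g`; let `f` consist of the pairs `(vo-set of h(y), y)`: `NSL` (`exists_rel` with `R x y := ∃ a < k, y = vo lam a ∧ x = the element of Vs lam whose elements are the
  b.toZFSet, b ∈ h a`).
-/

set_option autoImplicit false

open Set Function Cardinal

namespace Pool.Agent.H8MC

open Pool.Agent.H5Z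

variable {lam : Ordinal.{0}}

/-- the set of the ordinals of a set of positions below `g` -/
private noncomputable def if_S (lam g : Ordinal.{0}) (s : Set g.ToType) : Vs lam :=
  vsep lam (fun z => ∃ c ∈ s, z = (Ordinal.typein (α := g.ToType) (· < ·) c).toZFSet)

private theorem if_mem {g : Ordinal.{0}} (hg : g ≤ lam) (s : Set g.ToType) (c : g.ToType) :
    (Ordinal.typein (α := g.ToType) (· < ·) c).toZFSet ∈ (if_S lam g s).1 ↔ c ∈ s := by
  unfold if_S
  rw [mem_vsep]
  constructor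
  · rintro ⟨-, c', hc', he⟩
    have h1 := Ordinal.toZFSet_injective he
    have h2 : c = c' := (Ordinal.typein_inj _).1 h1
    rw [h2]
    exact hc'
  · intro hc
    refine ⟨?_, c, hc, rfl⟩
    rw [ZFSet.mem_vonNeumann, Ordinal.rank_toZFSet]
    exact lt_of_lt_of_le (Ordinal.typein_lt_self c) hg

private theorem if_inj {g : Ordinal.{0}} (hg : g ≤ lam) {s t : Set g.ToType} (h : if_S lam g s = if_S lam g t) : s = t := by
  ext c
  rw [← if_mem hg s c, ← if_mem hg t c, h]

private theorem if_sub {g : Ordinal.{0}} (s : Set g.ToType) : (if_S lam g s).1 ⊆ g.toZFSet := by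
  intro z hz
  unfold if_S at hz
  rw [mem_vsep] at hz
  obtain ⟨-, c, -, he⟩ := hz
  rw [Ordinal.mem_toZFSet_iff]
  exact ⟨_, Ordinal.typein_lt_self c, he.symm⟩

private theorem if_sm {g : Ordinal.{0}} (hg : g < lam) (s : Set g.ToType) : (if_S lam g s).1 ∈ ZFSet.vonNeumann lam := by
  rw [ZFSet.mem_vonNeumann]
  refine lt_of_le_of_lt (ZFSet.rank_mono (if_sub s)) ?_
  rw [Ordinal.rank_toZFSet]
  exact hg

theorem sl_of (hl : ∀ a < lam, a + 1 < lam) {k : Ordinal.{0}} (h0 : Ordinal.omega0 < k) (hk : k < lam)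
    (hc : k.card.ord = k) (h : ¬ NSL (VE lam) (vo lam k)) : ∀ b < k.card, 2 ^ b < k.card := by
  by_contra hcon
  push Not at hcon
  obtain ⟨b, hb, hb2⟩ := hcon
  have hg : b.ord < k := by
    rw [← hc]
    exact Cardinal.ord_lt_ord.2 hb
  have hgl : b.ord < lam := hg.trans hk
  have hcard : #k.ToType ≤ #(Set b.ord.ToType) := by
    rw [Cardinal.mk_set, Cardinal.mk_toType, Cardinal.mk_ord_toType]
    exact hb2
  obtain ⟨e⟩ := (Cardinal.le_def _ _).1 hcard
  obtain ⟨r, hr1, hr2⟩ := exists_rel hl (fun x y : Vs lam => ∃ a : k.ToType,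
    y = vo lam (Ordinal.typein (α := k.ToType) (· < ·) a) ∧ x = if_S lam b.ord (e a))
  have hy : ∀ y : Vs lam, VE lam y (vo lam k) → y.1 ∈ ZFSet.vonNeumann lam := fun y hy => sm_of_mem hy
  refine h ⟨vo lam b.ord, r, (vo_mem_vo hgl.le hk.le).2 hg, ?_, ?_, ?_⟩
  · intro x y y' h1 h2 h3 h4
    obtain ⟨a, ha1, ha2⟩ := (hr1 x y (hr2 x y h3) (hy y h1)).1 h3
    obtain ⟨a', ha1', ha2'⟩ := (hr1 x y' (hr2 x y' h4) (hy y' h2)).1 h4
    have h5 : e a = e a' := if_inj hgl.le (ha2.symm.trans ha2')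
    have h6 : a = a' := e.injective h5
    rw [ha1, ha1', h6]
  · intro x y h1 h2
    obtain ⟨a, ha1, ha2⟩ := (hr1 x y (hr2 x y h2) (hy y h1)).1 h2
    intro z hz
    have hz1 : z.1 ∈ x.1 := hz
    rw [ha2] at hz1
    show z.1 ∈ (vo lam b.ord).1
    rw [vo_val hgl.le]
    exact if_sub (e a) hz1
  · intro y h1
    obtain ⟨c, hc1, hc2⟩ := (mem_vo hk.le y).1 h1
    have hc3 : c < Ordinal.type (α := k.ToType) (· < ·) := by
      rw [Ordinal.type_toType]
      exact hc1
    obtain ⟨a, ha⟩ := Ordinal.typein_surj (α := k.ToType) (· < ·) hc3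
    refine ⟨if_S lam b.ord (e a), (hr1 _ y (if_sm hgl (e a)) (hy y h1)).2 ⟨a, ?_, rfl⟩⟩
    rw [ha]
    exact hc2

end Pool.Agent.H8MC
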