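import Pool.Agent.Lib.H8MC.ICp

/-!
# IF: regular strong limits (S/M, S/M)

`λ` is a limit, `ω < k < λ`.

* `reg_of`: `k` is a regular cardinal. If `k` is a successor `a + 1`: the function from `1 = {0}` to `k` with value `a` shows `NReg`. Otherwise `k` is a limit; let `S ⊆ k` be cofinal of order type `cof k`: if `k.cof.ord < k` then the enumeration of a cofinal subset by the ordinal `k.cof.ord` (`Ordinal.exists_fundamental_sequence`, or
  `Ordinal.cof_eq`/`exists_lsub_cof` and a bijection with `k.cof.ord`) shows `NReg` (`exists_rel`; `SubIn d y` is `d ≤ y`). So `k.cof.ord = k` (`Ordinal.cof_ord_le`-like: `k.cof.ord ≤ k`), hence `k = (k.cof).ord` is an initial ordinal and `k.card = k.cof` is regular.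
* `sl_of`: if `c = k.card`, `k = c.ord`, is not a strong limit, there is a cardinal `b < c` with `c ≤ 2 ^ b`: let `g = b.ord < k`; there is an injection `h` of `k` to the set of the subsets of `g`; let `f` consist of the pairs `(vo-set of h(y), y)`: `NSL` (`exists_rel` with `R x y := ∃ a < k, y = vo lam a ∧ x = the element of Vs lam whose elements are the
  b.toZFSet, b ∈ h a`).
-/

set_option autoImplicit false

open Set Function Cardinal

namespace Pool.Agent.H8MC

open Pool.Agent.H5Z

variable {lam : Ordinal.{0}}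

theorem reg_of (hl : ∀ a < lam, a + 1 < lam) {k : Ordinal.{0}} (h0 : Ordinal.omega0 < k) (hk : k < lam)
    (h : ¬ NReg (VE lam) (vo lam k)) : k.card.ord = k ∧ k.card.IsRegular := by
  classical
  have key : ¬ k.cof.ord < k := by
    intro hg
    have hgl : k.cof.ord < lam := hg.trans hk
    obtain ⟨s, hs, hs'⟩ := Ordinal.exists_ord_cof_eq k.ToType
    rw [Ordinal.cof_toType] at hs'
    obtain ⟨r, hr1, hr2⟩ := exists_rel hl (fun x y : Vs lam => ∃ c : s,
      x = vo lam (Ordinal.typein (α := s) (· < ·) c) ∧ y = vo lam (Ordinal.typein (α := k.ToType) (· < ·) c.1))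
    have hts : ∀ c : s, Ordinal.typein (α := s) (· < ·) c < k.cof.ord := fun c => by
      rw [← hs']
      exact Ordinal.typein_lt_type _ c
    have htk : ∀ c : k.ToType, Ordinal.typein (α := k.ToType) (· < ·) c < k := fun c => Ordinal.typein_lt_self c
    have hrel : ∀ c : s, Rel (VE lam) (vo lam (Ordinal.typein (α := s) (· < ·) c))
        (vo lam (Ordinal.typein (α := k.ToType) (· < ·) c.1)) r := fun c =>
      (hr1 _ _ (sm_of_mem ((vo_mem_vo ((hts c).trans hgl).le hgl.le).2 (hts c)))
        (sm_of_mem ((vo_mem_vo ((htk c.1).trans hk).le hk.le).2 (htk c.1)))).2 ⟨c, rfl, rfl⟩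
    refine h ⟨vo lam k.cof.ord, r, (vo_mem_vo hgl.le hk.le).2 hg, ?_, ?_⟩
    · intro x hx
      obtain ⟨b, hb, rfl⟩ := (mem_vo hgl.le x).1 hx
      have hb2 : b < Ordinal.type (α := s) (· < ·) := by
        rw [hs']
        exact hb
      obtain ⟨c, hc⟩ := Ordinal.typein_surj (α := s) (· < ·) hb2
      subst hc
      refine ⟨vo lam (Ordinal.typein (α := k.ToType) (· < ·) c.1), (vo_mem_vo ((htk c.1).trans hk).le hk.le).2 (htk c.1), hrel c, ?_⟩
      intro y' hy' hr'
      obtain ⟨c', h1, h2⟩ := (hr1 _ y' (sm_of_mem hx) (sm_of_mem hy')).1 hr'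
      have h3 := vo_inj ((hts c).trans hgl).le ((hts c').trans hgl).le h1
      have h4 : c = c' := (Ordinal.typein_inj _).1 h3
      rw [h2, h4]
    · intro d hd
      obtain ⟨e, he, rfl⟩ := (mem_vo hk.le d).1 hd
      have he2 : e < Ordinal.type (α := k.ToType) (· < ·) := by
        rw [Ordinal.type_toType]
        exact he
      obtain ⟨a, ha⟩ := Ordinal.typein_surj (α := k.ToType) (· < ·) he2
      subst ha
      obtain ⟨c, hc, hac⟩ := hs a
      refine ⟨_, _, (vo_mem_vo ((hts ⟨c, hc⟩).trans hgl).le hgl.le).2 (hts ⟨c, hc⟩), (vo_mem_vo ((htk c).trans hk).le hk.le).2 (htk c), hrel ⟨c, hc⟩, ?_⟩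
      rw [sub_vo ((htk a).trans hk).le ((htk c).trans hk).le]
      exact (Ordinal.typein_le_typein (α := k.ToType) (· < ·)).2 (not_lt.2 hac)
  have h1 : k.cof.ord = k := le_antisymm (Ordinal.ord_cof_le k) (not_lt.1 key)
  have h2 : k.card = k.cof := by
    conv_lhs => rw [← h1]
    exact Cardinal.card_ord _
  refine ⟨by rw [h2, h1], ?_, ?_⟩
  · rw [h2]
    have h3 : Ordinal.omega0 ≤ k.cof.ord := by rw [h1]; exact h0.le
    rw [← Cardinal.ord_aleph0] at h3
    exact Cardinal.ord_le_ord.1 h3
  · rw [h2, h1]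

end Pool.Agent.H8MC
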