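import Pool.Agent.Lib.H8MC.IG2
import Pool.Agent.Lib.H8MC.IE
import Pool.Agent.Lib.H8MC.IF

/-!
# IG: the critical sequence (S/M, M, S/M)

`crs j kap n = Jo j^[n] kap`.

* `crs_lt`: `crs j kap n < lam` and `crs j kap n < crs j kap (n+1)`: induction (`J_lt`, `J_top`, `J_crit`; `Function.iterate_succ_apply'`).
* `crs_reg`: `¬ NReg (VE lam) (vo lam (crs j kap n))` and `¬ NSL ..` by induction: `not_nreg`, `not_nsl`, `def_nreg`, `def_nsl`, `j_vo`.
* `crs_sup`: `λ = sup_n κ_n`: let `δ = ⨆ n, crs j kap n ≤ lam` and suppose `δ < lam`. Let `s : Vs lam` have the elements `vo lam (κ_n)`; by `j_enum` the elements of `j s` are the `j (vo lam κ_n) = vo lam κ_{n+1}`. `def_sup` for `s`, `vo lam δ` holds, so it holds for `j s`, `vo lam (Jo j δ)`: so `Jo j δ = sup_n κ_{n+1} = δ`, and `kap < δ < lam`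
  contradicts `d.first`.
* `lam_card`: `λ` is a cardinal: if `lam.card.ord < lam` then there is `n` with `lam.card.ord < κ_n` so `lam.card < κ_n.card ≤ lam.card` (`κ_n = (κ_n).card.ord`), a contradiction. `lam_cof`: cofinality `ω` (`Ordinal.cof_le_of..`: `lam = sup` of a countable family, not a successor, so `cof = ℵ₀`).
-/

set_option autoImplicit false

open Set Function Cardinal

namespace Pool.Agent.H8MC

open Pool.Agent.H5Z

variable {kap lam : Ordinal.{0}} {j : Vs lam → Vs lam}

theorem ig_kap_le (d : JD kap lam j) (n : ℕ) : kap ≤ crs j kap n := by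
  induction n with
  | zero => exact le_rfl
  | succ n ih => exact ih.trans (crs_mono d n).le

theorem ig_strictMono (d : JD kap lam j) : StrictMono (crs j kap) :=
  strictMono_nat_of_lt_succ (crs_mono d)

theorem crs_card (d : JD kap lam j) (n : ℕ) : (crs j kap n).card.ord = crs j kap n ∧ (crs j kap n).card.IsRegular ∧
    ∀ b < (crs j kap n).card, 2 ^ b < (crs j kap n).card := by
  have h0 : Ordinal.omega0 < crs j kap n := lt_of_lt_of_le (om_lt d) (ig_kap_le d n)
  have h1 := reg_of (lam_lim d) h0 (crs_lt d n) (crs_reg d n).1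
  exact ⟨h1.1, h1.2, sl_of (lam_lim d) h0 (crs_lt d n) h1.1 (crs_reg d n).2⟩

theorem lam_card (d : JD kap lam j) : lam.card.ord = lam := by
  refine le_antisymm (Cardinal.ord_card_le lam) ?_
  by_contra hlt
  rw [not_le] at hlt
  obtain ⟨n, hn⟩ := crs_sup d hlt
  rw [← (crs_card d n).1, Cardinal.ord_lt_ord] at hn
  exact absurd (Ordinal.card_le_card (crs_lt d n).le) (not_le.2 hn)

theorem lam_cof (d : JD kap lam j) : lam.cof = ℵ₀ := by
  have h1 : (⨆ n, crs j kap n) = lam := by
    apply le_antisymm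
    · exact ciSup_le fun n => (crs_lt d n).le
    · by_contra hlt
      rw [not_le] at hlt
      obtain ⟨n, hn⟩ := crs_sup d hlt
      exact absurd (Ordinal.le_iSup (crs j kap) n) (not_le.2 hn)
  rw [← h1, Ordinal.cof_iSup (ig_strictMono d), Order.cof_nat]

end Pool.Agent.H8MC
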