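import Pool.Agent.Lib.H8MC.IE
import Pool.Agent.Lib.H8MC.IF

/-!
# IG: the critical sequence (S/M, M, S/M)

`crs j kap n = Jo j^[n] kap`.

* `crs_lt`: `crs j kap n < lam` and `crs j kap n < crs j kap (n+1)`: induction (`J_lt`, `J_top`, `J_crit`; `Function.iterate_succ_apply'`).
* `crs_reg`: `¬ NReg (VE lam) (vo lam (crs j kap n))` and `¬ NSL ..` by induction: `not_nreg`, `not_nsl`, `def_nreg`, `def_nsl`, `j_vo`.
* `crs_sup`: `λ = sup_n κ_n`: let `δ = ⨆ n, crs j kap n ≤ lam` and suppose `δ < lam`. Let `s : Vs lam` have the elements `vo lam (κ_n)`; by `j_enum` the elements of `j s` are the `j (vo lam κ_n) = vo lam κ_{n+1}`. `def_sup` for `s`, `vo lam δ` holds, so it holds for `j s`, `vo lam (Jo j δ)`: so `Jo j δ = sup_n κ_{n+1} = δ`, and `kap < δ < lam`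
  contradicts `d.first`.
* `lam_card`: `λ` is a cardinal: if `lam.card.ord < lam` then there is `n` with `lam.card.ord < κ_n` so `lam.card < κ_n.card ≤ lam.card` (`κ_n = (κ_n).card.ord`), a contradiction. `lam_cof`: cofinality `ω` (`Ordinal.cof_le_of..`: `lam = sup` of a countable family, not a successor, so `cof = ℵ₀`).
-/

set_option autoImplicit false

open Set Function Cardinal

namespace Pool.Agent.H8MC

open Pool.Agent.H5Z

variable {kap lam : Ordinal.{0}} {j : Vs lam → Vs lam}

theorem ig_succ (n : ℕ) : crs j kap (n + 1) = Jo j (crs j kap n) := by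
  unfold crs
  exact Function.iterate_succ_apply' _ _ _

theorem crs_lt (d : JD kap lam j) (n : ℕ) : crs j kap n < lam := by
  induction n with
  | zero => exact d.lt
  | succ n ih =>
    rw [ig_succ]
    have h := J_lt d ih le_rfl
    rwa [J_top d] at h

theorem crs_mono (d : JD kap lam j) (n : ℕ) : crs j kap n < crs j kap (n + 1) := by
  induction n with
  | zero =>
    rw [ig_succ]
    exact J_crit d
  | succ n ih =>
    rw [ig_succ, ig_succ (n + 1)]
    exact J_lt d ih (crs_lt d (n + 1)).le

theorem crs_reg (d : JD kap lam j) (n : ℕ) :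
    ¬ NReg (VE lam) (vo lam (crs j kap n)) ∧ ¬ NSL (VE lam) (vo lam (crs j kap n)) := by
  induction n with
  | zero => exact ⟨not_nreg d, not_nsl d⟩
  | succ n ih =>
    rw [ig_succ, ← j_vo d (crs_lt d n).le]
    refine ⟨fun h => ih.1 ?_, fun h => ih.2 ?_⟩
    · exact (elem_iff d.elem (def_nreg (VE lam)) ![vo lam (crs j kap n)]).2 h
    · exact (elem_iff d.elem (def_nsl (VE lam)) ![vo lam (crs j kap n)]).2 h

end Pool.Agent.H8MC
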