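import Pool.Agent.Lib.H8MC.IG1
import Pool.Agent.Lib.H8MC.IE
import Pool.Agent.Lib.H8MC.IF

/-!
# IG: the critical sequence (S/M, M, S/M)

`crs j kap n = Jo j^[n] kap`.

* `crs_lt`: `crs j kap n < lam` and `crs j kap n < crs j kap (n+1)`: induction (`J_lt`, `J_top`, `J_crit`; `Function.iterate_succ_apply'`).
* `crs_reg`: `¬ NReg (VE lam) (vo lam (crs j kap n))` and `¬ NSL ..` by induction: `not_nreg`, `not_nsl`, `def_nreg`, `def_nsl`, `j_vo`.
* `crs_sup`: `λ = sup_n κ_n`: let `δ = ⨆ n, crs j kap n ≤ lam` and suppose `δ < lam`. Let `s : Vs lam` have the elements `vo lam (κ_n)`; by `j_enum` the elements of `j s` are the `j (vo lam κ_n) = vo lam κ_{n+1}`. `def_sup` for `s`, `vo lam δ` holds, so it holds for `j s`, `vo lam (Jo j δ)`: so `Jo j δ = sup_n κ_{n+1} = δ`, and `kap < δ < lam`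
  contradicts `d.first`.
* `lam_card`: `λ` is a cardinal: if `lam.card.ord < lam` then there is `n` with `lam.card.ord < κ_n` so `lam.card < κ_n.card ≤ lam.card` (`κ_n = (κ_n).card.ord`), a contradiction. `lam_cof`: cofinality `ω` (`Ordinal.cof_le_of..`: `lam = sup` of a countable family, not a successor, so `cof = ℵ₀`).
-/

set_option autoImplicit false

open Set Function Cardinal

namespace Pool.Agent.H8MC

open Pool.Agent.H5Z

variable {kap lam : Ordinal.{0}} {j : Vs lam → Vs lam}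

theorem crs_sup (d : JD kap lam j) {a : Ordinal.{0}} (ha : a < lam) : ∃ n, a < crs j kap n := by
  by_contra hcon
  push Not at hcon
  have hbdd : BddAbove (Set.range (crs j kap)) := ⟨a, by rintro _ ⟨n, rfl⟩; exact hcon n⟩
  obtain ⟨δ, hδ⟩ : ∃ δ : Ordinal.{0}, δ = ⨆ n, crs j kap n := ⟨_, rfl⟩
  have hle : ∀ n, crs j kap n ≤ δ := fun n => by rw [hδ]; exact le_ciSup hbdd n
  have hlt : ∀ n, crs j kap n < δ := fun n => lt_of_lt_of_le (crs_mono d n) (hle (n + 1))
  have hδa : δ ≤ a := by rw [hδ]; exact ciSup_le hcon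
  have hδl : δ < lam := lt_of_le_of_lt hδa ha
  have hex : ∀ e, e < δ → ∃ n, e < crs j kap n := by
    intro e he
    by_contra h
    push Not at h
    have : δ ≤ e := by rw [hδ]; exact ciSup_le h
    exact absurd he (not_lt.mpr this)
  have hcl : ∀ n, crs j kap n ≤ lam := fun n => (crs_lt d n).le
  have hVl : ∀ n, (vo lam (crs j kap n)).1 ∈ ZFSet.vonNeumann lam := fun n =>
    sm_of_mem ((vo_mem_vo (hcl n) le_rfl).2 (crs_lt d n))
  have hs : ∀ z, VE lam z (vsep lam (fun z => ∃ n, z = (crs j kap n).toZFSet)) ↔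
      ∃ n, z = vo lam (crs j kap n) := by
    intro z
    unfold VE
    rw [mem_vsep]
    constructor
    · rintro ⟨_, n, hn⟩
      exact ⟨n, vs_ext (by rw [hn, vo_val (hcl n)])⟩
    · rintro ⟨n, rfl⟩
      exact ⟨hVl n, n, vo_val (hcl n)⟩
  have hjs := j_enum d _ (fun n => vo lam (crs j kap n)) hVl hs
  have hjn : ∀ n, j (vo lam (crs j kap n)) = vo lam (crs j kap (n + 1)) := by
    intro n
    rw [j_vo d (hcl n)]
    unfold crs
    rw [Function.iterate_succ_apply']
  have hP := (elem_iff d.elem (def_sup (VE lam))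
    ![vsep lam (fun z => ∃ n, z = (crs j kap n).toZFSet), vo lam δ]).1 (by
      change (∀ b, VE lam b (vsep lam (fun z => ∃ n, z = (crs j kap n).toZFSet)) → VE lam b (vo lam δ)) ∧
        ∀ b, VE lam b (vo lam δ) → ∃ c, VE lam c (vsep lam (fun z => ∃ n, z = (crs j kap n).toZFSet)) ∧
          VE lam b c
      constructor
      · intro b hb
        obtain ⟨n, rfl⟩ := (hs b).1 hb
        exact (vo_mem_vo (hcl n) hδl.le).2 (hlt n)
      · intro b hb
        obtain ⟨e, he, rfl⟩ := (mem_vo hδl.le b).1 hb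
        obtain ⟨n, hn⟩ := hex e he
        exact ⟨vo lam (crs j kap n), (hs _).2 ⟨n, rfl⟩, (vo_mem_vo (he.le.trans hδl.le) (hcl n)).2 hn⟩)
  change (∀ b, VE lam b (j (vsep lam (fun z => ∃ n, z = (crs j kap n).toZFSet))) → VE lam b (j (vo lam δ))) ∧
    ∀ b, VE lam b (j (vo lam δ)) → ∃ c, VE lam c (j (vsep lam (fun z => ∃ n, z = (crs j kap n).toZFSet))) ∧
      VE lam b c at hP
  have hJ : Jo j δ = δ := by
    refine le_antisymm ?_ (J_ge d hδl.le)
    by_contra h
    rw [not_le] at h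
    have h1 : VE lam (vo lam δ) (j (vo lam δ)) := by
      rw [j_vo d hδl.le]
      exact (vo_mem_vo hδl.le (J_le d hδl.le)).2 h
    obtain ⟨c, hc, hc'⟩ := hP.2 _ h1
    obtain ⟨n, rfl⟩ := (hjs c).1 hc
    rw [hjn n] at hc'
    exact absurd ((vo_mem_vo hδl.le (hcl (n + 1))).1 hc') (not_lt.mpr (hle (n + 1)))
  refine d.first δ (hlt 0) hδl ?_
  rw [j_vo d hδl.le, hJ]

end Pool.Agent.H8MC
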