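import Pool.Agent.Lib.H8MC.IH1
import Pool.Agent.Lib.H8MC.ICp
import Pool.Agent.Lib.H8MC.H2A

/-!
# IH: sets of positions as elements of `V_(λ+1)` (S/M, M)

`c` is a cardinal, `lam = c.ord` a limit, `K = c.ord.ToType`, `pos k < lam` the position of `k : K`; `hat lam x : Vs lam` has the elements `(pos k).toZFSet`, `k ∈ x`.

* `mem_hat`: `VE lam z (hat lam x) ↔ ∃ k ∈ x, z = vo lam (pos k)` (`(pos k).toZFSet ∈ V_λ`: its rank is `pos k < lam`).
* `hat_surj`: a subset `X` of `vo lam lam` is `hat lam x` for `x = {k | VE lam (vo lam (pos k)) X}` (`mem_vo`, `pos_exists`).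
* `hat_inj`, `hat_sub`: clear. `hat_sm`: if `x` is bounded (`∀ a ∈ x, a < b`) then `(hat lam x).1 ∈ V_λ` (rank at most `pos b`).
* `hat_emb_nat`: for `N ≤ ω`: `EmbIn (VE lam) (hat lam x) (vo lam N)` iff there is an injection of `x` to the ordinals below `N`: `→`: choose for every `k ∈ x` the unique `b`; `←`: `exists_rel`. So for `N = ω` iff `x` is countable; and for natural numbers `N`: it implies that `x` is finite, and for finite `x` there is such an `N`.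
* `hat_cb`: `CbIn (VE lam) (vo lam ω) (vo lam lam) (hat lam x) ↔ CB x`.
* `hat_emb`: if `EmbIn (VE lam) (vo lam lam) (hat lam x)` then `#x = c` (`≥`: the injection `K → x`; `≤`: `#K = c`).
-/

set_option autoImplicit false

open Set Function Cardinal

namespace Pool.Agent.H8MC

open Pool.Agent.H5Z

variable {c : Cardinal.{0}} {lam : Ordinal.{0}}

theorem ih_emb (hl : ∀ a < lam, a + 1 < lam) (hc : lam = c.ord) (x : Set c.ord.ToType) {N : Ordinal.{0}}
    (hN : N ≤ lam) : EmbIn (VE lam) (hat lam x) (vo lam N) ↔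
      ∃ g : c.ord.ToType → Ordinal.{0}, (∀ k ∈ x, g k < N) ∧ InjOn g x := by
  constructor
  · rintro ⟨f, h1, h2⟩
    have h3 : ∀ k : c.ord.ToType, ∃ b : Ordinal.{0}, k ∈ x → b < N ∧ Rel (VE lam) (vo lam (pos k)) (vo lam b) f := by
      intro k
      by_cases hk : k ∈ x
      · obtain ⟨b, hb, hr⟩ := h1 _ ((ih1_mem hc x k).2 hk)
        obtain ⟨β, hβ, rfl⟩ := (mem_vo hN b).1 hb
        exact ⟨β, fun _ => ⟨hβ, hr⟩⟩
      · exact ⟨0, fun h => absurd h hk⟩
    choose g hg using h3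
    refine ⟨g, fun k hk => (hg k hk).1, fun k hk k' hk' he => ?_⟩
    have hb := (vo_mem_vo ((hg k hk).1.le.trans hN) hN).2 (hg k hk).1
    have hb' := (vo_mem_vo ((hg k' hk').1.le.trans hN) hN).2 (hg k' hk').1
    have h4 := h2 _ ((ih1_mem hc x k).2 hk) _ ((ih1_mem hc x k').2 hk') _ hb _ hb' (hg k hk).2 (hg k' hk').2
    have h5 := h4.2 (by rw [he])
    exact ih1_inj (vo_inj (ih1_le hc k).le (ih1_le hc k').le h5)
  · rintro ⟨g, h1, h2⟩
    obtain ⟨r, hr, _⟩ := exists_rel hl (fun a b : Vs lam => ∃ k ∈ x, a = vo lam (pos k) ∧ b = vo lam (g k))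
    refine ⟨r, fun a ha => ?_, fun a ha a' ha' b hb b' hb' hab hab' => ?_⟩
    · obtain ⟨k, hk, rfl⟩ := (mem_hat hc x a).1 ha
      have hb := (vo_mem_vo ((h1 k hk).le.trans hN) hN).2 (h1 k hk)
      exact ⟨_, hb, (hr _ _ (sm_of_mem ha) (sm_of_mem hb)).2 ⟨k, hk, rfl, rfl⟩⟩
    · obtain ⟨k, hk, rfl, rfl⟩ := (hr _ _ (sm_of_mem ha) (sm_of_mem hb)).1 hab
      obtain ⟨k', hk', rfl, rfl⟩ := (hr _ _ (sm_of_mem ha') (sm_of_mem hb')).1 hab'
      constructor
      · intro h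
        rw [ih1_inj (vo_inj (ih1_le hc k).le (ih1_le hc k').le h)]
      · intro h
        rw [h2 hk hk' (vo_inj ((h1 k hk).le.trans hN) ((h1 k' hk').le.trans hN) h)]

theorem ih_cnt (x : Set c.ord.ToType) :
    (∃ g : c.ord.ToType → Ordinal.{0}, (∀ k ∈ x, g k < Ordinal.omega0) ∧ InjOn g x) ↔ x.Countable := by
  constructor
  · rintro ⟨g, h1, h2⟩
    have h3 : (Set.range fun n : ℕ => (n : Ordinal.{0})).Countable := Set.countable_range _
    refine Set.MapsTo.countable_of_injOn (t := Set.range fun n : ℕ => (n : Ordinal.{0})) (fun k hk => ?_) h2 h3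
    obtain ⟨n, hn⟩ := Ordinal.lt_omega0.1 (h1 k hk)
    exact ⟨n, hn.symm⟩
  · intro h
    obtain ⟨f, hf⟩ := Set.countable_iff_exists_injOn.1 h
    refine ⟨fun k => (f k : Ordinal.{0}), fun k _ => Ordinal.natCast_lt_omega0 _, fun k hk k' hk' he => hf hk hk' ?_⟩
    have he' : (f k : Ordinal.{0}) = (f k' : Ordinal.{0}) := he
    exact_mod_cast he'

theorem ih_fin (x : Set c.ord.ToType) :
    (∃ n : ℕ, ∃ g : c.ord.ToType → Ordinal.{0}, (∀ k ∈ x, g k < (n : Ordinal.{0})) ∧ InjOn g x) ↔ x.Finite := by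
  constructor
  · rintro ⟨n, g, h1, h2⟩
    have h3 : ((fun m : ℕ => (m : Ordinal.{0})) '' (Finset.range n : Set ℕ)).Finite := (Finset.finite_toSet _).image _
    refine Set.Finite.of_injOn (fun k hk => ?_) h2 h3
    have h4 := h1 k hk
    obtain ⟨m, hm⟩ := Ordinal.lt_omega0.1 (h4.trans (Ordinal.natCast_lt_omega0 n))
    rw [hm] at h4
    refine ⟨m, ?_, hm.symm⟩
    have h5 : m < n := by exact_mod_cast h4
    exact Finset.mem_coe.2 (Finset.mem_range.2 h5)
  · intro h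
    obtain ⟨f, hf⟩ := Set.countable_iff_exists_injOn.1 h.countable
    obtain ⟨M, hM⟩ := (h.image f).bddAbove
    refine ⟨M + 1, fun k => (f k : Ordinal.{0}), fun k hk => ?_, fun k hk k' hk' he => hf hk hk' ?_⟩
    · have h1 : f k < M + 1 := Nat.lt_succ_of_le (hM ⟨k, hk, rfl⟩)
      show (f k : Ordinal.{0}) < ((M + 1 : ℕ) : Ordinal.{0})
      exact_mod_cast h1
    · have he' : (f k : Ordinal.{0}) = (f k' : Ordinal.{0}) := he
      exact_mod_cast he'

theorem hat_cb (hl : ∀ a < lam, a + 1 < lam) (h0 : Ordinal.omega0 < lam) (hc : lam = c.ord) (x : Set c.ord.ToType) :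
    CbIn (VE lam) (vo lam Ordinal.omega0) (vo lam lam) (hat lam x) ↔ CB x := by
  have e1 : (∃ b, VE lam b (vo lam lam) ∧ SubIn (VE lam) (hat lam x) b) ↔ ∃ b, ∀ a ∈ x, a < b := by
    constructor
    · rintro ⟨b, hb, hs⟩
      obtain ⟨β, hβ, rfl⟩ := (mem_vo le_rfl b).1 hb
      obtain ⟨k, hk⟩ := pos_exists (lam := c) (a := β) (by rw [← hc]; exact hβ)
      refine ⟨k, fun a ha => ?_⟩
      have h1 := hs _ ((ih1_mem hc x a).2 ha)
      rw [vo_mem_vo (ih1_le hc a).le hβ.le, ← hk] at h1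
      exact pos_lt.1 h1
    · rintro ⟨b, hb⟩
      refine ⟨vo lam (pos b), (vo_mem_vo (ih1_le hc b).le le_rfl).2 (ih1_le hc b), fun z hz => ?_⟩
      obtain ⟨k, hk, rfl⟩ := (mem_hat hc x z).1 hz
      exact (vo_mem_vo (ih1_le hc k).le (ih1_le hc b).le).2 (pos_lt.2 (hb k hk))
  have e2 : EmbIn (VE lam) (hat lam x) (vo lam Ordinal.omega0) ↔ x.Countable := (ih_emb hl hc x h0.le).trans (ih_cnt x)
  have e3 : (∃ n, VE lam n (vo lam Ordinal.omega0) ∧ EmbIn (VE lam) (hat lam x) n) ↔ x.Finite := by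
    rw [← ih_fin]
    constructor
    · rintro ⟨n, hn, he⟩
      obtain ⟨b, hb, rfl⟩ := (mem_vo h0.le n).1 hn
      obtain ⟨m, rfl⟩ := Ordinal.lt_omega0.1 hb
      exact ⟨m, (ih_emb hl hc x (hb.le.trans h0.le)).1 he⟩
    · rintro ⟨m, hm⟩
      have hb := Ordinal.natCast_lt_omega0 m
      exact ⟨vo lam m, (mem_vo h0.le _).2 ⟨m, hb, rfl⟩, (ih_emb hl hc x (hb.le.trans h0.le)).2 hm⟩
  unfold CbIn CB
  rw [e1, e2, e3]
  constructor
  · rintro ⟨h1, h2, h3⟩
    exact ⟨h2, h3, h1⟩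
  · rintro ⟨h1, h2, h3⟩
    exact ⟨h3, h1, h2⟩

theorem hat_emb (hl : ∀ a < lam, a + 1 < lam) (hc : lam = c.ord) (x : Set c.ord.ToType)
    (h : EmbIn (VE lam) (vo lam lam) (hat lam x)) : #x = c := by
  obtain ⟨f, h1, h2⟩ := h
  have hk : ∀ k : c.ord.ToType, VE lam (vo lam (pos k)) (vo lam lam) := fun k =>
    (vo_mem_vo (ih1_le hc k).le le_rfl).2 (ih1_le hc k)
  have h3 : ∀ k : c.ord.ToType, ∃ k' : x, Rel (VE lam) (vo lam (pos k)) (vo lam (pos k'.1)) f := by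
    intro k
    obtain ⟨b, hb, hr⟩ := h1 _ (hk k)
    obtain ⟨k', hk', rfl⟩ := (mem_hat hc x b).1 hb
    exact ⟨⟨k', hk'⟩, hr⟩
  choose F hF using h3
  have hinj : Function.Injective F := by
    intro k k' he
    have h4 := h2 _ (hk k) _ (hk k') _ ((ih1_mem hc x _).2 (F k).2) _ ((ih1_mem hc x _).2 (F k').2) (hF k) (hF k')
    have h5 := h4.2 (by rw [he])
    exact ih1_inj (vo_inj (ih1_le hc k).le (ih1_le hc k').le h5)
  have h6 : #c.ord.ToType ≤ #x := Cardinal.mk_le_of_injective hinj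
  have h7 : #x ≤ #c.ord.ToType := Cardinal.mk_set_le x
  have h8 : #c.ord.ToType = c := Cardinal.mk_ord_toType c
  rw [h8] at h6 h7
  exact le_antisymm h7 h6

end Pool.Agent.H8MC
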