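import Pool.Agent.Lib.H8MC.ICp
import Pool.Agent.Lib.H8MC.H2A

/-!
# IH: sets of positions as elements of `V_(λ+1)` (S/M, M)

`c` is a cardinal, `lam = c.ord` a limit, `K = c.ord.ToType`, `pos k < lam` the position of `k : K`; `hat lam x : Vs lam` has the elements `(pos k).toZFSet`, `k ∈ x`.

* `mem_hat`: `VE lam z (hat lam x) ↔ ∃ k ∈ x, z = vo lam (pos k)` (`(pos k).toZFSet ∈ V_λ`: its rank is `pos k < lam`).
* `hat_surj`: a subset `X` of `vo lam lam` is `hat lam x` for `x = {k | VE lam (vo lam (pos k)) X}` (`mem_vo`, `pos_exists`).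
* `hat_inj`, `hat_sub`: clear. `hat_sm`: if `x` is bounded (`∀ a ∈ x, a < b`) then `(hat lam x).1 ∈ V_λ` (rank at most `pos b`).
* `hat_emb_nat`: for `N ≤ ω`: `EmbIn (VE lam) (hat lam x) (vo lam N)` iff there is an injection of `x` to the ordinals below `N`: `→`: choose for every `k ∈ x` the unique `b`; `←`: `exists_rel`. So for `N = ω` iff `x` is countable; and for natural numbers `N`: it implies that `x` is finite, and for finite `x` there is such an `N`.
* `hat_cb`: `CbIn (VE lam) (vo lam ω) (vo lam lam) (hat lam x) ↔ CB x`.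
* `hat_emb`: if `EmbIn (VE lam) (vo lam lam) (hat lam x)` then `#x = c` (`≥`: the injection `K → x`; `≤`: `#K = c`).
-/

set_option autoImplicit false

open Set Function Cardinal

namespace Pool.Agent.H8MC

open Pool.Agent.H5Z

variable {c : Cardinal.{0}} {lam : Ordinal.{0}}

theorem ih1_le (hc : lam = c.ord) (k : c.ord.ToType) : pos k < lam := by
  rw [hc]
  exact pos_lt_ord k

theorem ih1_inj {k k' : c.ord.ToType} (h : pos k = pos k') : k = k' := by
  rcases lt_trichotomy k k' with h1 | h1 | h1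
  · exact absurd h (pos_lt.2 h1).ne
  · exact h1
  · exact absurd h (pos_lt.2 h1).ne'

theorem mem_hat (hc : lam = c.ord) (x : Set c.ord.ToType) (z : Vs lam) :
    VE lam z (hat lam x) ↔ ∃ k ∈ x, z = vo lam (pos k) := by
  constructor
  · intro h
    obtain ⟨_, k, hk, h1⟩ := mem_vsep.1 h
    refine ⟨k, hk, vs_ext ?_⟩
    rw [vo_val (ih1_le hc k).le]
    exact h1
  · rintro ⟨k, hk, rfl⟩
    refine mem_vsep.2 ⟨?_, k, hk, ?_⟩
    · exact sm_of_mem ((vo_mem_vo (ih1_le hc k).le le_rfl).2 (ih1_le hc k))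
    · rw [vo_val (ih1_le hc k).le]
      rfl

theorem ih1_mem (hc : lam = c.ord) (x : Set c.ord.ToType) (k : c.ord.ToType) :
    VE lam (vo lam (pos k)) (hat lam x) ↔ k ∈ x := by
  rw [mem_hat hc]
  constructor
  · rintro ⟨k', hk', h⟩
    have h1 := vo_inj (ih1_le hc k).le (ih1_le hc k').le h
    rw [ih1_inj h1]
    exact hk'
  · exact fun h => ⟨k, h, rfl⟩

theorem hat_surj (hc : lam = c.ord) (X : Vs lam) (hX : SubIn (VE lam) X (vo lam lam)) :
    ∃ x : Set c.ord.ToType, X = hat lam x := by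
  refine ⟨{k | VE lam (vo lam (pos k)) X}, vs_ext ?_⟩
  ext z
  constructor
  · intro hz
    obtain ⟨y, rfl⟩ := exists_vs hz
    obtain ⟨b, hb, rfl⟩ := (mem_vo le_rfl y).1 (hX y hz)
    obtain ⟨k, hk⟩ := pos_exists (lam := c) (a := b) (by rw [← hc]; exact hb)
    rw [← hk]
    refine (ih1_mem hc _ k).2 ?_
    show VE lam (vo lam (pos k)) X
    rw [hk]
    exact hz
  · intro hz
    obtain ⟨y, rfl⟩ := exists_vs hz
    obtain ⟨k, hk, rfl⟩ := (mem_hat hc _ y).1 hz
    exact hk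

theorem hat_inj (hc : lam = c.ord) {x y : Set c.ord.ToType} (h : hat lam x = hat lam y) : x = y := by
  ext k
  rw [← ih1_mem hc x k, ← ih1_mem hc y k, h]

theorem hat_sub (hc : lam = c.ord) (x y : Set c.ord.ToType) : SubIn (VE lam) (hat lam x) (hat lam y) ↔ x ⊆ y := by
  constructor
  · intro h k hk
    exact (ih1_mem hc y k).1 (h _ ((ih1_mem hc x k).2 hk))
  · intro h z hz
    obtain ⟨k, hk, rfl⟩ := (mem_hat hc x z).1 hz
    exact (ih1_mem hc y k).2 (h hk)

theorem hat_sm (hc : lam = c.ord) {x : Set c.ord.ToType} {b : c.ord.ToType} (h : ∀ a ∈ x, a < b) :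
    (hat lam x).1 ∈ ZFSet.vonNeumann lam := by
  rw [ZFSet.mem_vonNeumann]
  refine lt_of_le_of_lt (ZFSet.rank_le_iff.2 fun {z} hz => ?_) (ih1_le hc b)
  obtain ⟨_, k, hk, rfl⟩ := mem_vsep.1 hz
  rw [Ordinal.rank_toZFSet]
  exact pos_lt.2 (h k hk)

end Pool.Agent.H8MC
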