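import Pool.Agent.Lib.H8MC.IK1
import Pool.Agent.Lib.H8MC.IH
import Pool.Agent.Lib.H8MC.H2
import Pool.Agent.Lib.H8MC.IG

/-!
# IK: the arrow relation from the embedding (M, M, S)

`transfer`: let `col` be a colouring with colours below `a ≤ lam` such that for all `A` of size `c` and all `g < a` there is `x ∈ CB`, `x ⊆ A`, `col x = g`. By `exists_rel` there is `r` with `Rel (hat lam x) (vo lam g) r ↔ g = col x` for `x ∈ CB` (`hat_sm`; `R X y := ∃ x, CB x ∧ X = hat lam x ∧ y = vo lam (col x)`; here `col x < lam` and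
`(vo lam g).1 ∈ V_λ` for `g < lam`). `ColIn`: a set `X` with `CbIn` is a subset of `vo lam lam` (it is contained in an element of it), so `X = hat lam x`, `CB x` (`hat_surj`, `hat_cb`); the colour is `vo lam (col x)`. `FullIn`: `A = hat lam A'`, `#A' = c` (`hat_emb`).

`arrow_main`: suppose not; by `transfer` there is `r` with `ColIn` and `FullIn` for `vo lam a`. By elementarity (`def_col`, `def_full`; `j (vo lam ω) = vo lam ω`, `j (vo lam lam) = vo lam lam`) `ColIn` and `FullIn` hold for `vo lam (Jo j a)` and `j r`. Let `A = hat lam {k | ∃ k', pos k = Jo j (pos k')}`, `A ⊆ vo lam lam`, and `EmbIn (vo lam lam) A` by the relation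
`{(vo lam b, vo lam (Jo j b))}` (`exists_rel`, `J_lt` is injective, `Jo j b < lam` for `b < lam`). The colour `vo lam kap` is an element of `vo lam (Jo j a)` (`kap < a ≤ Jo j a`). So there is `X` with `CbIn X`, `X ⊆ A`, `Rel X (vo lam kap) (j r)`. `X = hat lam x`, `CB x`. Let `y = {k | ∃ k' ∈ x, pos k' = Jo j (pos k)}`. The map `k ↦ k'` is a bijection from `y` to `x` (`X ⊆ A`), and
`pos k ≤ Jo j (pos k)`, so `y` is bounded: `CB y`. Enumerate `y` (`Set.Countable.exists_eq_range`); by `j_enum` the elements of `j (hat lam y)` are the `j (vo lam (pos k)) = vo lam (Jo j (pos k))`, `k ∈ y`, i.e. `j (hat lam y) = hat lam x = X`. By `ColIn` for `r` there is `g₀ ∈ vo lam a` with `Rel (hat lam y) g₀ r`, `g₀ = vo lam b`, so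
`Rel X (vo lam (Jo j b)) (j r)` (`def_rel`), `Jo j b < Jo j a`. By the uniqueness of the colour of `X` in `ColIn` for `j r`: `kap = Jo j b`, which contradicts `not_range`.
-/

set_option autoImplicit false

open Set Function Cardinal

namespace Pool.Agent.H8MC

open Pool.Agent.H5Z

variable {kap lam : Ordinal.{0}} {j : Vs lam → Vs lam}

theorem ik_ext {x y : Vs lam} (h : ∀ z : Vs lam, VE lam z x ↔ VE lam z y) : x = y := by
  refine vs_ext (ZFSet.ext fun z => ⟨fun hz => ?_, fun hz => ?_⟩)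
  · obtain ⟨w, rfl⟩ := exists_vs hz
    exact (h w).1 hz
  · obtain ⟨w, rfl⟩ := exists_vs hz
    exact (h w).2 hz

theorem ik2_sm {b : Ordinal.{0}} (hb : b < lam) : (vo lam b).1 ∈ ZFSet.vonNeumann lam :=
  sm_of_mem ((vo_mem_vo hb.le le_rfl).2 hb)

theorem ik_Jlt (d : JD kap lam j) {b : Ordinal.{0}} (hb : b < lam) : Jo j b < lam := by
  have h := J_lt d hb le_rfl
  rwa [J_top d] at h

theorem ik_Jinj (d : JD kap lam j) {b b' : Ordinal.{0}} (hb : b ≤ lam) (hb' : b' ≤ lam) (h : Jo j b = Jo j b') : b = b' := by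
  rcases lt_trichotomy b b' with h1 | h1 | h1
  · exact absurd h (J_lt d h1 hb').ne
  · exact h1
  · exact absurd h (J_lt d h1 hb).ne'

theorem ik_pos {c : Cardinal.{0}} {k k' : c.ord.ToType} (h : pos k = pos k') : k = k' := by
  by_contra hne
  rcases lt_or_gt_of_ne hne with h1 | h1
  · exact absurd h (pos_lt.2 h1).ne
  · exact absurd h (pos_lt.2 h1).ne'

theorem ik_emb (d : JD kap lam j) {c : Cardinal.{0}} (hc : lam = c.ord) :
    EmbIn (VE lam) (vo lam lam) (hat lam {k : c.ord.ToType | ∃ k' : c.ord.ToType, pos k = Jo j (pos k')}) := by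
  obtain ⟨f, hf, -⟩ := exists_rel (lam_lim d) (fun x y => ∃ b, b < lam ∧ x = vo lam b ∧ y = vo lam (Jo j b))
  have key : ∀ x y : Vs lam, VE lam x (vo lam lam) →
      VE lam y (hat lam {k : c.ord.ToType | ∃ k' : c.ord.ToType, pos k = Jo j (pos k')}) →
      Rel (VE lam) x y f → ∃ b, b < lam ∧ x = vo lam b ∧ y = vo lam (Jo j b) := fun x y hx hy h =>
    (hf x y (sm_of_mem hx) (sm_of_mem hy)).1 h
  refine ⟨f, fun x hx => ?_, fun x hx x' hx' y hy y' hy' h h' => ?_⟩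
  · obtain ⟨b, hb, rfl⟩ := (mem_vo le_rfl x).1 hx
    obtain ⟨k', hk'⟩ := pos_exists (hc ▸ hb : b < c.ord)
    obtain ⟨k, hk⟩ := pos_exists (hc ▸ ik_Jlt d hb : Jo j b < c.ord)
    refine ⟨vo lam (Jo j b), (mem_hat hc _ _).2 ⟨k, ⟨k', by rw [hk, hk']⟩, by rw [hk]⟩, ?_⟩
    exact (hf _ _ (ik2_sm hb) (ik2_sm (ik_Jlt d hb))).2 ⟨b, hb, rfl, rfl⟩
  · obtain ⟨b, hb, rfl, rfl⟩ := key x y hx hy h
    obtain ⟨b', hb', rfl, rfl⟩ := key x' y' hx' hy' h'
    constructor
    · intro e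
      rw [vo_inj hb.le hb'.le e]
    · intro e
      rw [ik_Jinj d hb.le hb'.le (vo_inj (ik_Jlt d hb).le (ik_Jlt d hb').le e)]

/-- The preimage of a bounded countable set. -/
theorem ik_cb (d : JD kap lam j) {c : Cardinal.{0}} (hc : lam = c.ord) {x : Set c.ord.ToType}
    (hx : x ⊆ {k : c.ord.ToType | ∃ k' : c.ord.ToType, pos k = Jo j (pos k')}) (hcb : CB x) :
    CB {k : c.ord.ToType | ∃ k' ∈ x, pos k' = Jo j (pos k)} := by
  have hlt : ∀ k : c.ord.ToType, pos k ≤ lam := fun k => by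
    rw [hc]
    exact (pos_lt_ord k).le
  have hF : ∀ k : c.ord.ToType, ∃ k' : c.ord.ToType, (∃ k' ∈ x, pos k' = Jo j (pos k)) → k' ∈ x ∧ pos k' = Jo j (pos k) := by
    intro k
    by_cases h : ∃ k' ∈ x, pos k' = Jo j (pos k)
    · obtain ⟨k', h1, h2⟩ := h
      exact ⟨k', fun _ => ⟨h1, h2⟩⟩
    · exact ⟨k, fun h' => absurd h' h⟩
  choose F hF using hF
  refine ⟨?_, ?_, ?_⟩
  · refine Set.MapsTo.countable_of_injOn (f := F) (t := x) (fun k hk => (hF k hk).1) (fun k hk k' hk' e => ?_) hcb.1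
    have h1 := (hF k hk).2
    have h2 := (hF k' hk').2
    rw [e, h2] at h1
    exact ik_pos (ik_Jinj d (hlt k) (hlt k') h1.symm)
  · intro hfin
    refine hcb.2.1 ((hfin.image F).subset fun k' hk' => ?_)
    obtain ⟨k, hk⟩ := hx hk'
    have hky : ∃ k' ∈ x, pos k' = Jo j (pos k) := ⟨k', hk', hk⟩
    refine ⟨k, hky, ik_pos ?_⟩
    rw [(hF k hky).2, hk]
  · obtain ⟨b, hb⟩ := hcb.2.2
    refine ⟨b, fun k hk => ?_⟩
    obtain ⟨k', h1, h2⟩ := hk
    rw [← pos_lt]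
    calc pos k ≤ Jo j (pos k) := J_ge d (hlt k)
      _ = pos k' := h2.symm
      _ < pos b := pos_lt.2 (hb k' h1)

/-- The image of the preimage. -/
theorem ik_img (d : JD kap lam j) {c : Cardinal.{0}} (hc : lam = c.ord) {x : Set c.ord.ToType}
    (hx : x ⊆ {k : c.ord.ToType | ∃ k' : c.ord.ToType, pos k = Jo j (pos k')})
    (hcb : CB {k : c.ord.ToType | ∃ k' ∈ x, pos k' = Jo j (pos k)}) :
    j (hat lam {k : c.ord.ToType | ∃ k' ∈ x, pos k' = Jo j (pos k)}) = hat lam x := by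
  have hlt : ∀ k : c.ord.ToType, pos k < lam := fun k => by
    rw [hc]
    exact pos_lt_ord k
  obtain ⟨f, hf⟩ := hcb.1.exists_eq_range hcb.2.1.nonempty
  have hfm : ∀ k : c.ord.ToType, (∃ k' ∈ x, pos k' = Jo j (pos k)) ↔ ∃ n, f n = k := fun k => by
    have h1 : k ∈ {k : c.ord.ToType | ∃ k' ∈ x, pos k' = Jo j (pos k)} ↔ k ∈ Set.range f := by rw [hf]
    exact h1
  have h1 := j_enum d (hat lam {k : c.ord.ToType | ∃ k' ∈ x, pos k' = Jo j (pos k)}) (fun n => vo lam (pos (f n)))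
    (fun n => ik2_sm (hlt _)) (fun z => by
      rw [mem_hat hc]
      constructor
      · rintro ⟨k, hk, rfl⟩
        obtain ⟨n, rfl⟩ := (hfm k).1 hk
        exact ⟨n, rfl⟩
      · rintro ⟨n, rfl⟩
        exact ⟨f n, (hfm _).2 ⟨n, rfl⟩, rfl⟩)
  refine ik_ext fun z => ?_
  rw [h1 z, mem_hat hc]
  constructor
  · rintro ⟨n, rfl⟩
    obtain ⟨k', hk', e⟩ := (hfm (f n)).2 ⟨n, rfl⟩
    exact ⟨k', hk', by rw [j_vo d (hlt _).le, e]⟩
  · rintro ⟨k', hk', rfl⟩
    obtain ⟨k, hk⟩ := hx hk'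
    obtain ⟨n, hn⟩ := (hfm k).1 ⟨k', hk', hk⟩
    exact ⟨n, by rw [j_vo d (hlt _).le, hn, hk]⟩

theorem arrow_main (d : JD kap lam j) {c : Cardinal.{0}} (hc : lam = c.ord) {a : Ordinal.{0}} (ha : kap < a)
    (ha' : a ≤ lam) : Arrow c a := by
  have hl := lam_lim d
  have h0 : Ordinal.omega0 < lam := (om_lt d).trans d.lt
  by_contra hA
  obtain ⟨r, hcol, hfull⟩ := transfer hl h0 hc ha' hA
  have hcol' : ColIn (VE lam) (j (vo lam Ordinal.omega0)) (j (vo lam lam)) (j (vo lam a)) (j r) :=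
    (elem_iff d.elem (def_col (VE lam)) ![vo lam Ordinal.omega0, vo lam lam, vo lam a, r]).1 hcol
  have hfull' : FullIn (VE lam) (j (vo lam Ordinal.omega0)) (j (vo lam lam)) (j (vo lam a)) (j r) :=
    (elem_iff d.elem (def_full (VE lam)) ![vo lam Ordinal.omega0, vo lam lam, vo lam a, r]).1 hfull
  rw [d.fix _ (om_lt d), d.top, j_vo d ha'] at hcol' hfull'
  have hsub : SubIn (VE lam) (hat lam {k : c.ord.ToType | ∃ k' : c.ord.ToType, pos k = Jo j (pos k')}) (vo lam lam) := by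
    intro z hz
    obtain ⟨k, -, rfl⟩ := (mem_hat hc _ _).1 hz
    exact (vo_mem_vo (hc ▸ (pos_lt_ord k).le) le_rfl).2 (hc ▸ pos_lt_ord k)
  have hJa : Jo j a ≤ lam := J_le d ha'
  obtain ⟨X, hXcb, hXA, hXr⟩ := hfull' _ hsub (ik_emb d hc) (vo lam kap)
    ((vo_mem_vo d.lt.le hJa).2 (ha.trans_le (J_ge d ha')))
  obtain ⟨x, rfl⟩ := hat_surj hc X (fun z hz => hsub z (hXA z hz))
  have hxcb : CB x := (hat_cb hl h0 hc x).1 hXcb
  have hxA := (hat_sub hc x _).1 hXA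
  have hycb := ik_cb d hc hxA hxcb
  have himg := ik_img d hc hxA hycb
  obtain ⟨g, hg, hgr, -⟩ := hcol _ ((hat_cb hl h0 hc _).2 hycb)
  obtain ⟨b, hb, rfl⟩ := (mem_vo ha' g).1 hg
  have hgr' : Rel (VE lam) (j (hat lam {k : c.ord.ToType | ∃ k' ∈ x, pos k' = Jo j (pos k)})) (j (vo lam b)) (j r) :=
    (elem_iff d.elem (def_rel (VE lam)) ![hat lam {k : c.ord.ToType | ∃ k' ∈ x, pos k' = Jo j (pos k)}, vo lam b, r]).1 hgr
  have hb' : b ≤ lam := (hb.trans_le ha').le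
  rw [himg, j_vo d hb'] at hgr'
  obtain ⟨g', -, -, huniq⟩ := hcol' _ hXcb
  have e1 := huniq (vo lam kap) ((vo_mem_vo d.lt.le hJa).2 (ha.trans_le (J_ge d ha'))) hXr
  have e2 := huniq (vo lam (Jo j b)) ((vo_mem_vo (J_le d hb') hJa).2 (J_lt d hb ha')) hgr'
  exact not_range d hb' (vo_inj (J_le d hb') d.lt.le (e2.trans e1.symm))

end Pool.Agent.H8MC
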