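import Pool.Agent.Lib.H8MC.IH
import Pool.Agent.Lib.H8MC.H2
import Pool.Agent.Lib.H8MC.IG

/-!
# IK: the arrow relation from the embedding (M, M, S)

`transfer`: let `col` be a colouring with colours below `a ≤ lam` such that for all `A` of size `c` and all `g < a` there is `x ∈ CB`, `x ⊆ A`, `col x = g`. By `exists_rel` there is `r` with `Rel (hat lam x) (vo lam g) r ↔ g = col x` for `x ∈ CB` (`hat_sm`; `R X y := ∃ x, CB x ∧ X = hat lam x ∧ y = vo lam (col x)`; here `col x < lam` and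
`(vo lam g).1 ∈ V_λ` for `g < lam`). `ColIn`: a set `X` with `CbIn` is a subset of `vo lam lam` (it is contained in an element of it), so `X = hat lam x`, `CB x` (`hat_surj`, `hat_cb`); the colour is `vo lam (col x)`. `FullIn`: `A = hat lam A'`, `#A' = c` (`hat_emb`).

`arrow_main`: suppose not; by `transfer` there is `r` with `ColIn` and `FullIn` for `vo lam a`. By elementarity (`def_col`, `def_full`; `j (vo lam ω) = vo lam ω`, `j (vo lam lam) = vo lam lam`) `ColIn` and `FullIn` hold for `vo lam (Jo j a)` and `j r`. Let `A = hat lam {k | ∃ k', pos k = Jo j (pos k')}`, `A ⊆ vo lam lam`, and `EmbIn (vo lam lam) A` by the relation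
`{(vo lam b, vo lam (Jo j b))}` (`exists_rel`, `J_lt` is injective, `Jo j b < lam` for `b < lam`). The colour `vo lam kap` is an element of `vo lam (Jo j a)` (`kap < a ≤ Jo j a`). So there is `X` with `CbIn X`, `X ⊆ A`, `Rel X (vo lam kap) (j r)`. `X = hat lam x`, `CB x`. Let `y = {k | ∃ k' ∈ x, pos k' = Jo j (pos k)}`. The map `k ↦ k'` is a bijection from `y` to `x` (`X ⊆ A`), and
`pos k ≤ Jo j (pos k)`, so `y` is bounded: `CB y`. Enumerate `y` (`Set.Countable.exists_eq_range`); by `j_enum` the elements of `j (hat lam y)` are the `j (vo lam (pos k)) = vo lam (Jo j (pos k))`, `k ∈ y`, i.e. `j (hat lam y) = hat lam x = X`. By `ColIn` for `r` there is `g₀ ∈ vo lam a` with `Rel (hat lam y) g₀ r`, `g₀ = vo lam b`, so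
`Rel X (vo lam (Jo j b)) (j r)` (`def_rel`), `Jo j b < Jo j a`. By the uniqueness of the colour of `X` in `ColIn` for `j r`: `kap = Jo j b`, which contradicts `not_range`.
-/

set_option autoImplicit false

open Set Function Cardinal

namespace Pool.Agent.H8MC

open Pool.Agent.H5Z

variable {kap lam : Ordinal.{0}} {j : Vs lam → Vs lam}

theorem ik_sm {g : Ordinal.{0}} (h : g < lam) : (vo lam g).1 ∈ ZFSet.vonNeumann lam :=
  sm_of_mem (x := vo lam lam) ((vo_mem_vo h.le le_rfl).2 h)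

theorem transfer {c : Cardinal.{0}} (hl : ∀ a < lam, a + 1 < lam) (h0 : Ordinal.omega0 < lam) (hc : lam = c.ord)
    {a : Ordinal.{0}} (ha : a ≤ lam) (h : ¬ Arrow c a) :
    ∃ r : Vs lam, ColIn (VE lam) (vo lam Ordinal.omega0) (vo lam lam) (vo lam a) r ∧
      FullIn (VE lam) (vo lam Ordinal.omega0) (vo lam lam) (vo lam a) r := by
  unfold Arrow at h
  push Not at h
  obtain ⟨col, hcol, hfull⟩ := h
  obtain ⟨r, hr, -⟩ := exists_rel hl (fun X y => ∃ x : Set c.ord.ToType, CB x ∧ X = hat lam x ∧ y = vo lam (col x))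
  have key : ∀ x : Set c.ord.ToType, CB x → ∀ g < a, (Rel (VE lam) (hat lam x) (vo lam g) r ↔ g = col x) := by
    intro x hx g hg
    obtain ⟨b, hb⟩ := hx.2.2
    rw [hr _ _ (hat_sm hc hb) (ik_sm (hg.trans_le ha))]
    constructor
    · rintro ⟨x', hx', h1, h2⟩
      have h3 := hat_inj hc h1
      subst h3
      exact vo_inj (hg.le.trans ha) ((hcol x hx).le.trans ha) h2
    · rintro rfl
      exact ⟨x, hx, rfl, rfl⟩
  refine ⟨r, ?_, ?_⟩
  · intro X hX
    have hsub : SubIn (VE lam) X (vo lam lam) := by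
      obtain ⟨b, hb, hXb⟩ := hX.1
      obtain ⟨b', hb', rfl⟩ := (mem_vo le_rfl b).1 hb
      intro z hz
      obtain ⟨e, he, rfl⟩ := (mem_vo hb'.le z).1 (hXb z hz)
      exact (vo_mem_vo (he.trans hb').le le_rfl).2 (he.trans hb')
    obtain ⟨x, rfl⟩ := hat_surj hc X hsub
    have hx : CB x := (hat_cb hl h0 hc x).1 hX
    refine ⟨vo lam (col x), (vo_mem_vo ((hcol x hx).le.trans ha) ha).2 (hcol x hx),
      (key x hx _ (hcol x hx)).2 rfl, ?_⟩
    intro g' hg' hrel
    obtain ⟨b, hb, rfl⟩ := (mem_vo ha g').1 hg'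
    rw [(key x hx b hb).1 hrel]
  · intro A hA hemb g hg
    obtain ⟨A', rfl⟩ := hat_surj hc A hA
    have hcard := hat_emb hl hc A' hemb
    obtain ⟨b, hb, rfl⟩ := (mem_vo ha g).1 hg
    obtain ⟨x, hx, hxA, hxb⟩ := hfull A' hcard b hb
    exact ⟨hat lam x, (hat_cb hl h0 hc x).2 hx, (hat_sub hc x A').2 hxA, (key x hx b hb).2 hxb.symm⟩

end Pool.Agent.H8MC
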