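import Pool.Agent.Lib.H8MC.IM2
import Mathlib

/-!
# IM: a singular strong limit below an inaccessible cardinal (M, only Mathlib)

`c` is regular, uncountable, a strong limit; `k < c`. Let `i = k.ord + ω₁` (`ω₁ = (ℵ₁).ord`), `μ = ℶ_i`.

* For all ordinals `i < c.ord`: `ℶ_i < c` (induction: `ℶ_0 = ℵ₀`, `ℶ_(i+1) = 2 ^ ℶ_i`, limits: a supremum of fewer than `c` cardinals below `c`, regularity; `Cardinal.beth_..`, `Cardinal.iSup_lt_of_isRegular`). `i < c.ord` (`ℵ₁ < c` since `ℵ₁ ≤ 2 ^ ℵ₀ < c`; the sum of two ordinals below `c.ord` is below `c.ord`: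
  `Ordinal.isPrincipal_add_ord`-like).
* `k ≤ ℶ_(k.ord) ≤ μ`. `succ μ ≤ 2 ^ μ < c`.
* `i` is a limit of cofinality `ω₁`, and `ℶ` is a normal function, so `μ.ord.cof = ℵ₁ < μ` (`ℶ_i ≥ ℶ_(ω₁) > ℵ₁`): e.g. `Ordinal.IsNormal.cof_eq`, or directly.
* `μ ^ ℵ₀ = μ`: as `cof μ.ord = ℵ₁ > ℵ₀` every function `ℕ → μ.ord.ToType` is bounded; for each bound `b` there are at most `#(Iio b) ^ ℵ₀ ≤ 2 ^ (#(Iio b) * ℵ₀) ≤ μ` functions (`μ` is a strong limit), so at most `μ * μ = μ` functions. (Or `Cardinal.mk_bounded_subset`.)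
-/

set_option autoImplicit false

open Set Function Cardinal

namespace Pool.Agent.H8MC

theorem exists_mu {c k : Cardinal.{0}} (h0 : ℵ₀ < c) (hreg : c.IsRegular) (hs : ∀ b < c, 2 ^ b < c) (hk : k < c) :
    ∃ mu : Cardinal.{0}, k ≤ mu ∧ ℵ₀ ≤ mu ∧ mu.ord.cof < mu ∧ mu ^ ℵ₀ = mu ∧ Order.succ mu < c := by
  have h1c : ℵ₁ < c := by
    have h := hs ℵ₀ h0
    exact lt_of_le_of_lt (Cardinal.aleph_one_le_iff.mpr (Cardinal.cantor ℵ₀)) h
  have hi : k.ord + (ℵ₁ : Cardinal.{0}).ord < c.ord :=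
    Ordinal.isPrincipal_add_ord h0.le (Cardinal.ord_lt_ord.mpr hk) (Cardinal.ord_lt_ord.mpr h1c)
  have hlim1 : Order.IsSuccLimit (ℵ₁ : Cardinal.{0}).ord :=
    Cardinal.isSuccLimit_ord Cardinal.aleph0_lt_aleph_one.le
  have hlim : Order.IsSuccLimit (k.ord + (ℵ₁ : Cardinal.{0}).ord) := Ordinal.isSuccLimit_add _ hlim1
  have hcofi : (k.ord + (ℵ₁ : Cardinal.{0}).ord).cof = ℵ₁ := by
    rw [Ordinal.cof_add _ hlim1.ne_bot]
    exact Cardinal.isRegular_aleph_one.cof_ord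
  have hN : Order.IsNormal (fun o : Ordinal.{0} => (Cardinal.beth o).ord) :=
    Cardinal.isNormal_ord.comp Cardinal.isNormal_beth
  have hcof : (Cardinal.beth (k.ord + (ℵ₁ : Cardinal.{0}).ord)).ord.cof = ℵ₁ := by
    have h := Ordinal.cof_map_of_isNormal hN hlim
    exact h.trans hcofi
  have hst : Cardinal.IsStrongLimit (Cardinal.beth (k.ord + (ℵ₁ : Cardinal.{0}).ord)) :=
    Cardinal.isStrongLimit_beth.mpr hlim.isSuccPrelimit
  have hmuc := beth_lt_of h0 hreg hs hi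
  refine ⟨Cardinal.beth (k.ord + (ℵ₁ : Cardinal.{0}).ord), ?_, Cardinal.aleph0_le_beth _, ?_, ?_, ?_⟩
  · exact (Cardinal.le_beth_ord k).trans (Cardinal.beth_le_beth.mpr (le_self_add))
  · rw [hcof]
    have h1 : (ℵ₁ : Cardinal.{0}) ≤ Cardinal.beth 1 := Cardinal.aleph_le_beth 1
    refine lt_of_le_of_lt h1 (Cardinal.beth_lt_beth.mpr ?_)
    have h2 : (1 : Ordinal.{0}) < (ℵ₁ : Cardinal.{0}).ord := by
      have h3 := hlim1.succ_lt (bot_lt_iff_ne_bot.mpr hlim1.ne_bot)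
      simpa using h3
    exact lt_of_lt_of_le h2 le_add_self
  · refine pow_of_cof (Cardinal.aleph0_le_beth _) (fun b hb => Cardinal.IsStrongLimit.isStrongPrelimit hst hb) ?_
    rw [hcof]
    exact Cardinal.aleph0_lt_aleph_one
  · exact lt_of_le_of_lt (Order.succ_le_of_lt (Cardinal.cantor _)) (hs _ hmuc)

end Pool.Agent.H8MC
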