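import Mathlib

/-!
# IM: a singular strong limit below an inaccessible cardinal (M, only Mathlib)

`c` is regular, uncountable, a strong limit; `k < c`. Let `i = k.ord + ω₁` (`ω₁ = (ℵ₁).ord`), `μ = ℶ_i`.

* For all ordinals `i < c.ord`: `ℶ_i < c` (induction: `ℶ_0 = ℵ₀`, `ℶ_(i+1) = 2 ^ ℶ_i`, limits: a supremum of fewer than `c` cardinals below `c`, regularity; `Cardinal.beth_..`, `Cardinal.iSup_lt_of_isRegular`). `i < c.ord` (`ℵ₁ < c` since `ℵ₁ ≤ 2 ^ ℵ₀ < c`; the sum of two ordinals below `c.ord` is below `c.ord`: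
  `Ordinal.isPrincipal_add_ord`-like).
* `k ≤ ℶ_(k.ord) ≤ μ`. `succ μ ≤ 2 ^ μ < c`.
* `i` is a limit of cofinality `ω₁`, and `ℶ` is a normal function, so `μ.ord.cof = ℵ₁ < μ` (`ℶ_i ≥ ℶ_(ω₁) > ℵ₁`): e.g. `Ordinal.IsNormal.cof_eq`, or directly.
* `μ ^ ℵ₀ = μ`: as `cof μ.ord = ℵ₁ > ℵ₀` every function `ℕ → μ.ord.ToType` is bounded; for each bound `b` there are at most `#(Iio b) ^ ℵ₀ ≤ 2 ^ (#(Iio b) * ℵ₀) ≤ μ` functions (`μ` is a strong limit), so at most `μ * μ = μ` functions. (Or `Cardinal.mk_bounded_subset`.)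
-/

set_option autoImplicit false

open Set Function Cardinal

namespace Pool.Agent.H8MC

theorem pow_of_cof {mu : Cardinal.{0}} (h0 : ℵ₀ ≤ mu) (hs : ∀ b < mu, 2 ^ b < mu) (hc : ℵ₀ < mu.ord.cof) : mu ^ ℵ₀ = mu := by
  classical
  have hmu : ℵ₀ < mu := hc.trans_le (Ordinal.cof_ord_le mu)
  refine le_antisymm ?_ (Cardinal.self_le_power mu Cardinal.one_le_aleph0)
  have hmk : Cardinal.mk mu.ord.ToType = mu := Cardinal.mk_ord_toType mu
  have hb : ∀ f : ℕ → mu.ord.ToType, ∃ b, ∀ n, f n < b := by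
    intro f
    by_contra hcon
    push Not at hcon
    have h1 : IsCofinal (range f) := by
      intro b
      obtain ⟨n, hn⟩ := hcon b
      exact ⟨f n, ⟨n, rfl⟩, hn⟩
    have h2 := Order.cof_le h1
    rw [Ordinal.cof_toType] at h2
    exact absurd (hc.trans_le h2) (not_lt.2 (countable_range f).le_aleph0)
  choose B hB using hb
  have hinj : Injective (fun f : ℕ → mu.ord.ToType =>
      (⟨B f, fun n => ⟨f n, hB f n⟩⟩ : Σ b : mu.ord.ToType, (ℕ → Iio b))) := by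
    intro f g hfg
    have h1 : ∀ x : Σ b : mu.ord.ToType, (ℕ → Iio b), ∀ n, ((x.2 n : Iio x.1) : mu.ord.ToType) =
      (fun y : Σ b : mu.ord.ToType, (ℕ → Iio b) => ((y.2 n : Iio y.1) : mu.ord.ToType)) x := fun x n => rfl
    funext n
    exact congrArg (fun y : Σ b : mu.ord.ToType, (ℕ → Iio b) => ((y.2 n : Iio y.1) : mu.ord.ToType)) hfg
  have h1 : mu ^ ℵ₀ = #(ℕ → mu.ord.ToType) := by
    rw [← Cardinal.power_def, hmk, Cardinal.mk_nat]
  rw [h1]
  refine (Cardinal.mk_le_of_injective hinj).trans ?_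
  rw [Cardinal.mk_sigma]
  have h2 : ∀ b : mu.ord.ToType, #(ℕ → Iio b) ≤ mu := by
    intro b
    have h3 : #(Iio b) < mu := by
      have h4 := Cardinal.mk_Iio_lt b (by rw [hmk, Ordinal.type_toType])
      rwa [hmk] at h4
    rw [← Cardinal.power_def, Cardinal.mk_nat]
    calc #(Iio b) ^ ℵ₀ ≤ (2 ^ #(Iio b)) ^ ℵ₀ := Cardinal.power_le_power_right (Cardinal.cantor _).le
      _ = 2 ^ (#(Iio b) * ℵ₀) := by rw [Cardinal.power_mul]
      _ ≤ mu := (hs _ (Cardinal.mul_lt_of_lt h0 h3 hmu)).le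
  calc (Cardinal.sum fun b : mu.ord.ToType => #(ℕ → Iio b)) ≤ Cardinal.sum fun _ : mu.ord.ToType => mu :=
        Cardinal.sum_le_sum _ _ h2
    _ = mu := by
        rw [Cardinal.sum_const', hmk, Cardinal.mul_eq_self h0]

end Pool.Agent.H8MC
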