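import Pool.Agent.Lib.H8MC.IM1
import Mathlib

/-!
# IM: a singular strong limit below an inaccessible cardinal (M, only Mathlib)

`c` is regular, uncountable, a strong limit; `k < c`. Let `i = k.ord + ω₁` (`ω₁ = (ℵ₁).ord`), `μ = ℶ_i`.

* For all ordinals `i < c.ord`: `ℶ_i < c` (induction: `ℶ_0 = ℵ₀`, `ℶ_(i+1) = 2 ^ ℶ_i`, limits: a supremum of fewer than `c` cardinals below `c`, regularity; `Cardinal.beth_..`, `Cardinal.iSup_lt_of_isRegular`). `i < c.ord` (`ℵ₁ < c` since `ℵ₁ ≤ 2 ^ ℵ₀ < c`; the sum of two ordinals below `c.ord` is below `c.ord`: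
  `Ordinal.isPrincipal_add_ord`-like).
* `k ≤ ℶ_(k.ord) ≤ μ`. `succ μ ≤ 2 ^ μ < c`.
* `i` is a limit of cofinality `ω₁`, and `ℶ` is a normal function, so `μ.ord.cof = ℵ₁ < μ` (`ℶ_i ≥ ℶ_(ω₁) > ℵ₁`): e.g. `Ordinal.IsNormal.cof_eq`, or directly.
* `μ ^ ℵ₀ = μ`: as `cof μ.ord = ℵ₁ > ℵ₀` every function `ℕ → μ.ord.ToType` is bounded; for each bound `b` there are at most `#(Iio b) ^ ℵ₀ ≤ 2 ^ (#(Iio b) * ℵ₀) ≤ μ` functions (`μ` is a strong limit), so at most `μ * μ = μ` functions. (Or `Cardinal.mk_bounded_subset`.)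
-/

set_option autoImplicit false

open Set Function Cardinal

namespace Pool.Agent.H8MC

theorem beth_lt_of {c : Cardinal.{0}} (h0 : ℵ₀ < c) (hreg : c.IsRegular) (hs : ∀ b < c, 2 ^ b < c) {i : Ordinal.{0}}
    (hi : i < c.ord) : Cardinal.beth i < c := by
  induction i using Ordinal.limitRecOn with
  | zero => rw [Cardinal.beth_zero]; exact h0
  | add_one o ih =>
    rw [Cardinal.beth_add_one]
    exact hs _ (ih ((lt_add_one o).trans hi))
  | limit o ho ih =>
    rw [Cardinal.beth_limit ho]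
    have hne : Nonempty (Iio o) := ⟨⟨0, ho.bot_lt⟩⟩
    have h1 : ∀ a : o.ToType, Cardinal.beth ((Ordinal.ToType.mk (o := o)).symm a).1 < c := fun a =>
      ih _ ((Ordinal.ToType.mk (o := o)).symm a).2 (lt_trans ((Ordinal.ToType.mk (o := o)).symm a).2 hi)
    have h2 : (⨆ a : o.ToType, Cardinal.beth ((Ordinal.ToType.mk (o := o)).symm a).1) < c := by
      apply Cardinal.iSup_lt_of_lt_cof_ord _ h1
      rw [hreg.cof_ord, Cardinal.mk_toType]
      exact Cardinal.lt_ord.1 hi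
    refine lt_of_le_of_lt ?_ h2
    apply ciSup_le
    intro a
    have h3 := le_ciSup (f := fun a : o.ToType => Cardinal.beth ((Ordinal.ToType.mk (o := o)).symm a).1)
      Cardinal.bddAbove_of_small (Ordinal.ToType.mk a)
    simpa using h3

end Pool.Agent.H8MC
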