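import Pool.Agent.Lib.H8MC.IK
import Pool.Agent.Lib.H8MC.IM
import Pool.Agent.Lib.H8MC.H1

/-!
# IZ: `I1` implies the hypothesis (S/M)

`c = lam.card`, `lam = c.ord` (`lam_card`). `IsMagidor c`: `ℵ₀ < c` (`ω < lam`), cofinality (`lam_cof`), `arrow_main` for `a = lam`. `exists_mu` for `(crs j kap 1).card` and `k = kap.card` (`kap < crs j kap 1`): `μ ≥ kap.card`, `kap = kap.card.ord` (`crs_card` for `n = 0`), so `kap < (succ μ).ord`; `succ μ < (crs j kap 1).card ≤ c`.
`alphaM c ≤ (succ μ).ord`: `csInf_le'` with `arrow_main`.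
-/

set_option autoImplicit false

open Set Function Cardinal

namespace Pool.Agent.H8MC

theorem hyp_of_I1 {kap lam : Ordinal.{0}} (h : I1 kap lam) : Hyp := by
  obtain ⟨j, d⟩ := exists_jd h
  have hc : lam.card.ord = lam := lam_card d
  have h0 := crs_card d 0
  have e0 : crs j kap 0 = kap := rfl
  rw [e0] at h0
  have h1 := crs_card d 1
  have hm : kap < crs j kap 1 := by
    have := crs_mono d 0
    rwa [e0] at this
  have hl : crs j kap 1 < lam := crs_lt d 1
  have hom : Ordinal.omega0 < kap := om_lt d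
  have hk : kap.card < (crs j kap 1).card := by
    rw [← Cardinal.ord_lt_ord, h0.1, h1.1]
    exact hm
  have ha : ℵ₀ < (crs j kap 1).card := by
    rw [← Cardinal.ord_lt_ord, Cardinal.ord_aleph0, h1.1]
    exact hom.trans hm
  obtain ⟨mu, m1, m2, m3, m4, m5⟩ := exists_mu ha h1.2.1 h1.2.2 hk
  have hlt : (Order.succ mu).ord < lam := by
    have h2 : (Order.succ mu).ord < (crs j kap 1).card.ord := Cardinal.ord_lt_ord.2 m5
    rw [h1.1] at h2
    exact h2.trans hl
  have hgt : kap < (Order.succ mu).ord := by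
    have h2 : kap.card.ord < (Order.succ mu).ord := Cardinal.ord_lt_ord.2 (m1.trans_lt (Order.lt_succ mu))
    rwa [h0.1] at h2
  refine ⟨lam.card, mu, ⟨?_, ?_, ?_⟩, ⟨m2, m3⟩, m4, ?_, ?_⟩
  · rw [← Cardinal.ord_lt_ord, Cardinal.ord_aleph0, hc]
    exact hom.trans d.lt
  · rw [hc]
    exact lam_cof d
  · rw [hc]
    exact arrow_main d hc.symm d.lt le_rfl
  · refine csInf_le' ⟨?_, ?_⟩
    · exact Order.one_le_iff_pos.2 (bot_le.trans_lt hgt)
    · exact arrow_main d hc.symm hgt hlt.le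
  · rw [← Cardinal.ord_lt_ord, hc]
    exact hlt

end Pool.Agent.H8MC
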