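import Pool.Agent.Lib.H8MC.L1A
import Pool.Agent.Lib.H8MC.A1
import Pool.Agent.Lib.H8MC.C2

/-!
# L1: the colour (S/M, M)

`col0 hg β X ξ` is the Boolean value of: `X` has a supremum `D ∉ X` of cofinality `ω`, and the pattern of `X` in the blocks of `D` is one of the sets `β a ξ`.

* `pat_ext`, `sup_ext`, `col0_ext`: each part is extensional (`eqN_trans`, `eqN_symm`; `eqK X Y ⊓ subK X Z ≤ subK Y Z`, `eqK X Y ⊓ cofB X D ≤ cofB Y D`).
* `sup_disj`: WLOG `D < D'`: `supB X D ≤ subK X (ind B (Iio D))`, and `supB X D' ≤ ⨆ ζ, tvB B (D ≤ ζ ∧ ζ < D') ⊓ X ζ`.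
* `col0_disj`: expand both; `D ≠ D'`: `sup_disj`; `D = D'`: `eqN P (β a ξ) ⊓ eqN P (β a' ξ') ≤ eqN (β a ξ) (β a' ξ') = ⊥`.
* `part_top`: for `g ∈ S`: `c g ≤ c g ⊓ ⨅ g', ..` because `c g ⊓ c g' ≤ tvB B (g' = g)`. So the supremum is at least `⨆ g, tvB B (g ∈ S) ⊓ c g = ⊤`.
-/

set_option autoImplicit false

open Set Function Cardinal

namespace Pool.Agent.H8MC

variable {K B : Type} [CompleteBooleanAlgebra B] [LinearOrder K]

theorem l1_dense {x z : B} (h : ∀ q, q ≠ ⊥ → q ≤ x → ∃ r, r ≠ ⊥ ∧ r ≤ q ∧ r ≤ z) : x ≤ z := by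
  by_contra hn
  have h1 : x ⊓ zᶜ ≠ ⊥ := fun h0 => hn (disjoint_compl_right_iff.1 (disjoint_iff.2 h0))
  obtain ⟨r, hr, h2, h3⟩ := h (x ⊓ zᶜ) h1 inf_le_left
  exact hr (le_bot_iff.1 ((le_inf h3 (h2.trans inf_le_right)).trans inf_compl_eq_bot.le))

theorem l1_sup {ι : Type} {q : B} (hq : q ≠ ⊥) {f : ι → B} (h : q ≤ ⨆ i, f i) : ∃ i, q ⊓ f i ≠ ⊥ := by
  by_contra hn
  push Not at hn
  apply hq
  rw [← inf_eq_left.2 h, inf_iSup_eq]
  exact iSup_eq_bot.2 hn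

theorem l1_tv {q a : B} {P : Prop} (h : q ⊓ (tvB B P ⊓ a) ≠ ⊥) : P ∧ q ⊓ a ≠ ⊥ := by
  by_cases hP : P
  · rw [tvB_true hP, top_inf_eq] at h
    exact ⟨hP, h⟩
  · rw [tvB_false hP, bot_inf_eq, inf_bot_eq] at h
    exact absurd rfl h

theorem l1_supt {ι : Type} {q : B} (hq : q ≠ ⊥) {P : ι → Prop} {f : ι → B}
    (h : q ≤ ⨆ i, tvB B (P i) ⊓ f i) : ∃ i, P i ∧ q ⊓ f i ≠ ⊥ := by
  obtain ⟨i, hi⟩ := l1_sup hq h
  exact ⟨i, l1_tv hi⟩

theorem l1_inft {ι : Type} {q : B} {P : ι → Prop} {f : ι → B} (h : q ≤ ⨅ i, tvB B (P i) ⇨ f i) {i : ι}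
    (hi : P i) : q ≤ f i := by
  have h1 := h.trans (iInf_le _ i)
  rwa [tvB_true hi, top_himp] at h1

theorem l1_lesup {ι : Type} {q : B} {P : ι → Prop} {f : ι → B} {i : ι} (hi : P i) (h : q ≤ f i) :
    q ≤ ⨆ i, tvB B (P i) ⊓ f i := by
  refine le_iSup_of_le i ?_
  rw [tvB_true hi, top_inf_eq]
  exact h

theorem l1_no {q a : B} (hq : q ≠ ⊥) (h1 : q ≤ a) (h2 : q ≤ aᶜ) : False :=
  hq (le_bot_iff.1 ((le_inf h1 h2).trans inf_compl_eq_bot.le))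

theorem l1_bot {x : B} (h : ∀ q, q ≠ ⊥ → q ≤ x → False) : x = ⊥ := by
  by_contra hx
  exact h x hx le_rfl

theorem sup_disj (X : K → B) (D D' : K) (h : D ≠ D') : supB X D ⊓ supB X D' = ⊥ := by
  have key : ∀ a b : K, a < b → supB X a ⊓ supB X b = ⊥ := by
    intro a b hab
    refine l1_bot fun q hq hl => ?_
    have h1 : q ≤ cofB X b := (hl.trans inf_le_right).trans inf_le_right
    have h2 : q ≤ ⨆ ζ, tvB B (a ≤ ζ ∧ ζ < b) ⊓ X ζ := l1_inft h1 (i := a) hab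
    obtain ⟨ζ, hζ, h3⟩ := l1_supt hq h2
    have h4 : q ≤ subK X (ind B (Iio a)) := (hl.trans inf_le_left).trans inf_le_left
    have h5 : q ≤ X ζ ⇨ ind B (Iio a) ζ := h4.trans (iInf_le _ ζ)
    rw [le_himp_iff] at h5
    apply h3
    have h6 : ind B (Iio a) ζ = ⊥ := tvB_false (not_lt.2 hζ.1)
    rw [h6] at h5
    exact le_bot_iff.1 h5
  rcases lt_or_gt_of_ne h with h1 | h1
  · exact key _ _ h1
  · rw [inf_comm]
    exact key _ _ h1

theorem col0_disj {Γ : Type} (hg : K → K → ℕ) (β : (ℕ → B) → Γ → ℕ → B)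
    (hβ : ∀ a ξ a' ξ', infB a = ⊤ → infB a' = ⊤ → (a, ξ) ≠ (a', ξ') → eqN (β a ξ) (β a' ξ') = ⊥)
    (X : K → B) (ξ ξ' : Γ) (h : ξ ≠ ξ') : col0 hg β X ξ ⊓ col0 hg β X ξ' = ⊥ := by
  refine l1_bot fun q hq hl => ?_
  obtain ⟨D, _, h1⟩ := l1_supt hq (hl.trans inf_le_left)
  obtain ⟨D', _, h2⟩ := l1_supt h1 (inf_le_left.trans (hl.trans inf_le_right))
  by_cases hD : D = D'
  · subst hD
    obtain ⟨a, h3⟩ := l1_sup h2 ((inf_le_left.trans inf_le_right).trans inf_le_right)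
    obtain ⟨a', h4⟩ := l1_sup h3 ((inf_le_left.trans inf_le_right).trans inf_le_right)
    apply h4
    refine le_bot_iff.1 ?_
    rw [← hβ a.1 ξ a'.1 ξ' a.2 a'.2 (fun he => h (Prod.ext_iff.1 he).2)]
    refine le_trans (le_inf ?_ ?_) (eqN_trans (β a.1 ξ) (pat D (hg D) X) (β a'.1 ξ'))
    · rw [eqN_symm]
      exact inf_le_left.trans inf_le_right
    · exact inf_le_right
  · apply h2
    refine le_bot_iff.1 ?_
    rw [← sup_disj X D D' hD]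
    exact le_inf ((inf_le_left.trans inf_le_right).trans inf_le_left) (inf_le_right.trans inf_le_left)

omit [LinearOrder K] in
theorem part_top {S : Set K} (c : K → B) (hd : ∀ g ∈ S, ∀ g' ∈ S, g ≠ g' → c g ⊓ c g' = ⊥)
    (hs : ⨆ g, tvB B (g ∈ S) ⊓ c g = ⊤) :
    ⨆ g, tvB B (g ∈ S) ⊓ (c g ⊓ ⨅ g', tvB B (g' ∈ S) ⇨ (c g' ⇨ tvB B (g' = g))) = ⊤ := by
  refine eq_top_iff.2 (hs.symm.le.trans (iSup_mono fun g => ?_))
  by_cases hg : g ∈ S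
  · rw [tvB_true hg, top_inf_eq, top_inf_eq]
    refine le_inf le_rfl (le_iInf fun g' => ?_)
    rw [le_himp_iff]
    by_cases hg' : g' ∈ S
    · rw [tvB_true hg', inf_top_eq, le_himp_iff]
      by_cases he : g' = g
      · rw [tvB_true he]
        exact le_top
      · rw [hd g hg g' hg' (fun h => he h.symm)]
        exact bot_le
    · rw [tvB_false hg', inf_bot_eq]
      exact bot_le
  · rw [tvB_false hg, bot_inf_eq]
    exact bot_le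

end Pool.Agent.H8MC
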