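import Pool.Agent.Lib.H8MC.A1
import Pool.Agent.Lib.H8MC.C2

/-!
# L1: the colour (S/M, M)

`col0 hg β X ξ` is the Boolean value of: `X` has a supremum `D ∉ X` of cofinality `ω`, and the pattern of `X` in the blocks of `D` is one of the sets `β a ξ`.

* `pat_ext`, `sup_ext`, `col0_ext`: each part is extensional (`eqN_trans`, `eqN_symm`; `eqK X Y ⊓ subK X Z ≤ subK Y Z`, `eqK X Y ⊓ cofB X D ≤ cofB Y D`).
* `sup_disj`: WLOG `D < D'`: `supB X D ≤ subK X (ind B (Iio D))`, and `supB X D' ≤ ⨆ ζ, tvB B (D ≤ ζ ∧ ζ < D') ⊓ X ζ`.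
* `col0_disj`: expand both; `D ≠ D'`: `sup_disj`; `D = D'`: `eqN P (β a ξ) ⊓ eqN P (β a' ξ') ≤ eqN (β a ξ) (β a' ξ') = ⊥`.
* `part_top`: for `g ∈ S`: `c g ≤ c g ⊓ ⨅ g', ..` because `c g ⊓ c g' ≤ tvB B (g' = g)`. So the supremum is at least `⨆ g, tvB B (g ∈ S) ⊓ c g = ⊤`.
-/

set_option autoImplicit false

open Set Function Cardinal

namespace Pool.Agent.H8MC

variable {K B : Type} [CompleteBooleanAlgebra B] [LinearOrder K]

/-- the preliminary colour -/
noncomputable def col0 {Γ : Type} (hg : K → K → ℕ) (β : (ℕ → B) → Γ → ℕ → B) (X : K → B) (ξ : Γ) : B :=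
  ⨆ D, tvB B (Good D) ⊓ (supB X D ⊓ ⨆ a : {a : ℕ → B // infB a = ⊤}, eqN (pat D (hg D) X) (β a.1 ξ))

omit [LinearOrder K] in
theorem l1a_fwd (X Y : K → B) (k : K) : eqK X Y ⊓ X k ≤ Y k := by
  have h1 : eqK X Y ≤ X k ⇨ Y k := (iInf_le _ k).trans inf_le_left
  exact le_himp_iff.1 h1

omit [LinearOrder K] in
theorem l1a_bwd (X Y : K → B) (k : K) : eqK X Y ⊓ Y k ≤ X k := by
  have h1 : eqK X Y ≤ Y k ⇨ X k := (iInf_le _ k).trans inf_le_right
  exact le_himp_iff.1 h1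

theorem l1a_pat (D : K) (h : K → ℕ) (X Y : K → B) (q : B) (hq : ∀ k, q ⊓ X k ≤ Y k) (n : ℕ) :
    q ⊓ pat D h X n ≤ pat D h Y n := by
  unfold pat
  rw [inf_iSup_eq]
  refine iSup_le fun z => ?_
  refine le_trans ?_ (le_iSup _ z)
  refine le_inf (inf_le_right.trans inf_le_left) ?_
  exact (le_inf inf_le_left (inf_le_right.trans inf_le_right)).trans (hq z)

theorem pat_ext (D : K) (h : K → ℕ) (X Y : K → B) : eqK X Y ≤ eqN (pat D h X) (pat D h Y) := by
  refine le_iInf fun n => le_inf ?_ ?_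
  · exact le_himp_iff.2 (l1a_pat D h X Y _ (l1a_fwd X Y) n)
  · exact le_himp_iff.2 (l1a_pat D h Y X _ (l1a_bwd X Y) n)

theorem sup_ext (D : K) (X Y : K → B) : eqK X Y ⊓ supB X D ≤ supB Y D := by
  unfold supB
  refine le_inf ?_ ?_
  · refine le_iInf fun k => le_himp_iff.2 ?_
    have h1 : subK X (ind B (Iio D)) ⊓ X k ≤ ind B (Iio D) k := le_himp_iff.1 (iInf_le _ k)
    refine le_trans ?_ h1
    refine le_inf (inf_le_left.trans (inf_le_right.trans inf_le_left)) ?_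
    exact (le_inf (inf_le_left.trans inf_le_left) inf_le_right).trans (l1a_bwd X Y k)
  · refine le_iInf fun e => le_himp_iff.2 ?_
    have h1 : cofB X D ⊓ tvB B (e < D) ≤ ⨆ z, tvB B (e ≤ z ∧ z < D) ⊓ X z := le_himp_iff.1 (iInf_le _ e)
    have h2 : eqK X Y ⊓ (⨆ z, tvB B (e ≤ z ∧ z < D) ⊓ X z) ≤ ⨆ z, tvB B (e ≤ z ∧ z < D) ⊓ Y z := by
      rw [inf_iSup_eq]
      refine iSup_le fun z => ?_
      refine le_trans ?_ (le_iSup _ z)
      refine le_inf (inf_le_right.trans inf_le_left) ?_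
      exact (le_inf inf_le_left (inf_le_right.trans inf_le_right)).trans (l1a_fwd X Y z)
    refine le_trans ?_ h2
    refine le_inf (inf_le_left.trans inf_le_left) ?_
    exact (le_inf (inf_le_left.trans (inf_le_right.trans inf_le_right)) inf_le_right).trans h1

theorem col0_ext {Γ : Type} (hg : K → K → ℕ) (β : (ℕ → B) → Γ → ℕ → B) (X Y : K → B) (ξ : Γ) :
    eqK X Y ⊓ col0 hg β X ξ ≤ col0 hg β Y ξ := by
  unfold col0
  rw [inf_iSup_eq]
  refine iSup_le fun D => ?_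
  refine le_trans ?_ (le_iSup _ D)
  refine le_inf (inf_le_right.trans inf_le_left) (le_inf ?_ ?_)
  · exact (le_inf inf_le_left (inf_le_right.trans (inf_le_right.trans inf_le_left))).trans (sup_ext D X Y)
  · have h1 : eqK X Y ⊓ (⨆ a : {a : ℕ → B // infB a = ⊤}, eqN (pat D (hg D) X) (β a.1 ξ)) ≤
        ⨆ a : {a : ℕ → B // infB a = ⊤}, eqN (pat D (hg D) Y) (β a.1 ξ) := by
      rw [inf_iSup_eq]
      refine iSup_le fun a => ?_
      refine le_trans ?_ (le_iSup _ a)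
      refine le_trans ?_ (eqN_trans _ (pat D (hg D) X) _)
      refine le_inf ?_ inf_le_right
      rw [eqN_symm (pat D (hg D) Y) (pat D (hg D) X)]
      exact inf_le_left.trans (pat_ext D (hg D) X Y)
    exact (le_inf inf_le_left (inf_le_right.trans (inf_le_right.trans inf_le_right))).trans h1

end Pool.Agent.H8MC
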