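import Pool.Agent.Lib.H8MC.A1

/-!
# L2: an unbounded set is not finite (M)

Induction on the finite set `T` (`Set.Finite.induction_on` or on the number of elements), for all `X`. It is enough that `q = cofB X D ⊓ injK f X (ind B T)` is `⊥` for every `f` (`inf_iSup_eq`).
Suppose `q ≠ ⊥`. Let `η < D` (`hne`). `q ≤ ⨆ ζ, tvB B (η ≤ ζ ∧ ζ < D) ⊓ X ζ`, so there is `ζ < D` with `q ⊓ X ζ ≠ ⊥`; `q ⊓ X ζ ≤ ⨆ b, ind B T b ⊓ f ζ b`, so there is `t ∈ T` with
`q' = q ⊓ X ζ ⊓ f ζ t ≠ ⊥`. In particular `T` is not empty. Let `X' k = tvB B (k ≠ ζ) ⊓ X k`, `T' = T \ {t}`. Then `q' ≤ cofB X' D` (for `η < D` take `η' < D` above `η` and `ζ`: `hlim`), and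
`q' ≤ injK f X' (ind B T')`: for `k ≠ ζ`: `q' ⊓ X k ≤ ⨆ b ∈ T, f k b`, and `q' ⊓ X k ⊓ f k t ≤ tvB B (ζ = k ↔ t = t) = ⊥`. By induction (`T'` has fewer elements) `q' = ⊥`.
-/

set_option autoImplicit false

open Set Function Cardinal

namespace Pool.Agent.H8MC

variable {K B : Type} [CompleteBooleanAlgebra B] [LinearOrder K]

theorem l2_step {X : K → B} {T : Set K} {f : K → K → B} {q : B} (hq : q ≤ injK f X (ind B T)) (k : K) :
    q ⊓ X k ≤ ⨆ b, ind B T b ⊓ f k b := by
  have h1 : q ≤ X k ⇨ ⨆ b, ind B T b ⊓ f k b := hq.trans (inf_le_left.trans (iInf_le _ k))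
  exact le_himp_iff.1 h1

theorem l2_inj {X Y : K → B} {f : K → K → B} {q : B} (hq : q ≤ injK f X Y) (a a' b b' : K) :
    q ⊓ X a ⊓ X a' ⊓ Y b ⊓ Y b' ⊓ f a b ⊓ f a' b' ≤ tvB B (a = a' ↔ b = b') := by
  have h1 : q ≤ X a ⇨ (X a' ⇨ (Y b ⇨ (Y b' ⇨ (f a b ⇨ (f a' b' ⇨ tvB B (a = a' ↔ b = b')))))) :=
    hq.trans (inf_le_right.trans ((iInf_le _ a).trans ((iInf_le _ a').trans ((iInf_le _ b).trans (iInf_le _ b')))))
  rw [le_himp_iff, le_himp_iff, le_himp_iff, le_himp_iff, le_himp_iff, le_himp_iff] at h1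
  exact h1

theorem l2_ind_mono {T T' : Set K} (h : T' ⊆ T) (b : K) : ind B T' b ≤ ind B T b := by
  unfold ind
  by_cases hb : b ∈ T'
  · rw [tvB_true (h hb)]
    exact le_top
  · rw [tvB_false hb]
    exact bot_le

theorem l2_key {D : K} (hne : ∃ η, η < D) (hlim : ∀ η < D, ∃ η', η < η' ∧ η' < D) (f : K → K → B) (T : Finset K) :
    ∀ X : K → B, cofB X D ⊓ injK f X (ind B (T : Set K)) = ⊥ := by
  classical
  induction T using Finset.strongInduction with
  | H T ih =>
    intro X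
    by_contra hq
    set q : B := cofB X D ⊓ injK f X (ind B (T : Set K)) with hqd
    have hq1 : q ≤ cofB X D := inf_le_left
    have hq2 : q ≤ injK f X (ind B (T : Set K)) := inf_le_right
    have hcof : ∀ η, η < D → q ≤ ⨆ ζ, tvB B (η ≤ ζ ∧ ζ < D) ⊓ X ζ := by
      intro η hη
      have h1 : q ≤ tvB B (η < D) ⇨ ⨆ ζ, tvB B (η ≤ ζ ∧ ζ < D) ⊓ X ζ := hq1.trans (iInf_le _ η)
      rw [tvB_true hη, top_himp] at h1
      exact h1
    obtain ⟨η0, hη0⟩ := hne
    obtain ⟨ζ, hζD, hζ⟩ : ∃ ζ, ζ < D ∧ q ⊓ X ζ ≠ ⊥ := by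
      by_contra hcon
      push Not at hcon
      apply hq
      have h1 : q = q ⊓ ⨆ ζ, tvB B (η0 ≤ ζ ∧ ζ < D) ⊓ X ζ := (inf_eq_left.2 (hcof η0 hη0)).symm
      rw [h1, inf_iSup_eq, iSup_eq_bot]
      intro ζ
      by_cases hz : η0 ≤ ζ ∧ ζ < D
      · rw [tvB_true hz, top_inf_eq]
        exact hcon ζ hz.2
      · rw [tvB_false hz, bot_inf_eq, inf_bot_eq]
    obtain ⟨t, htT, ht⟩ : ∃ t, t ∈ T ∧ q ⊓ X ζ ⊓ f ζ t ≠ ⊥ := by
      by_contra hcon
      push Not at hcon
      apply hζ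
      have h1 : q ⊓ X ζ = (q ⊓ X ζ) ⊓ ⨆ b, ind B (T : Set K) b ⊓ f ζ b := (inf_eq_left.2 (l2_step hq2 ζ)).symm
      rw [h1, inf_iSup_eq, iSup_eq_bot]
      intro b
      by_cases hb : b ∈ T
      · unfold ind
        rw [tvB_true (by exact_mod_cast hb), top_inf_eq]
        exact hcon b hb
      · unfold ind
        rw [tvB_false (by exact_mod_cast hb), bot_inf_eq, inf_bot_eq]
    set q' : B := q ⊓ X ζ ⊓ f ζ t with hq'
    have hq'q : q' ≤ q := inf_le_left.trans inf_le_left
    have hq'X : q' ≤ X ζ := inf_le_left.trans inf_le_right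
    have hq'f : q' ≤ f ζ t := inf_le_right
    set X' : K → B := fun k => tvB B (k ≠ ζ) ⊓ X k with hX'
    have hX'X : ∀ k, X' k ≤ X k := fun k => inf_le_right
    have hind : ∀ b, ind B ((T.erase t : Finset K) : Set K) b ≤ ind B (T : Set K) b :=
      fun b => l2_ind_mono (by exact_mod_cast Finset.erase_subset t T) b
    have c1 : q' ≤ cofB X' D := by
      refine le_iInf fun η => ?_
      by_cases hη : η < D
      · rw [tvB_true hη, top_himp]
        obtain ⟨η', h1, h2⟩ := hlim (max η ζ) (max_lt hη hζD)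
        refine (hq'q.trans (hcof η' h2)).trans (iSup_mono fun ζ' => ?_)
        by_cases hz : η' ≤ ζ' ∧ ζ' < D
        · have h3 : η ≤ ζ' := ((le_max_left _ _).trans h1.le).trans hz.1
          have h4 : ζ' ≠ ζ := by
            have h5 : ζ < ζ' := lt_of_lt_of_le (lt_of_le_of_lt (le_max_right _ _) h1) hz.1
            exact h5.ne'
          rw [tvB_true hz, tvB_true (show η ≤ ζ' ∧ ζ' < D from ⟨h3, hz.2⟩), top_inf_eq, top_inf_eq]
          show X ζ' ≤ tvB B (ζ' ≠ ζ) ⊓ X ζ'
          rw [tvB_true h4, top_inf_eq]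
        · rw [tvB_false hz, bot_inf_eq]
          exact bot_le
      · rw [tvB_false hη, bot_himp]
        exact le_top
    have c2 : q' ≤ injK f X' (ind B ((T.erase t : Finset K) : Set K)) := by
      refine le_inf (le_iInf fun k => ?_) ?_
      · rw [le_himp_iff]
        by_cases hk : k = ζ
        · show q' ⊓ (tvB B (k ≠ ζ) ⊓ X k) ≤ _
          rw [tvB_false (show ¬ k ≠ ζ from fun h => h hk), bot_inf_eq, inf_bot_eq]
          exact bot_le
        · have h1 : q' ⊓ X' k ≤ q' ⊓ X k := inf_le_inf_left _ (hX'X k)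
          refine h1.trans ?_
          have h2 : q' ⊓ X k ≤ ⨆ b, ind B (T : Set K) b ⊓ f k b :=
            (inf_le_inf_right _ hq'q).trans (l2_step hq2 k)
          have h3 : q' ⊓ X k = (q' ⊓ X k) ⊓ ⨆ b, ind B (T : Set K) b ⊓ f k b := (inf_eq_left.2 h2).symm
          rw [h3, inf_iSup_eq]
          refine iSup_le fun b => ?_
          by_cases hb : b = t
          · subst hb
            have h4 := l2_inj hq2 ζ k b b
            rw [tvB_false (show ¬ (ζ = k ↔ b = b) from fun h => hk (h.2 rfl).symm)] at h4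
            refine le_trans ?_ (h4.trans bot_le)
            have g0 : q' ⊓ X k ⊓ (ind B (T : Set K) b ⊓ f k b) ≤ q' := inf_le_left.trans inf_le_left
            have g1 : q' ⊓ X k ⊓ (ind B (T : Set K) b ⊓ f k b) ≤ X k := inf_le_left.trans inf_le_right
            have g2 : q' ⊓ X k ⊓ (ind B (T : Set K) b ⊓ f k b) ≤ ind B (T : Set K) b := inf_le_right.trans inf_le_left
            have g3 : q' ⊓ X k ⊓ (ind B (T : Set K) b ⊓ f k b) ≤ f k b := inf_le_right.trans inf_le_right
            exact le_inf (le_inf (le_inf (le_inf (le_inf (le_inf (g0.trans hq'q) (g0.trans hq'X)) g1) g2) g2)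
              (g0.trans hq'f)) g3
          · refine le_trans inf_le_right ?_
            refine le_trans ?_ (le_iSup (fun b => ind B ((T.erase t : Finset K) : Set K) b ⊓ f k b) b)
            refine inf_le_inf_right _ ?_
            unfold ind
            by_cases hbT : b ∈ T
            · rw [tvB_true (show b ∈ ((T.erase t : Finset K) : Set K) by
                rw [Finset.mem_coe, Finset.mem_erase]
                exact ⟨hb, hbT⟩)]
              exact le_top
            · rw [tvB_false (show ¬ b ∈ (T : Set K) by exact_mod_cast hbT)]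
              exact bot_le
      · refine le_iInf fun a => le_iInf fun a' => le_iInf fun b => le_iInf fun b' => ?_
        rw [le_himp_iff, le_himp_iff, le_himp_iff, le_himp_iff, le_himp_iff, le_himp_iff]
        refine le_trans ?_ (l2_inj hq2 a a' b b')
        exact inf_le_inf_right _ (inf_le_inf_right _ (inf_le_inf (inf_le_inf (inf_le_inf (inf_le_inf hq'q (hX'X a))
          (hX'X a')) (hind b)) (hind b')))
    have h1 := ih (T.erase t) (Finset.erase_ssubset htT) X'
    exact ht (le_bot_iff.1 ((le_inf c1 c2).trans h1.le))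

theorem notfin {D : K} (hne : ∃ η, η < D) (hlim : ∀ η < D, ∃ η', η < η' ∧ η' < D) (X : K → B) {T : Set K} (hT : T.Finite) :
    cofB X D ⊓ embK X (ind B T) = ⊥ := by
  obtain ⟨T', rfl⟩ := hT.exists_finset_coe
  unfold embK
  rw [inf_iSup_eq, iSup_eq_bot]
  intro f
  exact l2_key hne hlim f T' X

end Pool.Agent.H8MC
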