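import Pool.Agent.Lib.H8MC.L3B
import Pool.Agent.Lib.H8MC.L2
import Pool.Agent.Lib.H8MC.A2
import Pool.Agent.Lib.H8MC.D1

/-!
# L3: selecting a subset of `A` with a given pattern (S/M, M)

`sel D h A b` consists of the least elements of `A` in the blocks `{ζ < D | h ζ = n}`, `n ∈ b`. Let `u = cofB A D`.

* `pat_inf`: (complement) it is enough that `u ≤ ⨆ m, tvB B (n ≤ m) ⊓ pat D h A m` for all `n`: `hh.bd n` gives `η < D` with `h ζ ≤ n → ζ < η` for `ζ < D`; `u ≤ ⨆ ζ, tvB B (η ≤ ζ ∧ ζ < D) ⊓ A ζ`, and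
  such a `ζ` has `h ζ > n`, so `A ζ ≤ pat D h A (h ζ)`.
* `sel_le`: clear.
* `pat_sel`: `b n ⊓ pat D h A n ≤ pat D h (sel D h A b) n`: for `ζ < D`, `h ζ = n`: apply `least` to `P ζ = tvB B (ζ < D ∧ h ζ = n) ⊓ A ζ`. The other direction is clear.
* `sel_emb`: `f ζ k = tvB B (k = e (h ζ))` is an injection from `sel ..` to `Iio o`: if `e (h ζ) = e (h ζ')` and `ζ' < ζ` then `h ζ' = h ζ` and `sel .. ζ ≤ (A ζ')ᶜ`, `sel .. ζ' ≤ A ζ'`.
* `sel_sup`: `subK (sel ..) (ind B (Iio D)) = ⊤`. For `η < D`: `infB b = ⊤`, so it is enough to treat `n > h η`: `u ⊓ b n ≤ pat D h A n`, so `u ⊓ b n ≤ pat D h (sel ..) n` (`pat_sel`), and `ζ < D`, `h ζ = n > h η` implies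
  `η ≤ ζ` (`hh.mono`).
* `sel_cb`: bounded by `D`; `sel_emb`; not finite: `notfin` (`D` is a limit: for `η < D`, `hh.bd (h η)` gives `η' < D` with `η < η'`; the sets `Iio n`, `n < o`, are finite) with `sel_sup`.
-/

set_option autoImplicit false

open Set Function Cardinal

namespace Pool.Agent.H8MC

variable {K B : Type} [CompleteBooleanAlgebra B] [LinearOrder K]

theorem sel_sup [WellFoundedLT K] {D : K} {h : K → ℕ} (hh : Hgt D h) (A : K → B) (b : ℕ → B) (hb : infB b = ⊤)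
    (hb' : ∀ n, cofB A D ⊓ b n ≤ pat D h A n) : cofB A D ≤ supB (sel D h A b) D := by
  refine le_inf (le_iInf fun ζ => ?_) (le_iInf fun η => ?_)
  · rw [le_himp_iff]
    exact inf_le_right.trans inf_le_left
  · rw [le_himp_iff]
    by_cases hη : η < D
    swap
    · rw [tvB_false hη]
      simp
    rw [tvB_true hη, inf_top_eq]
    have h1 : (⊤ : B) ≤ ⨆ m, tvB B (h η + 1 ≤ m) ⊓ b m := by
      rw [← hb]
      exact iInf_le _ _
    have h2 : cofB A D ≤ ⨆ m, cofB A D ⊓ (tvB B (h η + 1 ≤ m) ⊓ b m) := by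
      rw [← inf_iSup_eq]
      exact le_inf le_rfl (le_top.trans h1)
    refine h2.trans (iSup_le fun m => ?_)
    by_cases hm : h η + 1 ≤ m
    swap
    · rw [tvB_false hm]
      simp
    rw [tvB_true hm, top_inf_eq]
    have h3 : cofB A D ⊓ b m ≤ pat D h (sel D h A b) m := by
      rw [pat_sel]
      exact le_inf inf_le_right (hb' m)
    refine h3.trans (iSup_le fun ζ => le_iSup_of_le ζ ?_)
    by_cases hζ : ζ < D ∧ h ζ = m
    swap
    · rw [tvB_false hζ]
      simp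
    have h4 : η ≤ ζ := by
      by_contra h5
      have := hh.mono ζ η (not_le.mp h5).le hη
      omega
    rw [tvB_true hζ, tvB_true ⟨h4, hζ.1⟩]

theorem sel_cb [WellFoundedLT K] {D : K} {h : K → ℕ} (hh : Hgt D h) (A : K → B) (b : ℕ → B) (hb : infB b = ⊤)
    (hb' : ∀ n, cofB A D ⊓ b n ≤ pat D h A n) {o : K} {e : ℕ → K} (he : StrictMono e)
    (he' : ∀ k, k < o ↔ ∃ n, e n = k) : cofB A D ≤ cbK o (sel D h A b) := by
  have h0 := sel_sup hh A b hb hb'
  refine le_inf (le_iSup_of_le D (h0.trans inf_le_left)) (le_inf ?_ ?_)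
  · rw [sel_emb D h A b he he']
    exact le_top
  · rw [le_compl_iff_disjoint_right, disjoint_iff, inf_iSup_eq, iSup_eq_bot]
    intro n
    by_cases hn : n < o
    swap
    · rw [tvB_false hn]
      simp
    rw [tvB_true hn, top_inf_eq]
    have hT : (Iio n).Finite := by
      obtain ⟨j, hj⟩ := (he' n).1 hn
      refine ((Set.finite_Iio j).image e).subset fun k hk => ?_
      obtain ⟨i, hi⟩ := (he' k).1 (lt_trans hk hn)
      refine ⟨i, ?_, hi⟩
      rw [← hj, ← hi] at hk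
      exact he.lt_iff_lt.1 hk
    have hne : ∃ η, η < D := by
      obtain ⟨η, h1, _⟩ := hh.bd 0
      exact ⟨η, h1⟩
    have hlim : ∀ η < D, ∃ η', η < η' ∧ η' < D := by
      intro η hη
      obtain ⟨η', h1, h2⟩ := hh.bd (h η)
      exact ⟨η', h2 η hη le_rfl, h1⟩
    refine le_bot_iff.mp ?_
    rw [← notfin hne hlim (sel D h A b) hT]
    exact inf_le_inf_right _ (h0.trans inf_le_right)

end Pool.Agent.H8MC
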