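import Pool.Agent.Lib.H8MC.L2
import Pool.Agent.Lib.H8MC.A2
import Pool.Agent.Lib.H8MC.D1

/-!
# L3: selecting a subset of `A` with a given pattern (S/M, M)

`sel D h A b` consists of the least elements of `A` in the blocks `{ζ < D | h ζ = n}`, `n ∈ b`. Let `u = cofB A D`.

* `pat_inf`: (complement) it is enough that `u ≤ ⨆ m, tvB B (n ≤ m) ⊓ pat D h A m` for all `n`: `hh.bd n` gives `η < D` with `h ζ ≤ n → ζ < η` for `ζ < D`; `u ≤ ⨆ ζ, tvB B (η ≤ ζ ∧ ζ < D) ⊓ A ζ`, and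
  such a `ζ` has `h ζ > n`, so `A ζ ≤ pat D h A (h ζ)`.
* `sel_le`: clear.
* `pat_sel`: `b n ⊓ pat D h A n ≤ pat D h (sel D h A b) n`: for `ζ < D`, `h ζ = n`: apply `least` to `P ζ = tvB B (ζ < D ∧ h ζ = n) ⊓ A ζ`. The other direction is clear.
* `sel_emb`: `f ζ k = tvB B (k = e (h ζ))` is an injection from `sel ..` to `Iio o`: if `e (h ζ) = e (h ζ')` and `ζ' < ζ` then `h ζ' = h ζ` and `sel .. ζ ≤ (A ζ')ᶜ`, `sel .. ζ' ≤ A ζ'`.
* `sel_sup`: `subK (sel ..) (ind B (Iio D)) = ⊤`. For `η < D`: `infB b = ⊤`, so it is enough to treat `n > h η`: `u ⊓ b n ≤ pat D h A n`, so `u ⊓ b n ≤ pat D h (sel ..) n` (`pat_sel`), and `ζ < D`, `h ζ = n > h η` implies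
  `η ≤ ζ` (`hh.mono`).
* `sel_cb`: bounded by `D`; `sel_emb`; not finite: `notfin` (`D` is a limit: for `η < D`, `hh.bd (h η)` gives `η' < D` with `η < η'`; the sets `Iio n`, `n < o`, are finite) with `sel_sup`.
-/

set_option autoImplicit false

open Set Function Cardinal

namespace Pool.Agent.H8MC

variable {K B : Type} [CompleteBooleanAlgebra B] [LinearOrder K]

/-- the least elements of `A` in the blocks `{h = n}` of `D`, `n ∈ b` -/
noncomputable def sel (D : K) (h : K → ℕ) (A : K → B) (b : ℕ → B) (ζ : K) : B :=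
  tvB B (ζ < D) ⊓ (A ζ ⊓ (b (h ζ) ⊓ (⨆ ζ', tvB B (ζ' < ζ ∧ h ζ' = h ζ) ⊓ A ζ')ᶜ))

theorem pat_inf {D : K} {h : K → ℕ} (hh : Hgt D h) (A : K → B) :
    infB (fun n => pat D h A n ⊔ (cofB A D)ᶜ) = ⊤ := by
  unfold infB
  rw [iInf_eq_top]
  intro n
  refine eq_top_iff.2 (d1_dense fun q hq _ => ?_)
  by_cases hu : q ⊓ (cofB A D)ᶜ = ⊥
  · have h1 : q ≤ cofB A D := disjoint_compl_right_iff.1 (disjoint_iff.2 hu)
    obtain ⟨η, hη, h2⟩ := hh.bd n
    have h3 : q ≤ ⨆ ζ, tvB B (η ≤ ζ ∧ ζ < D) ⊓ A ζ := d1_inft h1 (i := η) hη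
    obtain ⟨ζ, hζ, h4⟩ := d1_supt hq h3
    have h5 : n ≤ h ζ := by
      by_contra hn
      exact absurd (h2 ζ hζ.2 (not_le.1 hn).le) (not_lt.2 hζ.1)
    refine ⟨q ⊓ A ζ, h4, inf_le_left, ?_⟩
    refine d1_lesup (P := fun m => n ≤ m) (i := h ζ) h5 (le_sup_of_le_left ?_)
    exact d1_lesup (P := fun ζ' => ζ' < D ∧ h ζ' = h ζ) (i := ζ) ⟨hζ.2, rfl⟩ inf_le_right
  · refine ⟨q ⊓ (cofB A D)ᶜ, hu, inf_le_left, ?_⟩
    exact d1_lesup (P := fun m => n ≤ m) (i := n) le_rfl (inf_le_right.trans le_sup_right)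

theorem sel_le (D : K) (h : K → ℕ) (A : K → B) (b : ℕ → B) : subK (sel D h A b) A = ⊤ := by
  unfold subK
  rw [iInf_eq_top]
  intro k
  rw [himp_eq_top_iff]
  exact inf_le_right.trans inf_le_left

theorem pat_sel [WellFoundedLT K] (D : K) (h : K → ℕ) (A : K → B) (b : ℕ → B) (n : ℕ) :
    pat D h (sel D h A b) n = b n ⊓ pat D h A n := by
  refine le_antisymm (iSup_le fun ζ => ?_) (d1_dense fun q hq hl => ?_)
  · by_cases hζ : ζ < D ∧ h ζ = n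
    · rw [tvB_true hζ, top_inf_eq]
      refine le_inf ?_ (d1_lesup hζ (inf_le_right.trans inf_le_left))
      have h1 : sel D h A b ζ ≤ b (h ζ) := (inf_le_right.trans inf_le_right).trans inf_le_left
      rwa [hζ.2] at h1
    · rw [tvB_false hζ, bot_inf_eq]
      exact bot_le
  · obtain ⟨ζ, hζ, h1⟩ := d1_supt hq (hl.trans inf_le_right)
    have h2 : q ⊓ A ζ ≤ tvB B (ζ < D ∧ h ζ = n) ⊓ A ζ := by
      rw [tvB_true hζ, top_inf_eq]
      exact inf_le_right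
    obtain ⟨ξ, hξ, h3⟩ := d1_supt h1 (h2.trans (least (fun ζ' => tvB B (ζ' < D ∧ h ζ' = n) ⊓ A ζ') ζ))
    set r := q ⊓ A ζ ⊓ ((tvB B (ξ < D ∧ h ξ = n) ⊓ A ξ) ⊓
      ⨅ D', tvB B (D' < ξ) ⇨ (tvB B (D' < D ∧ h D' = n) ⊓ A D')ᶜ) with hr
    have h4 : ξ < D ∧ h ξ = n := by
      by_contra hn
      apply h3
      rw [hr, tvB_false hn, bot_inf_eq, bot_inf_eq, inf_bot_eq]
    refine ⟨r, h3, inf_le_left.trans inf_le_left, ?_⟩
    refine d1_lesup (P := fun ζ' => ζ' < D ∧ h ζ' = n) (i := ξ) h4 ?_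
    unfold sel
    rw [tvB_true h4.1, top_inf_eq]
    refine le_inf ((inf_le_right.trans inf_le_left).trans inf_le_right) (le_inf ?_ ?_)
    · rw [h4.2]
      exact (inf_le_left.trans inf_le_left).trans (hl.trans inf_le_left)
    · rw [le_compl_comm]
      refine iSup_le fun ζ' => ?_
      by_cases h5 : ζ' < ξ ∧ h ζ' = h ξ
      · rw [tvB_true h5, top_inf_eq, le_compl_comm]
        have h6' : r ≤ ⨅ D', tvB B (D' < ξ) ⇨ (tvB B (D' < D ∧ h D' = n) ⊓ A D')ᶜ :=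
          inf_le_right.trans inf_le_right
        have h6 : r ≤ (tvB B (ζ' < D ∧ h ζ' = n) ⊓ A ζ')ᶜ := d1_inft h6' (i := ζ') h5.1
        rwa [tvB_true ⟨h5.1.trans h4.1, h5.2.trans h4.2⟩, top_inf_eq] at h6
      · rw [tvB_false h5, bot_inf_eq]
        exact bot_le

end Pool.Agent.H8MC
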