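import Pool.Agent.Lib.H8MC.L3A
import Pool.Agent.Lib.H8MC.L2
import Pool.Agent.Lib.H8MC.A2
import Pool.Agent.Lib.H8MC.D1

/-!
# L3: selecting a subset of `A` with a given pattern (S/M, M)

`sel D h A b` consists of the least elements of `A` in the blocks `{ζ < D | h ζ = n}`, `n ∈ b`. Let `u = cofB A D`.

* `pat_inf`: (complement) it is enough that `u ≤ ⨆ m, tvB B (n ≤ m) ⊓ pat D h A m` for all `n`: `hh.bd n` gives `η < D` with `h ζ ≤ n → ζ < η` for `ζ < D`; `u ≤ ⨆ ζ, tvB B (η ≤ ζ ∧ ζ < D) ⊓ A ζ`, and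
  such a `ζ` has `h ζ > n`, so `A ζ ≤ pat D h A (h ζ)`.
* `sel_le`: clear.
* `pat_sel`: `b n ⊓ pat D h A n ≤ pat D h (sel D h A b) n`: for `ζ < D`, `h ζ = n`: apply `least` to `P ζ = tvB B (ζ < D ∧ h ζ = n) ⊓ A ζ`. The other direction is clear.
* `sel_emb`: `f ζ k = tvB B (k = e (h ζ))` is an injection from `sel ..` to `Iio o`: if `e (h ζ) = e (h ζ')` and `ζ' < ζ` then `h ζ' = h ζ` and `sel .. ζ ≤ (A ζ')ᶜ`, `sel .. ζ' ≤ A ζ'`.
* `sel_sup`: `subK (sel ..) (ind B (Iio D)) = ⊤`. For `η < D`: `infB b = ⊤`, so it is enough to treat `n > h η`: `u ⊓ b n ≤ pat D h A n`, so `u ⊓ b n ≤ pat D h (sel ..) n` (`pat_sel`), and `ζ < D`, `h ζ = n > h η` implies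
  `η ≤ ζ` (`hh.mono`).
* `sel_cb`: bounded by `D`; `sel_emb`; not finite: `notfin` (`D` is a limit: for `η < D`, `hh.bd (h η)` gives `η' < D` with `η < η'`; the sets `Iio n`, `n < o`, are finite) with `sel_sup`.
-/

set_option autoImplicit false

open Set Function Cardinal

namespace Pool.Agent.H8MC

variable {K B : Type} [CompleteBooleanAlgebra B] [LinearOrder K]

theorem l3b_disj (D : K) (h : K → ℕ) (A : K → B) (b : ℕ → B) {a a' : K} (h1 : a < a') (h2 : h a = h a') :
    sel D h A b a ⊓ sel D h A b a' ≤ ⊥ := by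
  have e1 : sel D h A b a ≤ A a := inf_le_right.trans inf_le_left
  have e2 : sel D h A b a' ≤ (A a)ᶜ := by
    refine (inf_le_right.trans (inf_le_right.trans inf_le_right)).trans (compl_le_compl ?_)
    refine le_iSup_of_le a ?_
    rw [tvB_true ⟨h1, h2⟩, top_inf_eq]
  refine (inf_le_inf e1 e2).trans ?_
  rw [inf_compl_eq_bot]

theorem sel_emb (D : K) (h : K → ℕ) (A : K → B) (b : ℕ → B) {o : K} {e : ℕ → K} (he : StrictMono e)
    (he' : ∀ k, k < o ↔ ∃ n, e n = k) : embK (sel D h A b) (ind B (Iio o)) = ⊤ := by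
  refine top_le_iff.mp (le_iSup_of_le (fun ζ k => tvB B (k = e (h ζ))) ?_)
  refine le_inf (le_iInf fun a => ?_) (le_iInf fun a => le_iInf fun a' => le_iInf fun c => le_iInf fun c' => ?_)
  · rw [le_himp_iff]
    refine le_iSup_of_le (e (h a)) ?_
    have h1 : ind B (Iio o) (e (h a)) = ⊤ := tvB_true ((he' _).2 ⟨_, rfl⟩)
    have h2 : tvB B (e (h a) = e (h a)) = ⊤ := tvB_true rfl
    rw [h1]
    show _ ≤ (⊤ : B) ⊓ tvB B (e (h a) = e (h a))
    rw [h2, inf_top_eq]
    exact le_top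
  · simp only [le_himp_iff, top_inf_eq]
    by_cases h1 : c = e (h a)
    swap
    · rw [tvB_false h1]
      simp
    by_cases h2 : c' = e (h a')
    swap
    · rw [tvB_false h2]
      simp
    by_cases h3 : a = a' ↔ c = c'
    · rw [tvB_true h3]
      exact le_top
    · have h4 : a ≠ a' := by
        rintro rfl
        exact h3 ⟨fun _ => h1.trans h2.symm, fun _ => rfl⟩
      have h5 : c = c' := by
        by_contra h5
        exact h3 ⟨fun h => absurd h h4, fun h => absurd h h5⟩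
      have h6 : h a = h a' := he.injective (h1.symm.trans (h5.trans h2))
      refine le_trans ?_ bot_le
      refine (inf_le_left.trans (inf_le_left.trans (inf_le_left.trans inf_le_left))).trans ?_
      rcases lt_or_gt_of_ne h4 with h7 | h7
      · exact l3b_disj D h A b h7 h6
      · rw [inf_comm]
        exact l3b_disj D h A b h7 h6.symm

end Pool.Agent.H8MC
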