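import Pool.Agent.Lib.H8MC.L1
import Pool.Agent.Lib.H8MC.L3
import Pool.Agent.Lib.H8MC.C4
import Pool.Agent.Lib.H8MC.D2

/-!
# L4: the lower bound (M)

Proof of `lower`. Let `Γ = Iio b`, `β` as in `exists_list`, and for good `D` let `hg D` be a height function (`Hgt D (hg D)`; choice). Fix `g₀ < b`. Let
`C X g = (⨆ hgb : g < b, col0 hg β X ⟨g, hgb⟩) ⊔ (tvB B (g = g₀) ⊓ (⨆ ξ, col0 hg β X ξ)ᶜ)`.

* `ExtK C`: `col0_ext` (for the complement use `eqK_symm`).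
* `colK o (Iio b) C = ⊤`: for each `X`, `part_top` for `c = C X`, `S = Iio b`: disjoint by `col0_disj`; the supremum over `g < b` contains all `col0 hg β X ξ` and `(⨆ ξ, col0 hg β X ξ)ᶜ`.
* Let `A`, `g < b`. By `exists_D` it is enough to show, for good `D`, `u = cofB A D ≤ ⨆ X, ..`. Let `h = hg D`, `a n = pat D h A n ⊔ uᶜ`, `infB a = ⊤` (`pat_inf`), `b' = β a ⟨g, _⟩`, `b' n ≤ a n`, so
  `u ⊓ b' n ≤ pat D h A n`, `infB b' = ⊤`. `X = sel D h A b'`: `u ≤ cbK o X` (`sel_cb`), `subK X A = ⊤` (`sel_le`), `u ≤ supB X D` (`sel_sup`), `u ≤ eqN (pat D h X) b'` (`pat_sel`). So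
  `u ≤ col0 hg β X ⟨g, _⟩ ≤ C X g`.
-/

set_option autoImplicit false

open Set Function Cardinal

namespace Pool.Agent.H8MC

variable {K B : Type} [CompleteBooleanAlgebra B] [LinearOrder K] [WellFoundedLT K]

theorem l4_compl {e a b : B} (h : e ⊓ b ≤ a) : e ⊓ aᶜ ≤ bᶜ := by
  rw [le_compl_iff_disjoint_right, disjoint_iff_inf_le]
  calc e ⊓ aᶜ ⊓ b = (e ⊓ b) ⊓ aᶜ := inf_right_comm e aᶜ b
    _ ≤ a ⊓ aᶜ := inf_le_inf_right _ h
    _ = ⊥ := inf_compl_eq_bot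

/-- the colouring -/
noncomputable def l4C (hg : K → K → ℕ) {b : K} (β : (ℕ → B) → ↥(Iio b) → ℕ → B) (g₀ : K) (X : K → B) (γ : K) : B :=
  (⨆ hγ : γ < b, col0 hg β X ⟨γ, hγ⟩) ⊔ (tvB B (γ = g₀) ⊓ (⨆ ξ, col0 hg β X ξ)ᶜ)

theorem l4_ext (hg : K → K → ℕ) {b : K} (β : (ℕ → B) → ↥(Iio b) → ℕ → B) (g₀ : K) : ExtK (l4C hg β g₀) := by
  intro X Y γ
  unfold l4C
  rw [inf_sup_left]
  refine sup_le_sup ?_ ?_
  · rw [inf_iSup_eq]
    exact iSup_mono fun hγ => col0_ext hg β X Y ⟨γ, hγ⟩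
  · have h1 : eqK X Y ⊓ (⨆ ξ, col0 hg β X ξ)ᶜ ≤ (⨆ ξ, col0 hg β Y ξ)ᶜ := by
      refine l4_compl ?_
      rw [inf_iSup_eq, eqK_symm]
      exact iSup_mono fun ξ => col0_ext hg β Y X ξ
    rw [inf_left_comm]
    exact inf_le_inf_left _ h1

theorem l4_disj (hg : K → K → ℕ) {b : K} (β : (ℕ → B) → ↥(Iio b) → ℕ → B)
    (hβ : ∀ a ξ a' ξ', infB a = ⊤ → infB a' = ⊤ → (a, ξ) ≠ (a', ξ') → eqN (β a ξ) (β a' ξ') = ⊥)
    (g₀ : K) (X : K → B) (γ γ' : K) (hne : γ ≠ γ') : l4C hg β g₀ X γ ⊓ l4C hg β g₀ X γ' = ⊥ := by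
  have hP : ∀ δ : K, (⨆ hδ : δ < b, col0 hg β X ⟨δ, hδ⟩) ≤ ⨆ ξ, col0 hg β X ξ := fun δ =>
    iSup_le fun hδ => le_iSup (fun ξ => col0 hg β X ξ) ⟨δ, hδ⟩
  unfold l4C
  rw [inf_sup_left, inf_sup_right, inf_sup_right]
  refine le_bot_iff.1 (sup_le (sup_le ?_ ?_) (sup_le ?_ ?_))
  · rw [iSup_inf_eq]
    refine iSup_le fun h1 => ?_
    rw [inf_iSup_eq]
    refine iSup_le fun h2 => ?_
    refine (col0_disj hg β hβ X ⟨γ, h1⟩ ⟨γ', h2⟩ fun e => hne ?_).le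
    exact congrArg Subtype.val e
  · calc tvB B (γ = g₀) ⊓ (⨆ ξ, col0 hg β X ξ)ᶜ ⊓ (⨆ hδ : γ' < b, col0 hg β X ⟨γ', hδ⟩)
        ≤ (⨆ ξ, col0 hg β X ξ)ᶜ ⊓ (⨆ ξ, col0 hg β X ξ) := inf_le_inf inf_le_right (hP γ')
      _ = ⊥ := compl_inf_eq_bot
  · calc (⨆ hδ : γ < b, col0 hg β X ⟨γ, hδ⟩) ⊓ (tvB B (γ' = g₀) ⊓ (⨆ ξ, col0 hg β X ξ)ᶜ)
        ≤ (⨆ ξ, col0 hg β X ξ) ⊓ (⨆ ξ, col0 hg β X ξ)ᶜ := inf_le_inf (hP γ) inf_le_right
      _ = ⊥ := inf_compl_eq_bot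
  · by_cases h1 : γ = g₀
    · have h2 : γ' ≠ g₀ := fun h2 => hne (h1.trans h2.symm)
      rw [tvB_false h2, bot_inf_eq, inf_bot_eq]
    · rw [tvB_false h1, bot_inf_eq, bot_inf_eq]

theorem l4_top (hg : K → K → ℕ) {b : K} (β : (ℕ → B) → ↥(Iio b) → ℕ → B) {g₀ : K} (hg₀ : g₀ < b) (X : K → B) :
    ⨆ γ, tvB B (γ ∈ Iio b) ⊓ l4C hg β g₀ X γ = ⊤ := by
  have h1 : (⨆ ξ, col0 hg β X ξ) ≤ ⨆ γ, tvB B (γ ∈ Iio b) ⊓ l4C hg β g₀ X γ := by
    refine iSup_le fun ξ => ?_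
    refine le_trans ?_ (le_iSup (fun γ => tvB B (γ ∈ Iio b) ⊓ l4C hg β g₀ X γ) ξ.1)
    simp only [tvB_true ξ.2, top_inf_eq]
    unfold l4C
    refine le_sup_of_le_left ?_
    exact le_iSup (fun hξ : ξ.1 < b => col0 hg β X ⟨ξ.1, hξ⟩) ξ.2
  have h2 : (⨆ ξ, col0 hg β X ξ)ᶜ ≤ ⨆ γ, tvB B (γ ∈ Iio b) ⊓ l4C hg β g₀ X γ := by
    refine le_trans ?_ (le_iSup (fun γ => tvB B (γ ∈ Iio b) ⊓ l4C hg β g₀ X γ) g₀)
    simp only [tvB_true (show g₀ ∈ Iio b from hg₀), top_inf_eq]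
    unfold l4C
    refine le_sup_of_le_right ?_
    rw [tvB_true rfl, top_inf_eq]
  rw [← top_le_iff, ← sup_compl_eq_top (x := ⨆ ξ, col0 hg β X ξ)]
  exact sup_le h1 h2

theorem lower (hc : CccB B) (hK : ℵ₀ < #K) {mu : Cardinal.{0}} (hmu : mu ^ ℵ₀ = mu) (h0 : ℵ₀ < mu) (hB : #B ≤ mu)
    {Y : Type} (hY : #Y = mu) (g : Y → ℕ → B) (hg : ∀ y, infB (g y) = ⊤) (hg' : ∀ y y', y ≠ y' → eqN (g y) (g y') = ⊥)
    {o : K} {e : ℕ → K} (he : StrictMono e) (he' : ∀ k, k < o ↔ ∃ n, e n = k)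
    {b : K} (hb : (Iio b).Nonempty) (hcard : #(Iio b) ≤ mu) :
    ∃ C : (K → B) → K → B, ExtK C ∧ colK o (Iio b) C = ⊤ ∧
      ∀ (A : K → B), ∀ g < b, embK (fun _ => ⊤) A ≤ ⨆ X, cbK o X ⊓ (subK X A ⊓ C X g) := by
  classical
  obtain ⟨β, hβ1, hβ2⟩ := exists_list hc hmu h0 hB hY g hg hg' hcard
  obtain ⟨g₀, hg₀⟩ := hb
  have hH : ∃ H : K → K → ℕ, ∀ D, Good D → Hgt D (H D) := by
    refine ⟨fun D => if h : Good D then h.choose else fun _ => 0, fun D hD => ?_⟩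
    simp only [dif_pos hD]
    exact hD.choose_spec
  obtain ⟨H, hH⟩ := hH
  refine ⟨l4C H β g₀, l4_ext H β g₀, ?_, ?_⟩
  · unfold colK
    rw [iInf_eq_top]
    intro X
    rw [himp_eq_top_iff, part_top (l4C H β g₀ X) (fun γ _ γ' _ hne => l4_disj H β hβ2 g₀ X γ γ' hne) (l4_top H β hg₀ X)]
    exact le_top
  · intro A γ hγ
    refine (exists_D hc hK A).trans (iSup_le fun D => ?_)
    by_cases hD : Good D
    · rw [tvB_true hD, top_inf_eq]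
      have hh := hH D hD
      have ha := pat_inf hh A
      obtain ⟨hle, hinf⟩ := hβ1 _ ⟨γ, hγ⟩ ha
      set b' : ℕ → B := β (fun n => pat D (H D) A n ⊔ (cofB A D)ᶜ) ⟨γ, hγ⟩ with hb'
      have hb1 : ∀ n, cofB A D ⊓ b' n ≤ pat D (H D) A n := by
        intro n
        refine (inf_le_inf_left _ (hle n)).trans ?_
        rw [inf_sup_left, inf_compl_eq_bot, sup_bot_eq]
        exact inf_le_right
      refine le_trans ?_ (le_iSup (fun X => cbK o X ⊓ (subK X A ⊓ l4C H β g₀ X γ)) (sel D (H D) A b'))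
      refine le_inf (sel_cb hh A b' hinf hb1 he he') (le_inf ?_ ?_)
      · rw [sel_le]
        exact le_top
      · have h1 : cofB A D ≤ eqN (pat D (H D) (sel D (H D) A b')) b' := by
          unfold eqN
          refine le_iInf fun n => le_inf ?_ ?_
          · rw [le_himp_iff, pat_sel]
            exact inf_le_right.trans inf_le_left
          · rw [le_himp_iff, pat_sel]
            exact le_inf inf_le_right (hb1 n)
        have h2 : cofB A D ≤ col0 H β (sel D (H D) A b') ⟨γ, hγ⟩ := by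
          unfold col0
          refine le_trans ?_ (le_iSup (fun D' => tvB B (Good D') ⊓ (supB (sel D (H D) A b') D' ⊓
            ⨆ a : {a : ℕ → B // infB a = ⊤}, eqN (pat D' (H D') (sel D (H D) A b')) (β a.1 ⟨γ, hγ⟩))) D)
          simp only [tvB_true hD, top_inf_eq]
          refine le_inf (sel_sup hh A b' hinf hb1) (h1.trans ?_)
          exact le_iSup (fun a : {a : ℕ → B // infB a = ⊤} => eqN (pat D (H D) (sel D (H D) A b')) (β a.1 ⟨γ, hγ⟩)) ⟨_, ha⟩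
        refine h2.trans ?_
        unfold l4C
        refine le_sup_of_le_left ?_
        exact le_iSup (fun hγ : γ < b => col0 H β (sel D (H D) A b') ⟨γ, hγ⟩) hγ
    · rw [tvB_false hD, bot_inf_eq]
      exact bot_le

end Pool.Agent.H8MC
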