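import Pool.Agent.Lib.H8MC.Sent
import Pool.Agent.Lib.H8MC.KDefs
import Pool.Agent.Lib.H30C.TOm

/-!
# Translation to the quotient structure: combinators and definitions

`ExtE G`: the term `G` respects Boolean equality. The Boolean values `SubF`, `EmbF`, `CbF`, `ColF`, `FullF` of the notions of `Sent.lean`.
Names: `setB X` for `X : K → B` (`H30C/Names.lean`), `kchk B k` for the elements of `K`, `chk B S = setB (ind B S)` for `S : Set K`.
-/

set_option autoImplicit false

open Set Function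

namespace Pool.Agent.H8MC

open Pool.Agent.H5Z Pool.Agent.H30C BSet Fml

section

variable {B : Type} [CompleteBooleanAlgebra B]

/-- `G` respects Boolean-valued equality (as a term) -/
def ExtE (G : BSet B → BSet B) : Prop := ∀ a a', eqB a a' ≤ eqB (G a) (G a')

theorem extE_id : ExtE (fun x : BSet B => x) := fun _ _ => le_rfl

theorem extE_const (c : BSet B) : ExtE (fun _ : BSet B => c) := fun _ _ => by
  rw [eqB_refl]; exact le_top

theorem extE_opair {G H : BSet B → BSet B} (hG : ExtE G) (hH : ExtE H) :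
    ExtE (fun x => opair (G x) (H x)) := fun a a' => by
  rw [eqB_opair]
  exact le_inf (hG a a') (hH a a')

theorem extB_mem {G H : BSet B → BSet B} (hG : ExtE G) (hH : ExtE H) :
    ExtB (fun x => memB (G x) (H x)) := fun a a' => by
  have h1 : eqB a a' ⊓ memB (G a) (H a) ≤ eqB (G a) (G a') ⊓ memB (G a) (H a) :=
    inf_le_inf_right _ (hG a a')
  have h2 : eqB a a' ⊓ memB (G a) (H a) ≤ memB (G a') (H a) :=
    h1.trans (memB_congr_left _ _ _)
  have h3 : eqB a a' ⊓ memB (G a) (H a) ≤ eqB (H a) (H a') ⊓ memB (G a') (H a) :=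
    le_inf (inf_le_left.trans (hH a a')) h2
  exact h3.trans (memB_congr_right _ _ _)

theorem extB_eq {G H : BSet B → BSet B} (hG : ExtE G) (hH : ExtE H) :
    ExtB (fun x => eqB (G x) (H x)) := fun a a' => by
  have h1 : eqB a a' ⊓ eqB (G a) (H a) ≤ eqB (G a') (H a) := by
    have : eqB a a' ⊓ eqB (G a) (H a) ≤ eqB (G a') (G a) ⊓ eqB (G a) (H a) := by
      rw [eqB_symm (G a') (G a)]
      exact inf_le_inf_right _ (hG a a')
    exact this.trans (eqB_trans _ _ _)
  have h2 : eqB a a' ⊓ eqB (G a) (H a) ≤ eqB (G a') (H a) ⊓ eqB (H a) (H a') :=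
    le_inf h1 (inf_le_left.trans (hH a a'))
  exact h2.trans (eqB_trans _ _ _)

theorem extB_iff {F G : BSet B → B} (hF : ExtB F) (hG : ExtB G) : ExtB (fun x => iffB (F x) (G x)) :=
  E1_extB_inf (E1_extB_himp hF hG) (E1_extB_himp hG hF)

/-- Boolean value of `SubIn` -/
noncomputable def SubF (x y : BSet B) : B := ⨅ z, memB z x ⇨ memB z y

/-- Boolean value of: `f` is an injection from `x` to `y` -/
noncomputable def InjF (x y f : BSet B) : B :=
  (⨅ a, memB a x ⇨ ⨆ b, memB b y ⊓ memB (opair a b) f) ⊓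
    ⨅ a, memB a x ⇨ ⨅ a', memB a' x ⇨ ⨅ b, memB b y ⇨ ⨅ b', memB b' y ⇨
      (memB (opair a b) f ⇨ (memB (opair a' b') f ⇨ iffB (eqB a a') (eqB b b')))

/-- Boolean value of `EmbIn` -/
noncomputable def EmbF (x y : BSet B) : B := ⨆ f, InjF x y f

/-- Boolean value of `CbIn` -/
noncomputable def CbF (w l x : BSet B) : B :=
  (⨆ b, memB b l ⊓ SubF x b) ⊓ (EmbF x w ⊓ (⨆ n, memB n w ⊓ EmbF x n)ᶜ)

/-- Boolean value of `ColIn` -/
noncomputable def ColF (w l a c : BSet B) : B :=
  ⨅ x, CbF w l x ⇨ ⨆ g, memB g a ⊓ (memB (opair x g) c ⊓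
    ⨅ g', memB g' a ⇨ (memB (opair x g') c ⇨ eqB g' g))

/-- Boolean value of `FullIn` -/
noncomputable def FullF (w l a c : BSet B) : B :=
  ⨅ A, SubF A l ⇨ (EmbF l A ⇨ ⨅ g, memB g a ⇨ ⨆ x, CbF w l x ⊓ (SubF x A ⊓ memB (opair x g) c))

variable {K : Type} [LinearOrder K] [WellFoundedLT K]

/-- name of a set of the ground model -/
noncomputable def chk (B : Type) [CompleteBooleanAlgebra B] (S : Set K) : BSet B := setB (ind B S)

/-- name of the function with the Boolean graph `C` -/
noncomputable def colN (C : (K → B) → K → B) : BSet B :=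
  BSet.mk ((K → B) × K) (fun p => opair (setB p.1) (kchk B p.2)) (fun p => C p.1 p.2)

end

end Pool.Agent.H8MC
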