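import Pool.Agent.Lib.H8MC.Q1A
import Pool.Agent.Lib.H8MC.QBase

/-!
# Q1: truth values and extensionality (M, mechanical)

Syntax-directed: for `Tv` goals use `Tv.all ?_ fun _ => ?_`, `Tv.ex ?_ fun _ => ?_`, `Tv.imp`, `Tv.and`, `Tv.or`, `Tv.not`, `Tv.iff`, `Tv.mem`, `Tv.eq`, `Tv.rel` (`H30C/Tr.lean`); the side goals `ExtB (fun x => ..)` by
`E1_extB_iInf fun _ => ?_`, `E1_extB_iSup fun _ => ?_`, `E1_extB_himp`, `E1_extB_inf`, `E1_extB_sup`, `E1_extB_compl`, `E1_extB_const`, `extB_iff`, `extB_mem`, `extB_eq`, `extE_id`, `extE_const`, `extE_opair`, and the lemmas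
`extB_sub`, `extB_inj`, `extB_emb`, .. below. A block `repeat' first | exact .. | refine ..` (see the pattern `H58C/Q05.lean`) proves each statement after unfolding (first the `extB_*` in this order, then the `tv_*`).
-/

set_option autoImplicit false

open Set Function

namespace Pool.Agent.H8MC

open Pool.Agent.H5Z Pool.Agent.H30C BSet Fml

variable {B : Type} [CompleteBooleanAlgebra B] {U : UF B} {G H I J : BSet B → BSet B}

theorem tv_sub (x y : BSet B) : Tv U (SubF x y) (SubIn (EU U) (cls U x) (cls U y)) := by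
  unfold SubF SubIn
  repeat' first
    | exact E1_extB_const _
    | exact extE_id
    | exact extE_const _
    | refine Tv.all ?_ fun _ => ?_
    | refine Tv.ex ?_ fun _ => ?_
    | refine Tv.imp ?_ ?_
    | refine Tv.iff ?_ ?_
    | refine Tv.and ?_ ?_
    | refine Tv.or ?_ ?_
    | refine Tv.not ?_
    | exact Tv.rel _ _ _
    | exact Tv.mem _ _
    | exact Tv.eq _ _
    | refine extB_sub ?_ ?_
    | refine extB_emb ?_ ?_
    | refine extB_cb ?_ ?_ ?_
    | refine E1_extB_iInf fun _ => ?_
    | refine E1_extB_iSup fun _ => ?_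
    | refine extB_iff ?_ ?_
    | refine E1_extB_himp ?_ ?_
    | refine E1_extB_inf ?_ ?_
    | refine E1_extB_sup ?_ ?_
    | refine E1_extB_compl ?_
    | refine extB_mem ?_ ?_
    | refine extB_eq ?_ ?_
    | refine extE_opair ?_ ?_

theorem tv_emb (x y : BSet B) : Tv U (EmbF x y) (EmbIn (EU U) (cls U x) (cls U y)) := by
  unfold EmbF InjF EmbIn
  repeat' first
    | exact E1_extB_const _
    | exact extE_id
    | exact extE_const _
    | exact tv_sub _ _
    | refine Tv.all ?_ fun _ => ?_
    | refine Tv.ex ?_ fun _ => ?_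
    | refine Tv.imp ?_ ?_
    | refine Tv.iff ?_ ?_
    | refine Tv.and ?_ ?_
    | refine Tv.or ?_ ?_
    | refine Tv.not ?_
    | exact Tv.rel _ _ _
    | exact Tv.mem _ _
    | exact Tv.eq _ _
    | refine extB_sub ?_ ?_
    | refine extB_emb ?_ ?_
    | refine extB_cb ?_ ?_ ?_
    | refine E1_extB_iInf fun _ => ?_
    | refine E1_extB_iSup fun _ => ?_
    | refine extB_iff ?_ ?_
    | refine E1_extB_himp ?_ ?_
    | refine E1_extB_inf ?_ ?_
    | refine E1_extB_sup ?_ ?_
    | refine E1_extB_compl ?_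
    | refine extB_mem ?_ ?_
    | refine extB_eq ?_ ?_
    | refine extE_opair ?_ ?_

theorem tv_cb (w l x : BSet B) : Tv U (CbF w l x) (CbIn (EU U) (cls U w) (cls U l) (cls U x)) := by
  unfold CbF CbIn
  repeat' first
    | exact E1_extB_const _
    | exact extE_id
    | exact extE_const _
    | exact tv_sub _ _
    | exact tv_emb _ _
    | refine Tv.all ?_ fun _ => ?_
    | refine Tv.ex ?_ fun _ => ?_
    | refine Tv.imp ?_ ?_
    | refine Tv.iff ?_ ?_
    | refine Tv.and ?_ ?_
    | refine Tv.or ?_ ?_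
    | refine Tv.not ?_
    | exact Tv.rel _ _ _
    | exact Tv.mem _ _
    | exact Tv.eq _ _
    | refine extB_sub ?_ ?_
    | refine extB_emb ?_ ?_
    | refine extB_cb ?_ ?_ ?_
    | refine E1_extB_iInf fun _ => ?_
    | refine E1_extB_iSup fun _ => ?_
    | refine extB_iff ?_ ?_
    | refine E1_extB_himp ?_ ?_
    | refine E1_extB_inf ?_ ?_
    | refine E1_extB_sup ?_ ?_
    | refine E1_extB_compl ?_
    | refine extB_mem ?_ ?_
    | refine extB_eq ?_ ?_
    | refine extE_opair ?_ ?_

theorem tv_col (w l a c : BSet B) :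
    Tv U (ColF w l a c) (ColIn (EU U) (cls U w) (cls U l) (cls U a) (cls U c)) := by
  unfold ColF ColIn
  repeat' first
    | exact E1_extB_const _
    | exact extE_id
    | exact extE_const _
    | exact tv_sub _ _
    | exact tv_emb _ _
    | exact tv_cb _ _ _
    | refine Tv.all ?_ fun _ => ?_
    | refine Tv.ex ?_ fun _ => ?_
    | refine Tv.imp ?_ ?_
    | refine Tv.iff ?_ ?_
    | refine Tv.and ?_ ?_
    | refine Tv.or ?_ ?_
    | refine Tv.not ?_
    | exact Tv.rel _ _ _
    | exact Tv.mem _ _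
    | exact Tv.eq _ _
    | refine extB_sub ?_ ?_
    | refine extB_emb ?_ ?_
    | refine extB_cb ?_ ?_ ?_
    | refine E1_extB_iInf fun _ => ?_
    | refine E1_extB_iSup fun _ => ?_
    | refine extB_iff ?_ ?_
    | refine E1_extB_himp ?_ ?_
    | refine E1_extB_inf ?_ ?_
    | refine E1_extB_sup ?_ ?_
    | refine E1_extB_compl ?_
    | refine extB_mem ?_ ?_
    | refine extB_eq ?_ ?_
    | refine extE_opair ?_ ?_

theorem tv_full (w l a c : BSet B) :
    Tv U (FullF w l a c) (FullIn (EU U) (cls U w) (cls U l) (cls U a) (cls U c)) := by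
  unfold FullF FullIn
  repeat' first
    | exact E1_extB_const _
    | exact extE_id
    | exact extE_const _
    | exact tv_sub _ _
    | exact tv_emb _ _
    | exact tv_cb _ _ _
    | refine Tv.all ?_ fun _ => ?_
    | refine Tv.ex ?_ fun _ => ?_
    | refine Tv.imp ?_ ?_
    | refine Tv.iff ?_ ?_
    | refine Tv.and ?_ ?_
    | refine Tv.or ?_ ?_
    | refine Tv.not ?_
    | exact Tv.rel _ _ _
    | exact Tv.mem _ _
    | exact Tv.eq _ _
    | refine extB_sub ?_ ?_
    | refine extB_emb ?_ ?_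
    | refine extB_cb ?_ ?_ ?_
    | refine E1_extB_iInf fun _ => ?_
    | refine E1_extB_iSup fun _ => ?_
    | refine extB_iff ?_ ?_
    | refine E1_extB_himp ?_ ?_
    | refine E1_extB_inf ?_ ?_
    | refine E1_extB_sup ?_ ?_
    | refine E1_extB_compl ?_
    | refine extB_mem ?_ ?_
    | refine extB_eq ?_ ?_
    | refine extE_opair ?_ ?_

end Pool.Agent.H8MC
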