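import Pool.Agent.Lib.H8MC.Q2A
import Pool.Agent.Lib.H8MC.Q1

/-!
# Q2: the values at canonical names
-/

set_option autoImplicit false

open Set Function

namespace Pool.Agent.H8MC

open Pool.Agent.H5Z Pool.Agent.H30C BSet Fml

variable {K : Type} [LinearOrder K] [WellFoundedLT K] {B : Type} [CompleteBooleanAlgebra B]

omit [WellFoundedLT K] [LinearOrder K] in
theorem q2_ind (B : Type) [CompleteBooleanAlgebra B] {S : Set K} {k : K} (h : k ∈ S) : ind B S k = ⊤ := by
  unfold ind
  exact tvB_true h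

omit [WellFoundedLT K] [LinearOrder K] in
theorem q2_ind' (B : Type) [CompleteBooleanAlgebra B] {S : Set K} {k : K} (h : k ∉ S) : ind B S k = ⊥ := by
  unfold ind
  exact tvB_false h

theorem q2_mem_mk {ι : Type} (el : ι → BSet B) (val : ι → B) (z : BSet B) :
    memB z (BSet.mk ι el val) = ⨆ j : ι, val j ⊓ eqB z (el j) := rfl

theorem q2_le_mem {ι : Type} (el : ι → BSet B) (val : ι → B) (i : ι) :
    val i ≤ memB (el i) (BSet.mk ι el val) := by
  rw [q2_mem_mk]
  refine le_iSup_of_le i ?_
  rw [eqB_refl, inf_top_eq]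

theorem kchk_chk (k : K) : eqB (kchk B k) (chk B (Iio k)) = ⊤ := by
  rw [eq_top_iff, kchk_eq]
  refine le_eqB _ _ _ (fun i => ?_) (fun (j : K) => ?_)
  · refine le_top.trans ?_
    change ⊤ ≤ memB (kchk B i.1) (setB (ind B (Iio k)))
    rw [memB_setB, q2_ind B (S := Iio k) i.2]
  · refine inf_le_right.trans ?_
    change ind B (Iio k) j ≤ memB (kchk B j) (BSet.mk {y : K // y < k} (fun y => kchk B y.1) (fun _ => ⊤))
    by_cases h : j < k
    · refine le_top.trans ?_
      exact q2_le_mem (B := B) (fun y : {y : K // y < k} => kchk B y.1) (fun _ => ⊤) ⟨j, h⟩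
    · rw [q2_ind' B (S := Iio k) h]
      exact bot_le

theorem KB_chk : eqB (KB K B) (chk B (univ : Set K)) = ⊤ := by
  rw [eq_top_iff]
  refine le_eqB _ _ _ (fun (i : K) => ?_) (fun (j : K) => ?_)
  · refine le_top.trans ?_
    change ⊤ ≤ memB (kchk B i) (setB (ind B (univ : Set K)))
    rw [memB_setB, q2_ind B (mem_univ _)]
  · refine le_top.trans ?_
    change ⊤ ≤ memB (kchk B j) (BSet.mk K (kchk B) (fun _ => ⊤))
    exact q2_le_mem (B := B) (kchk B) (fun _ => ⊤) j

omit [WellFoundedLT K] [LinearOrder K] in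
theorem congr_of_top {F : BSet B → B} (hF : ExtB F) {x y : BSet B} (h : eqB x y = ⊤) : F x = F y := by
  have h1 := hF x y
  rw [h, top_inf_eq] at h1
  have h2 := hF y x
  rw [eqB_symm, h, top_inf_eq] at h2
  exact le_antisymm h1 h2

theorem canon (x : BSet B) :
    SubF x (chk B (univ : Set K)) ≤ eqB x (setB (fun k : K => memB (kchk B k) x)) := by
  refine le_trans ?_ (ext_le _ _)
  refine le_iInf fun z => le_inf ?_ ?_
  · rw [le_himp_iff]
    have h1 : SubF x (chk B (univ : Set K)) ⊓ memB z x ≤ memB z (chk B (univ : Set K)) := by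
      rw [← le_himp_iff]
      exact iInf_le _ z
    have h2 : SubF x (chk B (univ : Set K)) ⊓ memB z x ≤ memB z (chk B (univ : Set K)) ⊓ memB z x :=
      le_inf h1 inf_le_right
    refine h2.trans ?_
    change (⨆ k : K, ind B (univ : Set K) k ⊓ eqB z (kchk B k)) ⊓ memB z x ≤
      ⨆ k : K, memB (kchk B k) x ⊓ eqB z (kchk B k)
    rw [iSup_inf_eq]
    refine iSup_mono fun k => ?_
    refine le_inf ?_ (inf_le_left.trans inf_le_right)
    exact (inf_le_inf_right _ inf_le_right).trans (memB_congr_left z (kchk B k) x)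
  · rw [le_himp_iff]
    refine inf_le_right.trans ?_
    change (⨆ k : K, memB (kchk B k) x ⊓ eqB z (kchk B k)) ≤ memB z x
    refine iSup_le fun k => ?_
    rw [inf_comm, eqB_symm]
    exact memB_congr_left (kchk B k) z x

end Pool.Agent.H8MC
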