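import Pool.Agent.Lib.H8MC.Q3B
import Pool.Agent.Lib.H8MC.Q2

/-!
# Q3: the values at canonical names, part 2 (M)

* `cb_setB`: `⨆ b, memB b (chk B univ) ⊓ SubF (setB X) b = ⨆ k, SubF (setB X) (kchk B k)` (`ex_setB`, `ind B univ k = ⊤`) `= ⨆ k, subK X (ind B (Iio k))` (`kchk_chk`, `congr_of_top`, `sub_setB`); the same with `EmbF` and `emb_setB`.
* `cb_sub`: `CbF w l x ≤ ⨆ k, SubF x (kchk B k)` and `SubF x (kchk B k) ≤ SubF x (chk B univ)`, because `SubF (kchk B k) (chk B univ) = ⊤`.
* `all_cb`: `≤` is clear (`iInf_le` at `setB X`). `≥`: for `x` let `X k = memB (kchk B k) x`; `CbF w l x ≤ eqB x (setB X)` (`cb_sub`, `canon`), so `CbF w l x ⊓ (CbF w l (setB X) ⇨ F (setB X)) ≤ F x` (extensionality of `CbF` and `F`).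
* `col_chk`: `all_cb`, `ex_setB`, `all_setB`, `eqB_kchk`.
* `full_chk`: first `⨅ A` over all names with `SubF A (chk B univ)` is the infimum over `A = setB A'` (as in `all_cb`, `canon`), `emb_setB` (`ind B univ = fun _ => ⊤`), `all_setB`; `⨆ x, CbF w l x ⊓ F x = ⨆ X, CbF w l (setB X) ⊓ F (setB X)` as in `all_cb`.
* `memB_colN`: `memB` of a pair in the name: `⨆ p, C p.1 p.2 ⊓ (eqB (setB X) (setB p.1) ⊓ eqB (kchk B g) (kchk B p.2))` (`eqB_opair`); `eqB (setB X) (setB Y) ≤ eqK X Y` (`memB_setB`, `memB_congr_right`); `≥`: take `p = (X, g)`.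
* `extK_mem`: `eqK X Y ≤ eqB (setB X) (setB Y)` (`all_setB`, as in `canon`).
-/

set_option autoImplicit false

open Set Function

namespace Pool.Agent.H8MC

open Pool.Agent.H5Z Pool.Agent.H30C BSet Fml

variable {K : Type} [LinearOrder K] [WellFoundedLT K] {B : Type} [CompleteBooleanAlgebra B]

theorem col_chk (o : K) (S : Set K) (c : BSet B) :
    ColF (chk B (Iio o)) (chk B (univ : Set K)) (chk B S) c =
      colK o S (fun X g => memB (opair (setB X) (kchk B g)) c) := by
  unfold ColF colK
  rw [all_cb o (fun x => ⨆ g, memB g (chk B S) ⊓ (memB (opair x g) c ⊓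
    ⨅ g', memB g' (chk B S) ⇨ (memB (opair x g') c ⇨ eqB g' g))) (by
      repeat' first
        | exact E1_extB_const _
        | exact extE_id
        | exact extE_const _
        | refine extB_sub ?_ ?_
        | refine extB_emb ?_ ?_
        | refine extB_cb ?_ ?_ ?_
        | refine E1_extB_iInf fun _ => ?_
        | refine E1_extB_iSup fun _ => ?_
        | refine E1_extB_himp ?_ ?_
        | refine E1_extB_inf ?_ ?_
        | refine extB_mem ?_ ?_
        | refine extB_eq ?_ ?_
        | refine extE_opair ?_ ?_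
      )]
  refine iInf_congr fun X => ?_
  congr 1
  unfold chk
  rw [ex_setB (ind B S) (fun g => memB (opair (setB X) g) c ⊓
    ⨅ g', memB g' (setB (ind B S)) ⇨ (memB (opair (setB X) g') c ⇨ eqB g' g)) (by
      repeat' first
        | exact E1_extB_const _
        | exact extE_id
        | exact extE_const _
        | refine extB_sub ?_ ?_
        | refine extB_emb ?_ ?_
        | refine extB_cb ?_ ?_ ?_
        | refine E1_extB_iInf fun _ => ?_
        | refine E1_extB_iSup fun _ => ?_
        | refine E1_extB_himp ?_ ?_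
        | refine E1_extB_inf ?_ ?_
        | refine extB_mem ?_ ?_
        | refine extB_eq ?_ ?_
        | refine extE_opair ?_ ?_
      )]
  refine iSup_congr fun g => ?_
  congr 1
  rw [all_setB (ind B S) (fun g' => memB (opair (setB X) g') c ⇨ eqB g' (kchk B g)) (by
      repeat' first
        | exact E1_extB_const _
        | exact extE_id
        | exact extE_const _
        | refine extB_sub ?_ ?_
        | refine extB_emb ?_ ?_
        | refine extB_cb ?_ ?_ ?_
        | refine E1_extB_iInf fun _ => ?_
        | refine E1_extB_iSup fun _ => ?_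
        | refine E1_extB_himp ?_ ?_
        | refine E1_extB_inf ?_ ?_
        | refine extB_mem ?_ ?_
        | refine extB_eq ?_ ?_
        | refine extE_opair ?_ ?_
      )]
  congr 1
  refine iInf_congr fun g' => ?_
  have h5 : eqB (kchk B g') (kchk B g) = tvB B (g' = g) := by
    rw [eqB_kchk]
    by_cases h : g' = g
    · rw [if_pos h, tvB_true h]
    · rw [if_neg h, tvB_false h]
  rw [h5]
  rfl

theorem full_chk (o : K) (S : Set K) (c : BSet B) :
    FullF (chk B (Iio o)) (chk B (univ : Set K)) (chk B S) c =
      ⨅ A : K → B, embK (fun _ => ⊤) A ⇨ ⨅ g, tvB B (g ∈ S) ⇨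
        ⨆ X, cbK o X ⊓ (subK X A ⊓ memB (opair (setB X) (kchk B g)) c) := by
  unfold FullF
  rw [all_subset (fun A => EmbF (chk B (univ : Set K)) A ⇨ ⨅ g, memB g (chk B S) ⇨
    ⨆ x, CbF (chk B (Iio o)) (chk B (univ : Set K)) x ⊓ (SubF x A ⊓ memB (opair x g) c)) (by
      repeat' first
        | exact E1_extB_const _
        | exact extE_id
        | exact extE_const _
        | refine extB_sub ?_ ?_
        | refine extB_emb ?_ ?_
        | refine extB_cb ?_ ?_ ?_
        | refine E1_extB_iInf fun _ => ?_
        | refine E1_extB_iSup fun _ => ?_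
        | refine E1_extB_himp ?_ ?_
        | refine E1_extB_inf ?_ ?_
        | refine extB_mem ?_ ?_
        | refine extB_eq ?_ ?_
        | refine extE_opair ?_ ?_
      )]
  refine iInf_congr fun A => ?_
  have h1 : EmbF (chk B (univ : Set K)) (setB A) = embK (fun _ => ⊤) A := by
    have h2 : (ind B (univ : Set K)) = fun _ => ⊤ := funext fun k => tvB_true (mem_univ k)
    unfold chk
    rw [emb_setB, h2]
  rw [h1]
  congr 1
  have h3 := all_setB (ind B S) (fun g => ⨆ x, CbF (chk B (Iio o)) (chk B (univ : Set K)) x ⊓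
    (SubF x (setB A) ⊓ memB (opair x g) c)) (by
      repeat' first
        | exact E1_extB_const _
        | exact extE_id
        | exact extE_const _
        | refine extB_sub ?_ ?_
        | refine extB_emb ?_ ?_
        | refine extB_cb ?_ ?_ ?_
        | refine E1_extB_iInf fun _ => ?_
        | refine E1_extB_iSup fun _ => ?_
        | refine E1_extB_himp ?_ ?_
        | refine E1_extB_inf ?_ ?_
        | refine extB_mem ?_ ?_
        | refine extB_eq ?_ ?_
        | refine extE_opair ?_ ?_
      )
  refine h3.trans (iInf_congr fun g => ?_)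
  change tvB B (g ∈ S) ⇨ _ = _
  congr 1
  rw [ex_cb o (fun x => SubF x (setB A) ⊓ memB (opair x (kchk B g)) c) (by
      repeat' first
        | exact E1_extB_const _
        | exact extE_id
        | exact extE_const _
        | refine extB_sub ?_ ?_
        | refine extB_emb ?_ ?_
        | refine extB_cb ?_ ?_ ?_
        | refine E1_extB_iInf fun _ => ?_
        | refine E1_extB_iSup fun _ => ?_
        | refine E1_extB_himp ?_ ?_
        | refine E1_extB_inf ?_ ?_
        | refine extB_mem ?_ ?_
        | refine extB_eq ?_ ?_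
        | refine extE_opair ?_ ?_
      )]
  refine iSup_congr fun X => ?_
  rw [sub_setB]

end Pool.Agent.H8MC
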