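import Pool.Agent.Lib.H8MC.P1B
import Pool.Agent.Lib.H8MC.Q3
import Pool.Agent.Lib.H8MC.A2

/-!
# P1: ordinals and cardinals in the quotient (S/M, M)

* `mem_chk`: `EU U (cls U (kchk B k)) (cls U (chk B S)) ↔ k ∈ S` for `k : K` (`memB_setB`, `U.top`, `U.bot`).
* `cls_kchk`: `cls U (kchk B k) = cls U (chk B (Iio k))` (`kchk_chk`, `cls_eq`).
* `forall_mem_chk`: if `Tv U (F x) (P (cls U x))` for all `x`, `F` extensional and `F (kchk B k) = ⊤` for `k ∈ S` then `P y` for all `y` with `EU U y (cls U (chk B S))`: the value `⨅ z, memB z (chk B S) ⇨ F z` is `⊤` (`all_setB`).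
* `omega_chk`: `omega_cls`; `eqB omB (chk B (Iio o)) = ⊤` where `e` enumerates `Iio o`: `eqB (nchk n) (kchk B (e n)) = ⊤` by strong induction on `n` (`nchk_eq`, `kchk_eq`: the elements of `kchk B (e n)` are the names of the `y < e n`,
  i.e. `y = e j`, `j < n`).
* `ord_chk`: `S` is a lower set. `forall_mem_chk` with `tv_sub`; `SubF (kchk B k) (chk B S) = ⊤` (`kchk_chk`, `sub_setB`) and (second clause) `∀ z ∈ y, z ⊆ y`: `F y = ⨅ z, memB z y ⇨ SubF z y`.
* `emb_chk`, `not_emb_chk`: `tv_emb`, `emb_setB`, `emb_top`, `emb_bot`, `U.top`, `U.bot`.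
* `card_chk`: `ord_chk`; `forall_mem_chk` for `F y = (EmbF (chk B S) y)ᶜ`.
* `cof_chk`: `forall_mem_chk` for `F a = ⨆ b, memB b (chk B D) ⊓ memB a b`; `memB (kchk B a) (kchk B b) = ⊤` for `a < b` (`kchk_chk`, `memB_setB`).
-/

set_option autoImplicit false

open Set Function Cardinal

namespace Pool.Agent.H8MC

open Pool.Agent.H5Z Pool.Agent.H30C BSet Fml

variable {K : Type} [LinearOrder K] [WellFoundedLT K] {B : Type} [CompleteBooleanAlgebra B] (U : UF B)

theorem p1_sub (k : K) (S : Set K) (h : ∀ a, a < k → a ∈ S) : SubF (kchk B k) (chk B S) = ⊤ := by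
  refine (congr_of_top (F := fun x => SubF x (chk B S)) (extB_sub extE_id (extE_const _)) (kchk_chk k)).trans ?_
  refine (sub_setB (ind B (Iio k)) (ind B S)).trans ?_
  unfold subK
  rw [iInf_eq_top]
  intro a
  exact a2a_himp fun ha => tvB_true (h a ha)

theorem ord_chk (S : Set K) (hS : ∀ a b, a < b → b ∈ S → a ∈ S) : OrdIn (EU U) (cls U (chk B S)) := by
  refine ⟨?_, ?_⟩
  · exact forall_mem_chk U S (F := fun y => SubF y (chk B S)) (P := fun y => SubIn (EU U) y (cls U (chk B S)))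
      (extB_sub extE_id (extE_const _)) (fun x => tv_sub x _) (fun k hk => p1_sub k S (fun a ha => hS a k ha hk))
  · have hF : ExtB (fun y : BSet B => ⨅ z, memB z y ⇨ SubF z y) :=
      E1_extB_iInf fun z => E1_extB_himp (extB_mem (extE_const z) extE_id) (extB_sub (extE_const z) extE_id)
    refine forall_mem_chk U S (F := fun y => ⨅ z, memB z y ⇨ SubF z y)
      (P := fun y => ∀ z, EU U z y → SubIn (EU U) z y) hF ?_ ?_
    · intro x
      exact Tv.all (F := fun z => memB z x ⇨ SubF z x) (P := fun z => EU U z (cls U x) → SubIn (EU U) z (cls U x))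
        (E1_extB_himp (extB_mem extE_id (extE_const x)) (extB_sub extE_id (extE_const x)))
        (fun z => (Tv.mem z x).imp (tv_sub z x))
    · intro k _
      refine (congr_of_top hF (kchk_chk k)).trans ?_
      refine (all_setB (ind B (Iio k)) (fun z => SubF z (chk B (Iio k))) (extB_sub extE_id (extE_const _))).trans ?_
      rw [iInf_eq_top]
      intro a
      exact a2a_himp fun ha => p1_sub a (Iio k) (fun c hc => lt_trans hc ha)

theorem emb_chk {S T : Set K} (h : #S ≤ #T) : EmbIn (EU U) (cls U (chk B S)) (cls U (chk B T)) :=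
  (tv_emb (U := U) (chk B S) (chk B T)).holds ((emb_setB _ _).trans (emb_top h))

theorem not_emb_chk (hc : CccB B) {S T : Set K} (hS : ℵ₀ < #S) (hT : #T < #S) :
    ¬ EmbIn (EU U) (cls U (chk B S)) (cls U (chk B T)) := by
  intro h
  have h1 : EmbF (chk B S) (chk B T) ∈ U.s := (tv_emb (U := U) (chk B S) (chk B T)).2 h
  have h2 : EmbF (chk B S) (chk B T) = ⊥ := (emb_setB _ _).trans (emb_bot hc hS hT)
  rw [h2] at h1
  exact U.bot h1

theorem card_chk (hc : CccB B) (S : Set K) (hS : ∀ a b, a < b → b ∈ S → a ∈ S) (h0 : ℵ₀ < #S)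
    (h : ∀ k ∈ S, #(Iio k) < #S) : CardIn (EU U) (cls U (chk B S)) := by
  refine ⟨ord_chk U S hS, ?_⟩
  refine forall_mem_chk U S (F := fun y => (EmbF (chk B S) y)ᶜ)
    (P := fun y => ¬ EmbIn (EU U) (cls U (chk B S)) y) (E1_extB_compl (extB_emb (extE_const _) extE_id))
    (fun x => (tv_emb _ x).not) ?_
  intro k hk
  have h1 : EmbF (chk B S) (kchk B k) = EmbF (chk B S) (chk B (Iio k)) :=
    congr_of_top (F := fun y => EmbF (chk B S) y) (extB_emb (extE_const _) extE_id) (kchk_chk k)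
  have h2 : EmbF (chk B S) (chk B (Iio k)) = ⊥ := (emb_setB _ _).trans (emb_bot hc h0 (h k hk))
  show (EmbF (chk B S) (kchk B k))ᶜ = ⊤
  rw [h1, h2, compl_bot]

theorem cof_chk (S D : Set K) (hD : D ⊆ S) (h : ∀ a ∈ S, ∃ b ∈ D, a < b) :
    CofIn (EU U) (cls U (chk B S)) (cls U (chk B D)) := by
  refine ⟨?_, ?_⟩
  · refine (tv_sub (U := U) (chk B D) (chk B S)).holds ((sub_setB _ _).trans ?_)
    unfold subK
    rw [iInf_eq_top]
    intro a
    exact a2a_himp fun ha => tvB_true (hD ha)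
  · refine forall_mem_chk U S (F := fun a => ⨆ b, memB b (chk B D) ⊓ memB a b)
      (P := fun a => ∃ b, EU U b (cls U (chk B D)) ∧ EU U a b)
      (E1_extB_iSup fun b => E1_extB_inf (E1_extB_const _) (extB_memB_left b)) ?_ ?_
    · intro x
      exact Tv.ex (F := fun b => memB b (chk B D) ⊓ memB x b) (P := fun b => EU U b (cls U (chk B D)) ∧ EU U (cls U x) b)
        (E1_extB_inf (extB_memB_left _) (extB_memB_right x)) (fun b => (Tv.mem b _).and (Tv.mem x b))
    · intro k hk
      obtain ⟨b, hb, hkb⟩ := h k hk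
      rw [eq_top_iff]
      refine le_trans ?_ (le_iSup (fun b => memB b (chk B D) ⊓ memB (kchk B k) b) (kchk B b))
      have h1 : memB (kchk B b) (chk B D) = ⊤ := (memB_setB _ b).trans (tvB_true hb)
      have h2 : memB (kchk B k) (kchk B b) = memB (kchk B k) (chk B (Iio b)) :=
        congr_of_top (F := fun y => memB (kchk B k) y) (extB_memB_right _) (kchk_chk b)
      have h3 : memB (kchk B k) (chk B (Iio b)) = ⊤ := (memB_setB _ k).trans (tvB_true hkb)
      show ⊤ ≤ memB (kchk B b) (chk B D) ⊓ memB (kchk B k) (kchk B b)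
      rw [h1, h2, h3, inf_idem]

theorem forall_emb_chk (S T : Set K) (h : ∀ k ∈ S, #(Iio k) ≤ #T) :
    ∀ y, EU U y (cls U (chk B S)) → EmbIn (EU U) y (cls U (chk B T)) := by
  refine forall_mem_chk U S (F := fun y => EmbF y (chk B T)) (P := fun y => EmbIn (EU U) y (cls U (chk B T)))
    (extB_emb extE_id (extE_const _)) (fun x => tv_emb x _) ?_
  intro k hk
  have h1 : EmbF (kchk B k) (chk B T) = EmbF (chk B (Iio k)) (chk B T) :=
    congr_of_top (F := fun y => EmbF y (chk B T)) (extB_emb extE_id (extE_const _)) (kchk_chk k)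
  exact h1.trans ((emb_setB _ _).trans (emb_top (h k hk)))

end Pool.Agent.H8MC
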