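import Pool.Agent.Lib.H8MC.Q3
import Pool.Agent.Lib.H8MC.A2

/-!
# P1: ordinals and cardinals in the quotient (S/M, M)

* `mem_chk`: `EU U (cls U (kchk B k)) (cls U (chk B S)) ↔ k ∈ S` for `k : K` (`memB_setB`, `U.top`, `U.bot`).
* `cls_kchk`: `cls U (kchk B k) = cls U (chk B (Iio k))` (`kchk_chk`, `cls_eq`).
* `forall_mem_chk`: if `Tv U (F x) (P (cls U x))` for all `x`, `F` extensional and `F (kchk B k) = ⊤` for `k ∈ S` then `P y` for all `y` with `EU U y (cls U (chk B S))`: the value `⨅ z, memB z (chk B S) ⇨ F z` is `⊤` (`all_setB`).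
* `omega_chk`: `omega_cls`; `eqB omB (chk B (Iio o)) = ⊤` where `e` enumerates `Iio o`: `eqB (nchk n) (kchk B (e n)) = ⊤` by strong induction on `n` (`nchk_eq`, `kchk_eq`: the elements of `kchk B (e n)` are the names of the `y < e n`,
  i.e. `y = e j`, `j < n`).
* `ord_chk`: `S` is a lower set. `forall_mem_chk` with `tv_sub`; `SubF (kchk B k) (chk B S) = ⊤` (`kchk_chk`, `sub_setB`) and (second clause) `∀ z ∈ y, z ⊆ y`: `F y = ⨅ z, memB z y ⇨ SubF z y`.
* `emb_chk`, `not_emb_chk`: `tv_emb`, `emb_setB`, `emb_top`, `emb_bot`, `U.top`, `U.bot`.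
* `card_chk`: `ord_chk`; `forall_mem_chk` for `F y = (EmbF (chk B S) y)ᶜ`.
* `cof_chk`: `forall_mem_chk` for `F a = ⨆ b, memB b (chk B D) ⊓ memB a b`; `memB (kchk B a) (kchk B b) = ⊤` for `a < b` (`kchk_chk`, `memB_setB`).
-/

set_option autoImplicit false

open Set Function Cardinal

namespace Pool.Agent.H8MC

open Pool.Agent.H5Z Pool.Agent.H30C BSet Fml

variable {K : Type} [LinearOrder K] [WellFoundedLT K] {B : Type} [CompleteBooleanAlgebra B] (U : UF B)

theorem mem_chk (k : K) (S : Set K) : EU U (cls U (kchk B k)) (cls U (chk B S)) ↔ k ∈ S := by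
  rw [EU_cls]
  unfold chk
  rw [memB_setB]
  unfold ind
  by_cases h : k ∈ S
  · rw [tvB_true h]
    exact ⟨fun _ => h, fun _ => U.top⟩
  · rw [tvB_false h]
    exact ⟨fun h1 => absurd h1 U.bot, fun h1 => absurd h1 h⟩

theorem cls_kchk (k : K) : cls U (kchk B k) = cls U (chk B (Iio k)) := by
  rw [cls_eq, kchk_chk]
  exact U.top

theorem forall_mem_chk (S : Set K) {F : BSet B → B} {P : Mod U → Prop} (hF : ExtB F)
    (hP : ∀ x, Tv U (F x) (P (cls U x))) (h : ∀ k ∈ S, F (kchk B k) = ⊤) :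
    ∀ y, EU U y (cls U (chk B S)) → P y := by
  have h1 : Tv U (⨅ z, memB z (chk B S) ⇨ F z) (∀ y, EU U y (cls U (chk B S)) → P y) :=
    Tv.all (E1_extB_himp (extB_mem extE_id (extE_const _)) hF) fun z => Tv.imp (Tv.mem z _) (hP z)
  refine h1.holds ?_
  unfold chk
  rw [all_setB _ _ hF, iInf_eq_top]
  intro k
  unfold ind
  by_cases hk : k ∈ S
  · rw [h k hk, himp_top]
  · rw [tvB_false hk, bot_himp]

end Pool.Agent.H8MC
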