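import Pool.Agent.Lib.H8MC.P1A
import Pool.Agent.Lib.H8MC.Q3
import Pool.Agent.Lib.H8MC.A2

/-!
# P1: ordinals and cardinals in the quotient (S/M, M)

* `mem_chk`: `EU U (cls U (kchk B k)) (cls U (chk B S)) ↔ k ∈ S` for `k : K` (`memB_setB`, `U.top`, `U.bot`).
* `cls_kchk`: `cls U (kchk B k) = cls U (chk B (Iio k))` (`kchk_chk`, `cls_eq`).
* `forall_mem_chk`: if `Tv U (F x) (P (cls U x))` for all `x`, `F` extensional and `F (kchk B k) = ⊤` for `k ∈ S` then `P y` for all `y` with `EU U y (cls U (chk B S))`: the value `⨅ z, memB z (chk B S) ⇨ F z` is `⊤` (`all_setB`).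
* `omega_chk`: `omega_cls`; `eqB omB (chk B (Iio o)) = ⊤` where `e` enumerates `Iio o`: `eqB (nchk n) (kchk B (e n)) = ⊤` by strong induction on `n` (`nchk_eq`, `kchk_eq`: the elements of `kchk B (e n)` are the names of the `y < e n`,
  i.e. `y = e j`, `j < n`).
* `ord_chk`: `S` is a lower set. `forall_mem_chk` with `tv_sub`; `SubF (kchk B k) (chk B S) = ⊤` (`kchk_chk`, `sub_setB`) and (second clause) `∀ z ∈ y, z ⊆ y`: `F y = ⨅ z, memB z y ⇨ SubF z y`.
* `emb_chk`, `not_emb_chk`: `tv_emb`, `emb_setB`, `emb_top`, `emb_bot`, `U.top`, `U.bot`.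
* `card_chk`: `ord_chk`; `forall_mem_chk` for `F y = (EmbF (chk B S) y)ᶜ`.
* `cof_chk`: `forall_mem_chk` for `F a = ⨆ b, memB b (chk B D) ⊓ memB a b`; `memB (kchk B a) (kchk B b) = ⊤` for `a < b` (`kchk_chk`, `memB_setB`).
-/

set_option autoImplicit false

open Set Function Cardinal

namespace Pool.Agent.H8MC

open Pool.Agent.H5Z Pool.Agent.H30C BSet Fml

variable {K : Type} [LinearOrder K] [WellFoundedLT K] {B : Type} [CompleteBooleanAlgebra B] (U : UF B)

theorem p1b_nat {o : K} {e : ℕ → K} (he : StrictMono e) (he' : ∀ k, k < o ↔ ∃ n, e n = k) (n : ℕ) :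
    eqB (nchk n) (kchk B (e n)) = (⊤ : B) := by
  induction n using Nat.strong_induction_on with
  | _ n ih =>
    rw [nchk_eq, kchk_eq, eqB, eq_top_iff]
    refine le_inf (le_iInf fun i => ?_) (le_iInf fun j => ?_)
    · rw [le_himp_iff, inf_top_eq]
      refine le_iSup_of_le (⟨e i.1, he i.2⟩ : {y : K // y < e n}) ?_
      rw [top_inf_eq, ih i.1 i.2]
    · rw [le_himp_iff, inf_top_eq]
      obtain ⟨y, hy⟩ := j
      have hyo : y < o := hy.trans ((he' _).2 ⟨n, rfl⟩)
      obtain ⟨m, rfl⟩ := (he' _).1 hyo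
      have hmn : m < n := he.lt_iff_lt.1 hy
      refine le_iSup_of_le (⟨m, hmn⟩ : Fin n) ?_
      rw [top_inf_eq]
      exact (ih m hmn).symm.le

theorem p1b_om {o : K} {e : ℕ → K} (he : StrictMono e) (he' : ∀ k, k < o ↔ ∃ n, e n = k) :
    eqB omB (chk B (Iio o)) = (⊤ : B) := by
  unfold omB chk setB
  rw [eqB, eq_top_iff]
  refine le_inf (le_iInf fun n => ?_) (le_iInf fun k => ?_)
  · rw [le_himp_iff, inf_top_eq]
    refine le_iSup_of_le (e n) (le_inf ?_ ?_)
    · unfold ind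
      rw [tvB_true (show e n ∈ Iio o from (he' _).2 ⟨n, rfl⟩)]
    · exact (p1b_nat he he' n).symm.le
  · rw [le_himp_iff]
    by_cases hk : k < o
    · obtain ⟨n, rfl⟩ := (he' _).1 hk
      refine le_iSup_of_le n (le_inf le_top ?_)
      rw [p1b_nat he he' n]
      exact le_top
    · unfold ind
      rw [tvB_false (show ¬ k ∈ Iio o from hk), inf_bot_eq]
      exact bot_le

theorem omega_chk {o : K} {e : ℕ → K} (he : StrictMono e) (he' : ∀ k, k < o ↔ ∃ n, e n = k) :
    IsOmega (EU U) (cls U (chk B (Iio o))) := by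
  have h : cls U (omB : BSet B) = cls U (chk B (Iio o)) := (cls_eq U _ _).2 (by
    rw [p1b_om he he']
    exact U.top)
  rw [← h]
  exact omega_cls U

end Pool.Agent.H8MC
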