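import Pool.Agent.Lib.H8MC.U1A
import Pool.Agent.Lib.H8MC.A1
import Pool.Agent.Lib.H8MC.A2

/-!
# U1: counting (S, S/M, M)

`card_supp`: the functions `Y : K → B` which are `⊥` outside the countable set `x` inject into `x → B`; `#(x → B) = #B ^ #x ≤ μ ^ ℵ₀ = μ`
(`Cardinal.power_le_power_left`, `Cardinal.power_le_power_right`; `μ ≠ 0`).

`col_disj`: `colK o S C ⊓ cbK o Y ≤ ⨆ g₀, tvB B (g₀ ∈ S) ⊓ (C Y g₀ ⊓ ⨅ g', ..)`; on the part of `g₀`: `C Y g ≤ tvB B (g = g₀)` and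
`C Y g' ≤ tvB B (g' = g₀)`, so it is `⊥` if `g ≠ g'`.

`val_bdd`: for each `Y` the set of the `g ∈ S` with `C Y g ⊓ (p ⊓ cbK o Y) ≠ ⊥`, `p = colK o S C`, is countable (`ccc_count` for the family
indexed by the elements of `S`, `col_disj`). The set `V` below is the union of these sets over the `Y` which are `⊥` outside `x`, so
`#V ≤ μ * ℵ₀ = μ`, and `hs` gives the bound.
-/

set_option autoImplicit false

open Set Function Cardinal

namespace Pool.Agent.H8MC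

variable {K B : Type} [CompleteBooleanAlgebra B]

variable [LinearOrder K]

theorem col_disj (o : K) (S : Set K) (C : (K → B) → K → B) (Y : K → B) (g g' : K) (hg : g ∈ S) (hg' : g' ∈ S)
    (h : g ≠ g') : C Y g ⊓ C Y g' ⊓ (colK o S C ⊓ cbK o Y) = ⊥ := by
  rw [← le_bot_iff]
  have hcol : colK o S C ⊓ cbK o Y ≤
      ⨆ g₀, tvB B (g₀ ∈ S) ⊓ (C Y g₀ ⊓ ⨅ g', tvB B (g' ∈ S) ⇨ (C Y g' ⇨ tvB B (g' = g₀))) := by
    refine le_trans (inf_le_inf_right (cbK o Y) (iInf_le _ Y)) ?_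
    exact himp_inf_le
  refine le_trans (inf_le_inf_left (C Y g ⊓ C Y g') hcol) ?_
  rw [inf_iSup_eq]
  refine iSup_le fun g₀ => ?_
  have key : ∀ k ∈ S, (⨅ g', tvB B (g' ∈ S) ⇨ (C Y g' ⇨ tvB B (g' = g₀))) ⊓ C Y k ≤ tvB B (k = g₀) := by
    intro k hk
    refine le_trans (inf_le_inf_right (C Y k) (iInf_le _ k)) ?_
    rw [tvB_true hk, top_himp]
    exact himp_inf_le
  have h3 : C Y g ⊓ C Y g' ⊓
      (tvB B (g₀ ∈ S) ⊓ (C Y g₀ ⊓ ⨅ g', tvB B (g' ∈ S) ⇨ (C Y g' ⇨ tvB B (g' = g₀)))) ≤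
      tvB B (g = g₀) ⊓ tvB B (g' = g₀) := by
    refine le_inf ?_ ?_
    · refine le_trans (le_inf ?_ ?_) (key g hg)
      · exact inf_le_right.trans (inf_le_right.trans inf_le_right)
      · exact inf_le_left.trans inf_le_left
    · refine le_trans (le_inf ?_ ?_) (key g' hg')
      · exact inf_le_right.trans (inf_le_right.trans inf_le_right)
      · exact inf_le_left.trans inf_le_right
  refine le_trans h3 ?_
  by_cases h4 : g = g₀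
  · have h5 : ¬ g' = g₀ := fun h6 => h (h4.trans h6.symm)
    rw [tvB_false h5]
    exact inf_le_right
  · rw [tvB_false h4]
    exact inf_le_left

theorem val_bdd (hc : CccB B) {mu : Cardinal.{0}} (hmu : mu ^ ℵ₀ = mu) (h0 : ℵ₀ ≤ mu) (hB : #B ≤ mu) (o s : K)
    (hs : ∀ T : Set K, T ⊆ Iio s → #T ≤ mu → ∃ δ < s, ∀ g ∈ T, g < δ)
    (S : Set K) (hS : Iio s ⊆ S) (C : (K → B) → K → B) {x : Set K} (hx : x.Countable) :
    ∃ δ < s, ∀ Y : K → B, (∀ k, k ∉ x → Y k = ⊥) → ∀ g < s, C Y g ⊓ (colK o S C ⊓ cbK o Y) ≠ ⊥ → g < δ := by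
  have hcnt : ∀ Y : K → B, {g | g < s ∧ C Y g ⊓ (colK o S C ⊓ cbK o Y) ≠ ⊥}.Countable := by
    intro Y
    have h1 := ccc_count hc (fun i : Iio s => C Y i.1) (colK o S C ⊓ cbK o Y)
      (fun i j hij => col_disj o S C Y i.1 j.1 (hS i.2) (hS j.2) (fun h2 => hij (Subtype.ext h2)))
    refine (h1.image Subtype.val).mono ?_
    rintro g ⟨hg, hg2⟩
    exact ⟨⟨g, hg⟩, hg2, rfl⟩
  have hV : #(⋃ Y : {Y : K → B // ∀ k, k ∉ x → Y k = ⊥},
      {g | g < s ∧ C Y.1 g ⊓ (colK o S C ⊓ cbK o Y.1) ≠ ⊥}) ≤ mu := by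
    refine (Cardinal.mk_iUnion_le _).trans ?_
    have h2 : (⨆ Y : {Y : K → B // ∀ k, k ∉ x → Y k = ⊥},
        #({g | g < s ∧ C Y.1 g ⊓ (colK o S C ⊓ cbK o Y.1) ≠ ⊥} : Set K)) ≤ ℵ₀ :=
      ciSup_le' fun Y => (hcnt Y.1).le_aleph0
    refine (mul_le_mul' (card_supp hmu h0 hB hx) h2).trans ?_
    exact (Cardinal.mul_eq_left h0 h0 Cardinal.aleph0_ne_zero).le
  obtain ⟨δ, hδ, hδ2⟩ := hs _ (by
    intro g hg
    obtain ⟨Y, hY⟩ := mem_iUnion.1 hg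
    exact hY.1) hV
  refine ⟨δ, hδ, fun Y hY g hg hne => hδ2 g ?_⟩
  exact mem_iUnion.2 ⟨⟨Y, hY⟩, hg, hne⟩

end Pool.Agent.H8MC
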