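import Pool.Agent.Lib.H8MC.A3
import Pool.Agent.Lib.H8MC.U1

/-!
# U2: the upper bound (M)

Proof of `upper`. Let `p = colK o S C`. By `val_bdd` choose for every countable set `x` an element `D x < s` with
(1) for `Y` which is `⊥` outside `x` and `g < s`: if `C Y g ⊓ (p ⊓ cbK o Y) ≠ ⊥` then `g < D x`
(for the other sets let `D x` be some element below `s`, e.g. the one for the empty set). Apply `hstar` to `D`: `A`, `δ`. We claim that `A` and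
this `δ` work. Suppose that `q = p ⊓ cbK o X ⊓ subK X (ind B A) ⊓ C X δ ≠ ⊥`. As `q ≤ ⨆ b, subK X (ind B (Iio b))` there is `b` with
`q₁ = q ⊓ subK X (ind B (Iio b)) ≠ ⊥`, and as `q₁ ≤ embK X (ind B (Iio o))` there is `f` with `q₂ = q₁ ⊓ injK f X (ind B (Iio o)) ≠ ⊥`. Let
`x = {k | X k ⊓ q₂ ≠ ⊥}`. It is countable (`cover`), `x ⊆ A`, `x ⊆ Iio b` (for `k ∉ A`: `X k ⊓ q₂ ≤ ind B A k = ⊥`). It is infinite: otherwise, by `hfin`
there is `n < o` with `#x ≤ #(Iio n)`, so `q₂ ≤ embK X (ind B (Iio n))` (`fin_emb`), but `q₂ ≤ cbK o X ≤ (⨆ n, tvB B (n < o) ⊓ embK X (ind B (Iio n)))ᶜ`, so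
`q₂ = ⊥`. So `CB x` and `D x < δ`. Let `Y = X` on `x`, `⊥` outside: `q₂ ≤ eqK X Y` (`supp_eq`), so `q₂ ≤ C Y δ` (`hC`) and `q₂ ≤ cbK o Y` (`cb_ext`).
By (1) `δ < D x`, a contradiction.
-/

set_option autoImplicit false

open Set Function Cardinal

namespace Pool.Agent.H8MC

variable {K B : Type} [CompleteBooleanAlgebra B] [LinearOrder K]

theorem u2_ex {ι : Type} (f : ι → B) (q : B) (h : q ≤ ⨆ i, f i) (hq : q ≠ ⊥) : ∃ i, q ⊓ f i ≠ ⊥ := by
  by_contra hcon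
  push Not at hcon
  refine hq ?_
  have h1 : q = ⨆ i, q ⊓ f i := by
    rw [← inf_iSup_eq]
    exact (inf_eq_left.2 h).symm
  rw [h1]
  simp only [hcon, iSup_bot]

omit [LinearOrder K] in
theorem u2_sub {T : Set K} {X : K → B} {q : B} (hq : q ≤ subK X (ind B T)) {k : K} (hk : k ∉ T) : X k ⊓ q = ⊥ := by
  have h1 : subK X (ind B T) ≤ X k ⇨ ind B T k := iInf_le _ k
  have h2 : ind B T k = ⊥ := tvB_false hk
  rw [h2] at h1
  have h3 : X k ⊓ q ≤ X k ⊓ (X k ⇨ ⊥) := inf_le_inf_left _ (hq.trans h1)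
  rw [inf_himp] at h3
  exact le_bot_iff.1 (h3.trans inf_le_right)

theorem upper (hc : CccB B) {mu : Cardinal.{0}} (hmu : mu ^ ℵ₀ = mu) (h0 : ℵ₀ ≤ mu) (hB : #B ≤ mu) (o s : K)
    (ho : (Iio o).Countable) (hfin : ∀ N : ℕ, ∃ n < o, (N : Cardinal.{0}) ≤ #(Iio n))
    (hs : ∀ T : Set K, T ⊆ Iio s → #T ≤ mu → ∃ δ < s, ∀ g ∈ T, g < δ)
    (hstar : ∀ D : Set K → K, (∀ x, CB x → D x < s) →
      ∃ A : Set K, #A = #K ∧ ∃ δ < s, ∀ x, CB x → x ⊆ A → D x < δ)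
    (S : Set K) (hS : Iio s ⊆ S) (C : (K → B) → K → B) (hC : ExtK C) :
    ∃ A : Set K, #A = #K ∧ ∃ δ < s, ∀ X : K → B, colK o S C ⊓ cbK o X ⊓ subK X (ind B A) ⊓ C X δ = ⊥ := by
  classical
  have hD0 : ∀ x : Set K, ∃ d : K, x.Countable → d < s ∧ ∀ Y : K → B, (∀ k, k ∉ x → Y k = ⊥) → ∀ g < s, C Y g ⊓ (colK o S C ⊓ cbK o Y) ≠ ⊥ → g < d := by
    intro x
    by_cases hx : x.Countable
    · obtain ⟨d, hd, h⟩ := val_bdd hc hmu h0 hB o s hs S hS C hx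
      exact ⟨d, fun _ => ⟨hd, h⟩⟩
    · exact ⟨s, fun h => absurd h hx⟩
  choose D hD using hD0
  obtain ⟨A, hA, δ, hδ, hAD⟩ := hstar D (fun x hx => (hD x hx.1).1)
  refine ⟨A, hA, δ, hδ, fun X => ?_⟩
  by_contra hne
  obtain ⟨q, hqd⟩ : ∃ q : B, q = colK o S C ⊓ cbK o X ⊓ subK X (ind B A) ⊓ C X δ := ⟨_, rfl⟩
  rw [← hqd] at hne
  have hq1 : q ≤ colK o S C := by
    rw [hqd]
    exact (inf_le_left.trans inf_le_left).trans inf_le_left
  have hq2 : q ≤ cbK o X := by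
    rw [hqd]
    exact (inf_le_left.trans inf_le_left).trans inf_le_right
  have hq3 : q ≤ subK X (ind B A) := by
    rw [hqd]
    exact inf_le_left.trans inf_le_right
  have hq4 : q ≤ C X δ := by
    rw [hqd]
    exact inf_le_right
  have hcb1 : cbK o X ≤ ⨆ b, subK X (ind B (Iio b)) := inf_le_left
  have hcb2 : cbK o X ≤ ⨆ f : K → K → B, injK f X (ind B (Iio o)) := inf_le_right.trans inf_le_left
  have hcb3 : cbK o X ≤ (⨆ n, tvB B (n < o) ⊓ embK X (ind B (Iio n)))ᶜ := inf_le_right.trans inf_le_right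
  obtain ⟨b, hb⟩ := u2_ex _ q (hq2.trans hcb1) hne
  obtain ⟨f, hf⟩ := u2_ex _ (q ⊓ subK X (ind B (Iio b))) ((inf_le_left.trans hq2).trans hcb2) hb
  obtain ⟨q₂, hq₂⟩ : ∃ q₂ : B, q₂ = q ⊓ subK X (ind B (Iio b)) ⊓ injK f X (ind B (Iio o)) := ⟨_, rfl⟩
  rw [← hq₂] at hf
  have hle : q₂ ≤ q := by
    rw [hq₂]
    exact inf_le_left.trans inf_le_left
  have hle2 : q₂ ≤ subK X (ind B (Iio b)) := by
    rw [hq₂]
    exact inf_le_left.trans inf_le_right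
  have hle3 : q₂ ≤ injK f X (ind B (Iio o)) := by
    rw [hq₂]
    exact inf_le_right
  obtain ⟨x, hxd⟩ : ∃ x : Set K, x = {k | X k ⊓ q₂ ≠ ⊥} := ⟨_, rfl⟩
  have hx0 : ∀ k, k ∉ x → X k ⊓ q₂ = ⊥ := fun k hk => by
    by_contra h
    refine hk ?_
    rw [hxd]
    exact h
  have hx1 : ∀ k ∈ x, X k ⊓ q₂ ≠ ⊥ := fun k hk => by
    rw [hxd] at hk
    exact hk
  have hxc : x.Countable := by
    rw [hxd]
    exact cover hc ho f X q₂ hle3
  have hxA : x ⊆ A := fun k hk => by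
    by_contra hkA
    exact hx1 k hk (u2_sub (hle.trans hq3) hkA)
  have hxb : ∀ k ∈ x, k < b := fun k hk => by
    by_contra hkb
    exact hx1 k hk (u2_sub hle2 hkb)
  have hxi : x.Infinite := by
    intro hfx
    obtain ⟨n, hn, hN⟩ := hfin (hfx.toFinset.card)
    have h1 : #x ≤ #(Iio n) := by
      refine le_trans (le_of_eq ?_) hN
      have e1 := Cardinal.mk_coe_finset (s := hfx.toFinset)
      have e2 : #x = #{y // y ∈ hfx.toFinset} := Cardinal.mk_congr (Equiv.subtypeEquivRight fun y => hfx.mem_toFinset.symm)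
      rw [e2, e1]
    have h2 := fin_emb X q₂ hx0 h1
    have h3 : q₂ ≤ ⨆ n, tvB B (n < o) ⊓ embK X (ind B (Iio n)) := by
      refine le_trans ?_ (le_iSup _ n)
      rw [tvB_true hn, top_inf_eq]
      exact h2
    have h4 : q₂ ≤ ⊥ := by
      rw [← inf_compl_eq_bot (a := ⨆ n, tvB B (n < o) ⊓ embK X (ind B (Iio n)))]
      exact le_inf h3 ((hle.trans hq2).trans hcb3)
    exact hf (le_bot_iff.1 h4)
  have hCB : CB x := ⟨hxc, hxi, b, hxb⟩
  have hDx := hAD x hCB hxA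
  obtain ⟨Y, hY⟩ : ∃ Y : K → B, Y = fun k => if k ∈ x then X k else ⊥ := ⟨_, rfl⟩
  have hY1 : ∀ k ∈ x, Y k = X k := fun k hk => by
    rw [hY]
    exact if_pos hk
  have hY2 : ∀ k, k ∉ x → Y k = ⊥ := fun k hk => by
    rw [hY]
    exact if_neg hk
  have hE := supp_eq X Y q₂ hx0 hY1 hY2
  have hCY : q₂ ≤ C Y δ := (le_inf hE (hle.trans hq4)).trans (hC X Y δ)
  have hcY : q₂ ≤ cbK o Y := (le_inf hE (hle.trans hq2)).trans (cb_ext o X Y)
  have hlt := (hD x hxc).2 Y hY2 δ hδ (fun h => hf (le_bot_iff.1 (by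
    rw [← h]
    exact le_inf hCY (le_inf (hle.trans hq1) hcY))))
  exact absurd hlt (not_lt.2 hDx.le)

end Pool.Agent.H8MC
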