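import Pool.Agent.Lib.H8MC.P2A
import Pool.Agent.Lib.H8MC.P1
import Pool.Agent.Lib.H8MC.U2
import Pool.Agent.Lib.H8MC.L4

/-!
# P2: the arrow relations in the quotient (M, M)

`arrow_chk` (`S ⊇ Iio s`): let `c = cls U c'` (`exists_cls`) with `ColIn .. c`, `C X g = memB (opair (setB X) (kchk B g)) c'`, `ExtK C` (`extK_mem`). `hup` gives `A`, `δ`. In `M` take `cls U (chk B A)` (`⊆` by `tv_sub`, `sub_setB`; `emb_chk`, `#univ = #K = #A`) and
`cls U (kchk B δ)` (`mem_chk`). Let `x = cls U x'` be countably infinite bounded, `⊆ A`, `Rel x δ c`. Then `ColF .., CbF .. x', SubF x' (chk B A), memB (opair x' (kchk B δ)) c'` are in `U.s` (`tv_*`, `Tv.rel`). With `X k = memB (kchk B k) x'`: `CbF .. x' ≤ eqB x' (setB X)`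
(`cb_sub`, `canon`), so their meet is at most `colK o S C ⊓ cbK o X ⊓ subK X (ind B A) ⊓ C X δ = ⊥` (`col_chk`, `cb_setB`, `sub_setB`, extensionality in `x'`), and `⊥ ∉ U.s`.

`not_arrow_chk`: let `F a = (⨆ z, memB z a) ⇨ ⨆ c, ColF w l a c ⊓ FullF w l a c`, `P a = (∃ z, E z a) → ∃ c, ColIn E w l a c ∧ FullIn E w l a c`. `forall_mem_chk` for `S = Iio s`: for `k < s`, if `Iio k` is empty then `⨆ z, memB z (kchk B k) = ⊥`; otherwise `hlow k` gives `C`;
take `c = colN C`: `col_chk`, `full_chk`, `memB_colN`, so both values are `⊤` (`kchk B k` and `chk B (Iio k)`: `kchk_chk`, `congr_of_top`). Then `not_arrow`.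
-/

set_option autoImplicit false

open Set Function Cardinal

namespace Pool.Agent.H8MC

open Pool.Agent.H5Z Pool.Agent.H30C BSet Fml

variable {K : Type} [LinearOrder K] [WellFoundedLT K] {B : Type} [CompleteBooleanAlgebra B] (U : UF B)

theorem not_arrow_chk (o s : K)
    (hlow : ∀ k < s, (Iio k).Nonempty → ∃ C : (K → B) → K → B, ExtK C ∧ colK o (Iio k) C = ⊤ ∧
      ∀ (A : K → B), ∀ g < k, embK (fun _ => ⊤) A ≤ ⨆ X, cbK o X ⊓ (subK X A ⊓ C X g)) :
    ∀ a, EU U a (cls U (chk B (Iio s))) → (∃ z, EU U z a) →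
      ¬ ArrowIn (EU U) (cls U (chk B (Iio o))) (cls U (chk B (univ : Set K))) a := by
  have hF : ExtB (fun a : BSet B => (⨆ z, memB z a) ⇨ ⨆ c, ColF (chk B (Iio o)) (chk B (univ : Set K)) a c ⊓
      FullF (chk B (Iio o)) (chk B (univ : Set K)) a c) :=
    E1_extB_himp (E1_extB_iSup fun z => extB_mem (extE_const z) extE_id)
      (E1_extB_iSup fun c => E1_extB_inf (extB_col (extE_const _) (extE_const _) extE_id (extE_const c))
        (extB_full (extE_const _) (extE_const _) extE_id (extE_const c)))
  have key : ∀ a, EU U a (cls U (chk B (Iio s))) → ((∃ z, EU U z a) →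
      ∃ c, ColIn (EU U) (cls U (chk B (Iio o))) (cls U (chk B (univ : Set K))) a c ∧
        FullIn (EU U) (cls U (chk B (Iio o))) (cls U (chk B (univ : Set K))) a c) := by
    refine forall_mem_chk U (Iio s) hF ?_ ?_
    · intro x
      refine Tv.imp (Tv.ex ?_ fun z => Tv.mem z x) (Tv.ex ?_ fun c => Tv.and (tv_col _ _ _ _) (tv_full _ _ _ _))
      · exact extB_mem extE_id (extE_const x)
      · exact E1_extB_inf (extB_col (extE_const _) (extE_const _) (extE_const x) extE_id)
          (extB_full (extE_const _) (extE_const _) (extE_const x) extE_id)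
    · intro k hk
      rw [congr_of_top hF (kchk_chk k), himp_eq_top_iff]
      have h0 : (⨆ z, memB z (chk B (Iio k))) = ⨆ j, ind B (Iio k) j := by
        have h1 := ex_setB (ind B (Iio k)) (fun _ => (⊤ : B)) (E1_extB_const ⊤)
        simp only [inf_top_eq] at h1
        exact h1
      rcases (Iio k).eq_empty_or_nonempty with he | hne
      · rw [h0]
        refine iSup_le fun j => ?_
        rw [ind, tvB_false (by rw [he]; exact notMem_empty j)]
        exact bot_le
      · obtain ⟨C, hC, hcol, hfull⟩ := hlow k hk hne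
        have hc : (fun (X : K → B) g => memB (opair (setB X) (kchk B g)) (colN C)) = C := by
          funext X g
          exact memB_colN C hC X g
        refine le_top.trans (le_iSup_of_le (colN C) ?_)
        refine le_inf ?_ ?_
        · rw [col_chk, hc, hcol]
        · rw [full_chk]
          refine le_iInf fun A => ?_
          rw [le_himp_iff, top_inf_eq]
          refine le_iInf fun g => ?_
          by_cases hg : g ∈ Iio k
          · rw [tvB_true hg, top_himp]
            refine (hfull A g hg).trans (iSup_mono fun X => ?_)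
            rw [memB_colN C hC X g]
          · rw [tvB_false hg, bot_himp]
            exact le_top
  intro a ha hz
  obtain ⟨c, h1, h2⟩ := key a ha hz
  exact not_arrow h1 h2

end Pool.Agent.H8MC
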