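import Pool.Agent.Lib.H8MC.P1
import Pool.Agent.Lib.H8MC.U2
import Pool.Agent.Lib.H8MC.L4

/-!
# P2: the arrow relations in the quotient (M, M)

`arrow_chk` (`S ⊇ Iio s`): let `c = cls U c'` (`exists_cls`) with `ColIn .. c`, `C X g = memB (opair (setB X) (kchk B g)) c'`, `ExtK C` (`extK_mem`). `hup` gives `A`, `δ`. In `M` take `cls U (chk B A)` (`⊆` by `tv_sub`, `sub_setB`; `emb_chk`, `#univ = #K = #A`) and
`cls U (kchk B δ)` (`mem_chk`). Let `x = cls U x'` be countably infinite bounded, `⊆ A`, `Rel x δ c`. Then `ColF .., CbF .. x', SubF x' (chk B A), memB (opair x' (kchk B δ)) c'` are in `U.s` (`tv_*`, `Tv.rel`). With `X k = memB (kchk B k) x'`: `CbF .. x' ≤ eqB x' (setB X)`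
(`cb_sub`, `canon`), so their meet is at most `colK o S C ⊓ cbK o X ⊓ subK X (ind B A) ⊓ C X δ = ⊥` (`col_chk`, `cb_setB`, `sub_setB`, extensionality in `x'`), and `⊥ ∉ U.s`.

`not_arrow_chk`: let `F a = (⨆ z, memB z a) ⇨ ⨆ c, ColF w l a c ⊓ FullF w l a c`, `P a = (∃ z, E z a) → ∃ c, ColIn E w l a c ∧ FullIn E w l a c`. `forall_mem_chk` for `S = Iio s`: for `k < s`, if `Iio k` is empty then `⨆ z, memB z (kchk B k) = ⊥`; otherwise `hlow k` gives `C`;
take `c = colN C`: `col_chk`, `full_chk`, `memB_colN`, so both values are `⊤` (`kchk B k` and `chk B (Iio k)`: `kchk_chk`, `congr_of_top`). Then `not_arrow`.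
-/

set_option autoImplicit false

open Set Function Cardinal

namespace Pool.Agent.H8MC

open Pool.Agent.H5Z Pool.Agent.H30C BSet Fml

variable {K : Type} [LinearOrder K] [WellFoundedLT K] {B : Type} [CompleteBooleanAlgebra B] (U : UF B)

theorem arrow_chk (o : K) (S : Set K) (s : K) (hS : Iio s ⊆ S)
    (hup : ∀ C : (K → B) → K → B, ExtK C → ∃ A : Set K, #A = #K ∧ ∃ δ < s, ∀ X : K → B,
      colK o S C ⊓ cbK o X ⊓ subK X (ind B A) ⊓ C X δ = ⊥) :
    ArrowIn (EU U) (cls U (chk B (Iio o))) (cls U (chk B (univ : Set K))) (cls U (chk B S)) := by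
  intro c hc
  obtain ⟨c', rfl⟩ := exists_cls U c
  obtain ⟨A, hA, δ, hδ, h⟩ := hup _ (extK_mem c')
  have hcol : ColF (chk B (Iio o)) (chk B (univ : Set K)) (chk B S) c' ∈ U.s := (tv_col _ _ _ _).2 hc
  refine ⟨cls U (chk B A), (tv_sub _ _).1 ?_, emb_chk U ?_, cls U (kchk B δ), (mem_chk U δ S).2 (hS hδ), ?_⟩
  · have h0 : SubF (chk B A) (chk B (univ : Set K)) = ⊤ := by
      rw [chk, chk, sub_setB, subK, iInf_eq_top]
      intro k
      rw [himp_eq_top_iff, ind, ind, tvB_true (mem_univ k)]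
      exact le_top
    rw [h0]
    exact U.top
  · rw [hA, mk_univ]
  · intro x hx hxA hr
    obtain ⟨x', rfl⟩ := exists_cls U x
    have h1 : CbF (chk B (Iio o)) (chk B (univ : Set K)) x' ∈ U.s := (tv_cb _ _ _).2 hx
    have h2 : SubF x' (chk B A) ∈ U.s := (tv_sub _ _).2 hxA
    have h3 : memB (opair x' (kchk B δ)) c' ∈ U.s := (Tv.rel _ _ _).2 hr
    have h4 : eqB x' (setB (fun k : K => memB (kchk B k) x')) ∈ U.s := U.up _ _ h1 ((cb_sub o x').trans (canon x'))
    have h5 : SubF (setB (fun k : K => memB (kchk B k) x')) (chk B A) ∈ U.s :=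
      U.up _ _ (U.inf _ _ h4 h2) (extB_sub extE_id (extE_const (chk B A)) _ _)
    have h6 : CbF (chk B (Iio o)) (chk B (univ : Set K)) (setB (fun k : K => memB (kchk B k) x')) ∈ U.s :=
      U.up _ _ (U.inf _ _ h4 h1) (extB_cb (extE_const _) (extE_const _) extE_id _ _)
    have h7 : memB (opair (setB (fun k : K => memB (kchk B k) x')) (kchk B δ)) c' ∈ U.s :=
      U.up _ _ (U.inf _ _ h4 h3) (extB_mem (extE_opair extE_id (extE_const (kchk B δ))) (extE_const c') _ _)
    rw [col_chk] at hcol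
    rw [cb_setB] at h6
    rw [chk, sub_setB] at h5
    have h8 := U.inf _ _ (U.inf _ _ (U.inf _ _ hcol h6) h5) h7
    rw [h] at h8
    exact U.bot h8

end Pool.Agent.H8MC
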