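import Pool.Agent.Lib.H8MC.V5

/-!
# P3: consequences of the order data (S/M)

* `dat_aleph`: `#(Iio m)` is infinite (`Iio o ⊆ Iio m` contains the `e n`), and different from `ℵ₀`: `ℵ₀ ^ ℵ₀ = 2 ^ ℵ₀ > ℵ₀` (`Cardinal.power_self_eq`, `Cardinal.cantor`), `dat.pow`.
* `dat_K`: `#(Iio m) ≤ #K`.
* `dat_hs`: if `T ⊆ Iio s`, `#T ≤ #(Iio m)` and `T` is not bounded below `s`, then `Iio s = ⋃ g ∈ T, Iic g`, so (`#(Iic g) ≤ #(Iio g) + 1 ≤ #(Iio m)`) `#(Iio s) ≤ #(Iio m) * #(Iio m) = #(Iio m)`, a contradiction to `dat.suc`.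
* `dat_fin`: for `N` take `n = e N`: `e 0, .., e (N-1)` are in `Iio n`.
* `dat_star`: `star`.
-/

set_option autoImplicit false

open Set Function Cardinal

namespace Pool.Agent.H8MC

variable {K : Type} [LinearOrder K] {o m s : K}

theorem dat_aleph (d : Dat K o m s) : ℵ₀ < #(Iio m) := by
  obtain ⟨e, he, heo⟩ := d.om
  have h1 : ℵ₀ ≤ #(Iio m) := by
    rw [Cardinal.aleph0_le_mk_iff]
    refine Infinite.of_injective (fun n : ℕ => (⟨e n, ((heo (e n)).2 ⟨n, rfl⟩).trans d.om_lt⟩ : Iio m)) ?_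
    intro a b hab
    exact he.injective (congrArg Subtype.val hab)
  refine lt_of_le_of_ne h1 fun h2 => ?_
  have h3 := d.pow
  rw [← h2, Cardinal.power_self_eq le_rfl] at h3
  exact (Cardinal.cantor ℵ₀).ne h3.symm

theorem dat_K (d : Dat K o m s) : ℵ₀ < #K :=
  (dat_aleph d).trans_le (Cardinal.mk_set_le _)

theorem dat_fin (d : Dat K o m s) : ∀ N : ℕ, ∃ n < o, (N : Cardinal.{0}) ≤ #(Iio n) := by
  intro N
  obtain ⟨e, he, heo⟩ := d.om
  refine ⟨e N, (heo _).2 ⟨N, rfl⟩, ?_⟩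
  have h1 : Function.Injective (fun i : Fin N => (⟨e i, he i.2⟩ : Iio (e N))) := by
    intro a b hab
    exact Fin.ext (he.injective (congrArg Subtype.val hab))
  have h2 := Cardinal.mk_le_of_injective h1
  rwa [Cardinal.mk_fin] at h2

end Pool.Agent.H8MC
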