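import Pool.Agent.Lib.H8MC.QBase

/-!
# Q1: truth values and extensionality
-/

set_option autoImplicit false

open Set Function

namespace Pool.Agent.H8MC

open Pool.Agent.H5Z Pool.Agent.H30C BSet Fml

variable {B : Type} [CompleteBooleanAlgebra B] {U : UF B} {G H I J : BSet B → BSet B}

theorem extB_sub (hG : ExtE G) (hH : ExtE H) : ExtB (fun x => SubF (G x) (H x)) := by
  unfold SubF
  exact E1_extB_iInf fun _ => E1_extB_himp (extB_mem (extE_const _) hG) (extB_mem (extE_const _) hH)

theorem extB_inj (hG : ExtE G) (hH : ExtE H) (hI : ExtE I) : ExtB (fun x => InjF (G x) (H x) (I x)) := by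
  unfold InjF
  repeat' first
    | exact hG
    | exact hH
    | exact hI
    | exact E1_extB_const _
    | exact extE_id
    | exact extE_const _
    | refine E1_extB_iInf fun _ => ?_
    | refine E1_extB_iSup fun _ => ?_
    | refine extB_iff ?_ ?_
    | refine E1_extB_himp ?_ ?_
    | refine E1_extB_inf ?_ ?_
    | refine E1_extB_sup ?_ ?_
    | refine E1_extB_compl ?_
    | refine extB_mem ?_ ?_
    | refine extB_eq ?_ ?_
    | refine extE_opair ?_ ?_

theorem extB_emb (hG : ExtE G) (hH : ExtE H) : ExtB (fun x => EmbF (G x) (H x)) := by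
  unfold EmbF
  exact E1_extB_iSup fun _ => extB_inj hG hH (extE_const _)

theorem extB_cb (hG : ExtE G) (hH : ExtE H) (hI : ExtE I) : ExtB (fun x => CbF (G x) (H x) (I x)) := by
  unfold CbF
  repeat' first
    | exact hG
    | exact hH
    | exact hI
    | exact E1_extB_const _
    | exact extE_id
    | exact extE_const _
    | refine extB_sub ?_ ?_
    | refine extB_emb ?_ ?_
    | refine E1_extB_iInf fun _ => ?_
    | refine E1_extB_iSup fun _ => ?_
    | refine E1_extB_himp ?_ ?_
    | refine E1_extB_inf ?_ ?_
    | refine E1_extB_sup ?_ ?_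
    | refine E1_extB_compl ?_
    | refine extB_mem ?_ ?_
    | refine extB_eq ?_ ?_
    | refine extE_opair ?_ ?_

theorem extB_col (hG : ExtE G) (hH : ExtE H) (hI : ExtE I) (hJ : ExtE J) :
    ExtB (fun x => ColF (G x) (H x) (I x) (J x)) := by
  unfold ColF
  repeat' first
    | exact hG
    | exact hH
    | exact hI
    | exact hJ
    | exact E1_extB_const _
    | exact extE_id
    | exact extE_const _
    | refine extB_cb ?_ ?_ ?_
    | refine extB_sub ?_ ?_
    | refine extB_emb ?_ ?_
    | refine E1_extB_iInf fun _ => ?_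
    | refine E1_extB_iSup fun _ => ?_
    | refine E1_extB_himp ?_ ?_
    | refine E1_extB_inf ?_ ?_
    | refine E1_extB_sup ?_ ?_
    | refine E1_extB_compl ?_
    | refine extB_mem ?_ ?_
    | refine extB_eq ?_ ?_
    | refine extE_opair ?_ ?_

theorem extB_full (hG : ExtE G) (hH : ExtE H) (hI : ExtE I) (hJ : ExtE J) :
    ExtB (fun x => FullF (G x) (H x) (I x) (J x)) := by
  unfold FullF
  repeat' first
    | exact hG
    | exact hH
    | exact hI
    | exact hJ
    | exact E1_extB_const _
    | exact extE_id
    | exact extE_const _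
    | refine extB_cb ?_ ?_ ?_
    | refine extB_sub ?_ ?_
    | refine extB_emb ?_ ?_
    | refine E1_extB_iInf fun _ => ?_
    | refine E1_extB_iSup fun _ => ?_
    | refine E1_extB_himp ?_ ?_
    | refine E1_extB_inf ?_ ?_
    | refine E1_extB_sup ?_ ?_
    | refine E1_extB_compl ?_
    | refine extB_mem ?_ ?_
    | refine extB_eq ?_ ?_
    | refine extE_opair ?_ ?_

end Pool.Agent.H8MC
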