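import Pool.Agent.Lib.H8MC.Q1

/-!
# Q2: the values at canonical names, part 1 (S/M, M)

* `all_setB`, `ex_setB`: `iInf_memB`, `iSup_memB` (see `iInf_KB` in `H30C/Tr.lean`; `setB X = BSet.mk K (kchk B) X`).
* `sub_setB`: `all_setB` for `F z = memB z (setB Y)`, `memB_setB`.
* `inj_setB`: `all_setB`, `ex_setB` repeatedly (with the extensionality lemmas), `eqB_kchk`; then `himp_iInf_eq` moves the infima in front. `iffB (eqB (kchk B a) (kchk B a')) (eqB (kchk B b) (kchk B b')) = tvB B (a = a' ↔ b = b')`: `by_cases`.
* `emb_setB`: `≤`: `inj_setB`. `≥`: for `R : K → K → B` take `f = relB R`, `memB_relB`.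
* `kchk_chk`: `kchk_eq`; `eqB` is the meet of two infima, both `⊤` (`ind B (Iio k) y = ⊤` for `y < k`, `⊥` otherwise); by `eqB_def` or directly by `eqB` on `BSet.mk`.
* `congr_of_top`: an extensional function takes the same values at `x, y` if `eqB x y = ⊤`.
* `canon`: `eqB x y` is at least the meet of the two inclusions: `x` has the value `⨅ z, memB z x ⇨ memB z y` (`sub` direction) etc.; there should be an extensionality lemma in `H5Z` (`z_ext` or `BExt`; search for `iffB (memB z x) (memB z y)`); otherwise from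
  `eqB_def`. For the inclusion `setB X ⊆ x`: `all_setB`, `X k = memB (kchk B k) x`. For `x ⊆ setB X`: `memB z x ⊓ memB z (chk B univ) ≤ ⨆ k, eqB z (kchk B k) ⊓ memB z x ≤ ⨆ k, eqB z (kchk B k) ⊓ X k = memB z (setB X)`.
-/

set_option autoImplicit false

open Set Function

namespace Pool.Agent.H8MC

open Pool.Agent.H5Z Pool.Agent.H30C BSet Fml

variable {K : Type} [LinearOrder K] [WellFoundedLT K] {B : Type} [CompleteBooleanAlgebra B]

theorem all_setB (X : K → B) (F : BSet B → B) (hF : ExtB F) :
    (⨅ z, memB z (setB X) ⇨ F z) = ⨅ k, X k ⇨ F (kchk B k) := by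
  rw [iInf_memB F hF]
  rfl

theorem ex_setB (X : K → B) (F : BSet B → B) (hF : ExtB F) :
    (⨆ z, memB z (setB X) ⊓ F z) = ⨆ k, X k ⊓ F (kchk B k) := by
  rw [iSup_memB F hF]
  rfl

theorem sub_setB (X Y : K → B) : SubF (setB X) (setB Y) = subK X Y := by
  unfold SubF subK
  rw [all_setB X (fun z => memB z (setB Y)) (extB_mem extE_id (extE_const _))]
  refine iInf_congr fun k => ?_
  rw [memB_setB]

theorem q2a_iff (a a' b b' : K) :
    iffB (eqB (kchk B a) (kchk B a')) (eqB (kchk B b) (kchk B b')) = tvB B (a = a' ↔ b = b') := by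
  rw [eqB_kchk, eqB_kchk]
  unfold iffB
  by_cases h : a = a'
  · by_cases h' : b = b'
    · rw [if_pos h, if_pos h', tvB_true (iff_of_true h h'), himp_self, inf_idem]
    · rw [if_pos h, if_neg h', tvB_false (fun H => h' (H.1 h))]
      simp
  · by_cases h' : b = b'
    · rw [if_neg h, if_pos h', tvB_false (fun H => h (H.2 h'))]
      simp
    · rw [if_neg h, if_neg h', tvB_true (iff_of_false h h'), himp_self, inf_idem]

theorem inj_setB (X Y : K → B) (f : BSet B) :
    InjF (setB X) (setB Y) f = injK (fun a b => memB (opair (kchk B a) (kchk B b)) f) X Y := by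
  have hP : ∀ (G H : BSet B → BSet B), ExtE G → ExtE H → ExtB (fun z => memB (opair (G z) (H z)) f) :=
    fun G H hG hH => extB_mem (extE_opair hG hH) (extE_const f)
  unfold InjF injK
  refine congrArg₂ (· ⊓ ·) ?_ ?_
  · rw [all_setB X (fun a => ⨆ b, memB b (setB Y) ⊓ memB (opair a b) f)
      (E1_extB_iSup fun b => E1_extB_inf (E1_extB_const _) (hP _ _ extE_id (extE_const b)))]
    refine iInf_congr fun a => ?_
    rw [ex_setB Y (fun b => memB (opair (kchk B a) b) f) (hP _ _ (extE_const _) extE_id)]
  · rw [all_setB X _ (by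
      refine E1_extB_iInf fun a' => E1_extB_himp (E1_extB_const _) (E1_extB_iInf fun b =>
        E1_extB_himp (E1_extB_const _) (E1_extB_iInf fun b' => E1_extB_himp (E1_extB_const _)
          (E1_extB_himp (hP _ _ extE_id (extE_const b)) (E1_extB_himp (E1_extB_const _) ?_))))
      exact extB_iff (extB_eq extE_id (extE_const _)) (E1_extB_const _))]
    refine iInf_congr fun a => ?_
    rw [all_setB X _ (by
      refine E1_extB_iInf fun b =>
        E1_extB_himp (E1_extB_const _) (E1_extB_iInf fun b' => E1_extB_himp (E1_extB_const _)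
          (E1_extB_himp (E1_extB_const _) (E1_extB_himp (hP _ _ extE_id (extE_const b')) ?_)))
      exact extB_iff (extB_eq (extE_const _) extE_id) (E1_extB_const _))]
    rw [himp_iInf_eq]
    refine iInf_congr fun a' => ?_
    rw [all_setB Y _ (by
      refine E1_extB_iInf fun b' => E1_extB_himp (E1_extB_const _)
          (E1_extB_himp (hP _ _ (extE_const _) extE_id) (E1_extB_himp (E1_extB_const _) ?_))
      exact extB_iff (E1_extB_const _) (extB_eq extE_id (extE_const _)))]
    rw [himp_iInf_eq, himp_iInf_eq]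
    refine iInf_congr fun b => ?_
    rw [all_setB Y _ (by
      refine E1_extB_himp (E1_extB_const _) (E1_extB_himp (hP _ _ (extE_const _) extE_id) ?_)
      exact extB_iff (E1_extB_const _) (extB_eq (extE_const _) extE_id))]
    rw [himp_iInf_eq, himp_iInf_eq, himp_iInf_eq]
    refine iInf_congr fun b' => ?_
    rw [q2a_iff]

theorem emb_setB (X Y : K → B) : EmbF (setB X) (setB Y) = embK X Y := by
  unfold EmbF embK
  apply le_antisymm
  · refine iSup_le fun f => ?_
    rw [inj_setB]
    exact le_iSup (fun R : K → K → B => injK R X Y) (fun a b => memB (opair (kchk B a) (kchk B b)) f)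
  · refine iSup_le fun R => ?_
    refine le_trans (le_of_eq ?_) (le_iSup (fun f => InjF (setB X) (setB Y) f) (relB R))
    change injK R X Y = InjF (setB X) (setB Y) (relB R)
    rw [inj_setB]
    refine congrArg (fun R => injK R X Y) ?_
    funext a b
    rw [memB_relB]

end Pool.Agent.H8MC
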