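import Pool.Agent.Lib.H8MC.Q2

/-!
# Q3: the values at canonical names, part 2
-/

set_option autoImplicit false

open Set Function

namespace Pool.Agent.H8MC

open Pool.Agent.H5Z Pool.Agent.H30C BSet Fml

variable {K : Type} [LinearOrder K] [WellFoundedLT K] {B : Type} [CompleteBooleanAlgebra B]

omit [WellFoundedLT K] [LinearOrder K] in
theorem q3a_ind (B : Type) [CompleteBooleanAlgebra B] (k : K) : ind B (univ : Set K) k = ⊤ := by
  unfold ind
  exact tvB_true (mem_univ k)

theorem q3a_sub_kchk (x : BSet B) (k : K) : SubF x (kchk B k) = SubF x (chk B (Iio k)) :=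
  congr_of_top (F := fun y => SubF x y) (extB_sub (extE_const x) extE_id) (kchk_chk k)

theorem q3a_emb_kchk (x : BSet B) (k : K) : EmbF x (kchk B k) = EmbF x (chk B (Iio k)) :=
  congr_of_top (F := fun y => EmbF x y) (extB_emb (extE_const x) extE_id) (kchk_chk k)

theorem q3a_ex_univ (F : BSet B → B) (hF : ExtB F) :
    (⨆ z, memB z (chk B (univ : Set K)) ⊓ F z) = ⨆ k : K, F (kchk B k) := by
  unfold chk
  rw [ex_setB _ F hF]
  refine iSup_congr fun k => ?_
  rw [q3a_ind, top_inf_eq]

theorem cb_setB (o : K) (X : K → B) : CbF (chk B (Iio o)) (chk B (univ : Set K)) (setB X) = cbK o X := by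
  unfold CbF cbK
  have h1 : (⨆ b, memB b (chk B (univ : Set K)) ⊓ SubF (setB X) b) = ⨆ b, subK X (ind B (Iio b)) := by
    rw [q3a_ex_univ (fun b => SubF (setB X) b) (extB_sub (extE_const _) extE_id)]
    refine iSup_congr fun k => ?_
    rw [q3a_sub_kchk]
    exact sub_setB X (ind B (Iio k))
  have h2 : EmbF (setB X) (chk B (Iio o)) = embK X (ind B (Iio o)) := emb_setB X _
  have h3 : (⨆ n, memB n (chk B (Iio o)) ⊓ EmbF (setB X) n) =
      ⨆ n, tvB B (n < o) ⊓ embK X (ind B (Iio n)) := by
    unfold chk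
    rw [ex_setB _ (fun n => EmbF (setB X) n) (extB_emb (extE_const _) extE_id)]
    refine iSup_congr fun k => ?_
    rw [q3a_emb_kchk]
    have : EmbF (setB X) (chk B (Iio k)) = embK X (ind B (Iio k)) := emb_setB X _
    rw [this]
    rfl
  rw [h1, h2, h3]

theorem q3a_mem_mono (S : Set K) (z : BSet B) : memB z (chk B S) ≤ memB z (chk B (univ : Set K)) := by
  change (⨆ k : K, ind B S k ⊓ eqB z (kchk B k)) ≤ ⨆ k : K, ind B (univ : Set K) k ⊓ eqB z (kchk B k)
  refine iSup_mono fun k => inf_le_inf_right _ ?_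
  rw [q3a_ind]
  exact le_top

theorem cb_sub (o : K) (x : BSet B) :
    CbF (chk B (Iio o)) (chk B (univ : Set K)) x ≤ SubF x (chk B (univ : Set K)) := by
  unfold CbF
  refine inf_le_left.trans ?_
  rw [q3a_ex_univ (fun b => SubF x b) (extB_sub (extE_const _) extE_id)]
  refine iSup_le fun k => ?_
  rw [q3a_sub_kchk]
  unfold SubF
  exact iInf_mono fun z => himp_le_himp_left (q3a_mem_mono _ z)

theorem q3a_eq (o : K) (x : BSet B) : CbF (chk B (Iio o)) (chk B (univ : Set K)) x ≤
    eqB x (setB (fun k : K => memB (kchk B k) x)) := (cb_sub o x).trans (canon x)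

theorem q3a_cb (o : K) (x : BSet B) : CbF (chk B (Iio o)) (chk B (univ : Set K)) x ≤
    cbK o (fun k : K => memB (kchk B k) x) := by
  have h := extB_cb (B := B) (extE_const (chk B (Iio o))) (extE_const (chk B (univ : Set K))) extE_id x
    (setB (fun k : K => memB (kchk B k) x))
  have h2 : CbF (chk B (Iio o)) (chk B (univ : Set K)) x ≤
      CbF (chk B (Iio o)) (chk B (univ : Set K)) (setB (fun k : K => memB (kchk B k) x)) :=
    le_trans (le_inf (q3a_eq o x) le_rfl) h
  rwa [cb_setB] at h2

theorem all_cb (o : K) (F : BSet B → B) (hF : ExtB F) :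
    (⨅ x, CbF (chk B (Iio o)) (chk B (univ : Set K)) x ⇨ F x) = ⨅ X : K → B, cbK o X ⇨ F (setB X) := by
  apply le_antisymm
  · refine le_iInf fun X => ?_
    refine (iInf_le _ (setB X)).trans ?_
    rw [cb_setB]
  · refine le_iInf fun x => ?_
    rw [le_himp_iff]
    have h1 : (⨅ X : K → B, cbK o X ⇨ F (setB X)) ⊓ CbF (chk B (Iio o)) (chk B (univ : Set K)) x ≤
        F (setB (fun k : K => memB (kchk B k) x)) := by
      refine (inf_le_inf (iInf_le _ (fun k : K => memB (kchk B k) x)) (q3a_cb o x)).trans ?_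
      exact himp_inf_le
    refine le_trans (le_inf ?_ h1) (hF (setB (fun k : K => memB (kchk B k) x)) x)
    rw [eqB_symm]
    exact inf_le_right.trans (q3a_eq o x)

theorem ex_cb (o : K) (F : BSet B → B) (hF : ExtB F) :
    (⨆ x, CbF (chk B (Iio o)) (chk B (univ : Set K)) x ⊓ F x) = ⨆ X : K → B, cbK o X ⊓ F (setB X) := by
  apply le_antisymm
  · refine iSup_le fun x => ?_
    refine le_iSup_of_le (fun k : K => memB (kchk B k) x) ?_
    refine le_inf (inf_le_left.trans (q3a_cb o x)) ?_
    refine le_trans (le_inf (inf_le_left.trans (q3a_eq o x)) inf_le_right) (hF x _)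
  · refine iSup_le fun X => ?_
    refine le_iSup_of_le (setB X) ?_
    rw [cb_setB]

theorem all_subset (F : BSet B → B) (hF : ExtB F) :
    (⨅ x, SubF x (chk B (univ : Set K)) ⇨ F x) = ⨅ X : K → B, F (setB X) := by
  apply le_antisymm
  · refine le_iInf fun X => ?_
    refine (iInf_le _ (setB X)).trans ?_
    have h : SubF (setB X) (chk B (univ : Set K)) = ⊤ := by
      have h1 : SubF (setB X) (chk B (univ : Set K)) = subK X (ind B (univ : Set K)) := sub_setB X _
      rw [h1, eq_top_iff]
      unfold subK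
      refine le_iInf fun k => ?_
      rw [q3a_ind, himp_top]
    rw [h, top_himp]
  · refine le_iInf fun x => ?_
    rw [le_himp_iff]
    have h1 : (⨅ X : K → B, F (setB X)) ⊓ SubF x (chk B (univ : Set K)) ≤
        F (setB (fun k : K => memB (kchk B k) x)) :=
      inf_le_left.trans (iInf_le _ (fun k : K => memB (kchk B k) x))
    refine le_trans (le_inf ?_ h1) (hF (setB (fun k : K => memB (kchk B k) x)) x)
    rw [eqB_symm]
    exact inf_le_right.trans (canon x)

end Pool.Agent.H8MC
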