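import Pool.Agent.Lib.H8MC.Q3A
import Pool.Agent.Lib.H8MC.Q2

/-!
# Q3: the values at canonical names, part 2 (M)

* `cb_setB`: `⨆ b, memB b (chk B univ) ⊓ SubF (setB X) b = ⨆ k, SubF (setB X) (kchk B k)` (`ex_setB`, `ind B univ k = ⊤`) `= ⨆ k, subK X (ind B (Iio k))` (`kchk_chk`, `congr_of_top`, `sub_setB`); the same with `EmbF` and `emb_setB`.
* `cb_sub`: `CbF w l x ≤ ⨆ k, SubF x (kchk B k)` and `SubF x (kchk B k) ≤ SubF x (chk B univ)`, because `SubF (kchk B k) (chk B univ) = ⊤`.
* `all_cb`: `≤` is clear (`iInf_le` at `setB X`). `≥`: for `x` let `X k = memB (kchk B k) x`; `CbF w l x ≤ eqB x (setB X)` (`cb_sub`, `canon`), so `CbF w l x ⊓ (CbF w l (setB X) ⇨ F (setB X)) ≤ F x` (extensionality of `CbF` and `F`).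
* `col_chk`: `all_cb`, `ex_setB`, `all_setB`, `eqB_kchk`.
* `full_chk`: first `⨅ A` over all names with `SubF A (chk B univ)` is the infimum over `A = setB A'` (as in `all_cb`, `canon`), `emb_setB` (`ind B univ = fun _ => ⊤`), `all_setB`; `⨆ x, CbF w l x ⊓ F x = ⨆ X, CbF w l (setB X) ⊓ F (setB X)` as in `all_cb`.
* `memB_colN`: `memB` of a pair in the name: `⨆ p, C p.1 p.2 ⊓ (eqB (setB X) (setB p.1) ⊓ eqB (kchk B g) (kchk B p.2))` (`eqB_opair`); `eqB (setB X) (setB Y) ≤ eqK X Y` (`memB_setB`, `memB_congr_right`); `≥`: take `p = (X, g)`.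
* `extK_mem`: `eqK X Y ≤ eqB (setB X) (setB Y)` (`all_setB`, as in `canon`).
-/

set_option autoImplicit false

open Set Function

namespace Pool.Agent.H8MC

open Pool.Agent.H5Z Pool.Agent.H30C BSet Fml

variable {K : Type} [LinearOrder K] [WellFoundedLT K] {B : Type} [CompleteBooleanAlgebra B]

theorem eq_setB (X Y : K → B) : eqB (setB X) (setB Y) = eqK X Y := by
  apply le_antisymm
  · refine le_iInf fun k => le_inf ?_ ?_
    · rw [le_himp_iff]
      have h1 := memB_congr_right (kchk B k) (setB X) (setB Y)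
      rwa [memB_setB, memB_setB] at h1
    · rw [le_himp_iff, eqB_symm]
      have h1 := memB_congr_right (kchk B k) (setB Y) (setB X)
      rwa [memB_setB, memB_setB] at h1
  · have h1 : ∀ i : K, eqK X Y ⊓ X i ≤ memB (kchk B i) (setB Y) := fun i => by
      rw [memB_setB, ← le_himp_iff]
      exact (iInf_le _ i).trans inf_le_left
    have h2 : ∀ i : K, eqK X Y ⊓ Y i ≤ memB (kchk B i) (setB X) := fun i => by
      rw [memB_setB, ← le_himp_iff]
      exact (iInf_le _ i).trans inf_le_right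
    exact le_eqB (setB X) (setB Y) (eqK X Y) h1 h2

theorem extK_mem (c : BSet B) : ExtK (fun (X : K → B) g => memB (opair (setB X) (kchk B g)) c) := by
  intro X Y g
  rw [← eq_setB]
  exact extB_opair_left (kchk B g) c (setB X) (setB Y)

theorem memB_colN (C : (K → B) → K → B) (hC : ExtK C) (X : K → B) (g : K) :
    memB (opair (setB X) (kchk B g)) (colN C) = C X g := by
  unfold colN
  rw [memB]
  apply le_antisymm
  · refine iSup_le fun p => ?_
    rw [eqB_opair, eqB_kchk]
    by_cases h : g = p.2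
    · rw [if_pos h, inf_top_eq, eqB_symm, eq_setB, inf_comm, h]
      exact hC p.1 X p.2
    · rw [if_neg h, inf_bot_eq, inf_bot_eq]
      exact bot_le
  · refine le_iSup_of_le (X, g) ?_
    rw [eqB_refl, inf_top_eq]

end Pool.Agent.H8MC
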