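import Pool.Agent.Lib.H8MC.KDefs
import Pool.Agent.Lib.H47Q.MCcc

/-!
# R1: the algebra of the Cohen poset (S/M)

`ccc_ro`: for `f : ι → RO P` with `f i ⊓ f j = ⊥` choose for every `i` with `f i ≠ ⊥` a condition `p i ∈ (f i).s` (`RO.eq_bot_iff'`). For `i ≠ j` the conditions are incompatible (`r ≤ p i, p j` would be in
`(f i ⊓ f j).s`, `RO.lower`, `RO.mem_inf`), in particular different; so `{p i}` is countable by `PCcc` and `i ↦ p i` is injective on `{i | f i ≠ ⊥}` (`Set.Countable.preimage_of_injOn` or `Set.countable_of_injective_of_countable_image`).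

`card_ro`: by `PCcc.exists_gen` the map `f ↦ RO.gen {p | ∃ i, f i = some p}` from `ℕ → Option P` to `RO P` is surjective; `#(ℕ → Option P) = #(Option P) ^ ℵ₀ ≤ μ ^ ℵ₀ = μ`
(`#(Option P) = #P + 1 ≤ μ`, `Cardinal.mk_le_of_surjective`).

`card_co`: `Co I` injects into `Finset I × Finset I`; `#(Finset I) = #I` for infinite `I` (`Cardinal.mk_finset_of_infinite`).
-/

set_option autoImplicit false

open Set Function Cardinal

namespace Pool.Agent.H8MC

open Pool.Agent.H5Z Pool.Agent.H30C Pool.Agent.H47Q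

theorem ccc_ro {P : Type} [Preorder P] (hP : PCcc P) : CccB (RO P) := by
  intro ι f hf
  rcases Set.eq_empty_or_nonempty {i | f i ≠ ⊥} with h0 | ⟨i0, hi0⟩
  · rw [h0]
    exact Set.countable_empty
  have hex : ∀ i, f i ≠ ⊥ → ∃ p, p ∈ (f i).s := by
    intro i hi
    by_contra hn
    push Not at hn
    exact hi ((RO.eq_bot_iff' _).2 hn)
  obtain ⟨p0, _⟩ := hex i0 hi0
  have hex' : ∀ i, ∃ p, f i ≠ ⊥ → p ∈ (f i).s := by
    intro i
    by_cases hi : f i = ⊥
    · exact ⟨p0, fun h => absurd hi h⟩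
    · obtain ⟨p, hp⟩ := hex i hi
      exact ⟨p, fun _ => hp⟩
  choose g hg using hex'
  have hinc : ∀ i j, f i ≠ ⊥ → f j ≠ ⊥ → i ≠ j → ¬ ∃ r : P, r ≤ g i ∧ r ≤ g j := by
    rintro i j hi hj hij ⟨r, h1, h2⟩
    have h3 : r ∈ (f i ⊓ f j).s :=
      (RO.mem_inf _ _ _).2 ⟨(f i).lower (hg i hi) h1, (f j).lower (hg j hj) h2⟩
    rw [hf i j hij] at h3
    exact (RO.mem_bot r).1 h3
  refine Set.countable_of_injective_of_countable_image (f := g) ?_ (hP _ ?_)
  · intro i hi j hj hij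
    by_contra hne
    exact hinc i j hi hj hne ⟨g i, le_rfl, hij.le⟩
  · rintro _ ⟨i, hi, rfl⟩ _ ⟨j, hj, rfl⟩ hne
    exact hinc i j hi hj fun h => hne (by rw [h])

end Pool.Agent.H8MC
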