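import Pool.Agent.Lib.H5Z.Defs

/-!
# The sentence (MP_1d9866_lc)

For a structure `(M, E)` the sentence `AnswerIn E` says, literally, that there are a Magidor cardinal `l`
and a singular cardinal `m` with `alpha_M(l) = m⁺`.
-/

set_option autoImplicit false

open Set Function

namespace Pool.Agent.H8MC

open Pool.Agent.H5Z

section Notions

variable {M : Type*} (E : M → M → Prop)

/-- `x ⊆ y` -/
def SubIn (x y : M) : Prop := ∀ z, E z x → E z y

/-- `x` is an ordinal: a transitive set of transitive sets. -/
def OrdIn (x : M) : Prop := (∀ y, E y x → SubIn E y x) ∧ ∀ y, E y x → ∀ z, E z y → SubIn E z y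

/-- There is an injective function from `x` to `y`: there is a set `f` such that the set of the pairs
`(a, b) ∈ f` with `a ∈ x`, `b ∈ y` is an injective function from `x` to `y`. -/
def EmbIn (x y : M) : Prop := ∃ f, (∀ a, E a x → ∃ b, E b y ∧ Rel E a b f) ∧
  ∀ a, E a x → ∀ a', E a' x → ∀ b, E b y → ∀ b', E b' y →
    Rel E a b f → Rel E a' b' f → (a = a' ↔ b = b')

/-- `x` is a countably infinite subset of the ordinal `l` which is bounded in `l` (`w` is the set of the
natural numbers): it is contained in an element of `l`, there is an injection from `x` to `w`, and there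
is no injection from `x` to a natural number. -/
def CbIn (w l x : M) : Prop :=
  (∃ b, E b l ∧ SubIn E x b) ∧ EmbIn E x w ∧ ¬ ∃ n, E n w ∧ EmbIn E x n

/-- `c` is a function from the set of the countably infinite bounded subsets of `l` to `a`: for each such
`x` there is exactly one `g ∈ a` with `(x, g) ∈ c` (the colour of `x`). -/
def ColIn (w l a c : M) : Prop := ∀ x, CbIn E w l x →
  ∃ g, E g a ∧ Rel E x g c ∧ ∀ g', E g' a → Rel E x g' c → g' = g

/-- `l → [l]^(ℵ₀-bd)_a`: for every colouring `c` of the countably infinite bounded subsets of `l` with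
colours in `a` there are a subset `A` of `l` of size `|l|` and a colour `g ∈ a` which is not the colour of
a countably infinite bounded subset of `l` contained in `A`. -/
def ArrowIn (w l a : M) : Prop := ∀ c, ColIn E w l a c → ∃ A, SubIn E A l ∧ EmbIn E l A ∧
  ∃ g, E g a ∧ ∀ x, CbIn E w l x → SubIn E x A → ¬ Rel E x g c

/-- `x` is a cardinal: an ordinal without injection to one of its elements. -/
def CardIn (x : M) : Prop := OrdIn E x ∧ ∀ y, E y x → ¬ EmbIn E x y

/-- `D` is a cofinal subset of the ordinal `x`. -/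
def CofIn (x D : M) : Prop := SubIn E D x ∧ ∀ a, E a x → ∃ b, E b D ∧ E a b

/-- There are (`w` is the set of the natural numbers) cardinals `l, m, s` such that
* `l` has a countable cofinal subset and `l → [l]^(ℵ₀-bd)_l`: `l` is a Magidor cardinal;
* `m` is an infinite cardinal with a cofinal subset of smaller cardinality: `m` is singular;
* `s = m⁺` is the successor cardinal of `m`, and `s ∈ l`;
* `l → [l]^(ℵ₀-bd)_s`, but not `l → [l]^(ℵ₀-bd)_a` for any nonempty ordinal `a ∈ s`. So `s` is the least
  ordinal `a ≥ 1` with `l → [l]^(ℵ₀-bd)_a`, i.e. `alpha_M(l) = s`. -/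
def AnswerIn : Prop := ∃ w l m s : M, IsOmega E w ∧
  (CardIn E l ∧ (∃ D, CofIn E l D ∧ EmbIn E D w) ∧ ArrowIn E w l l) ∧
  (CardIn E m ∧ E w m ∧ ∃ D, CofIn E m D ∧ ¬ EmbIn E m D) ∧
  (CardIn E s ∧ E m s ∧ (∀ y, E y s → EmbIn E y m) ∧ E s l) ∧
  (ArrowIn E w l s ∧ ∀ a, E a s → (∃ z, E z a) → ¬ ArrowIn E w l a)

end Notions

/-- `c` is full: every colour in `a` is the colour of a countably infinite bounded subset of `l` contained in
`A`, for each `A ⊆ l` of size `|l|`. -/
def FullIn {M : Type*} (E : M → M → Prop) (w l a c : M) : Prop := ∀ A, SubIn E A l → EmbIn E l A →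
  ∀ g, E g a → ∃ x, CbIn E w l x ∧ SubIn E x A ∧ Rel E x g c

theorem not_arrow {M : Type*} {E : M → M → Prop} {w l a c : M} (h : ColIn E w l a c) (h' : FullIn E w l a c) :
    ¬ ArrowIn E w l a := by
  intro h1
  obtain ⟨A, hA, hA', g, hg, h2⟩ := h1 c h
  obtain ⟨x, hx, hxA, hxg⟩ := h' A hA hA' g hg
  exact h2 x hx hxA hxg

end Pool.Agent.H8MC
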