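import Pool.Agent.Lib.H8MC.A1
import Pool.Agent.Lib.H8MC.A2

/-!
# U1: counting (S, S/M, M)

`card_supp`: the functions `Y : K → B` which are `⊥` outside the countable set `x` inject into `x → B`; `#(x → B) = #B ^ #x ≤ μ ^ ℵ₀ = μ`
(`Cardinal.power_le_power_left`, `Cardinal.power_le_power_right`; `μ ≠ 0`).

`col_disj`: `colK o S C ⊓ cbK o Y ≤ ⨆ g₀, tvB B (g₀ ∈ S) ⊓ (C Y g₀ ⊓ ⨅ g', ..)`; on the part of `g₀`: `C Y g ≤ tvB B (g = g₀)` and
`C Y g' ≤ tvB B (g' = g₀)`, so it is `⊥` if `g ≠ g'`.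

`val_bdd`: for each `Y` the set of the `g ∈ S` with `C Y g ⊓ (p ⊓ cbK o Y) ≠ ⊥`, `p = colK o S C`, is countable (`ccc_count` for the family
indexed by the elements of `S`, `col_disj`). The set `V` below is the union of these sets over the `Y` which are `⊥` outside `x`, so
`#V ≤ μ * ℵ₀ = μ`, and `hs` gives the bound.
-/

set_option autoImplicit false

open Set Function Cardinal

namespace Pool.Agent.H8MC

variable {K B : Type} [CompleteBooleanAlgebra B]

theorem card_supp {mu : Cardinal.{0}} (hmu : mu ^ ℵ₀ = mu) (h0 : ℵ₀ ≤ mu) (hB : #B ≤ mu) {x : Set K} (hx : x.Countable) :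
    #{Y : K → B // ∀ k, k ∉ x → Y k = ⊥} ≤ mu := by
  have h1 : #{Y : K → B // ∀ k, k ∉ x → Y k = ⊥} ≤ #(x → B) := by
    refine Cardinal.mk_le_of_injective (f := fun Y k => Y.1 k.1) ?_
    intro Y Z h
    apply Subtype.ext
    funext k
    by_cases hk : k ∈ x
    · exact congrFun h ⟨k, hk⟩
    · rw [Y.2 k hk, Z.2 k hk]
  have h2 : #(x → B) = #B ^ #x := by
    rw [Cardinal.power_def]
  have h3 : #x ≤ ℵ₀ := Cardinal.mk_le_aleph0_iff.2 hx.to_subtype
  have hmu0 : mu ≠ 0 := by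
    rintro rfl
    exact absurd h0 (not_le_of_gt Cardinal.aleph0_pos)
  calc #{Y : K → B // ∀ k, k ∉ x → Y k = ⊥} ≤ #B ^ #x := h1.trans h2.le
    _ ≤ mu ^ #x := Cardinal.power_le_power_right hB
    _ ≤ mu ^ ℵ₀ := Cardinal.power_le_power_left hmu0 h3
    _ = mu := hmu

variable [LinearOrder K]

end Pool.Agent.H8MC
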