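import Mathlib

/-!
# V1: a colouring of the infinite subsets of `ℕ` (M, only Mathlib)

Let `I` be the set of all triples `(F, a, t)`, `F` a finite set, `a` an infinite set, `t : R`. `#I ≤ 𝔠`. Choose a well-order of `I` whose initial segments are smaller than `𝔠`
(an injection of `I` to `𝔠.ord.ToType`, `Cardinal.mk_Iio_ord_toType`). By well-founded recursion on `i = (F, a, t)` choose an infinite `b_i ⊆ a` such that `F ∪ b_i` is different
from all `F_j ∪ b_j`, `j < i`: there are `𝔠` infinite subsets of an infinite set `a` (`a` contains `𝔠` many: e.g. the sets `{x_n | n ∈ c} ∪ {x_(2n)}`.. or: the powerset of `a` has `𝔠` elements and only countably many are finite),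
and `b ↦ F ∪ b` is finite-to-one (`b` is determined by `F ∪ b` and `b ∩ F`), so there are `𝔠` many different sets `F ∪ b`, and fewer than `𝔠` are excluded.
Let `φ (F_i ∪ b_i) = t_i`, arbitrary on the other sets.
-/

set_option autoImplicit false

open Set Function Cardinal

namespace Pool.Agent.H8MC

/-- an injective choice function for a family of large sets -/
theorem v1_choice {I X : Type} (A : I → Set X) (hA : ∀ i, #I ≤ #(A i)) :
    ∃ f : I → X, Function.Injective f ∧ ∀ i, f i ∈ A i := by
  obtain ⟨r, hr, he⟩ := Cardinal.ord_eq I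
  have hseg : ∀ i, #{j // r j i} < #I := fun i => by
    have h1 := Ordinal.typein_lt_type r i
    rw [← he, Cardinal.lt_ord] at h1
    exact h1
  have hex : ∀ (i : I) (g : ∀ j, r j i → X), ∃ x ∈ A i, ∀ j (hj : r j i), g j hj ≠ x := by
    intro i g
    by_contra hne
    push_neg at hne
    have h2 : A i ⊆ Set.range (fun j : {j // r j i} => g j.1 j.2) := by
      intro x hx
      obtain ⟨j, hj, he⟩ := hne x hx
      exact ⟨⟨j, hj⟩, he⟩
    have h3 : #(A i) ≤ #{j // r j i} := (Cardinal.mk_le_mk_of_subset h2).trans Cardinal.mk_range_le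
    exact absurd ((hA i).trans h3) (not_le_of_gt (hseg i))
  have hwf : WellFounded r := hr.wf
  let f : I → X := hwf.fix fun i g => Classical.choose (hex i g)
  have hf : ∀ i, f i = Classical.choose (hex i fun j _ => f j) := fun i => hwf.fix_eq _ i
  have hf1 : ∀ i, f i ∈ A i := fun i => by
    rw [hf i]
    exact (Classical.choose_spec (hex i fun j _ => f j)).1
  have hf2 : ∀ i j, r j i → f j ≠ f i := fun i j hj => by
    rw [hf i]
    exact (Classical.choose_spec (hex i fun j _ => f j)).2 j hj
  refine ⟨f, fun i j hij => ?_, hf1⟩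
  rcases hr.trichotomous i j with h
  by_contra hne
  by_cases h1 : r i j
  · exact hf2 j i h1 hij
  · by_cases h2 : r j i
    · exact hf2 i j h2 hij.symm
    · exact hne (h h1 h2)

/-- an infinite set has continuum many infinite subsets, also up to a finite set -/
theorem v1_large {F a : Set ℕ} (hF : F.Finite) (ha : a.Infinite) :
    𝔠 ≤ #{s : Set ℕ | ∃ b ⊆ a, b.Infinite ∧ F ∪ b = s} := by
  have h1 : (a \ F).Infinite := ha.diff hF
  obtain ⟨x, hx, hxm⟩ : ∃ x : ℕ → ℕ, Function.Injective x ∧ ∀ n, x n ∈ a \ F := by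
    have e := h1.natEmbedding
    exact ⟨fun n => (e n).1, fun m n h => e.injective (Subtype.ext h), fun n => (e n).2⟩
  let b : Set ℕ → Set ℕ := fun c => {m | ∃ n, (n % 2 = 0 ∨ n / 2 ∈ c) ∧ x n = m}
  have hb1 : ∀ c, b c ⊆ a := by
    rintro c m ⟨n, -, rfl⟩
    exact (hxm n).1
  have hb2 : ∀ c, (b c).Infinite := by
    intro c
    refine Set.infinite_of_injective_forall_mem (f := fun n => x (2 * n)) ?_ ?_
    · intro m n h
      have := hx h
      omega
    · intro n
      exact ⟨2 * n, Or.inl (by omega), rfl⟩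
  have hinj : Function.Injective (fun c : Set ℕ =>
      (⟨F ∪ b c, b c, hb1 c, hb2 c, rfl⟩ : {s : Set ℕ | ∃ b ⊆ a, b.Infinite ∧ F ∪ b = s})) := by
    intro c c' h
    have h2 : F ∪ b c = F ∪ b c' := congrArg Subtype.val h
    have key : ∀ c, ∀ n, n ∈ c ↔ x (2 * n + 1) ∈ F ∪ b c := by
      intro c n
      constructor
      · intro hn
        right
        exact ⟨2 * n + 1, Or.inr (by rw [show (2 * n + 1) / 2 = n by omega]; exact hn), rfl⟩
      · rintro (hn | ⟨m, hm, hmx⟩)
        · exact absurd hn (hxm _).2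
        · have := hx hmx
          subst this
          rcases hm with hm | hm
          · omega
          · rw [show (2 * n + 1) / 2 = n by omega] at hm
            exact hm
    ext n
    rw [key c n, h2, ← key c' n]
  have h3 := Cardinal.mk_le_of_injective hinj
  rw [Cardinal.mk_set, Cardinal.mk_nat, Cardinal.two_power_aleph0] at h3
  exact h3

theorem exists_phi (R : Type) [Nonempty R] (hR : #R ≤ 𝔠) :
    ∃ φ : Set ℕ → R, ∀ (F : Set ℕ) (a : Set ℕ) (t : R), F.Finite → a.Infinite →
      ∃ b ⊆ a, b.Infinite ∧ φ (F ∪ b) = t := by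
  classical
  let I : Type := {p : Set ℕ × Set ℕ × R // p.1.Finite ∧ p.2.1.Infinite}
  have hI : #I ≤ 𝔠 := by
    refine (Cardinal.mk_subtype_le _).trans ?_
    rw [Cardinal.mk_prod, Cardinal.mk_prod]
    simp only [Cardinal.lift_id, Cardinal.mk_set, Cardinal.mk_nat, Cardinal.two_power_aleph0]
    calc 𝔠 * (𝔠 * #R) ≤ 𝔠 * (𝔠 * 𝔠) := by gcongr
      _ = 𝔠 := by rw [Cardinal.continuum_mul_self, Cardinal.continuum_mul_self]
  let A : I → Set (Set ℕ) := fun i => {s | ∃ b ⊆ i.1.2.1, b.Infinite ∧ i.1.1 ∪ b = s}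
  obtain ⟨f, hf, hfA⟩ := v1_choice A (fun i => hI.trans (v1_large i.2.1 i.2.2))
  refine ⟨fun s => if h : ∃ i, f i = s then (Classical.choose h).1.2.2 else Classical.arbitrary R, ?_⟩
  intro F a t hF ha
  let i : I := ⟨(F, a, t), hF, ha⟩
  obtain ⟨b, hb, hb', he⟩ := hfA i
  refine ⟨b, hb, hb', ?_⟩
  have h : ∃ j, f j = F ∪ b := ⟨i, he.symm⟩
  have h2 : Classical.choose h = i := hf ((Classical.choose_spec h).trans he)
  simp only [dif_pos h, h2]
  rfl

end Pool.Agent.H8MC
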