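import Mathlib

/-!
# V3: an omega-Jonsson function (Erdos-Hajnal; proof of Galvin and Prikry) (M, S/M, only Mathlib)

`exists_G`: `Σ` is a well-order in which all initial segments are smaller than `#Σ ≥ ℵ₀`. For sequences `y, y' : ℕ → Σ` let `y ~ y'` iff `∃ m n, ∀ k, y (m + k) = y' (n + k)`, an equivalence relation; let `r y` be a representative of the class of `y`
(`Quotient.out`). Let `G y = r y p` if there is `p` with `y = fun k => r y (p + 1 + k)` (choose `p`), arbitrary otherwise. Claim: there is `A` with `#A = #Σ` such that for all `B' ⊆ A` with `#B' = #Σ` and all `a ∈ A` there is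
`y : ℕ → Σ` with values in `B'` and `G y = a`. Suppose not. Then there are sets `A_0 = Σ ⊇ A_1 ⊇ ...` of size `#Σ` and `a_n ∈ A_n` such that `a_n ≠ G y` for all sequences `y` in `A_{n+1}`, and `a_n < x` for all `x ∈ A_{n+1}`
(given `A_n` take `B' ⊆ A_n` and `a_n` by assumption and let `A_{n+1} = B' \ Iic a_n`, which has the same cardinality, `Cardinal.mk_compl..`/`Cardinal.add_lt_of_lt`). The sequence `a` is strictly increasing. Let `ρ = r a`, so
`a (m + k) = ρ (n + k)` for all `k`. `y k = a (m + 1 + k)` has values in `A_{m+1}`, `y ~ a` so `r y = ρ`, and `y k = ρ (n + 1 + k)`. The `p` chosen in the definition of `G y` is `n`: `ρ (p + 1 + k) = ρ (n + 1 + k)` for all `k`, and `ρ` is injective on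
`[n, ∞)`; take `k ≥ n`. So `G y = ρ n = a m`, a contradiction to the choice of `a m`.

`exists_jonsson`: for an infinite type `S` take a well-order of type `(#S).ord` (transfer to `(#S).ord.ToType`, `Cardinal.mk_Iio_ord_toType`), `A`, `G` as above and a bijection `h : A ≃ S` (`Cardinal.eq`); let `f y = h (G (fun k => h⁻¹ (y k)))` if
the value of `G` is in `A`, arbitrary otherwise.
-/

set_option autoImplicit false

open Set Function Cardinal

namespace Pool.Agent.H8MC

/-- Two sequences are equivalent if they have a common end part. -/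
def v3Setoid (S : Type) : Setoid (ℕ → S) where
  r y y' := ∃ m n, ∀ k, y (m + k) = y' (n + k)
  iseqv := by
    refine ⟨fun y => ⟨0, 0, fun k => rfl⟩, ?_, ?_⟩
    · rintro y y' ⟨m, n, h⟩
      exact ⟨n, m, fun k => (h k).symm⟩
    · rintro y y' y'' ⟨m, n, h⟩ ⟨m', n', h'⟩
      refine ⟨m + m', n' + n, fun k => ?_⟩
      have h1 := h (m' + k)
      have h2 := h' (n + k)
      rw [show m + m' + k = m + (m' + k) by ring, h1, show n + (m' + k) = m' + (n + k) by ring, h2,
        show n' + (n + k) = n' + n + k by ring]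

/-- The representative of a sequence. -/
noncomputable def v3rep {S : Type} (y : ℕ → S) : ℕ → S :=
  (Quotient.mk (v3Setoid S) y).out

theorem v3rep_rel {S : Type} (y : ℕ → S) : ∃ m n, ∀ k, v3rep y (m + k) = y (n + k) :=
  Quotient.exact (s := v3Setoid S) (Quotient.out_eq (Quotient.mk (v3Setoid S) y))

theorem v3rep_eq {S : Type} {y y' : ℕ → S} (h : ∃ m n, ∀ k, y (m + k) = y' (n + k)) : v3rep y = v3rep y' := by
  unfold v3rep
  rw [Quotient.sound (s := v3Setoid S) h]

open Classical in
/-- The function `G`. -/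
noncomputable def v3G {S : Type} (y : ℕ → S) : S :=
  if h : ∃ p, ∀ k, y k = v3rep y (p + 1 + k) then v3rep y (Classical.choose h) else y 0

theorem v3_diff {S : Type} [LinearOrder S] (h0 : ℵ₀ ≤ #S) {B : Set S} (hB : #B = #S) (a : S) (ha : #(Iic a) < #S) :
    #(B \ Iic a : Set S) = #S := by
  refine le_antisymm (mk_set_le _) ?_
  by_contra hlt
  rw [not_le] at hlt
  have h1 : #B ≤ #(B \ Iic a : Set S) + #(Iic a) := by
    refine le_trans (mk_le_mk_of_subset ?_) (mk_union_le _ _)
    intro x hx
    by_cases h : x ∈ Iic a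
    · exact Or.inr h
    · exact Or.inl ⟨hx, h⟩
  rw [hB] at h1
  exact absurd (lt_of_le_of_lt h1 (add_lt_of_lt h0 hlt ha)) (lt_irrefl _)

theorem exists_G {S : Type} [LinearOrder S] [WellFoundedLT S] (h0 : ℵ₀ ≤ #S) (hini : ∀ k : S, #(Iic k) < #S) :
    ∃ (G : (ℕ → S) → S) (A : Set S), #A = #S ∧ ∀ B' ⊆ A, #B' = #S → ∀ a ∈ A, ∃ y : ℕ → S, (∀ n, y n ∈ B') ∧ G y = a := by
  by_contra hcon
  push Not at hcon
  haveI : Nonempty S := mk_ne_zero_iff.1 (aleph0_pos.trans_le h0).ne'
  have hA := hcon v3G
  choose! B hBs hBc a ha hy using hA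
  let nxt : Set S → Set S := fun A => B A \ Iic (a A)
  let A : ℕ → Set S := fun n => nxt^[n] univ
  have hAs : ∀ n, A (n + 1) = B (A n) \ Iic (a (A n)) := fun n => Function.iterate_succ_apply' nxt n univ
  have hAc : ∀ n, #(A n) = #S := by
    intro n
    induction n with
    | zero => exact mk_univ
    | succ n ih =>
      rw [hAs]
      exact v3_diff h0 (hBc _ ih) _ (hini _)
  have hsub : ∀ n, A (n + 1) ⊆ A n := fun n => by
    rw [hAs]
    exact fun x hx => hBs _ (hAc n) hx.1
  have hanti : Antitone A := antitone_nat_of_succ_le hsub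
  have hlt : ∀ n, ∀ x ∈ A (n + 1), a (A n) < x := by
    intro n x hx
    rw [hAs] at hx
    exact not_le.1 hx.2
  have hmem : ∀ n, a (A n) ∈ A n := fun n => ha _ (hAc n)
  have hmono : StrictMono fun n => a (A n) := strictMono_nat_of_lt_succ fun n => hlt n _ (hmem (n + 1))
  obtain ⟨n, m, hρ⟩ := v3rep_rel fun n => a (A n)
  set ρ := v3rep fun n => a (A n) with hρdef
  let y : ℕ → S := fun k => a (A (m + 1 + k))
  have hry : v3rep y = ρ := by
    rw [hρdef]
    refine v3rep_eq ⟨0, m + 1, fun k => ?_⟩
    show a (A (m + 1 + (0 + k))) = a (A (m + 1 + k))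
    rw [zero_add]
  have hcond : ∀ k, y k = v3rep y (n + 1 + k) := by
    intro k
    rw [hry, add_assoc, hρ (1 + k)]
    show a (A (m + 1 + k)) = a (A (m + (1 + k)))
    rw [add_assoc]
  have hex : ∃ p, ∀ k, y k = v3rep y (p + 1 + k) := ⟨n, hcond⟩
  have hGy : v3G y = v3rep y (Classical.choose hex) := by
    unfold v3G
    rw [dif_pos hex]
  have hp := Classical.choose_spec hex
  set p := Classical.choose hex with hpdef
  have hpn : p = n := by
    have h1 : v3rep y (p + 1 + n) = v3rep y (n + 1 + n) := by rw [← hp n, hcond n]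
    rw [hry, show p + 1 + n = n + (p + 1) by ring, show n + 1 + n = n + (n + 1) by ring, hρ, hρ] at h1
    have h2 := hmono.injective h1
    omega
  have hval : v3G y = a (A m) := by
    rw [hGy, hpn, hry]
    have := hρ 0
    simpa using this
  refine hy (A m) (hAc m) y (fun k => ?_) hval
  have h3 : y k ∈ A (m + 1) := hanti (Nat.le_add_right _ _) (hmem (m + 1 + k))
  rw [hAs] at h3
  exact h3.1

end Pool.Agent.H8MC
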