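import Pool.Agent.Lib.H8MC.D2

/-!
# V4: sets of size `λ` (S/M, M)

`K` has countable cofinality (`l`), and every element has fewer than `#K` predecessors.

* `fullseq`: `A` has size `#K > ℵ₀`, `c : K`. There are a strictly increasing sequence `z` in `A` with `c ≤ z n`, and `D` with `z n < D` for all `n`, `D` the least strict upper bound: the set `A' = A \ Iio c` is uncountable (`#(Iio c) < #K`);
  `A' = ⋃ n, A' ∩ Iio (l n)`, so `A' ∩ Iio (l n)` is uncountable, in particular infinite, for some `n`. The infinite subset `A'' = A' ∩ Iio (l n)` of a well-order contains a strictly increasing sequence (`z n` = the least element of `A''` above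
  `z (n-1)`.. : or `Nat.orderEmbeddingOfSet`-like: there is no strictly decreasing sequence, `exists_increasing_or_nonincreasing_subseq`; or recursion: if every element of the
  well-ordered set `A''` had only finitely many.. simplest: `WellFounded.min` of `A'' \ {z 0, .., z (n-1)}`, which is infinite, gives a strictly increasing sequence). `D` = the least element of `{d | ∀ n, z n < d}` (`l n` is in it).
* `bdd_of_count`: if a set of colours below `s` is a countable union of sets bounded below `s` then it is bounded: `hs` for the set of the bounds (`#.. ≤ ℵ₀ ≤ μ`).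
-/

set_option autoImplicit false

open Set Function Cardinal

namespace Pool.Agent.H8MC

variable {K : Type} [LinearOrder K] [WellFoundedLT K]

omit [WellFoundedLT K] in
theorem bdd_of_count {s : K} {mu : Cardinal.{0}} (h0 : ℵ₀ ≤ mu) (hs : ∀ T : Set K, T ⊆ Iio s → #T ≤ mu → ∃ δ < s, ∀ g ∈ T, g < δ)
    (T : ℕ → Set K) (hT : ∀ n, ∃ δ < s, ∀ g ∈ T n, g < δ) : ∃ δ < s, ∀ n, ∀ g ∈ T n, g < δ := by
  choose δ hδ hδ' using hT
  obtain ⟨e, he, he'⟩ := hs (Set.range δ) (by rintro _ ⟨n, rfl⟩; exact hδ n)
    (Cardinal.mk_range_le.trans (by simpa using h0))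
  exact ⟨e, he, fun n g hg => (hδ' n g hg).trans (he' _ ⟨n, rfl⟩)⟩

end Pool.Agent.H8MC
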